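import Pool.Agent.Lib.MP_973905_nt.K8.Stmts

/-! Module N6 (K8): our data are admissible. -/

namespace Pool.Agent.Lib.MP_973905_nt
namespace K8

open MeasureTheory ProbabilityTheory Complex Filter Topology K1 K4 K5

namespace Adm8Aux

theorem e_lb : (2.7182818283 : ℝ) < Real.exp 1 := Real.exp_one_gt_d9

theorem exp_neg_nat (i : ℕ) : Real.exp (-(i : ℝ)) = Real.exp (-1) ^ i := by
  rw [← Real.exp_nat_mul]
  congr 1
  ring

theorem x_pos : 0 < Real.exp (-1 : ℝ) := Real.exp_pos _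

theorem x_mul : Real.exp (-1 : ℝ) * Real.exp 1 = 1 := by
  rw [← Real.exp_add]
  norm_num

theorem x_lt : Real.exp (-1 : ℝ) < 1 := by
  rw [Real.exp_lt_one_iff]
  norm_num

theorem x_norm : ‖Real.exp (-1 : ℝ)‖ < 1 := by
  rw [Real.norm_of_nonneg x_pos.le]
  exact x_lt

theorem sum0 (N : ℕ) : ∑ i ∈ Finset.range N, Real.exp (-(i : ℝ)) ≤ 1582 / 1000 := by
  have h1 : HasSum (fun n : ℕ => Real.exp (-1 : ℝ) ^ n) (1 - Real.exp (-1 : ℝ))⁻¹ :=
    hasSum_geometric_of_norm_lt_one x_norm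
  have h2 : ∑ i ∈ Finset.range N, Real.exp (-1 : ℝ) ^ i ≤ (1 - Real.exp (-1 : ℝ))⁻¹ :=
    sum_le_hasSum _ (fun i _ => pow_nonneg x_pos.le i) h1
  have h3 : ∑ i ∈ Finset.range N, Real.exp (-(i : ℝ)) =
      ∑ i ∈ Finset.range N, Real.exp (-1 : ℝ) ^ i :=
    Finset.sum_congr rfl fun i _ => exp_neg_nat i
  rw [h3]
  refine h2.trans ?_
  have h4 : 0 < 1 - Real.exp (-1 : ℝ) := by linarith [x_lt]
  rw [inv_le_comm₀ h4 (by norm_num)]
  have h5 := x_mul
  have h6 := e_lb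
  have h7 := x_pos
  nlinarith

theorem sum1 (N : ℕ) : ∑ i ∈ Finset.range N, (i : ℝ) * Real.exp (-(i : ℝ)) ≤ 921 / 1000 := by
  have h1 : HasSum (fun n : ℕ => (n : ℝ) * Real.exp (-1 : ℝ) ^ n)
      (Real.exp (-1 : ℝ) / (1 - Real.exp (-1 : ℝ)) ^ 2) :=
    hasSum_coe_mul_geometric_of_norm_lt_one x_norm
  have h2 : ∑ i ∈ Finset.range N, (i : ℝ) * Real.exp (-1 : ℝ) ^ i ≤
      Real.exp (-1 : ℝ) / (1 - Real.exp (-1 : ℝ)) ^ 2 :=
    sum_le_hasSum _ (fun i _ => mul_nonneg (Nat.cast_nonneg i) (pow_nonneg x_pos.le i)) h1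
  have h3 : ∑ i ∈ Finset.range N, (i : ℝ) * Real.exp (-(i : ℝ)) =
      ∑ i ∈ Finset.range N, (i : ℝ) * Real.exp (-1 : ℝ) ^ i :=
    Finset.sum_congr rfl fun i _ => by rw [exp_neg_nat i]
  rw [h3]
  refine h2.trans ?_
  have h4 : 0 < 1 - Real.exp (-1 : ℝ) := by linarith [x_lt]
  rw [div_le_iff₀ (by positivity)]
  -- x < 0.36788
  have h6 := e_lb
  have h7 := x_pos
  have h8 : Real.exp (-1 : ℝ) ≤ 36788 / 100000 := by
    have h5 := x_mul
    by_contra h9
    push Not at h9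
    nlinarith
  nlinarith

variable {κ : ℝ}

theorem d0_ge (κ : ℝ) : 3 * (κ * (1 + κ)) ≤ d0 κ := Nat.le_ceil _

theorem d0_pos (h0 : 0 < κ) : (1 : ℝ) ≤ d0 κ := by
  have h : 0 < d0 κ := Nat.ceil_pos.2 (by positivity)
  exact_mod_cast h

theorem d0_le (h0 : 0 < κ) (h1 : κ < 1) : (d0 κ : ℝ) ≤ 6 := by
  have h : d0 κ ≤ 6 := Nat.ceil_le.2 (by push_cast; nlinarith)
  exact_mod_cast h

theorem den_pos (h0 : 0 < κ) :
    0 < (1 + κ) * (1582 / 1000 * (d0 κ : ℝ) + 921 / 1000) + 1582 / 1000 * κ := by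
  have := d0_pos h0
  positivity

theorem th_pos (h0 : 0 < κ) : 0 < th κ := by
  unfold th
  exact div_pos (by positivity) (den_pos h0)

theorem th_mul (h0 : 0 < κ) :
    th κ * ((1 + κ) * (1582 / 1000 * (d0 κ : ℝ) + 921 / 1000) + 1582 / 1000 * κ) =
      93 / 100 * κ := by
  unfold th
  exact div_mul_cancel₀ _ (den_pos h0).ne'

theorem th_le (h0 : 0 < κ) (h1 : κ < 1) : th κ ≤ 19 / 100 := by
  unfold th
  rw [div_le_iff₀ (den_pos h0)]
  have h2 := d0_pos h0
  have h3 : (1 + κ) * (2503 / 1000) ≤ (1 + κ) * (1582 / 1000 * (d0 κ : ℝ) + 921 / 1000) :=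
    mul_le_mul_of_nonneg_left (by linarith) (by linarith)
  nlinarith

theorem th_A (h0 : 0 < κ) (h1 : κ < 1) :
    th κ * (1582 / 1000 * (d0 κ : ℝ) + 921 / 1000) ≤ 44 / 100 := by
  have h2 := d0_pos h0
  have h3 := d0_le h0 h1
  have hd := den_pos h0
  unfold th
  rw [div_mul_eq_mul_div, div_le_iff₀ hd]
  rcases le_or_gt (49 / 100 * κ - 44 / 100) 0 with h | h
  · have h4 : (49 / 100 * κ - 44 / 100) * (1582 / 1000 * (d0 κ : ℝ) + 921 / 1000) ≤ 0 :=
      mul_nonpos_of_nonpos_of_nonneg h (by positivity)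
    nlinarith
  · have h4 : (49 / 100 * κ - 44 / 100) * (1582 / 1000 * (d0 κ : ℝ) + 921 / 1000) ≤
        (49 / 100 * κ - 44 / 100) * (10413 / 1000) :=
      mul_le_mul_of_nonneg_left (by linarith) h.le
    nlinarith

end Adm8Aux

open Adm8Aux in
/-- Our data are admissible. -/
theorem stAdm8 (hA : StAh) : StAdm8 := by
  intro κ h0 h1
  have hth := th_pos h0
  obtain ⟨M₀, hM₀⟩ := exists_nat_ge (14 - Real.log (th κ))
  refine ⟨M₀, fun M hM => ?_⟩
  have hMr : (M₀ : ℝ) ≤ M := by exact_mod_cast hM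
  have hx : 14 ≤ (M : ℝ) + Real.log (th κ) := by linarith
  set N : ℕ := Nt κ M with hNdef
  have hN1 : (N : ℝ) ≤ (M : ℝ) + Real.log (th κ) := Nat.floor_le (by linarith)
  have hN2 : (M : ℝ) + Real.log (th κ) < N + 1 := Nat.lt_floor_add_one _
  have hN3 : (13 : ℝ) < N := by linarith
  have hN4 : 13 < N := by exact_mod_cast hN3
  -- the ends
  have hte : ∀ i, i < N → te8 κ M i = th κ * Real.exp (-(i : ℝ)) := fun i hi => if_pos hi
  have hteN : te8 κ M N = Real.exp (-(M : ℝ)) := if_neg (lt_irrefl _)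
  have hte0 : te8 κ M 0 = th κ := by
    rw [hte 0 (by omega), Nat.cast_zero, neg_zero, Real.exp_zero, mul_one]
  have htpos : ∀ i, 0 < te8 κ M i := by
    intro i
    unfold te8
    split_ifs
    · positivity
    · positivity
  have hV1 : ∀ i, i + 1 < N → Real.log (te8 κ M i / te8 κ M (i + 1)) = 1 := by
    intro i hi
    rw [hte i (by omega), hte (i + 1) hi, mul_div_mul_left _ _ hth.ne', ← Real.exp_sub,
      Real.log_exp]
    push_cast
    ring
  have hV2 : Real.log (te8 κ M (N - 1) / te8 κ M (N - 1 + 1)) =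
      Real.log (th κ) + M - N + 1 := by
    have h2 : N - 1 + 1 = N := by omega
    rw [h2, hte (N - 1) (by omega), hteN, Real.log_div (by positivity) (by positivity),
      Real.log_mul hth.ne' (by positivity), Real.log_exp, Real.log_exp,
      Nat.cast_sub (by omega), Nat.cast_one]
    ring
  have hVb : ∀ i, i < N → 1 ≤ Real.log (te8 κ M i / te8 κ M (i + 1)) ∧
      Real.log (te8 κ M i / te8 κ M (i + 1)) ≤ 2 ∧
      3 * (κ * (1 + κ) * Real.log (te8 κ M i / te8 κ M (i + 1))) ≤ ((d0 κ + i : ℕ) : ℝ) := by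
    intro i hi
    have hd := d0_ge κ
    rcases Nat.lt_or_ge (i + 1) N with h | h
    · rw [hV1 i h]
      refine ⟨le_rfl, by norm_num, ?_⟩
      push_cast
      have h3 : (0 : ℝ) ≤ i := Nat.cast_nonneg i
      linarith
    · have hi' : i = N - 1 := by omega
      subst hi'
      rw [hV2]
      refine ⟨by linarith, by linarith, ?_⟩
      have h3 : Real.log (th κ) + M - N + 1 ≤ 2 := by linarith
      have h4 : κ * (1 + κ) ≤ 2 := by nlinarith
      have h5 : 0 ≤ κ * (1 + κ) := by positivity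
      have h6 : κ * (1 + κ) * (Real.log (th κ) + M - N + 1) ≤ 2 * 2 :=
        mul_le_mul h4 h3 (by linarith) (by norm_num)
      have h7 : (12 : ℕ) ≤ d0 κ + (N - 1) := by omega
      have h8 : (12 : ℝ) ≤ ((d0 κ + (N - 1) : ℕ) : ℝ) := by exact_mod_cast h7
      linarith
  have hdec : ∀ i, i < N → te8 κ M (i + 1) < te8 κ M i := by
    intro i hi
    have h2 := (hVb i hi).1
    have h3 : 0 < te8 κ M i / te8 κ M (i + 1) := div_pos (htpos _) (htpos _)
    have h4 : Real.exp 1 ≤ te8 κ M i / te8 κ M (i + 1) := by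
      rw [← Real.exp_log h3]
      exact Real.exp_le_exp.2 h2
    have h5 : 1 < te8 κ M i / te8 κ M (i + 1) := by linarith [e_lb]
    rwa [lt_div_iff₀ (htpos _), one_mul] at h5
  have hDpos : ∀ i, (1 : ℝ) ≤ ((d0 κ + i : ℕ) : ℝ) := by
    intro i
    push_cast
    have h3 : (0 : ℝ) ≤ i := Nat.cast_nonneg i
    linarith [d0_pos h0]
  have hDge : ∀ i, 3 * (κ * (1 + κ)) ≤ ((d0 κ + i : ℕ) : ℝ) := by
    intro i
    push_cast
    have h3 : (0 : ℝ) ≤ i := Nat.cast_nonneg i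
    linarith [d0_ge κ]
  -- the derivative term
  have hrho : rho8 (cfg8 κ M) ≤ 2 * κ * th κ := by
    have h2 : rho8 (cfg8 κ M) ≤
        ∑ i ∈ Finset.range N, (te8 κ M i - te8 κ M (i + 1)) * (2 * κ) := by
      unfold rho8
      refine Finset.sum_le_sum fun i hi => ?_
      have hi' : i < N := Finset.mem_range.1 hi
      obtain ⟨hv1, hv2, hv3⟩ := hVb i hi'
      obtain ⟨ha, _, hb⟩ := hA κ (Real.log (te8 κ M i / te8 κ M (i + 1))) (d0 κ + i) h0 h1
        (by exact_mod_cast hDpos i) hv1 hv2 hv3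
      refine mul_le_mul_of_nonneg_left ?_ (sub_nonneg.2 (hdec i hi').le)
      have hm : 0 < (((d0 κ + i : ℕ) : ℝ) / κ) ^ (2 * (d0 κ + i)) := by
        have := hDpos i
        positivity
      have hpos : 0 < LG (d0 κ + i) (Real.log (te8 κ M i / te8 κ M (i + 1)) +
          (((d0 κ + i : ℕ) : ℝ) / κ - (1 + κ) * Real.log (te8 κ M i / te8 κ M (i + 1))))
          (Real.log (te8 κ M i / te8 κ M (i + 1))) := by
        have h5 : 0 < LG (d0 κ + i) (Real.log (te8 κ M i / te8 κ M (i + 1)) +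
          (((d0 κ + i : ℕ) : ℝ) / κ - (1 + κ) * Real.log (te8 κ M i / te8 κ M (i + 1))))
          (Real.log (te8 κ M i / te8 κ M (i + 1))) /
            (((d0 κ + i : ℕ) : ℝ) / κ) ^ (2 * (d0 κ + i)) :=
          lt_of_lt_of_le (by positivity) ha
        exact (div_pos_iff_of_pos_right hm).1 h5
      exact (div_le_iff₀ hpos).2 hb
    refine h2.trans ?_
    rw [← Finset.sum_mul, Finset.sum_range_sub' (te8 κ M) N, hte0]
    have h3 := htpos N
    nlinarith
  have hth19 := th_le h0 h1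
  -- budgets
  have hS : ∀ a b : ℝ, 0 ≤ a → 0 ≤ b →
      ∑ i ∈ Finset.range N, (a * ((d0 κ + i : ℕ) : ℝ) + b) * te8 κ M i ≤
        th κ * (a * (1582 / 1000 * d0 κ + 921 / 1000) + b * (1582 / 1000)) := by
    intro a b ha hb
    have h2 : ∑ i ∈ Finset.range N, (a * ((d0 κ + i : ℕ) : ℝ) + b) * te8 κ M i =
        th κ * (a * (d0 κ * ∑ i ∈ Finset.range N, Real.exp (-(i : ℝ)) +
          ∑ i ∈ Finset.range N, (i : ℝ) * Real.exp (-(i : ℝ))) +
          b * ∑ i ∈ Finset.range N, Real.exp (-(i : ℝ))) := by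
      rw [Finset.mul_sum, Finset.mul_sum, ← Finset.sum_add_distrib, Finset.mul_sum,
        ← Finset.sum_add_distrib, Finset.mul_sum]
      refine Finset.sum_congr rfl fun i hi => ?_
      rw [hte i (Finset.mem_range.1 hi)]
      push_cast
      ring
    rw [h2]
    refine mul_le_mul_of_nonneg_left ?_ hth.le
    have h3 := sum0 N
    have h4 := sum1 N
    have h5 : (d0 κ : ℝ) * ∑ i ∈ Finset.range N, Real.exp (-(i : ℝ)) +
        ∑ i ∈ Finset.range N, (i : ℝ) * Real.exp (-(i : ℝ)) ≤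
        1582 / 1000 * d0 κ + 921 / 1000 := by
      have h6 : (d0 κ : ℝ) * ∑ i ∈ Finset.range N, Real.exp (-(i : ℝ)) ≤
          d0 κ * (1582 / 1000) := mul_le_mul_of_nonneg_left h3 (Nat.cast_nonneg _)
      linarith
    exact add_le_add (mul_le_mul_of_nonneg_left h5 ha) (mul_le_mul_of_nonneg_left h3 hb)
  refine ⟨⟨?_, ?_, ?_, hteN, ?_, ?_, ?_, ?_, ?_, ?_, ?_⟩, hrho, hte0, hV1, ?_, ?_, ?_⟩
  · change 1 ≤ N
    omega
  · exact fun i _ => htpos i
  · exact hdec
  · change te8 κ M 0 ≤ 1 / 4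
    rw [hte0]
    linarith
  · intro i _
    exact_mod_cast hDpos i
  · intro i _
    have := hDpos i
    change 0 < ((d0 κ + i : ℕ) : ℝ) / κ
    positivity
  · intro i hi
    obtain ⟨_, hv2, _⟩ := hVb i hi
    change ((d0 κ + i : ℕ) : ℝ) ≤ 4 * (Real.log (te8 κ M i / te8 κ M (i + 1)) +
      (((d0 κ + i : ℕ) : ℝ) / κ - (1 + κ) * Real.log (te8 κ M i / te8 κ M (i + 1))))
    have h2 := hDge i
    have h3 : 3 * (1 + κ) ≤ ((d0 κ + i : ℕ) : ℝ) / κ := by
      rw [le_div_iff₀ h0]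
      linarith
    have h4 : ((d0 κ + i : ℕ) : ℝ) ≤ ((d0 κ + i : ℕ) : ℝ) / κ := by
      rw [le_div_iff₀ h0]
      have := hDpos i
      nlinarith
    nlinarith
  · have h2 : 2 * κ * th κ ≤ 2 * 1 * (19 / 100) := by
      have : κ * th κ ≤ 1 * (19 / 100) := mul_le_mul h1.le hth19 hth.le (by norm_num)
      linarith
    linarith
  · have h2 := hS 1 0 (by norm_num) le_rfl
    have h3 := th_A h0 h1
    have h4 : ∑ i ∈ Finset.range (cfg8 κ M).N, ((cfg8 κ M).D i : ℝ) * (cfg8 κ M).te i =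
        ∑ i ∈ Finset.range N, (1 * ((d0 κ + i : ℕ) : ℝ) + 0) * te8 κ M i := by
      refine Finset.sum_congr rfl fun i _ => ?_
      rw [one_mul, add_zero]
      rfl
    rw [h4]
    refine h2.trans ?_
    linarith
  · have h2 := hS ((1 + κ) / κ) 1 (by positivity) (by norm_num)
    have h4 : ∑ i ∈ Finset.range (cfg8 κ M).N, ((rk κ (cfg8 κ M) i : ℝ) + 1) * (cfg8 κ M).te i ≤
        ∑ i ∈ Finset.range N, ((1 + κ) / κ * ((d0 κ + i : ℕ) : ℝ) + 1) * te8 κ M i := by
      refine Finset.sum_le_sum fun i _ => ?_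
      refine mul_le_mul_of_nonneg_right ?_ (htpos i).le
      have h5 : (rk κ (cfg8 κ M) i : ℝ) ≤ ((d0 κ + i : ℕ) : ℝ) * pe κ := by
        refine Nat.floor_le ?_
        unfold pe
        have := hDpos i
        change 0 ≤ ((d0 κ + i : ℕ) : ℝ) * ((1 + κ) / κ)
        positivity
      unfold pe at h5
      linarith
    refine h4.trans (h2.trans ?_)
    have h6 := th_mul h0
    have h7 : th κ * ((1 + κ) / κ * (1582 / 1000 * (d0 κ : ℝ) + 921 / 1000) +
        1 * (1582 / 1000)) = 93 / 100 := by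
      have h8 : th κ * ((1 + κ) / κ * (1582 / 1000 * (d0 κ : ℝ) + 921 / 1000) +
          1 * (1582 / 1000)) = (th κ * ((1 + κ) * (1582 / 1000 * (d0 κ : ℝ) + 921 / 1000) +
            1582 / 1000 * κ)) / κ := by
        field_simp
      rw [h8, h6]
      field_simp
    exact h7.le
  · exact (hVb (N - 1) (by omega)).1
  · exact (hVb (N - 1) (by omega)).2.1
  · change (M : ℝ) + Real.log (th κ) - 1 ≤ N
    linarith

end K8
end Pool.Agent.Lib.MP_973905_nt
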