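import Pool.Agent.Lib.MP_973905_nt.K8.Stmts

/-! (N5) The factor of a top block on the side of zeta: `E |1 + (κ/D)(P - κV)|^{2D}` is at least
`exp (-κ²V) (1 + κ⁴V²/(2D²))`, and the logarithmic derivative in the shift is at most `2κ`. -/

namespace Pool.Agent.Lib.MP_973905_nt
namespace K8

open MeasureTheory ProbabilityTheory Complex Filter Topology K1 K4 K5

namespace AhX

/-- the terms of `LG` -/
noncomputable def TT (n : ℕ) (y V : ℝ) (j : ℕ) : ℝ :=
  ((n.choose j : ℕ) : ℝ) ^ 2 * ((j.factorial : ℕ) : ℝ) * V ^ j * y ^ (2 * (n - j))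

lemma LG_eq (n : ℕ) (y V : ℝ) : LG n y V = ∑ j ∈ Finset.range (n + 1), TT n y V j := rfl

lemma TT_nonneg {n : ℕ} {y V : ℝ} (hV : 0 ≤ V) (hy : 0 ≤ y) (j : ℕ) : 0 ≤ TT n y V j := by
  unfold TT; positivity

lemma LG_pos {n : ℕ} {y V : ℝ} (hV : 0 ≤ V) (hy : 0 < y) : 0 < LG n y V := by
  rw [LG_eq]
  have h0 : 0 < TT n y V 0 := by unfold TT; simp; positivity
  refine lt_of_lt_of_le h0 ?_
  exact Finset.single_le_sum (fun j _ => TT_nonneg hV hy.le j) (Finset.mem_range.2 (Nat.succ_pos n))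

/-- the derivative of `LG` in the shift -/
lemma hasDerivAt_LG (n : ℕ) (y V : ℝ) :
    HasDerivAt (fun y : ℝ => LG n y V) (∑ j ∈ Finset.range (n + 1),
      ((n.choose j : ℕ) : ℝ) ^ 2 * ((j.factorial : ℕ) : ℝ) * V ^ j *
        (((2 * (n - j) : ℕ) : ℝ) * y ^ (2 * (n - j) - 1))) y := by
  unfold LG
  refine HasDerivAt.fun_sum fun j _ => ?_
  exact (hasDerivAt_pow (2 * (n - j)) y).const_mul _

lemma mul_deriv_LG (n : ℕ) (y V : ℝ) :
    y * deriv (fun y : ℝ => LG n y V) y =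
      ∑ j ∈ Finset.range (n + 1), 2 * ((n : ℝ) - j) * TT n y V j := by
  rw [(hasDerivAt_LG n y V).deriv, Finset.mul_sum]
  refine Finset.sum_congr rfl fun j hj => ?_
  have hj' : j ≤ n := Nat.lt_succ_iff.1 (Finset.mem_range.1 hj)
  unfold TT
  rcases Nat.eq_zero_or_pos (2 * (n - j)) with h | h
  · have h2 : (n : ℝ) - j = 0 := by
      have : n = j := by omega
      rw [this]; ring
    rw [h, h2]; simp
  · have h1 : y ^ (2 * (n - j)) = y * y ^ (2 * (n - j) - 1) := by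
      rw [← pow_succ', Nat.sub_add_cancel h]
    have h2 : ((2 * (n - j) : ℕ) : ℝ) = 2 * ((n : ℝ) - j) := by
      rw [Nat.cast_mul, Nat.cast_sub hj']; norm_num
    rw [h1, h2]; ring

lemma succ_mul_TT {n j : ℕ} {y V : ℝ} (hj : j < n) :
    y ^ 2 * (((j + 1 : ℕ) : ℝ) * TT n y V (j + 1)) = V * (((n : ℝ) - j) ^ 2 * TT n y V j) := by
  unfold TT
  have h1 : y ^ (2 * (n - j)) = y ^ 2 * y ^ (2 * (n - (j + 1))) := by
    rw [← pow_add]; congr 1; omega
  have h2 : ((n.choose (j + 1) : ℕ) : ℝ) * ((j + 1 : ℕ) : ℝ) = ((n.choose j : ℕ) : ℝ) * ((n : ℝ) - j) := by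
    have h3 := Nat.choose_succ_right_eq n j
    have h4 : ((n - j : ℕ) : ℝ) = (n : ℝ) - j := Nat.cast_sub hj.le
    rw [← h4]
    exact_mod_cast h3
  have h5 : (((j + 1).factorial : ℕ) : ℝ) = ((j + 1 : ℕ) : ℝ) * ((j.factorial : ℕ) : ℝ) := by
    rw [Nat.factorial_succ, Nat.cast_mul]
  rw [h1, h5, pow_succ]
  calc y ^ 2 * (((j + 1 : ℕ) : ℝ) * (((n.choose (j + 1) : ℕ) : ℝ) ^ 2 *
        (((j + 1 : ℕ) : ℝ) * ((j.factorial : ℕ) : ℝ)) * (V ^ j * V) * y ^ (2 * (n - (j + 1)))))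
      = (((n.choose (j + 1) : ℕ) : ℝ) * ((j + 1 : ℕ) : ℝ)) ^ 2 *
        (y ^ 2 * ((j.factorial : ℕ) : ℝ) * (V ^ j * V) * y ^ (2 * (n - (j + 1)))) := by ring
    _ = _ := by rw [h2]; ring

/-- the mean of `j` -/
lemma sum_j_TT (n : ℕ) (y V : ℝ) :
    y ^ 2 * ∑ j ∈ Finset.range (n + 1), (j : ℝ) * TT n y V j =
      V * ∑ j ∈ Finset.range (n + 1), ((n : ℝ) - j) ^ 2 * TT n y V j := by
  rw [Finset.sum_range_succ', Finset.sum_range_succ (fun j => ((n : ℝ) - j) ^ 2 * TT n y V j)]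
  rw [Nat.cast_zero, zero_mul, add_zero, sub_self, zero_pow two_ne_zero, zero_mul, add_zero,
    Finset.mul_sum, Finset.mul_sum]
  exact Finset.sum_congr rfl fun j hj => succ_mul_TT (Finset.mem_range.1 hj)

lemma cs_TT {n : ℕ} {y V : ℝ} (hV : 0 ≤ V) (hy : 0 ≤ y) :
    (∑ j ∈ Finset.range (n + 1), ((n : ℝ) - j) * TT n y V j) ^ 2 ≤
      (∑ j ∈ Finset.range (n + 1), TT n y V j) *
        ∑ j ∈ Finset.range (n + 1), ((n : ℝ) - j) ^ 2 * TT n y V j := by
  have h := Finset.sum_mul_sq_le_sq_mul_sq (Finset.range (n + 1))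
    (fun j => Real.sqrt (TT n y V j)) (fun j => ((n : ℝ) - j) * Real.sqrt (TT n y V j))
  have hsq : ∀ j, Real.sqrt (TT n y V j) ^ 2 = TT n y V j := fun j =>
    Real.sq_sqrt (TT_nonneg hV hy j)
  have e1 : ∀ j, Real.sqrt (TT n y V j) * (((n : ℝ) - j) * Real.sqrt (TT n y V j)) =
      ((n : ℝ) - j) * TT n y V j := by
    intro j
    have := hsq j
    rw [pow_two] at this
    linear_combination ((n : ℝ) - j) * this
  have e2 : ∀ j, (((n : ℝ) - j) * Real.sqrt (TT n y V j)) ^ 2 =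
      ((n : ℝ) - j) ^ 2 * TT n y V j := by
    intro j
    rw [mul_pow, hsq]
  simp only [e1, e2, hsq] at h
  exact h

/-- the inequality for the logarithmic derivative -/
lemma deriv_le {n : ℕ} {κ V : ℝ} (hκ : 0 < κ) (hV : 0 < V) (h : κ ^ 2 * V < n) :
    deriv (fun y : ℝ => LG n y V) ((n : ℝ) / κ - κ * V) ≤
      2 * κ * LG n ((n : ℝ) / κ - κ * V) V := by
  set y : ℝ := (n : ℝ) / κ - κ * V with hy
  have hky : κ * y = n - κ ^ 2 * V := by rw [hy]; field_simp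
  have hy0 : 0 < y := by
    have : 0 < κ * y := by rw [hky]; linarith
    exact (pos_iff_pos_of_mul_pos this).1 hκ
  set S := ∑ j ∈ Finset.range (n + 1), TT n y V j with hS
  set S1 := ∑ j ∈ Finset.range (n + 1), (j : ℝ) * TT n y V j with hS1
  set S2 := ∑ j ∈ Finset.range (n + 1), ((n : ℝ) - j) ^ 2 * TT n y V j with hS2
  have hSpos : 0 < S := LG_pos hV.le hy0
  have hrel : y ^ 2 * S1 = V * S2 := sum_j_TT n y V
  have hlin : ∑ j ∈ Finset.range (n + 1), ((n : ℝ) - j) * TT n y V j = n * S - S1 := by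
    rw [hS, hS1, Finset.mul_sum, ← Finset.sum_sub_distrib]
    exact Finset.sum_congr rfl fun j _ => by ring
  have hcs : (n * S - S1) ^ 2 ≤ S * S2 := by
    rw [← hlin]; exact cs_TT hV.le hy0.le
  set μ := κ ^ 2 * V with hμ
  have hμ0 : 0 < μ := by positivity
  have hkey : μ * S ≤ S1 := by
    by_contra hcon
    push Not at hcon
    have h1 : (κ * y) * S < n * S - S1 := by rw [hky]; nlinarith
    have h2 : ((κ * y) * S) ^ 2 < (n * S - S1) ^ 2 := by
      have : 0 < (κ * y) * S := by positivity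
      nlinarith
    have h3 : ((κ * y) * S) ^ 2 < S * S2 := lt_of_lt_of_le h2 hcs
    -- V S2 = y² S1
    have h4 : V * ((κ * y) * S) ^ 2 < S * (y ^ 2 * S1) := by
      rw [hrel]
      have := mul_lt_mul_of_pos_left h3 hV
      linarith
    have h5 : (y ^ 2 * S) * (μ * S) < (y ^ 2 * S) * S1 := by
      rw [hμ]; linarith
    have h6 : μ * S < S1 := lt_of_mul_lt_mul_left h5 (by positivity)
    linarith
  have hmd := mul_deriv_LG n y V
  have h7 : ∑ j ∈ Finset.range (n + 1), 2 * ((n : ℝ) - j) * TT n y V j = 2 * (n * S - S1) := by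
    rw [← hlin, Finset.mul_sum]
    exact Finset.sum_congr rfl fun j _ => by ring
  rw [h7] at hmd
  have h8 : y * deriv (fun y : ℝ => LG n y V) y ≤ y * (2 * κ * S) := by
    rw [hmd]
    have : y * (2 * κ * S) = 2 * ((κ * y) * S) := by ring
    rw [this, hky]
    nlinarith
  exact le_of_mul_le_mul_left h8 hy0

lemma deriv_nonneg {n : ℕ} {y V : ℝ} (hV : 0 ≤ V) (hy : 0 ≤ y) :
    0 ≤ deriv (fun y : ℝ => LG n y V) y := by
  rw [(hasDerivAt_LG n y V).deriv]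
  exact Finset.sum_nonneg fun j _ => by positivity

lemma lower (hF : StFock) {κ V : ℝ} {D : ℕ} (hκ : 0 < κ) (hV : 0 < V) (hD : 1 ≤ D) :
    Real.exp (-(κ ^ 2 * V)) * (1 + κ ^ 4 * V ^ 2 / (2 * D ^ 2)) ≤
      LG D ((D : ℝ) / κ - κ * V) V / (D / κ) ^ (2 * D) := by
  have hD0 : (0 : ℝ) < D := by exact_mod_cast hD
  have ha : 0 < κ / (D : ℝ) := by positivity
  have hs := hF (κ / D) κ V D ha hV
  have h1 : 1 / (κ / (D : ℝ)) - κ * V = (D : ℝ) / κ - κ * V := by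
    rw [one_div_div]
  rw [h1] at hs
  have hle : ∑ j ∈ Finset.range 3, dcf (κ / D) κ D j ^ 2 * (j.factorial : ℝ) * V ^ j ≤
      Real.exp (κ ^ 2 * V) * ((κ / D) ^ (2 * D) * LG D ((D : ℝ) / κ - κ * V) V) := by
    refine sum_le_hasSum _ (fun j _ => ?_) hs
    positivity
  have e0 : dcf (κ / D) κ D 0 = 1 := rfl
  have e1 : dcf (κ / D) κ D 1 = 0 := by
    have : dcf (κ / D) κ D 1 = D * (κ / D) - κ := rfl
    rw [this]; field_simp; ring
  have e2 : dcf (κ / D) κ D 2 = -(κ ^ 2 / (2 * D)) := by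
    have : dcf (κ / D) κ D 2 = ((D * (κ / D) - κ - (κ / D) * ((0 + 1 : ℕ) : ℝ)) *
      dcf (κ / D) κ D (0 + 1) - κ * (κ / D) * dcf (κ / D) κ D 0) / ((0 + 2 : ℕ) : ℝ) := rfl
    rw [this, zero_add, e1, e0]
    field_simp
    norm_num
  have hsum : ∑ j ∈ Finset.range 3, dcf (κ / D) κ D j ^ 2 * (j.factorial : ℝ) * V ^ j =
      1 + κ ^ 4 * V ^ 2 / (2 * D ^ 2) := by
    rw [Finset.sum_range_succ, Finset.sum_range_succ, Finset.sum_range_one, e0, e1, e2]
    simp only [Nat.factorial]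
    field_simp
    norm_num
    try ring
  rw [hsum] at hle
  have e3 : (κ / (D : ℝ)) ^ (2 * D) * LG D ((D : ℝ) / κ - κ * V) V =
      LG D ((D : ℝ) / κ - κ * V) V / (D / κ) ^ (2 * D) := by
    rw [div_eq_mul_inv (LG D _ V), ← inv_pow, inv_div, mul_comm]
  rw [e3] at hle
  calc Real.exp (-(κ ^ 2 * V)) * (1 + κ ^ 4 * V ^ 2 / (2 * D ^ 2))
      ≤ Real.exp (-(κ ^ 2 * V)) * (Real.exp (κ ^ 2 * V) *
        (LG D ((D : ℝ) / κ - κ * V) V / (D / κ) ^ (2 * D))) :=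
        mul_le_mul_of_nonneg_left hle (Real.exp_pos _).le
    _ = _ := by rw [← mul_assoc, ← Real.exp_add, neg_add_cancel, Real.exp_zero, one_mul]

end AhX

theorem stAh (hF : StFock) : StAh := by
  intro κ V D hκ hκ1 hD hV1 hV2 hbig
  have hV : 0 < V := by linarith
  have hy : V + ((D : ℝ) / κ - (1 + κ) * V) = (D : ℝ) / κ - κ * V := by ring
  rw [hy]
  have hlt : κ ^ 2 * V < D := by
    have h1 : 0 < κ * V := by positivity
    have h2 : 0 < κ ^ 2 * V := by positivity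
    nlinarith
  have hy0 : 0 < (D : ℝ) / κ - κ * V := by
    have : κ * ((D : ℝ) / κ - κ * V) = D - κ ^ 2 * V := by field_simp
    have h2 : 0 < κ * ((D : ℝ) / κ - κ * V) := by rw [this]; linarith
    exact (pos_iff_pos_of_mul_pos h2).1 hκ
  exact ⟨AhX.lower hF hκ hV hD, AhX.deriv_nonneg hV.le hy0.le, AhX.deriv_le hκ hV hlt⟩

end K8
end Pool.Agent.Lib.MP_973905_nt
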