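import Pool.Agent.Lib.MP_973905_nt.K8.Base
import Pool.Agent.Lib.MP_973905_nt.K5.BQ

/-! Module (Z5) of folder K8: the weight `|GW|²` is a polynomial of two variables of length
`T^{0.89}` with small coefficients. -/

namespace Pool.Agent.Lib.MP_973905_nt
namespace K8

open MeasureTheory ProbabilityTheory Complex Filter Topology K1 K4 K5

namespace BQZx

open K5.BQx

variable {Q : ℝ} {G : (ℕ → ℂ) → ℂ}

/-- Complex conjugation. -/
lemma conj_ic {A : ℕ} {N : ℝ} (h : IC (WA A N) Q G) :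
    IC (WA A N) Q (fun f => (starRingEnd ℂ) (G f)) := by
  obtain ⟨c, h1, h2, h3⟩ := h
  set d : ℕ × ℕ →₀ ℂ := (c.equivMapDomain (Equiv.prodComm ℕ ℕ)).mapRange (starRingEnd ℂ)
    (map_zero _) with hd
  have hdx : ∀ x, d x = (starRingEnd ℂ) (c x.swap) := by
    intro x
    rw [hd, Finsupp.mapRange_apply, Finsupp.equivMapDomain_apply]
    rfl
  refine ⟨d, fun x => ?_, fun x hx => ?_, fun f hf => ?_⟩
  · rw [hdx, RCLike.norm_conj]
    exact h1 _
  · rw [hdx] at hx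
    have h4 : c x.swap ≠ 0 := fun h0 => hx (by rw [h0, map_zero])
    obtain ⟨w1, w2, w3, w4⟩ := h2 _ h4
    simp only [Prod.fst_swap, Prod.snd_swap] at w1 w2 w3 w4
    exact ⟨w2, w1, by rw [mul_comm]; exact w3, by omega⟩
  · beta_reduce
    rw [h3 f hf, ev, ev, hd, Finsupp.sum_mapRange_index (fun _ => by simp),
      Finsupp.sum_equivMapDomain, Finsupp.sum, Finsupp.sum, map_sum]
    refine Finset.sum_congr rfl fun x _ => ?_
    simp only [map_mul, Complex.conj_conj, Equiv.prodComm_apply, Prod.fst_swap, Prod.snd_swap]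
    ring

/-- Multiplication by a prime sum. -/
lemma left_ic {A : ℕ} {N y : ℝ} (h : IC (WA A N) Q G) (S : Finset ℕ)
    (hS : ∀ p ∈ S, p.Prime) (hy : ∀ p ∈ S, (p : ℝ) ≤ y) :
    IC (WA (A + 1) (y * N)) ((A + 1) * Q) (fun f => (∑ p ∈ S, f p) * G f) := by
  have hQ := h.nonneg
  obtain ⟨c, h1, h2, h3⟩ := h
  have hp1 : ∀ p ∈ S, 1 ≤ p := fun p hp => (hS p hp).one_lt.le
  have hc0 : ∀ x, c x ≠ 0 → x.1 ≠ 0 ∧ x.2 ≠ 0 := fun x hx => by
    have := h2 x hx
    exact ⟨by have := this.1; omega, by have := this.2.1; omega⟩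
  have hL : ∀ p ∈ S, ∀ x, c.mapDomain (dil p 1) x ≠ 0 → WA (A + 1) (y * N) x ∧ p ∣ x.1 := by
    intro p hp x hx
    obtain ⟨z, hz, rfl⟩ := dil_supp (hp1 p hp) le_rfl hx
    obtain ⟨w1, w2, w3, w4⟩ := h2 z hz
    refine ⟨⟨Nat.mul_pos (hp1 p hp) w1, by simpa [dil] using w2, ?_, ?_⟩, ?_⟩
    · simp only [dil]
      push_cast
      calc (p : ℝ) * z.1 * (1 * z.2) = p * (z.1 * z.2) := by ring
        _ ≤ y * N := mul_le_mul (hy p hp) w3 (by positivity) ((Nat.cast_nonneg p).trans (hy p hp))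
    · simp only [dil, one_mul]
      rw [Omega_mul (hS p hp) (hc0 z hz).1]
      omega
    · simp only [dil]
      exact dvd_mul_right _ _
  set d : ℕ × ℕ →₀ ℂ := ∑ p ∈ S, c.mapDomain (dil p 1) with hd
  have hdx : ∀ x, d x = ∑ p ∈ S, c.mapDomain (dil p 1) x := by
    intro x
    rw [hd, Finsupp.finsetSum_apply]
  have hsup : ∀ x, (∃ p ∈ S, c.mapDomain (dil p 1) x ≠ 0) → WA (A + 1) (y * N) x := by
    rintro x ⟨p, hp, h⟩
    exact (hL p hp x h).1
  refine ⟨d, fun x => ?_, fun x hx => ?_, fun f hf => ?_⟩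
  · by_cases hx : ∃ p ∈ S, c.mapDomain (dil p 1) x ≠ 0
    · obtain ⟨w1, w2, w3, w4⟩ := hsup x hx
      have b1 : ∑ p ∈ S, ‖c.mapDomain (dil p 1) x‖ ≤ ArithmeticFunction.cardFactors x.1 * Q := by
        refine sum_prime_le hS _ _ (by omega) hQ
          (fun p hp => dil_norm (hp1 p hp) le_rfl h1 x) fun p hp hn => ?_
        by_contra hne
        exact hn (hL p hp x (by simpa using hne)).2
      have b4 : (ArithmeticFunction.cardFactors x.1 : ℝ) ≤ A + 1 := by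
        exact_mod_cast (by omega : ArithmeticFunction.cardFactors x.1 ≤ A + 1)
      rw [hdx]
      calc ‖∑ p ∈ S, c.mapDomain (dil p 1) x‖ ≤ ∑ p ∈ S, ‖c.mapDomain (dil p 1) x‖ :=
            norm_sum_le _ _
        _ ≤ ArithmeticFunction.cardFactors x.1 * Q := b1
        _ ≤ (A + 1) * Q := mul_le_mul_of_nonneg_right b4 hQ
    · push Not at hx
      rw [hdx, Finset.sum_eq_zero fun p hp => hx p hp, norm_zero]
      positivity
  · by_contra hn
    apply hx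
    have hx' : ¬ ∃ p ∈ S, c.mapDomain (dil p 1) x ≠ 0 := fun h => hn (hsup x h)
    push Not at hx'
    rw [hdx, Finset.sum_eq_zero fun p hp => hx' p hp]
  · beta_reduce
    rw [hd, ev_sum, h3 f hf, Finset.sum_mul]
    refine Finset.sum_congr rfl fun p hp => ?_
    rw [dil_ev (hp1 p hp) le_rfl hc0 hf, hf.1, map_one, mul_one]

/-- Multiplication by a linear form. -/
lemma lin_ic {A : ℕ} {N y : ℝ} (hN : 0 ≤ N) (hy1 : 1 ≤ y) (h : IC (WA A N) Q G) (S : Finset ℕ)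
    (hS : ∀ p ∈ S, p.Prime) (hy : ∀ p ∈ S, (p : ℝ) ≤ y) (c m : ℂ) :
    IC (WA (A + 1) (y * N)) (‖m⁻¹‖ * (A + 1 + ‖c‖) * Q)
      (fun f => (((∑ p ∈ S, f p) + c) / m) * G f) := by
  have h1 := left_ic h S hS hy
  have h2 : IC (WA (A + 1) (y * N)) (‖c‖ * Q) (fun f => c * G f) :=
    (h.smul c).mono (WA_mono (by omega) (le_mul_of_one_le_left hN hy1)) le_rfl
  refine (((h1.add h2).smul m⁻¹).mono (fun _ hx => hx) (le_of_eq (by ring))).congr
    fun f _ => ?_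
  rw [div_eq_mul_inv]
  ring

/-- Multiplication by a power of a linear form. -/
lemma linpow_ic {A : ℕ} {N y : ℝ} (hN : 0 ≤ N) (hy1 : 1 ≤ y) (h : IC (WA A N) Q G)
    (S : Finset ℕ) (hS : ∀ p ∈ S, p.Prime) (hy : ∀ p ∈ S, (p : ℝ) ≤ y) (c m : ℂ) (j : ℕ) (D : ℝ)
    (hD : (A + j : ℝ) ≤ D) :
    IC (WA (A + j) (y ^ j * N)) ((‖m⁻¹‖ * (D + ‖c‖)) ^ j * Q)
      (fun f => (((∑ p ∈ S, f p) + c) / m) ^ j * G f) := by
  have hQ := h.nonneg
  have hD0 : 0 ≤ D := le_trans (by positivity) hD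
  induction j with
  | zero => simpa using h
  | succ j ih =>
    have h1 := ih (by push_cast at hD; linarith)
    have h2 := lin_ic (by positivity) hy1 h1 S hS hy c m
    refine (h2.mono (W' := WA (A + (j + 1)) (y ^ (j + 1) * N)) (fun x hx => ?_)
      (Q' := (‖m⁻¹‖ * (D + ‖c‖)) ^ (j + 1) * Q) ?_).congr fun f hf => ?_
    · rw [pow_succ', mul_assoc, ← add_assoc]
      exact hx
    · rw [pow_succ', mul_assoc ((‖m⁻¹‖ * (D + ‖c‖)))]
      apply mul_le_mul_of_nonneg_right _ (by positivity)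
      apply mul_le_mul_of_nonneg_left _ (norm_nonneg _)
      push_cast at hD ⊢
      linarith
    · rw [pow_succ']
      ring

/-- Multiplication by an even power of the absolute value of a linear form. -/
lemma sq_ic (A d : ℕ) (c m : ℂ) : ∃ K : ℝ, 0 ≤ K ∧ ∀ {N y : ℝ}, 0 ≤ N → 1 ≤ y →
    ∀ {Q : ℝ} {G : (ℕ → ℂ) → ℂ}, IC (WA A N) Q G → ∀ S : Finset ℕ, (∀ p ∈ S, p.Prime) →
    (∀ p ∈ S, (p : ℝ) ≤ y) → IC (WA (A + 2 * d) (y ^ (2 * d) * N)) (K * Q)
      (fun f => ((‖((∑ p ∈ S, f p) + c) / m‖ ^ (2 * d) : ℝ) : ℂ) * G f) := by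
  set D : ℝ := A + d + d with hD
  have hD0 : 0 ≤ D := by positivity
  refine ⟨(‖m⁻¹‖ * (D + ‖c‖)) ^ d * (‖m⁻¹‖ * (D + ‖c‖)) ^ d, by positivity, ?_⟩
  intro N y hN hy1 Q G h S hS hy
  have h1 := linpow_ic hN hy1 h S hS hy c m d D (by rw [hD]; linarith [(Nat.cast_nonneg d : (0:ℝ) ≤ d)])
  have h2 := conj_ic h1
  have h3 := linpow_ic (by positivity) hy1 h2 S hS hy c m d D (by rw [hD]; push_cast; linarith)
  have h4 := conj_ic h3
  refine (h4.mono (WA_mono (le_of_eq (by ring)) (le_of_eq (by ring))) (le_of_eq (by ring))).congr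
    fun f _ => ?_
  have e1 : ∀ z : ℂ, ((‖z‖ ^ (2 * d) : ℝ) : ℂ) = (starRingEnd ℂ) (z ^ d) * z ^ d := by
    intro z
    rw [pow_mul, ← normSq_eq_norm_sq, map_pow, ← mul_pow, ofReal_pow, ← mul_conj]
    ring
  rw [e1]
  simp only [map_mul, Complex.conj_conj]
  ring

/-- The product over the top blocks. -/
lemma prod_icz {κ : ℝ} {M : ℕ} {C : Cfg} (hC : Adm κ M C) (n : ℕ) (hn : n ≤ C.N) :
    ∃ K : ℝ, 0 ≤ K ∧ ∀ T : ℝ, 1 ≤ T →
    IC (WA (∑ i ∈ Finset.range n, 2 * C.D i)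
      (Real.exp ((∑ i ∈ Finset.range n, (2 * (C.D i : ℝ)) * C.te i) * Real.log T))) K
      (fun f => ((∏ i ∈ Finset.range n, ‖C.z T i f‖ ^ (2 * C.D i) : ℝ) : ℂ)) := by
  induction n with
  | zero =>
    refine ⟨1, zero_le_one, fun T _ => ?_⟩
    refine (IC.one ?_).congr fun f _ => by simp
    simp [WA]
  | succ n ih =>
    obtain ⟨K, hK, h⟩ := ih (by omega)
    obtain ⟨L, hL, h'⟩ := sq_ic (∑ i ∈ Finset.range n, 2 * C.D i) (C.D n) (C.c n) (C.m n)
    refine ⟨L * K, mul_nonneg hL hK, fun T hT => ?_⟩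
    have hlog : 0 ≤ Real.log T := Real.log_nonneg hT
    have h1 := h' (Real.exp_pos _).le (y := Real.exp (C.te n * Real.log T))
      (Real.one_le_exp (mul_nonneg (hC.hpos n (by omega)).le hlog)) (h T hT) (C.U T n)
      (fun p hp => (Blk8.mem_U.mp hp).1) (fun p hp => (Blk8.mem_U.mp hp).2.2)
    refine (h1.mono (WA_mono ?_ ?_) le_rfl).congr fun f _ => ?_
    · rw [Finset.sum_range_succ]
    · rw [Finset.sum_range_succ, ← Real.exp_nat_mul, ← Real.exp_add]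
      apply le_of_eq
      congr 1
      push_cast
      ring
    · rw [Finset.prod_range_succ, mul_comm, ofReal_mul]
      rfl

end BQZx

open BQZx K5.BQx in
/-- (Z5) our weight belongs to the class -/
theorem stBQZ (h : K1.StShort) : StBQZ := by
  intro κ hk0 hk1
  obtain ⟨M₀, hM₀⟩ := h (1 / 4000) (by norm_num)
  refine ⟨M₀, fun M hM C hC => ?_⟩
  obtain ⟨T₁, hT₁3, hT₁⟩ := hM₀ M hM
  obtain ⟨K, hK0, hK⟩ := prod_icz hC C.N le_rfl
  have hev : ∀ᶠ T : ℝ in atTop, K ≤ T ^ (1 / 2000 : ℝ) :=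
    (tendsto_rpow_atTop (by norm_num)).eventually_ge_atTop _
  obtain ⟨T₂, hT₂⟩ := eventually_atTop.mp hev
  refine ⟨max T₁ T₂, hT₁3.trans (le_max_left _ _), fun T hT => ?_⟩
  have hT1 : T₁ ≤ T := (le_max_left _ _).trans hT
  have hT2 := hT₂ T ((le_max_right _ _).trans hT)
  have hT3 : 3 ≤ T := hT₁3.trans hT1
  have hT0 : 0 < T := by linarith
  have hL : 0 ≤ Real.log T := Real.log_nonneg (by linarith)
  have hG : DP (T ^ (1 / 4000 : ℝ)) (T ^ (1 / 4000 : ℝ)) (NN T M κ) :=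
    hT₁ T hT1 κ (by rw [abs_le]; constructor <;> linarith) _ _
  have h1 : IC (K5.BQx.WB (T ^ (88 / 100 : ℝ))) K
      (fun f => ((∏ i ∈ Finset.range C.N, ‖C.z T i f‖ ^ (2 * C.D i) : ℝ) : ℂ)) := by
    refine (hK T (by linarith)).mono (fun x hx => ⟨hx.1, hx.2.1, hx.2.2.1.trans ?_⟩) le_rfl
    rw [Real.rpow_def_of_pos hT0]
    apply Real.exp_le_exp.mpr
    rw [mul_comm (Real.log T)]
    apply mul_le_mul_of_nonneg_right _ hL
    have h2 := hC.bud1
    have h3 : ∑ i ∈ Finset.range C.N, (2 * (C.D i : ℝ)) * C.te i =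
        2 * ∑ i ∈ Finset.range C.N, (C.D i : ℝ) * C.te i := by
      rw [Finset.mul_sum]
      exact Finset.sum_congr rfl fun i _ => by ring
    rw [h3]
    linarith
  have h2 := h1.dp hG
  apply IC.bq
  refine (h2.mono (fun x hx => ⟨hx.1, hx.2.1, hx.2.2.trans ?_⟩) ?_).congr fun f _ => ?_
  · calc T ^ (1 / 4000 : ℝ) * T ^ (1 / 4000 : ℝ) * K
        ≤ T ^ (1 / 4000 : ℝ) * T ^ (1 / 4000 : ℝ) * T ^ (1 / 2000 : ℝ) := by gcongr
      _ = T ^ (1 / 1000 : ℝ) := by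
        rw [← Real.rpow_add hT0, ← Real.rpow_add hT0]
        norm_num
  · rw [GW, mul_conj, normSq_eq_norm_sq, ← ofReal_mul]
    congr 1
    rw [norm_mul, mul_pow, norm_prod, ← Finset.prod_pow]
    congr 1
    refine Finset.prod_congr rfl fun i _ => ?_
    rw [norm_pow, ← pow_mul, mul_comm 2]
  · rw [← Real.rpow_add hT0, ← Real.rpow_add hT0]
    apply Real.rpow_le_rpow_of_exponent_le (by linarith)
    norm_num

end K8
end Pool.Agent.Lib.MP_973905_nt
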