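import Pool.Agent.Lib.MP_973905_nt.K8.Stmts
import Pool.Agent.Lib.MP_973905_nt.K7.WMean
import Pool.Agent.Lib.MP_973905_nt.Sums

/-! The mean of the correction in a bottom block (V4). -/

namespace Pool.Agent.Lib.MP_973905_nt
namespace K8

open MeasureTheory ProbabilityTheory Complex Filter Topology K1 K4 K5

namespace BadN

/-- `(x/K)^{2n}` against an exponential moment. -/
lemma pow_le {q x K : ℝ} {n : ℕ} (hq : 0 < q) (hx : 0 ≤ x) (hK : 0 < K)
    (hn : (n : ℝ) ≤ q * K * Real.exp (-2)) :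
    ((x / K) ^ n) ^ 2 ≤ Real.exp (-(4 * n)) * Real.exp (q * x) ^ 2 := by
  have h1 := Real.pow_div_factorial_le_exp (2 * q * x) (by positivity) (2 * n)
  have hf : (0 : ℝ) < ((2 * n).factorial : ℝ) := by exact_mod_cast Nat.factorial_pos _
  rw [div_le_iff₀ hf] at h1
  have h2 : ((2 * n).factorial : ℝ) ≤ (2 * (n : ℝ)) ^ (2 * n) := by
    have := Nat.factorial_le_pow (2 * n)
    calc ((2 * n).factorial : ℝ) ≤ (((2 * n) ^ (2 * n) : ℕ) : ℝ) := by exact_mod_cast this
      _ = (2 * (n : ℝ)) ^ (2 * n) := by push_cast; rfl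
  have h3 : (2 * (n : ℝ)) ^ (2 * n) ≤ (2 * (q * K * Real.exp (-2))) ^ (2 * n) := by
    gcongr
  have h4 : (2 * (q * K * Real.exp (-2))) ^ (2 * n) =
      (2 * q * K) ^ (2 * n) * Real.exp (-(4 * n)) := by
    rw [show 2 * (q * K * Real.exp (-2)) = (2 * q * K) * Real.exp (-2) by ring, mul_pow,
      ← Real.exp_nat_mul]
    congr 2
    push_cast
    ring
  have h5 : (2 * q * x) ^ (2 * n) = (2 * q * K) ^ (2 * n) * ((x / K) ^ n) ^ 2 := by
    rw [← pow_mul, mul_comm n 2, ← mul_pow]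
    congr 1
    field_simp
  have h6 : 0 < (2 * q * K) ^ (2 * n) := by positivity
  have h7 : Real.exp (q * x) ^ 2 = Real.exp (2 * q * x) := by
    rw [← Real.exp_nat_mul]
    congr 1
    push_cast
    ring
  rw [h7]
  have h8 : (2 * q * K) ^ (2 * n) * ((x / K) ^ n) ^ 2 ≤
      (2 * q * K) ^ (2 * n) * (Real.exp (-(4 * n)) * Real.exp (2 * q * x)) := by
    rw [← h5]
    refine h1.trans ?_
    calc Real.exp (2 * q * x) * ((2 * n).factorial : ℝ)
        ≤ Real.exp (2 * q * x) * ((2 * q * K) ^ (2 * n) * Real.exp (-(4 * n))) := by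
          rw [← h4]
          exact mul_le_mul_of_nonneg_left (h2.trans h3) (Real.exp_pos _).le
      _ = _ := by ring
  exact le_of_mul_le_mul_left h8 h6

lemma pe_gt {κ : ℝ} (h : 0 < κ) (h1 : κ < 1) : 2 < pe κ := by
  rw [pe, lt_div_iff₀ h]
  linarith

end BadN

open BadN in
theorem stBadN : StBadN := by
  intro κ hk hk1
  have hp := pe_gt hk hk1
  set p := pe κ with hpdef
  set q : ℝ := 11 * p * Real.exp 2 with hq
  have hq0 : 0 < q := by positivity
  obtain ⟨C, hC, hexp⟩ := K7.WMean.exp_mom (q := q) hq0.le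
  obtain ⟨M₀, hM₀⟩ := block_cond (C + 1) (by linarith)
  refine ⟨max M₀ 2, fun M hM => ?_⟩
  obtain ⟨T₀, hT₀, hb⟩ := hM₀ M ((le_max_left _ _).trans hM)
  have hM2 : 2 ≤ M := (le_max_right _ _).trans hM
  refine ⟨T₀, hT₀, fun T hT j hj => ?_⟩
  have hT1 : 1 < T := by linarith
  set K := KK M (JJ T) j with hK
  set l := ll M (JJ T) j with hl
  set S := Sj T M (JJ T) j with hS
  set n := nb κ T M j with hn
  have hK2 : 2 ≤ K := by
    have h1 := KK_ge_M (M := M) hj
    have h2 := Real.add_one_le_exp (3 / 4 * (M : ℝ))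
    have h3 : (2 : ℝ) ≤ M := by exact_mod_cast hM2
    linarith
  have hK0 : 0 < K := by linarith
  have hl1 : 10 * K ≤ (l : ℝ) := Nat.le_ceil _
  have hl2 : (l : ℝ) ≤ 10 * K + 1 := (Nat.ceil_lt_add_one (by positivity)).le
  have hn1 : p * l ≤ (n : ℝ) := Nat.le_ceil _
  have hn2 : (n : ℝ) ≤ p * l + 1 := (Nat.ceil_lt_add_one (by positivity)).le
  have hn3 : (n : ℝ) ≤ 11 * p * K := by nlinarith
  have hn4 : (n : ℝ) ≤ q * K * Real.exp (-2) := by
    have : q * K * Real.exp (-2) = 11 * p * K := by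
      rw [hq, Real.exp_neg]
      field_simp
    rw [this]
    exact hn3
  have hn5 : 10 * (p * K) ≤ (n : ℝ) := by nlinarith
  have hprime : ∀ x ∈ S, x.Prime := fun x hx => prime_Sj hT1 hx
  have h1 := hexp M S (by omega) hprime
  have h2 := (hb T hT j hj (1 / 2) le_rfl).1
  have e1 : ∑ x ∈ S, (x : ℝ) ^ (-(2 * (1 / 2 : ℝ))) = ∑ x ∈ S, (1 : ℝ) / x := by
    refine Finset.sum_congr rfl fun x _ => ?_
    rw [show -(2 * (1 / 2 : ℝ)) = -1 by norm_num, Real.rpow_neg_one, one_div]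
  rw [e1] at h2
  have hs0 : 0 ≤ ∑ x ∈ S, (1 : ℝ) / x := Finset.sum_nonneg fun x _ => by positivity
  have h3 : ES S (fun f => Real.exp (q * ‖Pj M S (tw (1 / 2) f)‖) ^ 2) ≤ Real.exp ((l : ℝ) / 2) := by
    refine h1.trans (le_trans ?_ h2)
    gcongr
    linarith
  have h4 : ES S (fun f => ‖(Pj M S (tw (1 / 2) f) / (K : ℂ)) ^ n‖ ^ 2) ≤
      ES S (fun f => Real.exp (-(4 * n)) * Real.exp (q * ‖Pj M S (tw (1 / 2) f)‖) ^ 2) := by
    refine ES_mono (fun ω => by positivity)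
      ((K7.WMean.bs_exp M S hq0.le).integrable.const_mul _) fun ω => ?_
    rw [norm_pow, norm_div, Complex.norm_real, Real.norm_of_nonneg hK0.le]
    exact pow_le hq0 (norm_nonneg _) hK0 hn4
  rw [ES_const_mul] at h4
  calc Real.exp (2 * p * K) * ES S (fun f => ‖(Pj M S (tw (1 / 2) f) / (K : ℂ)) ^ n‖ ^ 2)
      ≤ Real.exp (2 * p * K) * (Real.exp (-(4 * n)) * Real.exp ((l : ℝ) / 2)) := by
        gcongr
        exact h4.trans (by gcongr)
    _ = Real.exp (2 * p * K + (-(4 * n) + (l : ℝ) / 2)) := by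
        rw [← Real.exp_add, ← Real.exp_add]
    _ ≤ Real.exp (-K) := by
        apply Real.exp_le_exp.2
        have h5 : 2 * K ≤ p * K := by gcongr
        linarith

end K8
end Pool.Agent.Lib.MP_973905_nt
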