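import Pool.Agent.Lib.MP_973905_nt.K8.Stmts
import Pool.Agent.Lib.MP_973905_nt.K7.G7

/-! (N8) The Barnes quotient `G(1+k)^2 / G(1+2k)` for `1 < k < 2` from above. -/

namespace Pool.Agent.Lib.MP_973905_nt
namespace K8

open CK K5.GQ K7.G7M

namespace GuM

/-- comparison by convexity -/
lemma core_le (S : Finset ℕ) (p0 p1 p2 : ℝ)
    (h : ∀ s : ℝ, 0 ≤ s → s ≤ 1 → ∑ n ∈ S, ph s n ≤ p0 + p1 * s - p2 * s ^ 2) {κ : ℝ} (hk : 0 ≤ κ)
    (hk1 : κ ≤ 1) : ∑ n ∈ S, vv κ n ≤ qq p0 p1 p2 κ := by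
  have hc : ConcaveOn ℝ (Set.Icc 0 1) (fun s => qq p0 p1 p2 s - (∑ n ∈ S, vf n s)) := by
    apply concaveOn_of_hasDerivWithinAt2_nonpos (convex_Icc 0 1)
      (f' := fun s => (p0 * (1 - 2 * s) / 2 + p1 * (1 - 3 * s ^ 2) / 6 - p2 * (1 - 4 * s ^ 3) / 12) -
        (∑ n ∈ S, vd n s))
      (f'' := fun s => (-p0 - p1 * s + p2 * s ^ 2) - (∑ n ∈ S, -ph s n))
    · apply ContinuousOn.sub
      · unfold qq
        fun_prop
      · apply continuousOn_finsetSum
        intro n _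
        unfold vf
        have h2 : ∀ s ∈ Set.Icc (0 : ℝ) 1, (n : ℝ) + 2 + s ≠ 0 := by
          intro s hs
          have := hs.1
          positivity
        have h3 : ∀ s ∈ Set.Icc (0 : ℝ) 1, (n : ℝ) + 3 + 2 * s ≠ 0 := by
          intro s hs
          have := hs.1
          positivity
        fun_prop (disch := assumption)
    · intro s hs
      rw [interior_Icc] at hs
      apply HasDerivAt.hasDerivWithinAt
      apply HasDerivAt.fun_sub
      · have e : qq p0 p1 p2 = fun s => p0 * (s - s ^ 2) / 2 + p1 * (s - s ^ 3) / 6 -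
            p2 * (s - s ^ 4) / 12 := by
          funext s
          unfold qq
          ring
        rw [e]
        have := (((((hasDerivAt_id' s).fun_sub (hasDerivAt_pow 2 s)).const_mul p0).div_const 2).fun_add
          ((((hasDerivAt_id' s).fun_sub (hasDerivAt_pow 3 s)).const_mul p1).div_const 6)).fun_sub
          ((((hasDerivAt_id' s).fun_sub (hasDerivAt_pow 4 s)).const_mul p2).div_const 12)
        refine this.congr_deriv ?_
        norm_num
      · exact HasDerivAt.fun_sum fun n _ => hasDerivAt_vf n hs.1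
    · intro s hs
      rw [interior_Icc] at hs
      apply HasDerivAt.hasDerivWithinAt
      apply HasDerivAt.fun_sub
      · have := ((((((hasDerivAt_id' s).const_mul 2).const_sub 1).const_mul p0).div_const 2).fun_add
          (((((hasDerivAt_pow 2 s).const_mul 3).const_sub 1).const_mul p1).div_const 6)).fun_sub
          (((((hasDerivAt_pow 3 s).const_mul 4).const_sub 1).const_mul p2).div_const 12)
        refine this.congr_deriv ?_
        norm_num
        ring
      · exact HasDerivAt.fun_sum fun n _ => hasDerivAt_vd n hs.1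
    · intro s hs
      rw [interior_Icc] at hs
      have := h s hs.1.le hs.2.le
      rw [Finset.sum_neg_distrib]
      linarith
  have h1 := hc.2 (Set.left_mem_Icc.2 zero_le_one) (Set.right_mem_Icc.2 zero_le_one)
    (by linarith : 0 ≤ 1 - κ) hk (by ring)
  have z0 : ∑ n ∈ S, vf n 0 = 0 := Finset.sum_eq_zero fun n _ => by rw [← vv_eq le_rfl, vv_zero]
  have z1 : ∑ n ∈ S, vf n 1 = 0 := Finset.sum_eq_zero fun n _ => by rw [← vv_eq zero_le_one, vv_one]
  have q0 : qq p0 p1 p2 0 = 0 := by unfold qq; ring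
  have q1 : qq p0 p1 p2 1 = 0 := by unfold qq; ring
  simp only [smul_eq_mul, mul_zero, mul_one, zero_add] at h1
  rw [z0, z1, q0, q1] at h1
  have e : ∑ n ∈ S, vv κ n = ∑ n ∈ S, vf n κ := Finset.sum_congr rfl fun n _ => vv_eq hk n
  rw [e]
  linarith

/-- the derivative of `ph` -/
noncomputable def dp (n : ℕ) (s : ℝ) : ℝ :=
  ((n : ℝ) + 1) * (-4 / (n + 2 + s) ^ 3 + 16 / (n + 3 + 2 * s) ^ 3)

lemma hasDerivAt_ph (n : ℕ) {s : ℝ} (h0 : 0 < s) : HasDerivAt (fun s => ph s n) (dp n s) s := by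
  have h2 : (0 : ℝ) < n + 2 + s := by positivity
  have h3 : (0 : ℝ) < n + 3 + 2 * s := by positivity
  have l2 := (hasDerivAt_const s (2 : ℝ)).fun_div
    (((hasDerivAt_id' s).const_add ((n : ℝ) + 2)).fun_pow 2) (pow_ne_zero 2 h2.ne')
  have l3 := (hasDerivAt_const s (4 : ℝ)).fun_div
    ((((hasDerivAt_id' s).const_mul 2).const_add ((n : ℝ) + 3)).fun_pow 2) (pow_ne_zero 2 h3.ne')
  have := ((l2.fun_sub l3).add_const (2 * cc n)).const_mul ((n : ℝ) + 1)
  refine this.congr_deriv ?_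
  unfold dp
  push_cast
  field_simp
  ring

lemma conc (n : ℕ) : ConcaveOn ℝ (Set.Icc 0 1) (fun s => ph s n) := by
  apply concaveOn_of_hasDerivWithinAt2_nonpos (convex_Icc 0 1)
    (f' := fun s => dp n s)
    (f'' := fun s => ((n : ℝ) + 1) * (12 / (n + 2 + s) ^ 4 - 96 / (n + 3 + 2 * s) ^ 4))
  · unfold ph
    have h2 : ∀ s ∈ Set.Icc (0 : ℝ) 1, ((n : ℝ) + 2 + s) ^ 2 ≠ 0 := by
      intro s hs
      have := hs.1
      positivity
    have h3 : ∀ s ∈ Set.Icc (0 : ℝ) 1, ((n : ℝ) + 3 + 2 * s) ^ 2 ≠ 0 := by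
      intro s hs
      have := hs.1
      positivity
    fun_prop (disch := assumption)
  · intro s hs
    rw [interior_Icc] at hs
    exact (hasDerivAt_ph n hs.1).hasDerivWithinAt
  · intro s hs
    rw [interior_Icc] at hs
    have h0 := hs.1
    have h2 : (0 : ℝ) < n + 2 + s := by positivity
    have h3 : (0 : ℝ) < n + 3 + 2 * s := by positivity
    apply HasDerivAt.hasDerivWithinAt
    have l2 := (hasDerivAt_const s (-4 : ℝ)).fun_div
      (((hasDerivAt_id' s).const_add ((n : ℝ) + 2)).fun_pow 3) (pow_ne_zero 3 h2.ne')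
    have l3 := (hasDerivAt_const s (16 : ℝ)).fun_div
      ((((hasDerivAt_id' s).const_mul 2).const_add ((n : ℝ) + 3)).fun_pow 3) (pow_ne_zero 3 h3.ne')
    have := (l2.fun_add l3).const_mul ((n : ℝ) + 1)
    refine this.congr_deriv ?_
    push_cast
    field_simp
    ring
  · intro s hs
    rw [interior_Icc] at hs
    have h0 := hs.1
    have hs1 := hs.2
    have hn : (0 : ℝ) ≤ n := by positivity
    have h2 : (0 : ℝ) < n + 2 + s := by positivity
    have h3 : (0 : ℝ) < n + 3 + 2 * s := by positivity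
    apply mul_nonpos_of_nonneg_of_nonpos (by positivity)
    rw [sub_nonpos, div_le_div_iff₀ (by positivity) (by positivity)]
    have h4 : (n : ℝ) + 3 + 2 * s ≤ 5 / 3 * (n + 2 + s) := by linarith
    have h5 : ((n : ℝ) + 3 + 2 * s) ^ 4 ≤ (5 / 3 * (n + 2 + s)) ^ 4 :=
      pow_le_pow_left₀ h3.le h4 4
    rw [mul_pow] at h5
    have h6 : (0 : ℝ) ≤ (n + 2 + s) ^ 4 := by positivity
    norm_num at h5
    linarith

/-- tangents -/
lemma tang (n : ℕ) {c s : ℝ} (hc : 0 < c) (hc1 : c ≤ 1) (hs : 0 ≤ s) (hs1 : s ≤ 1) :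
    ph s n ≤ ph c n + dp n c * (s - c) := by
  have hcm : c ∈ Set.Icc (0 : ℝ) 1 := ⟨hc.le, hc1⟩
  have hsm : s ∈ Set.Icc (0 : ℝ) 1 := ⟨hs, hs1⟩
  rcases lt_trichotomy s c with h | h | h
  · have := (conc n).le_slope_of_hasDerivAt hsm hcm h (hasDerivAt_ph n hc)
    rw [slope_def_field, le_div_iff₀ (by linarith)] at this
    linarith
  · rw [h]
    linarith
  · have := (conc n).slope_le_of_hasDerivAt hcm hsm h (hasDerivAt_ph n hc)
    rw [slope_def_field, div_le_iff₀ (by linarith)] at this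
    linarith

/-! ### the first terms -/

lemma cc63_le : ∑ n ∈ Finset.range 63, ((n : ℝ) + 1) * cc n ≤ 318221 / 100000 := by
  rw [sum_cc]
  have h64 : Real.log 64 = 6 * Real.log 2 := by
    rw [show (64 : ℝ) = 2 ^ 6 by norm_num, Real.log_pow]
    norm_num
  have h65 : Real.log 65 = Real.log 64 + Real.log (1 + 1 / 64) := by
    rw [← Real.log_mul (by norm_num) (by norm_num)]
    norm_num
  have h1 := log_ge (x := 1 / 64) (by norm_num)
  have h2 := Real.log_two_lt_d9
  push_cast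
  norm_num only [h64, h65] at h1 ⊢
  linarith

/-- rational derivative -/
def ds (s : ℚ) : ℚ := ∑ n ∈ Finset.range 63, ((n : ℚ) + 1) * (-4 / (n + 2 + s) ^ 3 + 16 / (n + 3 + 2 * s) ^ 3)

lemma sum_dp (s : ℚ) : ∑ n ∈ Finset.range 63, dp n s = (ds s : ℝ) := by
  unfold ds dp
  push_cast
  rfl

lemma node_le (s r : ℚ) (h : rs s ≤ r) : ∑ n ∈ Finset.range 63, ph s n ≤ (r : ℝ) + 2 * (318221 / 100000) := by
  rw [sum_ph]
  have h1 := cc63_le
  have h2 : (rs s : ℝ) ≤ r := by exact_mod_cast h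
  linarith

/-- the tangent at a node, values rounded -/
lemma tan63 (c r d d' : ℚ) (hc : 0 < c) (hc1 : c ≤ 1) (hr : rs c ≤ r) (hd : d ≤ ds c) (hd' : ds c ≤ d')
    {s : ℝ} (hs : 0 ≤ s) (hs1 : s ≤ 1) : ∑ n ∈ Finset.range 63, ph s n ≤
      max (r + 2 * (318221 / 100000) + d * (s - c)) (r + 2 * (318221 / 100000) + d' * (s - c)) := by
  have hc' : (0 : ℝ) < c := by exact_mod_cast hc
  have hc1' : (c : ℝ) ≤ 1 := by exact_mod_cast hc1
  have h1 : ∑ n ∈ Finset.range 63, ph s n ≤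
      ∑ n ∈ Finset.range 63, (ph c n + dp n c * (s - c)) :=
    Finset.sum_le_sum fun n _ => tang n hc' hc1' hs hs1
  rw [Finset.sum_add_distrib, ← Finset.sum_mul, sum_dp] at h1
  have h2 := node_le c r hr
  have h3 : (d : ℝ) ≤ ds c := by exact_mod_cast hd
  have h4 : (ds c : ℝ) ≤ d' := by exact_mod_cast hd'
  rcases le_total s c with h | h
  · refine le_trans ?_ (le_max_left _ _)
    nlinarith
  · refine le_trans ?_ (le_max_right _ _)
    nlinarith

lemma first_le {s : ℝ} (hs : 0 ≤ s) (hs1 : s ≤ 1) :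
    ∑ n ∈ Finset.range 63, ph s n ≤ 261 / 100 + 7 / 4 * s - 1 / 2 * s ^ 2 := by
  have t1 := tan63 (1 / 8) (-354848 / 100000) (16646 / 10000) (16647 / 10000) (by norm_num)
    (by norm_num) (by decide +kernel) (by decide +kernel) (by decide +kernel) hs hs1
  have t2 := tan63 (1 / 4) (-335268 / 100000) (14750 / 10000) (14751 / 10000) (by norm_num)
    (by norm_num) (by decide +kernel) (by decide +kernel) (by decide +kernel) hs hs1
  have t3 := tan63 (1 / 2) (-302138 / 100000) (11930 / 10000) (11931 / 10000) (by norm_num)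
    (by norm_num) (by decide +kernel) (by decide +kernel) (by decide +kernel) hs hs1
  have t4 := tan63 1 (-252005 / 100000) (8467 / 10000) (8468 / 10000) (by norm_num)
    (by norm_num) (by decide +kernel) (by decide +kernel) (by decide +kernel) hs hs1
  push_cast at t1 t2 t3 t4
  rcases le_total s (3 / 16) with h | h
  · refine le_trans t1 (max_le ?_ ?_) <;> nlinarith
  rcases le_total s (37 / 100) with h' | h'
  · refine le_trans t2 (max_le ?_ ?_) <;> nlinarith
  rcases le_total s (72 / 100) with h'' | h''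
  · refine le_trans t3 (max_le ?_ ?_) <;> nlinarith
  · refine le_trans t4 (max_le ?_ ?_) <;> nlinarith

/-! ### the other terms -/

lemma tail_le (n : ℕ) {s : ℝ} (hs : 0 ≤ s) (hs1 : s ≤ 1) :
    ph s n ≤ 8 / (((n : ℝ) + 2) * (n + 3)) + 12 / (((n : ℝ) + 2) * (n + 3)) * s := by
  have hcc : cc n ≤ 1 / (((n : ℝ) + 1) * (n + 3)) := by
    unfold cc
    have := Real.log_le_sub_one_of_pos (x := 1 + 1 / (((n : ℝ) + 1) * (n + 3))) (by positivity)
    linarith
  unfold ph
  refine le_trans (mul_le_mul_of_nonneg_left (add_le_add_right (mul_le_mul_of_nonneg_left hcc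
    (by norm_num : (0 : ℝ) ≤ 2)) _) (by positivity)) ?_
  rw [← sub_nonneg]
  have hn : (0 : ℝ) ≤ n := by positivity
  generalize (n : ℝ) = x at hn ⊢
  obtain ⟨m, rfl⟩ : ∃ m, x = m - 1 := ⟨x + 1, by ring⟩
  obtain ⟨u, rfl⟩ : ∃ u, s = u - 1 := ⟨s + 1, by ring⟩
  have hm : 1 ≤ m := by linarith
  have hu : 1 ≤ u := by linarith
  have e : 8 / ((m - 1 + 2) * (m - 1 + 3)) + 12 / ((m - 1 + 2) * (m - 1 + 3)) * (u - 1) -
      (m - 1 + 1) * (2 / (m - 1 + 2 + (u - 1)) ^ 2 - 4 / (m - 1 + 3 + 2 * (u - 1)) ^ 2 +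
        2 * (1 / ((m - 1 + 1) * (m - 1 + 3)))) =
      2 * ((21 * u ^ 2 - 18 * u + 2) * m ^ 3 + (66 * u ^ 3 - 45 * u ^ 2) * m ^ 2 +
        (68 * u ^ 4 - 36 * u ^ 3 - 4 * u ^ 2) * m + (24 * u ^ 5 - 12 * u ^ 4)) /
        ((m + 1) * (m + 2) * (m + u) ^ 2 * (m + 2 * u) ^ 2) := by
    rw [show m - 1 + 1 = m by ring, show m - 1 + 2 = m + 1 by ring,
      show m - 1 + 3 = m + 2 by ring, show m + 1 + (u - 1) = m + u by ring,
      show m + 2 + 2 * (u - 1) = m + 2 * u by ring]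
    have h0 : m ≠ 0 := by linarith
    have h1 : m + 1 ≠ 0 := by linarith
    have h2 : m + 2 ≠ 0 := by linarith
    have h3 : m + u ≠ 0 := by linarith
    have h4 : m + 2 * u ≠ 0 := by linarith
    field_simp
    ring
  rw [e]
  have a1 : 0 ≤ 21 * u ^ 2 - 18 * u + 2 := by nlinarith
  have a2 : 0 ≤ 66 * u ^ 3 - 45 * u ^ 2 := by
    have : 66 * u ^ 3 - 45 * u ^ 2 = u ^ 2 * (66 * u - 45) := by ring
    rw [this]
    exact mul_nonneg (by positivity) (by linarith)
  have a3 : 0 ≤ 68 * u ^ 4 - 36 * u ^ 3 - 4 * u ^ 2 := by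
    have : 68 * u ^ 4 - 36 * u ^ 3 - 4 * u ^ 2 = u ^ 2 * (68 * u ^ 2 - 36 * u - 4) := by ring
    rw [this]
    exact mul_nonneg (by positivity) (by nlinarith)
  have a4 : 0 ≤ 24 * u ^ 5 - 12 * u ^ 4 := by
    have : 24 * u ^ 5 - 12 * u ^ 4 = u ^ 4 * (24 * u - 12) := by ring
    rw [this]
    exact mul_nonneg (by positivity) (by linarith)
  have hm0 : 0 ≤ m := by linarith
  have hu0 : 0 ≤ u := by linarith
  apply div_nonneg
  · have b1 := mul_nonneg a1 (pow_nonneg hm0 3)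
    have b2 := mul_nonneg a2 (pow_nonneg hm0 2)
    have b3 := mul_nonneg a3 hm0
    linarith
  · positivity

lemma term_le {κ : ℝ} (hk : 0 ≤ κ) (hk1 : κ ≤ 1) (n : ℕ) :
    vv κ n ≤ κ * (1 - κ) * (3 + κ) * (2 / (((n : ℝ) + 2) * (n + 2 + 1))) := by
  have h := core_le {n} (8 / (((n : ℝ) + 2) * (n + 3))) (12 / (((n : ℝ) + 2) * (n + 3))) 0
    (fun s hs hs1 => ?_) hk hk1
  · rw [Finset.sum_singleton] at h
    refine le_trans h (le_of_eq ?_)
    have : (n : ℝ) + 2 + 1 = n + 3 := by ring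
    rw [this]
    unfold qq
    ring
  · rw [Finset.sum_singleton]
    have := tail_le n hs hs1
    linarith

lemma sum_le {κ : ℝ} (hk : 0 ≤ κ) (hk1 : κ ≤ 1) :
    ∑' n, vv κ n ≤ qq (261 / 100) (7 / 4) (1 / 2) κ + κ * (1 - κ) * (3 + κ) * (2 / 65) := by
  have hp : 0 ≤ κ * (1 - κ) * (3 + κ) :=
    mul_nonneg (mul_nonneg hk (by linarith)) (by linarith)
  have ht := (summable_vv hk).hasSum.tendsto_sum_nat
  refine le_of_tendsto ht ?_
  filter_upwards [Filter.eventually_ge_atTop 63] with N hN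
  obtain ⟨j, rfl⟩ := Nat.exists_eq_add_of_le hN
  rw [Finset.sum_range_add]
  have h1 := core_le (Finset.range 63) (261 / 100) (7 / 4) (1 / 2)
    (fun s hs hs1 => first_le hs hs1) hk hk1
  have h2 : ∑ i ∈ Finset.range j, vv κ (63 + i) ≤
      ∑ i ∈ Finset.range j, κ * (1 - κ) * (3 + κ) * (2 / (((i : ℝ) + 65) * (i + 65 + 1))) := by
    apply Finset.sum_le_sum
    intro i _
    refine le_trans (term_le hk hk1 (63 + i)) (le_of_eq ?_)
    push_cast
    have e1 : (63 : ℝ) + i + 2 = i + 65 := by ring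
    rw [e1]
  rw [← Finset.mul_sum, tele 65 (by norm_num)] at h2
  have h3 : κ * (1 - κ) * (3 + κ) * (2 / 65 - 2 / (j + 65)) ≤ κ * (1 - κ) * (3 + κ) * (2 / 65) := by
    apply mul_le_mul_of_nonneg_left _ hp
    have : (0 : ℝ) ≤ 2 / (j + 65) := by positivity
    linarith
  linarith

lemma log12 : 24846 / 10000 ≤ Real.log 12 := by
  have e : Real.log 12 = 2 * Real.log 2 + Real.log 3 := by
    rw [show (12 : ℝ) = 2 ^ 2 * 3 by norm_num, Real.log_mul (by norm_num) (by norm_num), Real.log_pow]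
    norm_num
  have e2 : 2 * Real.log 3 = 3 * Real.log 2 + Real.log (1 + 1 / 8) := by
    have h9 : Real.log 9 = 2 * Real.log 3 := by
      rw [show (9 : ℝ) = 3 ^ 2 by norm_num, Real.log_pow]
      norm_num
    have h8 : Real.log 8 = 3 * Real.log 2 := by
      rw [show (8 : ℝ) = 2 ^ 3 by norm_num, Real.log_pow]
      norm_num
    rw [← h9, ← h8, ← Real.log_mul (by norm_num) (by norm_num)]
    norm_num
  have h1 := log_ge (x := 1 / 8) (by norm_num)
  have h2 := Real.log_two_gt_d9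
  norm_num only at h1 h2 e2 ⊢
  rw [e]
  linarith

end GuM

open GuM in
/-- (N8) -/
theorem stGu : StGu := by
  intro κ hk hk1
  have h := sum_le hk.le hk1.le
  have e : ∑' n, K7.G7M.vv κ n = ∑' n, ww (1 + κ) n + κ * Real.log 12 := by
    unfold K7.G7M.vv
    rw [Summable.tsum_sub (summable_ww (by linarith)) ((summable_ww (by norm_num)).mul_left κ),
      tsum_mul_left, sum_two]
    ring
  rw [quot_ww (by linarith)]
  apply Real.exp_le_exp.2
  have hl := mul_le_mul_of_nonneg_left log12 hk.le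
  have e2 : qq (261 / 100) (7 / 4) (1 / 2) κ + κ * (1 - κ) * (3 + κ) * (2 / 65) ≤
      κ * (24846 / 10000) - κ * (83 / 100 + 7 / 5 * κ + 1 / 5 * κ ^ 2) := by
    unfold qq
    have : 0 ≤ (24846 / 10000 - (83 / 100 + 7 / 5 * κ + 1 / 5 * κ ^ 2)) -
        (1 - κ) * (261 / 100 / 2 + 7 / 4 * (1 + κ) / 6 - 1 / 2 * (1 + κ + κ ^ 2) / 12 +
          (3 + κ) * (2 / 65)) := by
      nlinarith [sq_nonneg (κ - 3 / 20), mul_nonneg hk.le (sq_nonneg (κ - 3 / 20))]
    nlinarith [mul_nonneg hk.le this]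
  linarith

end K8
end Pool.Agent.Lib.MP_973905_nt
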