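import Pool.Agent.Lib.MP_973905_nt.K8.Base
import Pool.Agent.Lib.MP_973905_nt.K1.Lower

/-! Module (H): Hölder's inequality. -/

namespace Pool.Agent.Lib.MP_973905_nt
namespace K8

open MeasureTheory ProbabilityTheory Complex Filter Topology K1 K4 K5

namespace Hold8

/-! ### Hölder's inequality for continuous functions on `[0, T]` -/

lemma memLp_cont {T : ℝ} {F : ℝ → ℝ} (cF : Continuous F) (p : ENNReal) :
    MemLp F p (volume.restrict (Set.Ioc (0 : ℝ) T)) := by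
  obtain ⟨B, hB⟩ := (isCompact_Icc (a := (0 : ℝ)) (b := T)).exists_bound_of_continuousOn
    cF.continuousOn
  refine MemLp.of_bound cF.aestronglyMeasurable B ?_
  exact ae_restrict_of_forall_mem measurableSet_Ioc fun x hx => hB x ⟨hx.1.le, hx.2⟩

lemma holder {k κ T : ℝ} (hκ : 0 < κ) (hk : k = 1 + κ) (hT : 0 < T) {F G V : ℝ → ℝ}
    (cF : Continuous F) (cG : Continuous G) (cV : Continuous V) (hF : ∀ t, 0 ≤ F t)
    (hG : ∀ t, 0 ≤ G t) (hGV : ∀ t, G t ^ pe κ ≤ V t) :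
    T⁻¹ * ∫ t in (0 : ℝ)..T, F t * G t ≤
      (T⁻¹ * ∫ t in (0 : ℝ)..T, F t ^ k) ^ (1 / k) * (T⁻¹ * ∫ t in (0 : ℝ)..T, V t) ^ (κ / k) := by
  have hk0 : 0 < k := by linarith
  have hpe : pe κ = k / κ := by rw [pe, hk]
  have hp0 : 0 < pe κ := by rw [hpe]; positivity
  have h1p : 1 / pe κ = κ / k := by rw [hpe, one_div_div]
  have hpq : k.HolderConjugate (pe κ) := by
    rw [Real.holderConjugate_iff]
    refine ⟨by linarith, ?_⟩
    rw [hpe, hk]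
    field_simp
  simp only [intervalIntegral.integral_of_le hT.le]
  set μ := volume.restrict (Set.Ioc (0 : ℝ) T) with hμ
  have h1 := integral_mul_le_Lp_mul_Lq_of_nonneg (μ := μ) hpq (f := F) (g := G)
    (Eventually.of_forall hF) (Eventually.of_forall hG) (memLp_cont cF _) (memLp_cont cG _)
  have cGp : Continuous fun t => G t ^ pe κ := cG.rpow_const fun t => Or.inr hp0.le
  have h2 : ∫ t, G t ^ pe κ ∂μ ≤ ∫ t, V t ∂μ := by
    refine integral_mono ?_ ?_ hGV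
    · exact memLp_one_iff_integrable.mp (memLp_cont cGp 1)
    · exact memLp_one_iff_integrable.mp (memLp_cont cV 1)
  have h3 : 0 ≤ ∫ t, G t ^ pe κ ∂μ := integral_nonneg fun t => Real.rpow_nonneg (hG t) _
  have h4 : 0 ≤ ∫ t, F t ^ k ∂μ := integral_nonneg fun t => Real.rpow_nonneg (hF t) _
  have h5 : 0 ≤ ∫ t, V t ∂μ := h3.trans h2
  have hTi : 0 < T⁻¹ := inv_pos.mpr hT
  rw [Real.mul_rpow hTi.le h4, Real.mul_rpow hTi.le h5, h1p] at *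
  have h6 : T⁻¹ ^ (1 / k) * T⁻¹ ^ (κ / k) = T⁻¹ := by
    rw [← Real.rpow_add hTi, ← add_div, ← hk, div_self hk0.ne', Real.rpow_one]
  have h7 : (∫ t, G t ^ pe κ ∂μ) ^ (κ / k) ≤ (∫ t, V t ∂μ) ^ (κ / k) :=
    Real.rpow_le_rpow h3 h2 (by positivity)
  calc T⁻¹ * ∫ t, F t * G t ∂μ
      ≤ T⁻¹ * ((∫ t, F t ^ k ∂μ) ^ (1 / k) * (∫ t, G t ^ pe κ ∂μ) ^ (κ / k)) := by
        gcongr
    _ ≤ T⁻¹ * ((∫ t, F t ^ k ∂μ) ^ (1 / k) * (∫ t, V t ∂μ) ^ (κ / k)) := by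
        have : 0 ≤ (∫ t, F t ^ k ∂μ) ^ (1 / k) := Real.rpow_nonneg h4 _
        gcongr
    _ = T⁻¹ ^ (1 / k) * T⁻¹ ^ (κ / k) *
          ((∫ t, F t ^ k ∂μ) ^ (1 / k) * (∫ t, V t ∂μ) ^ (κ / k)) := by rw [h6]
    _ = _ := by ring

/-- solving for the moment -/
lemma solve {k κ z0 Z I V v0 : ℝ} (hκ : 0 < κ) (hk : k = 1 + κ) (hz0 : 0 < z0) (hI : 0 ≤ I)
    (hV : 0 ≤ V) (hv0 : 0 < v0) (hzZ : z0 ≤ Z) (hVv : V ≤ v0)
    (h : Z ≤ I ^ (1 / k) * V ^ (κ / k)) : z0 ^ k / v0 ^ κ ≤ I := by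
  have hk0 : 0 < k := by linarith
  have h1 : z0 ≤ I ^ (1 / k) * v0 ^ (κ / k) := by
    refine (hzZ.trans h).trans ?_
    have h2 : V ^ (κ / k) ≤ v0 ^ (κ / k) := Real.rpow_le_rpow hV hVv (by positivity)
    have h3 : 0 ≤ I ^ (1 / k) := Real.rpow_nonneg hI _
    gcongr
  have h2 : z0 ^ k ≤ I * v0 ^ κ := by
    calc z0 ^ k ≤ (I ^ (1 / k) * v0 ^ (κ / k)) ^ k := Real.rpow_le_rpow hz0.le h1 hk0.le
      _ = I * v0 ^ κ := by
        rw [Real.mul_rpow (Real.rpow_nonneg hI _) (Real.rpow_nonneg hv0.le _), ← Real.rpow_mul hI,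
          ← Real.rpow_mul hv0.le, one_div_mul_cancel hk0.ne', Real.rpow_one,
          div_mul_cancel₀ _ hk0.ne']
  rw [div_le_iff₀ (Real.rpow_pos_of_pos hv0 _)]
  exact h2

/-! ### the constants -/

lemma small {κ η η' ρ : ℝ} (hκ : 0 < κ) (hκ1 : κ < 1) (hη' : 0 < η') (h1 : η' ≤ 1 / 40)
    (h2 : 21 * η' ≤ η) (hρ : ρ ≤ 9 / 10) :
    (1 - η) * (1 - ρ) ^ (1 + κ) ≤ (1 - ρ - η') ^ (1 + κ) / (1 + η') ^ κ := by
  have a0 : 0 < 1 - ρ := by linarith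
  have a1 : (1 - ρ) * (1 - 10 * η') ≤ 1 - ρ - η' := by nlinarith
  have a2 : 0 < 1 - 10 * η' := by linarith
  have a3 : (1 - ρ) ^ (1 + κ) * (1 - 10 * η') ^ (1 + κ) ≤ (1 - ρ - η') ^ (1 + κ) := by
    rw [← Real.mul_rpow a0.le a2.le]
    exact Real.rpow_le_rpow (by positivity) a1 (by linarith)
  have a4 : (1 - 10 * η') ^ 2 ≤ (1 - 10 * η') ^ (1 + κ) := by
    rw [← Real.rpow_natCast (1 - 10 * η') 2]
    refine Real.rpow_le_rpow_of_exponent_ge a2 (by linarith) ?_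
    push_cast
    linarith
  have a5 : (1 + η') ^ κ ≤ 1 + η' := by
    have := Real.rpow_le_rpow_of_exponent_le (show 1 ≤ 1 + η' by linarith) hκ1.le
    rwa [Real.rpow_one] at this
  have a6 : 0 < (1 + η') ^ κ := Real.rpow_pos_of_pos (by linarith) _
  have a7 : 0 < (1 - ρ) ^ (1 + κ) := Real.rpow_pos_of_pos a0 _
  rw [le_div_iff₀ a6]
  have a8 : (1 - η) * (1 + η') ^ κ ≤ (1 - 10 * η') ^ 2 := by
    rcases le_or_gt (1 - η) 0 with h | h
    · have : (1 - η) * (1 + η') ^ κ ≤ 0 := mul_nonpos_of_nonpos_of_nonneg h a6.le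
      nlinarith [sq_nonneg (1 - 10 * η')]
    · calc (1 - η) * (1 + η') ^ κ ≤ (1 - η) * (1 + η') := by gcongr
        _ ≤ (1 - 10 * η') ^ 2 := by nlinarith
  calc (1 - η) * (1 - ρ) ^ (1 + κ) * (1 + η') ^ κ
      = (1 - ρ) ^ (1 + κ) * ((1 - η) * (1 + η') ^ κ) := by ring
    _ ≤ (1 - ρ) ^ (1 + κ) * (1 - 10 * η') ^ 2 := by gcongr
    _ ≤ (1 - ρ) ^ (1 + κ) * (1 - 10 * η') ^ (1 + κ) := by gcongr
    _ ≤ _ := a3

/-- the powers of `log T` and of the constants -/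
lemma powers {κ A e L P Q s η' : ℝ} (hA : 0 < A) (hL : 0 < L) (hP : 0 < P)
    (hQ : 0 < Q) (hs : 0 < s) (hη' : 0 < η') :
    (A * (Real.exp e * L) ^ ((1 + κ) ^ 2 - 1) * L * P * s) ^ (1 + κ) /
      ((1 + η') * (A * (Real.exp e * L) ^ ((1 + κ) ^ 2) * Q)) ^ κ =
    A * L ^ ((1 + κ) ^ 2) * (Real.exp (e * (κ * (1 + κ))) * P ^ (1 + κ) / Q ^ κ) *
      (s ^ (1 + κ) / (1 + η') ^ κ) := by
  obtain ⟨a, rfl⟩ : ∃ a, Real.exp a = A := ⟨Real.log A, Real.exp_log hA⟩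
  obtain ⟨l, rfl⟩ : ∃ a, Real.exp a = L := ⟨Real.log L, Real.exp_log hL⟩
  obtain ⟨p, rfl⟩ : ∃ a, Real.exp a = P := ⟨Real.log P, Real.exp_log hP⟩
  obtain ⟨q, rfl⟩ : ∃ a, Real.exp a = Q := ⟨Real.log Q, Real.exp_log hQ⟩
  obtain ⟨u, rfl⟩ : ∃ a, Real.exp a = s := ⟨Real.log s, Real.exp_log hs⟩
  obtain ⟨v, hv⟩ : ∃ a, Real.exp a = 1 + η' := ⟨Real.log (1 + η'), Real.exp_log (by linarith)⟩
  rw [← hv]
  simp only [← Real.exp_add, ← Real.exp_mul, ← Real.exp_sub]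
  congr 1
  ring

end Hold8

theorem stHold8 (hZ : StSideZ) (hV : StSideV) (hp : StPt8) (hc : StCont8) (hr : StRhoZ)
    (hA : K7.StAK7) : StHold8 := by
  intro κ hκ hκ1 η hη
  set η' := min η 1 / 40 with hη'
  have hη0 : 0 < η' := by rw [hη']; positivity
  have hη1 : η' ≤ 1 / 40 := by rw [hη']; have := min_le_right η 1; linarith
  have hη2 : 21 * η' ≤ η := by
    have := min_le_left η 1
    have h2 : 0 < min η 1 := by positivity
    rw [hη']; linarith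
  obtain ⟨M₁, h1⟩ := hZ κ hκ hκ1 η' hη0
  obtain ⟨M₂, h2⟩ := hV κ hκ hκ1 η' hη0
  obtain ⟨M₃, h3⟩ := hp κ hκ hκ1
  obtain ⟨M₄, h4⟩ := hc κ hκ hκ1
  obtain ⟨K, -, h5⟩ := hr
  refine ⟨max (max M₁ M₂) (max M₃ M₄), fun M hM C hC => ?_⟩
  have m1 : M₁ ≤ M := ((le_max_left _ _).trans (le_max_left _ _)).trans hM
  have m2 : M₂ ≤ M := ((le_max_right _ _).trans (le_max_left _ _)).trans hM
  have m3 : M₃ ≤ M := ((le_max_left _ _).trans (le_max_right _ _)).trans hM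
  have m4 : M₄ ≤ M := ((le_max_right _ _).trans (le_max_right _ _)).trans hM
  obtain ⟨T₁, t1, k1⟩ := h1 M m1 C hC
  obtain ⟨T₂, t2, k2⟩ := h2 M m2 C hC
  obtain ⟨T₄, t4, k4⟩ := h4 M m4 C hC
  obtain ⟨-, hZp, hVp, hρ0, -, -, -⟩ := h5 κ hκ hκ1 M C hC
  refine ⟨max T₁ (max T₂ T₄), t1.trans (le_max_left _ _), fun T hT => ?_⟩
  have u1 : T₁ ≤ T := (le_max_left _ _).trans hT
  have u2 : T₂ ≤ T := ((le_max_left _ _).trans (le_max_right _ _)).trans hT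
  have u4 : T₄ ≤ T := ((le_max_right _ _).trans (le_max_right _ _)).trans hT
  have hT3 : 3 ≤ T := t1.trans u1
  have hT0 : 0 < T := by linarith
  have hL : 0 < Real.log T := Real.log_pos (by linarith)
  have b1 := k1 T u1
  have b2 := k2 T u2
  obtain ⟨cW, -, cV, hV0, -⟩ := k4 T u4
  have hAp : 0 < aK (1 + κ) := (hA (1 + κ) (by linarith) (by linarith)).1
  set P := ∏ i ∈ Finset.range C.N, aZ C i with hP
  set Q := ∏ i ∈ Finset.range C.N, aV κ C i with hQ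
  have hPp : 0 < P := Finset.prod_pos fun i hi => hZp i (Finset.mem_range.mp hi)
  have hQp : 0 < Q := Finset.prod_pos fun i hi => hVp i (Finset.mem_range.mp hi)
  have hs : 0 < 1 - rho8 C - η' := by have := hC.hrho; linarith
  have hlM : 0 < lM T M := by unfold lM; positivity
  have cz : Continuous fun t : ℝ => ‖riemannZeta (1 / 2 + t * I)‖ ^ 2 :=
    K1.Lower.continuous_zeta_half.norm.pow 2
  have cG : Continuous fun t : ℝ => ‖GW κ C T M (fs (1 / 2 + t * I))‖ ^ 2 := cW.norm.pow 2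
  have b3 := Hold8.holder hκ rfl hT0 cz cG cV (fun t => by positivity) (fun t => by positivity)
    (fun t => h3 M m3 C hC T _)
  have e1 : ∀ t : ℝ, (‖riemannZeta (1 / 2 + t * I)‖ ^ 2) ^ (1 + κ) =
      ‖riemannZeta (1 / 2 + t * I)‖ ^ (2 * (1 + κ)) := by
    intro t
    rw [← Real.rpow_natCast _ 2, ← Real.rpow_mul (norm_nonneg _)]
    norm_num
  simp only [e1] at b3
  have hI0 : 0 ≤ T⁻¹ * ∫ t in (0 : ℝ)..T, ‖riemannZeta (1 / 2 + t * I)‖ ^ (2 * (1 + κ)) := by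
    refine mul_nonneg (inv_pos.mpr hT0).le ?_
    exact intervalIntegral.integral_nonneg hT0.le fun t _ => Real.rpow_nonneg (norm_nonneg _) _
  have hV1 : 0 ≤ T⁻¹ * ∫ t in (0 : ℝ)..T, VV8 κ C T M (fs (1 / 2 + t * I)) := by
    refine mul_nonneg (inv_pos.mpr hT0).le ?_
    exact intervalIntegral.integral_nonneg hT0.le fun t _ => hV0 _
  have b4 := Hold8.solve hκ rfl (by positivity) hI0 hV1 (by positivity) b1 b2 b3
  refine le_trans ?_ b4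
  unfold lM
  rw [Hold8.powers hAp hL hPp hQp hs hη0]
  have b5 := Hold8.small hκ hκ1 hη0 hη1 hη2 hC.hrho
  have hr1 : 0 ≤ 1 - rho8 C := by have := hC.hrho; linarith
  rw [Real.mul_rpow hPp.le hr1]
  calc _ = aK (1 + κ) * Real.log T ^ ((1 + κ) ^ 2) *
        (Real.exp ((Real.eulerMascheroniConstant - M) * (κ * (1 + κ))) * P ^ (1 + κ) / Q ^ κ) *
        ((1 - η) * (1 - rho8 C) ^ (1 + κ)) := by ring
    _ ≤ _ := by gcongr

end K8
end Pool.Agent.Lib.MP_973905_nt
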