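import Pool.Agent.Lib.MP_973905_nt.K8.Defs

/-! Statements (as propositions) of the modules of folder K8 (lower bounds, `1 < k < 2`). -/

namespace Pool.Agent.Lib.MP_973905_nt
namespace K8

open MeasureTheory ProbabilityTheory Complex Filter Topology K1 K4 K5

/-! ### Part Z: the side of zeta -/

/-- (Z1) the complex Gaussian limit of one top block (compare `K5.StGaussBlock`) -/
def StGaussC : Prop := ∀ lo hi c : ℝ, 0 < lo → lo < hi → hi ≤ 1 → ∀ n : ℕ, ∀ ε : ℝ, 0 < ε →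
    ∃ T₀ : ℝ, 3 ≤ T₀ ∧ ∀ T, T₀ ≤ T → ∀ S : Finset ℕ,
    S = PS (Real.exp (lo * Real.log T)) (Real.exp (hi * Real.log T)) →
    (∀ u : ℂ, ‖u‖ ≤ 1 → ‖ES S (fun f => ZZ S (tw (1 / 2 + u / Real.log T) f) *
        (starRingEnd ℂ) (ZZ S (tw (1 / 2 + (starRingEnd ℂ) (u / Real.log T)) f)) *
        ((‖(∑ p ∈ S, tw (1 / 2) f p) + (c : ℂ)‖ ^ (2 * n) : ℝ) : ℂ)) *
        ∏ p ∈ S, (1 - (p : ℂ) ^ (-(1 + u / Real.log T + u / Real.log T))) -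
      LG n (vv lo hi u + (c : ℂ)) ((Real.log (hi / lo) : ℝ) : ℂ)‖ ≤ ε) ∧
    |ES S (fun f => ‖(∑ p ∈ S, tw (1 / 2) f p) + (c : ℂ)‖ ^ (2 * n)) -
      LG n c (Real.log (hi / lo))| ≤ ε

/-- (Z2) the limits of the top factors (compare `K5.StTopLim`) -/
def StTop8 : Prop := ∀ κ : ℝ, 0 < κ → κ < 1 → ∀ (M : ℕ) (C : Cfg), Adm κ M C → ∀ i, i < C.N →
    ∀ ε : ℝ, 0 < ε → ∃ T₀ : ℝ, 3 ≤ T₀ ∧ ∀ T, T₀ ≤ T →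
    (∀ u : ℂ, ‖u‖ ≤ 1 → ‖ETz C T (u / Real.log T) i -
      LG (C.D i) (vv (C.te (i + 1)) (C.te i) u + (C.c i : ℂ)) (C.V i : ℂ) /
        (C.m i : ℂ) ^ (2 * C.D i)‖ ≤ ε) ∧
    |ES (C.U T i) (fun f => VT κ C T i (tw (1 / 2) f)) - aV κ C i| ≤ ε

/-- (Z3) facts on the limits (compare `K5.StRho`) -/
def StRhoZ : Prop := ∃ K : ℝ, 1 ≤ K ∧ ∀ κ : ℝ, 0 < κ → κ < 1 → ∀ (M : ℕ) (C : Cfg), Adm κ M C →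
    Differentiable ℂ (rhoZ C) ∧ (∀ i, i < C.N → 0 < aZ C i) ∧ (∀ i, i < C.N → 0 < aV κ C i) ∧
    0 ≤ rho8 C ∧
    rhoZ C 0 = ((∏ i ∈ Finset.range C.N, aZ C i : ℝ) : ℂ) ∧
    deriv (rhoZ C) 0 = ((-(rho8 C * ∏ i ∈ Finset.range C.N, aZ C i) : ℝ) : ℂ) ∧
    ∀ u : ℂ, ‖u‖ ≤ 1 → ‖rhoZ C u‖ ≤ K * ∏ i ∈ Finset.range C.N, aZ C i

/-- (Z4) the arithmetic factor is a product over the blocks (compare `K7.StFactA`) -/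
def StFactZ : Prop := ∀ κ : ℝ, 0 < κ → κ < 1 → ∀ (M : ℕ) (C : Cfg), Adm κ M C → ∃ T₀ : ℝ,
    3 ≤ T₀ ∧ ∀ T, T₀ ≤ T → ∀ (N : ℕ) (c : ℕ → ℕ → ℂ), (N : ℝ) ≤ T →
    (∀ f, CMul f → ((‖GW κ C T M f‖ ^ 2 : ℝ) : ℂ) = GB N c f) →
      ∀ w : ℂ, ‖w‖ ≤ 1 / Real.log T → RB N c w =
        (∏ j ∈ Finset.range (JJ T + 1), EBo T M (1 + κ) (Finset.range (JJ T + 1)) ∅ w j) *
          ∏ i ∈ Finset.range C.N, ETz C T w i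

/-- (Z5) our weight belongs to the class (compare `K5.StBQ`) -/
def StBQZ : Prop := ∀ κ : ℝ, 0 < κ → κ < 1 → ∃ M₀ : ℕ, ∀ M : ℕ, M₀ ≤ M → ∀ C : Cfg, Adm κ M C →
    ∃ T₀ : ℝ, 3 ≤ T₀ ∧ ∀ T, T₀ ≤ T →
    BQ (T ^ (89 / 100 : ℝ)) (T ^ (1 / 1000 : ℝ)) (fun f => ((‖GW κ C T M f‖ ^ 2 : ℝ) : ℂ))

/-- (Z6) lower bound for the Gaussian means of `|ζ|² |GW|²` (compare `K5.StSecF`) -/
def StSecZ : Prop := ∀ κ : ℝ, 0 < κ → κ < 1 → ∀ η : ℝ, 0 < η → ∃ M₀ : ℕ, ∀ M : ℕ, M₀ ≤ M →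
    ∀ C : Cfg, Adm κ M C → ∃ T₀ : ℝ, 3 ≤ T₀ ∧ ∀ T, T₀ ≤ T → ∀ τ : ℝ, T / Real.log T ≤ |τ| →
    |τ| ≤ 3 / 2 * T →
    aK (1 + κ) * lM T M ^ ((1 + κ) ^ 2 - 1) * Real.log T * (∏ i ∈ Finset.range C.N, aZ C i) *
      (1 - rho8 C - η) ≤
    EG T τ (fun t => ‖riemannZeta (1 / 2 + t * I)‖ ^ 2 * ‖GW κ C T M (fs (1 / 2 + t * I))‖ ^ 2)

/-- (Z7) from Gaussian means to the mean over `[0, T]` (compare `K3.StAvgLow`) -/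
def StAvL : Prop := ∃ C T₀ : ℝ, 0 < C ∧ 3 ≤ T₀ ∧ ∀ T, T₀ ≤ T → ∀ F : ℝ → ℝ, Continuous F →
    (∀ t, 0 ≤ F t) → (∀ t, F t ≤ T ^ 6 * (1 + |t|) ^ 6) → ∀ D : ℝ, 0 ≤ D →
    (∀ τ : ℝ, T / Real.log T ≤ |τ| → |τ| ≤ 3 / 2 * T → D ≤ EG T τ F) →
    (1 - C / Real.log T) * D ≤ T⁻¹ * (∫ t in (0 : ℝ)..T, F t) + 1 / T

/-- (Z8) continuity and size of our functions on the critical line -/
def StCont8 : Prop := ∀ κ : ℝ, 0 < κ → κ < 1 → ∃ M₀ : ℕ, ∀ M : ℕ, M₀ ≤ M → ∀ C : Cfg, Adm κ M C →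
    ∃ T₀ : ℝ, 3 ≤ T₀ ∧ ∀ T, T₀ ≤ T →
    (Continuous fun t : ℝ => GW κ C T M (fs (1 / 2 + t * I))) ∧
    (∀ t : ℝ, ‖GW κ C T M (fs (1 / 2 + t * I))‖ ≤ T) ∧
    (Continuous fun t : ℝ => VV8 κ C T M (fs (1 / 2 + t * I))) ∧
    (∀ f, 0 ≤ VV8 κ C T M f) ∧
    ∀ t : ℝ, VV8 κ C T M (fs (1 / 2 + t * I)) ≤ T ^ 2

/-- (Z9) the side of zeta on `[0, T]` -/
def StSideZ : Prop := ∀ κ : ℝ, 0 < κ → κ < 1 → ∀ η : ℝ, 0 < η → ∃ M₀ : ℕ, ∀ M : ℕ, M₀ ≤ M →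
    ∀ C : Cfg, Adm κ M C → ∃ T₀ : ℝ, 3 ≤ T₀ ∧ ∀ T, T₀ ≤ T →
    aK (1 + κ) * lM T M ^ ((1 + κ) ^ 2 - 1) * Real.log T * (∏ i ∈ Finset.range C.N, aZ C i) *
      (1 - rho8 C - η) ≤
    T⁻¹ * ∫ t in (0 : ℝ)..T, ‖riemannZeta (1 / 2 + t * I)‖ ^ 2 *
      ‖GW κ C T M (fs (1 / 2 + t * I))‖ ^ 2

/-! ### Part V: the side without zeta -/

/-- (V1) the pointwise inequality in a bottom block -/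
def StPtB : Prop := ∀ κ : ℝ, 0 < κ → κ < 1 → ∃ M₀ : ℕ, ∀ M : ℕ, M₀ ≤ M → ∀ (T : ℝ) (j : ℕ),
    j ≤ JJ T → ∀ z : ℂ, (‖Ntr (ll M (JJ T) j) κ z‖ ^ 2) ^ pe κ ≤ VBz κ T M j z

/-- (V2) the pointwise inequality -/
def StPt8 : Prop := ∀ κ : ℝ, 0 < κ → κ < 1 → ∃ M₀ : ℕ, ∀ M : ℕ, M₀ ≤ M → ∀ C : Cfg, Adm κ M C →
    ∀ (T : ℝ) (f : ℕ → ℂ), (‖GW κ C T M f‖ ^ 2) ^ pe κ ≤ VV8 κ C T M f

/-- (V3) mean square of a truncated exponential over a block (compare `K7.StBlk2`) -/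
def StBlkN : Prop := ∃ C₁ : ℝ, 0 < C₁ ∧ ∀ (A l : ℕ) (S : Finset ℕ) (k : ℝ),
    1 ≤ A → (∀ p ∈ S, p.Prime) → 1 ≤ k → k ≤ 2 →
    16 * Real.exp (C₁ * ∑ p ∈ S, 1 / (p : ℝ)) ≤ Real.exp (l / 2) →
    |ES S (fun f => ‖Ntr l k (Pj A S (tw (1 / 2) f))‖ ^ 2) -
        ∏ p ∈ S, Dl k ((p : ℝ) ^ (-(1 / 2) : ℝ))| ≤
      C₁ * (Real.exp (3 * Pool.Agent.Lib.MP_973905_nt.rho A S) - 1 + Real.exp (-(l / 2))) *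
        ∏ p ∈ S, Dl k ((p : ℝ) ^ (-(1 / 2) : ℝ))

/-- (V4) the mean of the correction in a bottom block -/
def StBadN : Prop := ∀ κ : ℝ, 0 < κ → κ < 1 → ∃ M₀ : ℕ, ∀ M : ℕ, M₀ ≤ M → ∃ T₀ : ℝ, 3 ≤ T₀ ∧
    ∀ T, T₀ ≤ T → ∀ j, j ≤ JJ T →
    Real.exp (2 * pe κ * KK M (JJ T) j) * ES (Sj T M (JJ T) j) (fun f =>
      ‖(Pj M (Sj T M (JJ T) j) (tw (1 / 2) f) / (KK M (JJ T) j : ℂ)) ^ nb κ T M j‖ ^ 2) ≤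
      Real.exp (-KK M (JJ T) j)

/-- (V5) the product over the bottom blocks (compare `K5.StBotG`) -/
def StBotV : Prop := ∀ κ : ℝ, 0 < κ → κ < 1 → ∀ η : ℝ, 0 < η → ∃ M₀ : ℕ, ∀ M : ℕ, M₀ ≤ M →
    ∃ T₀ : ℝ, 3 ≤ T₀ ∧ ∀ T, T₀ ≤ T →
    ∏ j ∈ Finset.range (JJ T + 1), ES (Sj T M (JJ T) j) (fun f => VB κ T M j (tw (1 / 2) f)) ≤
      (1 + η) * (aK (1 + κ) * lM T M ^ ((1 + κ) ^ 2))

/-- (V6) the bottom polynomials are short -/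
def StLen8 : Prop := ∀ κ θ : ℝ, 0 < κ → κ < 1 → 0 < θ → ∃ M₀ : ℕ, ∀ M : ℕ, M₀ ≤ M → ∃ T₀ : ℝ,
    3 ≤ T₀ ∧ ∀ T, T₀ ≤ T → ∀ h : Finset ℕ,
    DP (T ^ θ) (T ^ θ) (fun f => ∏ j ∈ Finset.range (JJ T + 1),
      (if j ∈ h then (Pj M (Sj T M (JJ T) j) f / (KK M (JJ T) j : ℂ)) ^ nb κ T M j
        else Ntr (ll M (JJ T) j) (1 + κ) (Pj M (Sj T M (JJ T) j) f))) ∧
    ∏ j ∈ Finset.range (JJ T + 1), (2 * Real.exp (2 * pe κ * KK M (JJ T) j)) ≤ T ^ θ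

/-- (V7) the Gaussian means of the weight -/
def StMeanV : Prop := ∀ κ : ℝ, 0 < κ → κ < 1 → ∃ M₀ : ℕ, ∀ M : ℕ, M₀ ≤ M → ∀ C : Cfg, Adm κ M C →
    ∃ T₀ : ℝ, 3 ≤ T₀ ∧ ∀ T, T₀ ≤ T → ∀ τ : ℝ,
    EG T τ (fun t => VV8 κ C T M (fs (1 / 2 + t * I))) ≤
      (∏ j ∈ Finset.range (JJ T + 1), ES (Sj T M (JJ T) j) (fun f => VB κ T M j (tw (1 / 2) f))) *
        (∏ i ∈ Finset.range C.N, ES (C.U T i) (fun f => VT κ C T i (tw (1 / 2) f))) +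
      T ^ (-10 : ℝ)

/-- (V8) the side without zeta on `[0, T]` -/
def StSideV : Prop := ∀ κ : ℝ, 0 < κ → κ < 1 → ∀ η : ℝ, 0 < η → ∃ M₀ : ℕ, ∀ M : ℕ, M₀ ≤ M →
    ∀ C : Cfg, Adm κ M C → ∃ T₀ : ℝ, 3 ≤ T₀ ∧ ∀ T, T₀ ≤ T →
    T⁻¹ * ∫ t in (0 : ℝ)..T, VV8 κ C T M (fs (1 / 2 + t * I)) ≤
      (1 + η) * (aK (1 + κ) * lM T M ^ ((1 + κ) ^ 2) * ∏ i ∈ Finset.range C.N, aV κ C i)

/-! ### The lower bound -/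

/-- (H) Hölder's inequality -/
def StHold8 : Prop := ∀ κ : ℝ, 0 < κ → κ < 1 → ∀ η : ℝ, 0 < η → ∃ M₀ : ℕ, ∀ M : ℕ, M₀ ≤ M →
    ∀ C : Cfg, Adm κ M C → ∃ T₀ : ℝ, 3 ≤ T₀ ∧ ∀ T, T₀ ≤ T →
    (1 - η) * (aK (1 + κ) * Real.log T ^ ((1 + κ) ^ 2) *
      (Real.exp ((Real.eulerMascheroniConstant - M) * (κ * (1 + κ))) *
        ((∏ i ∈ Finset.range C.N, aZ C i) * (1 - rho8 C)) ^ (1 + κ) /
        (∏ i ∈ Finset.range C.N, aV κ C i) ^ κ)) ≤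
    T⁻¹ * ∫ t in (0 : ℝ)..T, ‖riemannZeta (1 / 2 + t * I)‖ ^ (2 * (1 + κ))

/-! ### Part N: numbers -/

/-- The Taylor coefficients of `(1 + a z)^n e^{-kz}`. -/
noncomputable def dcf (a k : ℝ) (n : ℕ) : ℕ → ℝ
  | 0 => 1
  | 1 => n * a - k
  | j + 2 => ((n * a - k - a * ((j + 1 : ℕ) : ℝ)) * dcf a k n (j + 1) - k * a * dcf a k n j) /
      ((j + 2 : ℕ) : ℝ)

/-- (N1) the Gaussian shift, in terms of Taylor coefficients -/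
def StFock : Prop := ∀ (a k V : ℝ) (n : ℕ), 0 < a → 0 < V →
    HasSum (fun j : ℕ => dcf a k n j ^ 2 * (j.factorial : ℝ) * V ^ j)
      (Real.exp (k ^ 2 * V) * (a ^ (2 * n) * LG n (1 / a - k * V) V))

/-- (N2) a crude bound for the same sum -/
def StCrudeF : Prop := ∀ (a k V : ℝ) (n : ℕ), 0 < a → 0 < V → n * a ^ 2 * V < 1 →
    ∑' j : ℕ, dcf a k n j ^ 2 * (j.factorial : ℝ) * V ^ j ≤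
      Real.exp (V * (n * a - k) ^ 2 / (1 - n * a ^ 2 * V)) / (1 - n * a ^ 2 * V)

/-- The normalised coefficients: `dcf a k n j V^{j/2}` with `α = a √V`, `x = k a V`,
`τ = n - k/a`. -/
noncomputable def ee (α x τ : ℝ) : ℕ → ℝ
  | 0 => 1
  | 1 => α * τ
  | j + 2 => -(α * (((j + 1 : ℕ) : ℝ) - τ) * ee α x τ (j + 1) + x * ee α x τ j) / ((j + 2 : ℕ) : ℝ)

/-- (N3) the first terms of the sum -/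
def StPart : Prop := ∀ α x t : ℝ, 0 < x → x ≤ 1 / 3 → 0 ≤ t → t ≤ 1 → 0 ≤ α →
    α ^ 2 * (1 + 7 / 5 * x) ≤ x ^ 2 →
    (1 - t) * ∑ j ∈ Finset.range 8, ee α x (-t) j ^ 2 * (j.factorial : ℝ) +
      t * ∑ j ∈ Finset.range 8, ee α x (1 - t) j ^ 2 * (j.factorial : ℝ) ≤ 1 + 3 / 4 * x ^ 2

/-- (N4) the factor of a block, side without zeta -/
def StBh : Prop := ∀ (κ V : ℝ) (D : ℕ), 0 < κ → κ < 1 → 1 ≤ D → 1 ≤ V → V ≤ 2 →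
    3 * (κ * (1 + κ) * V) ≤ D →
    (1 - (D * pe κ - ⌊(D : ℝ) * pe κ⌋₊)) *
        (LG ⌊(D : ℝ) * pe κ⌋₊ (D / κ - (1 + κ) * V) V / (D / κ) ^ (2 * ⌊(D : ℝ) * pe κ⌋₊)) +
      (D * pe κ - ⌊(D : ℝ) * pe κ⌋₊) *
        (LG (⌊(D : ℝ) * pe κ⌋₊ + 1) (D / κ - (1 + κ) * V) V /
          (D / κ) ^ (2 * (⌊(D : ℝ) * pe κ⌋₊ + 1))) ≤
      Real.exp (-((1 + κ) ^ 2 * V) + 5 / 6 * (κ * (1 + κ) * V / D) ^ 2)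

/-- (N5) the factor of a block, side of zeta -/
def StAh : Prop := ∀ (κ V : ℝ) (D : ℕ), 0 < κ → κ < 1 → 1 ≤ D → 1 ≤ V → V ≤ 2 →
    3 * (κ * (1 + κ) * V) ≤ D →
    Real.exp (-(κ ^ 2 * V)) * (1 + κ ^ 4 * V ^ 2 / (2 * D ^ 2)) ≤
      LG D (V + (D / κ - (1 + κ) * V)) V / (D / κ) ^ (2 * D) ∧
    0 ≤ deriv (fun y : ℝ => LG D y V) (V + (D / κ - (1 + κ) * V)) ∧
    deriv (fun y : ℝ => LG D y V) (V + (D / κ - (1 + κ) * V)) ≤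
      2 * κ * LG D (V + (D / κ - (1 + κ) * V)) V

/-- (N6) our data are admissible -/
def StAdm8 : Prop := ∀ κ : ℝ, 0 < κ → κ < 1 → ∃ M₀ : ℕ, ∀ M : ℕ, M₀ ≤ M →
    Adm κ M (cfg8 κ M) ∧ rho8 (cfg8 κ M) ≤ 2 * κ * th κ ∧
    (cfg8 κ M).te 0 = th κ ∧ (∀ i, i + 1 < (cfg8 κ M).N → (cfg8 κ M).V i = 1) ∧
    1 ≤ (cfg8 κ M).V ((cfg8 κ M).N - 1) ∧ (cfg8 κ M).V ((cfg8 κ M).N - 1) ≤ 2 ∧
    (M : ℝ) + Real.log (th κ) - 1 ≤ (cfg8 κ M).N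

/-- `∑_{i ≥ n} 1/i²` -/
noncomputable def s2 (n : ℕ) : ℝ := ∑' i : ℕ, 1 / ((n + i : ℕ) : ℝ) ^ 2

/-- `∑_{i ≥ n} 1/i⁴` -/
noncomputable def s4 (n : ℕ) : ℝ := ∑' i : ℕ, 1 / ((n + i : ℕ) : ℝ) ^ 4

/-- The bound for the total loss. -/
noncomputable def LamB (κ : ℝ) : ℝ :=
  (5 / 6 * κ * (κ * (1 + κ)) ^ 2 - (1 + κ) * κ ^ 4 / 2) * s2 (d0 κ) +
    (1 + κ) * κ ^ 8 / 8 * s4 (d0 κ)

/-- (N7) the total loss -/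
def StLam8 : Prop := ∀ κ : ℝ, 0 < κ → κ < 1 → ∀ ε : ℝ, 0 < ε → ∃ M₁ : ℕ, ∀ M : ℕ, M₁ ≤ M →
    ∑ i ∈ Finset.range (cfg8 κ M).N, lam8 κ (cfg8 κ M) i ≤ LamB κ + ε

/-- (N8) the Barnes quotient from above -/
def StGu : Prop := ∀ κ : ℝ, 0 < κ → κ < 1 →
    barnesG (1 + κ + 1) ^ 2 / barnesG (2 * (1 + κ) + 1) ≤
      Real.exp (-(κ * (83 / 100 + 7 / 5 * κ + 1 / 5 * κ ^ 2)))

/-- (N9) the final inequality -/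
def StNum8 : Prop := ∀ κ : ℝ, 0 < κ → κ < 1 →
    κ * Real.log κ - 18 / 5 * κ ^ 2 ≤
      κ * (1 + κ) * (Real.eulerMascheroniConstant + Real.log (th κ)) +
        (1 + κ) * Real.log (1 - 2 * κ * th κ) - LamB κ +
        κ * (83 / 100 + 7 / 5 * κ + 1 / 5 * κ ^ 2)

/-! ### the theorem -/

/-- (F) the lower bound for every fixed order between 1 and 2 -/
def StFinal8 : Prop := ∀ κ : ℝ, 0 < κ → κ < 1 → ∀ ε : ℝ, 0 < ε → ∃ T₀ : ℝ, 3 ≤ T₀ ∧ ∀ T, T₀ ≤ T →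
    LL8 κ - ε ≤ (T⁻¹ * ∫ t in (0 : ℝ)..T, ‖riemannZeta (1 / 2 + t * I)‖ ^ (2 * (1 + κ))) /
      (cK (1 + κ) * (Real.log T) ^ ((1 + κ) ^ 2))

end K8
end Pool.Agent.Lib.MP_973905_nt
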