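import Pool.Agent.Lib.MP_973905_nt.K8.Stmts
import Pool.Agent.Lib.MP_973905_nt.K5.Fact

/-! The blocks `SB8 C T M` (compare `K7.Base`). -/

namespace Pool.Agent.Lib.MP_973905_nt
namespace K8

open MeasureTheory ProbabilityTheory Complex Filter Topology K1 K4 K5

namespace Blk8

variable {κ T : ℝ} {M : ℕ} {C : Cfg}

/-! ### the boundaries of the blocks -/

lemma te_anti (hC : Adm κ M C) {i j : ℕ} (h : i ≤ j) (hj : j ≤ C.N) : C.te j ≤ C.te i := by
  induction j, h using Nat.le_induction with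
  | base => exact le_rfl
  | succ n hn ih => exact (hC.hdec n (by omega)).le.trans (ih (by omega))

lemma te_zero_le (hC : Adm κ M C) : C.te 0 ≤ 1 := hC.htop.trans (by norm_num)

lemma te_zero_pos (hC : Adm κ M C) : 0 < C.te 0 := hC.hpos 0 (Nat.zero_le _)

lemma V_pos (hC : Adm κ M C) {i : ℕ} (hi : i < C.N) : 0 < C.V i := by
  apply Real.log_pos
  rw [lt_div_iff₀ (hC.hpos (i + 1) (by omega)), one_mul]
  exact hC.hdec i hi

/-- the sum of all variances -/
lemma sum_V (hC : Adm κ M C) : ∑ i ∈ Finset.range C.N, C.V i = Real.log (C.te 0) + M := by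
  have h : ∀ n, n ≤ C.N → ∑ i ∈ Finset.range n, C.V i = Real.log (C.te 0) - Real.log (C.te n) := by
    intro n
    induction n with
    | zero => intro _; simp
    | succ n ih =>
      intro hn
      rw [Finset.sum_range_succ, ih (by omega), Cfg.V, Real.log_div (hC.hpos n (by omega)).ne'
        (hC.hpos (n + 1) hn).ne']
      ring
  rw [h C.N le_rfl, hC.hlast, Real.log_exp]
  ring

lemma bd_mono (hC : Adm κ M C) (hT : 1 < T) {i j : ℕ} (h : i ≤ j) (hj : j ≤ C.N) :
    Real.exp (C.te j * Real.log T) ≤ Real.exp (C.te i * Real.log T) := by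
  apply Real.exp_le_exp.mpr
  exact mul_le_mul_of_nonneg_right (te_anti hC h hj) (Real.log_pos hT).le

lemma bd_le (hC : Adm κ M C) (hT : 1 < T) : Real.exp (C.te 0 * Real.log T) ≤ T := by
  calc Real.exp (C.te 0 * Real.log T) ≤ Real.exp (1 * Real.log T) := by
        apply Real.exp_le_exp.mpr
        exact mul_le_mul_of_nonneg_right (te_zero_le hC) (Real.log_pos hT).le
    _ = T := by rw [one_mul, Real.exp_log (by linarith)]

lemma mem_U {i p : ℕ} : p ∈ C.U T i ↔ p.Prime ∧ Real.exp (C.te (i + 1) * Real.log T) < p ∧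
    (p : ℝ) ≤ Real.exp (C.te i * Real.log T) :=
  mem_PS (Real.exp_pos _).le (Real.exp_pos _).le

lemma mem_top (hT : 1 < T) {p : ℕ} : p ∈ PS (Real.exp (C.te 0 * Real.log T)) T ↔
    p.Prime ∧ Real.exp (C.te 0 * Real.log T) < p ∧ (p : ℝ) ≤ T :=
  mem_PS (Real.exp_pos _).le (by linarith)

lemma mem_bot (hT : 1 < T) {j p : ℕ} (hj : j ≤ JJ T) (hp : p ∈ Sj T M (JJ T) j) :
    p.Prime ∧ (p : ℝ) ≤ Real.exp (Real.exp (-(M : ℝ)) * Real.log T) := by
  have h1 : p ∈ (Finset.range (JJ T + 1)).biUnion (fun j => Sj T M (JJ T) j) :=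
    Finset.mem_biUnion.mpr ⟨j, Finset.mem_range.mpr (by omega), hp⟩
  rw [RAx.biUnion_eq hT, mem_PS le_rfl (Real.exp_pos _).le] at h1
  exact ⟨h1.1, h1.2.2⟩

lemma BB8_bot {j : ℕ} (hj : j ≤ JJ T) : BB8 C T M j = Sj T M (JJ T) j := if_pos hj

lemma BB8_mid {j : ℕ} (h1 : ¬ j ≤ JJ T) (h2 : j ≤ JJ T + C.N) :
    BB8 C T M j = C.U T (j - (JJ T + 1)) := by
  rw [BB8, if_neg h1, if_pos h2]

lemma BB8_top {j : ℕ} (h1 : ¬ j ≤ JJ T) (h2 : ¬ j ≤ JJ T + C.N) :
    BB8 C T M j = PS (Real.exp (C.te 0 * Real.log T)) T := by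
  rw [BB8, if_neg h1, if_neg h2]

lemma BB8_prime (hT : 1 < T) {j p : ℕ} (hp : p ∈ BB8 C T M j) : p.Prime := by
  by_cases h1 : j ≤ JJ T
  · rw [BB8_bot h1] at hp
    exact (mem_bot hT h1 hp).1
  · by_cases h2 : j ≤ JJ T + C.N
    · rw [BB8_mid h1 h2] at hp
      exact (mem_U.mp hp).1
    · rw [BB8_top h1 h2] at hp
      exact ((mem_top hT).mp hp).1

lemma BB8_disj (hC : Adm κ M C) (hT : 1 < T) {i j : ℕ} (hi : i ≤ JJ T + 1 + C.N)
    (hj : j ≤ JJ T + 1 + C.N) (h : i ≠ j) : Disjoint (BB8 C T M i) (BB8 C T M j) := by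
  wlog hlt : i < j generalizing i j
  · exact (this hj hi h.symm (by omega)).symm
  rw [Finset.disjoint_left]
  intro p hp hp'
  by_cases i1 : i ≤ JJ T
  · rw [BB8_bot i1] at hp
    by_cases j1 : j ≤ JJ T
    · rw [BB8_bot j1] at hp'
      exact Finset.disjoint_left.mp (disj_Sj hT h) hp hp'
    · have h1 := (mem_bot hT i1 hp).2
      by_cases j2 : j ≤ JJ T + C.N
      · rw [BB8_mid j1 j2] at hp'
        have h2 := (mem_U.mp hp').2.1
        have h3 := bd_mono hC hT (show j - (JJ T + 1) + 1 ≤ C.N by omega) le_rfl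
        rw [hC.hlast] at h3
        linarith
      · rw [BB8_top j1 j2] at hp'
        have h2 := ((mem_top hT).mp hp').2.1
        have h3 := bd_mono hC hT (show 0 ≤ C.N by omega) le_rfl
        rw [hC.hlast] at h3
        linarith
  · have j1 : ¬ j ≤ JJ T := by omega
    have i2 : i ≤ JJ T + C.N := by omega
    rw [BB8_mid i1 i2] at hp
    have h1 := (mem_U.mp hp).2
    by_cases j2 : j ≤ JJ T + C.N
    · rw [BB8_mid j1 j2] at hp'
      have h2 := (mem_U.mp hp').2.2
      have h3 := bd_mono hC hT (show i - (JJ T + 1) + 1 ≤ j - (JJ T + 1) by omega) (by omega)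
      linarith [h1.1]
    · rw [BB8_top j1 j2] at hp'
      have h2 := ((mem_top hT).mp hp').2.1
      have h3 := bd_mono hC hT (show 0 ≤ i - (JJ T + 1) by omega) (by omega)
      linarith [h1.2]

lemma blk_SB8 (hC : Adm κ M C) (hT : 1 < T) : Blk (SB8 C T M) :=
  ⟨fun _ _ hp => BB8_prime hT hp, fun i j hij => BB8_disj hC hT (by omega) (by omega)
    (fun h => hij (Fin.ext h))⟩

lemma exists_U {p : ℕ} (hp : p.Prime) (h0 : (p : ℝ) ≤ Real.exp (C.te 0 * Real.log T)) (n : ℕ)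
    (h : Real.exp (C.te n * Real.log T) < p) : ∃ i, i < n ∧ p ∈ C.U T i := by
  induction n with
  | zero => linarith
  | succ n ih =>
    by_cases h1 : Real.exp (C.te n * Real.log T) < p
    · obtain ⟨i, hi, hpi⟩ := ih h1
      exact ⟨i, by omega, hpi⟩
    · exact ⟨n, by omega, mem_U.mpr ⟨hp, h, not_lt.mp h1⟩⟩

lemma exists_BB8 (hC : Adm κ M C) (hT : 1 < T) {p : ℕ} (hp : p.Prime) (hpT : (p : ℝ) ≤ T) :
    ∃ j, j < JJ T + 1 + C.N + 1 ∧ p ∈ BB8 C T M j := by
  by_cases h1 : (p : ℝ) ≤ Real.exp (C.te 0 * Real.log T)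
  · by_cases h2 : Real.exp (C.te C.N * Real.log T) < p
    · obtain ⟨i, hi, hpi⟩ := exists_U hp h1 _ h2
      refine ⟨JJ T + 1 + i, by omega, ?_⟩
      rw [BB8_mid (by omega) (by omega), show JJ T + 1 + i - (JJ T + 1) = i by omega]
      exact hpi
    · rw [hC.hlast] at h2
      have h3 : p ∈ PS 0 (Real.exp (Real.exp (-(M : ℝ)) * Real.log T)) :=
        (mem_PS le_rfl (Real.exp_pos _).le).mpr ⟨hp, by exact_mod_cast hp.pos, not_lt.mp h2⟩
      rw [← RAx.biUnion_eq hT, Finset.mem_biUnion] at h3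
      obtain ⟨j, hj, hpj⟩ := h3
      have hj' := Finset.mem_range.mp hj
      exact ⟨j, by omega, by rw [BB8_bot (by omega)]; exact hpj⟩
  · refine ⟨JJ T + 1 + C.N, by omega, ?_⟩
    rw [BB8_top (by omega) (by omega)]
    exact (mem_top hT).mpr ⟨hp, not_le.mp h1, hpT⟩

lemma mem_factored_SB8 (hC : Adm κ M C) (hT : 1 < T) {n : ℕ} (h1 : 1 ≤ n) (h2 : (n : ℝ) ≤ T) :
    n ∈ Nat.factoredNumbers (UU (SB8 C T M)) := by
  rw [Nat.mem_factoredNumbers_iff_primeFactors_subset]
  refine ⟨by omega, fun p hp => ?_⟩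
  have hp' := Nat.prime_of_mem_primeFactors hp
  have h3 : p ≤ n := Nat.le_of_mem_primeFactors hp
  have h4 : (p : ℝ) ≤ n := by exact_mod_cast h3
  obtain ⟨j, hj, hpj⟩ := exists_BB8 hC hT hp' (h4.trans h2)
  exact mem_UU.mpr ⟨⟨j, hj⟩, hpj⟩

/-! ### products over the blocks -/

lemma split {β : Type*} [CommMonoid β] (n m : ℕ) (H : ℕ → β) :
    ∏ j : Fin (n + m + 1), H j =
      (∏ j ∈ Finset.range n, H j) * (∏ i ∈ Finset.range m, H (n + i)) * H (n + m) := by
  rw [← Finset.prod_range, Finset.prod_range_succ, Finset.prod_range_add]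

lemma prod_UU_SB8 {β : Type*} [CommMonoid β] (hC : Adm κ M C) (hT : 1 < T) (u : ℕ → β) :
    ∏ p ∈ UU (SB8 C T M), u p = (∏ j ∈ Finset.range (JJ T + 1), ∏ p ∈ Sj T M (JJ T) j, u p) *
      (∏ i ∈ Finset.range C.N, ∏ p ∈ C.U T i, u p) *
        ∏ p ∈ PS (Real.exp (C.te 0 * Real.log T)) T, u p := by
  unfold UU
  rw [Finset.prod_biUnion (fun i _ j _ hij => (blk_SB8 hC hT).2 i j hij)]
  have h1 := split (JJ T + 1) C.N (fun j => ∏ p ∈ BB8 C T M j, u p)
  refine h1.trans ?_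
  have e1 : ∏ j ∈ Finset.range (JJ T + 1), ∏ p ∈ BB8 C T M j, u p =
      ∏ j ∈ Finset.range (JJ T + 1), ∏ p ∈ Sj T M (JJ T) j, u p := by
    refine Finset.prod_congr rfl fun j hj => ?_
    have hj' := Finset.mem_range.mp hj
    rw [BB8_bot (by omega)]
  have e2 : ∏ i ∈ Finset.range C.N, ∏ p ∈ BB8 C T M (JJ T + 1 + i), u p =
      ∏ i ∈ Finset.range C.N, ∏ p ∈ C.U T i, u p := by
    refine Finset.prod_congr rfl fun i hi => ?_
    have hi' := Finset.mem_range.mp hi
    rw [BB8_mid (by omega) (by omega), show JJ T + 1 + i - (JJ T + 1) = i by omega]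
  rw [e1, e2, BB8_top (by omega) (by omega)]

/-- factorisation of an expectation over the blocks -/
lemma fact_gen {𝕜 : Type*} [RCLike 𝕜] (hC : Adm κ M C) (hT : 1 < T) (A B : ℕ → (ℕ → ℂ) → 𝕜)
    (E : (ℕ → ℂ) → 𝕜)
    (hA : ∀ j f g, (∀ p ∈ Sj T M (JJ T) j, f p = g p) → A j f = A j g)
    (hB : ∀ i f g, (∀ p ∈ C.U T i, f p = g p) → B i f = B i g)
    (hE : ∀ f g, (∀ p ∈ PS (Real.exp (C.te 0 * Real.log T)) T, f p = g p) → E f = E g) :
    ER (SB8 C T M) (fun f => (∏ j ∈ Finset.range (JJ T + 1), A j f) *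
      (∏ i ∈ Finset.range C.N, B i f) * E f) =
    (∏ j ∈ Finset.range (JJ T + 1), ES (Sj T M (JJ T) j) (A j)) *
      (∏ i ∈ Finset.range C.N, ES (C.U T i) (B i)) *
        ES (PS (Real.exp (C.te 0 * Real.log T)) T) E := by
  set H : ℕ → (ℕ → ℂ) → 𝕜 := fun j f => if j ≤ JJ T then A j f else
    if j ≤ JJ T + C.N then B (j - (JJ T + 1)) f else E f with hH
  have e0 : ∀ f, (∏ j ∈ Finset.range (JJ T + 1), A j f) * (∏ i ∈ Finset.range C.N, B i f) * E f =
      ∏ j : Fin (JJ T + 1 + C.N + 1), H j f := by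
    intro f
    rw [split (JJ T + 1) C.N (fun j => H j f)]
    congr 1
    · congr 1
      · refine Finset.prod_congr rfl fun j hj => ?_
        have hj' := Finset.mem_range.mp hj
        simp only [hH]
        rw [if_pos (by omega)]
      · refine Finset.prod_congr rfl fun i hi => ?_
        have hi' := Finset.mem_range.mp hi
        simp only [hH]
        rw [if_neg (by omega), if_pos (by omega), show JJ T + 1 + i - (JJ T + 1) = i by omega]
    · simp only [hH]
      rw [if_neg (by omega), if_neg (by omega)]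
  simp only [e0]
  rw [ER_prod (blk_SB8 hC hT) (fun j : Fin (JJ T + 1 + C.N + 1) => H j) (by
    intro j f g hfg
    change ∀ p ∈ BB8 C T M j, f p = g p at hfg
    simp only [hH]
    split_ifs with h1 h2
    · rw [BB8_bot h1] at hfg
      exact hA _ _ _ hfg
    · rw [BB8_mid h1 h2] at hfg
      exact hB _ _ _ hfg
    · rw [BB8_top h1 h2] at hfg
      exact hE _ _ hfg)]
  refine (split (JJ T + 1) C.N (fun j => ES (BB8 C T M j) (H j))).trans ?_
  congr 1
  · congr 1
    · refine Finset.prod_congr rfl fun j hj => ?_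
      have hj' := Finset.mem_range.mp hj
      have e1 : H j = A j := by
        funext f; simp only [hH]; rw [if_pos (by omega)]
      rw [e1, BB8_bot (by omega)]
    · refine Finset.prod_congr rfl fun i hi => ?_
      have hi' := Finset.mem_range.mp hi
      have e1 : H (JJ T + 1 + i) = B i := by
        funext f; simp only [hH]
        rw [if_neg (by omega), if_pos (by omega), show JJ T + 1 + i - (JJ T + 1) = i by omega]
      rw [e1, BB8_mid (by omega) (by omega), show JJ T + 1 + i - (JJ T + 1) = i by omega]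
  · have e1 : H (JJ T + 1 + C.N) = E := by
      funext f; simp only [hH]
      rw [if_neg (by omega), if_neg (by omega)]
    rw [e1, BB8_top (by omega) (by omega)]

lemma z_dep {i : ℕ} {f g : ℕ → ℂ} (h : ∀ p ∈ C.U T i, f p = g p) (w : ℂ) :
    C.z T i (tw w f) = C.z T i (tw w g) := by
  unfold Cfg.z
  congr 2
  refine Finset.sum_congr rfl fun p hp => ?_
  simp only [tw, h p hp]

lemma z_dep' {i : ℕ} {f g : ℕ → ℂ} (h : ∀ p ∈ C.U T i, f p = g p) :
    C.z T i f = C.z T i g := by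
  unfold Cfg.z
  congr 2
  exact Finset.sum_congr rfl fun p hp => h p hp

/-- the fractional part lies in `[0, 1]` -/
lemma tk_mem (hκ : 0 < κ) (i : ℕ) : 0 ≤ tk κ C i ∧ tk κ C i ≤ 1 := by
  unfold tk rk
  have h0 : 0 ≤ (C.D i : ℝ) * pe κ := by
    unfold pe; positivity
  have h1 := Nat.floor_le h0
  have h2 := Nat.lt_floor_add_one ((C.D i : ℝ) * pe κ)
  constructor <;> linarith

lemma VT_nonneg (hκ : 0 < κ) (i : ℕ) (f : ℕ → ℂ) : 0 ≤ VT κ C T i f := by
  obtain ⟨h1, h2⟩ := tk_mem (C := C) hκ i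
  unfold VT
  have h3 : 0 ≤ 1 - tk κ C i := by linarith
  positivity

lemma VBz_nonneg (j : ℕ) (z : ℂ) : 0 ≤ VBz κ T M j z := by
  unfold VBz; positivity

end Blk8

end K8
end Pool.Agent.Lib.MP_973905_nt
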