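import Pool.Agent.Lib.MP_973905_nt.K8.Base
import Pool.Agent.Lib.MP_973905_nt.K2.Point2

/-! K8, modules V1 and V2: the pointwise inequalities. -/

namespace Pool.Agent.Lib.MP_973905_nt
namespace K8

open MeasureTheory ProbabilityTheory Complex Filter Topology K1 K4 K5

namespace Pt8

lemma exp_le_one_add {y : ℝ} (h0 : 0 ≤ y) (h1 : y ≤ 1 / 2) : Real.exp y ≤ 1 + 2 * y := by
  have h2 : 1 - y ≤ Real.exp (-y) := by
    have := Real.add_one_le_exp (-y)
    linarith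
  have h3 : Real.exp y * Real.exp (-y) = 1 := by rw [← Real.exp_add]; simp
  have h4 : Real.exp y * (1 - y) ≤ 1 :=
    (mul_le_mul_of_nonneg_left h2 (Real.exp_pos _).le).trans h3.le
  have h5 : 1 ≤ (1 + 2 * y) * (1 - y) := by nlinarith
  have h6 : Real.exp y * (1 - y) ≤ (1 + 2 * y) * (1 - y) := h4.trans h5
  exact le_of_mul_le_mul_right h6 (by linarith)

/-- the constants on the good set -/
lemma const_good {p s : ℝ} (hp : 0 < p) (hs : 0 < s) (h : (4 * p + 8) * s ≤ 1) :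
    ((1 + s ^ 2) ^ 2) ^ p ≤ (1 + s) * (1 - s ^ 2) ^ 2 := by
  have hs8 : s ≤ 1 / 8 := by nlinarith
  have hs2 : s ^ 2 ≤ 1 / 64 := by nlinarith
  have h1 : ((1 + s ^ 2) ^ 2) ^ p ≤ Real.exp (2 * p * s ^ 2) := by
    have h2 : (1 + s ^ 2) ^ 2 ≤ Real.exp (2 * s ^ 2) := by
      have h3 : 1 + s ^ 2 ≤ Real.exp (s ^ 2) := by
        have := Real.add_one_le_exp (s ^ 2)
        linarith
      calc (1 + s ^ 2) ^ 2 ≤ Real.exp (s ^ 2) ^ 2 := pow_le_pow_left₀ (by positivity) h3 2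
        _ = Real.exp (2 * s ^ 2) := by rw [← Real.exp_nat_mul]; norm_num
    calc ((1 + s ^ 2) ^ 2) ^ p ≤ (Real.exp (2 * s ^ 2)) ^ p :=
          Real.rpow_le_rpow (by positivity) h2 hp.le
      _ = Real.exp (2 * p * s ^ 2) := by rw [← Real.exp_mul]; congr 1; ring
  have h4 : Real.exp ((2 * p + 4) * s ^ 2) ≤ 1 + s := by
    have h5 : (2 * p + 4) * s ^ 2 ≤ s / 2 := by nlinarith
    have h6 := exp_le_one_add (y := (2 * p + 4) * s ^ 2) (by positivity) (by linarith)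
    linarith
  have h7 : Real.exp (-(4 * s ^ 2)) ≤ (1 - s ^ 2) ^ 2 := by
    have h8 : Real.exp (-(2 * s ^ 2)) ≤ 1 - s ^ 2 := by
      have h9 : 1 + 2 * s ^ 2 ≤ Real.exp (2 * s ^ 2) := by
        have := Real.add_one_le_exp (2 * s ^ 2)
        linarith
      have h10 : Real.exp (-(2 * s ^ 2)) * Real.exp (2 * s ^ 2) = 1 := by
        rw [← Real.exp_add]; simp
      have h11 : 1 ≤ (1 - s ^ 2) * Real.exp (2 * s ^ 2) := by
        calc (1 : ℝ) ≤ (1 - s ^ 2) * (1 + 2 * s ^ 2) := by nlinarith [sq_nonneg s]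
          _ ≤ _ := mul_le_mul_of_nonneg_left h9 (by linarith)
      exact le_of_mul_le_mul_right (h10.le.trans h11) (Real.exp_pos _)
    calc Real.exp (-(4 * s ^ 2)) = Real.exp (-(2 * s ^ 2)) ^ 2 := by
          rw [← Real.exp_nat_mul]; congr 1; push_cast; ring
      _ ≤ (1 - s ^ 2) ^ 2 := pow_le_pow_left₀ (Real.exp_pos _).le h8 2
  calc ((1 + s ^ 2) ^ 2) ^ p ≤ Real.exp (2 * p * s ^ 2) := h1
    _ = Real.exp ((2 * p + 4) * s ^ 2) * Real.exp (-(4 * s ^ 2)) := by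
        rw [← Real.exp_add]; congr 1; ring
    _ ≤ (1 + s) * (1 - s ^ 2) ^ 2 :=
        mul_le_mul h4 h7 (Real.exp_pos _).le (by linarith)

/-- the good set -/
lemma good {κ K : ℝ} {l : ℕ} (hκ : 0 < κ) (hκ1 : κ < 1) (hK : 1 ≤ K) (hl : 10 * K ≤ l)
    (hs : (4 * pe κ + 8) * Real.exp (-(K / 2)) ≤ 1) {z : ℂ} (hz : ‖z‖ ≤ K) :
    (‖Ntr l κ z‖ ^ 2) ^ pe κ ≤ (1 + Real.exp (-(K / 2))) * ‖Ntr l (1 + κ) z‖ ^ 2 := by
  have hp : 0 < pe κ := by unfold pe; positivity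
  have ha : |κ| ≤ 1 := by rw [abs_of_pos hκ]; exact hκ1.le
  have hb : |1 + κ| ≤ 2 := by rw [abs_of_pos (by linarith)]; linarith
  obtain ⟨-, a2⟩ := Ntr_ratio l ha hK hl hz
  obtain ⟨b1, -⟩ := K2.Point2.Ntr_ratio2 l hb hK hl hz
  obtain ⟨s, hse⟩ : ∃ s, s = Real.exp (-(K / 2)) := ⟨_, rfl⟩
  have hs0 : 0 < s := hse ▸ Real.exp_pos _
  have he : Real.exp (-K) = s ^ 2 := by
    rw [hse, ← Real.exp_nat_mul]; congr 1; push_cast; ring
  rw [← hse] at hs ⊢
  rw [he] at a2 b1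
  have h1 := const_good hp hs0 hs
  have hs8 : s ≤ 1 / 8 := by nlinarith
  have hs2 : s ^ 2 ≤ 1 / 64 := by nlinarith
  have hκp : κ * pe κ = 1 + κ := by unfold pe; field_simp
  calc (‖Ntr l κ z‖ ^ 2) ^ pe κ ≤ (((1 + s ^ 2) * Real.exp (κ * z.re)) ^ 2) ^ pe κ :=
        Real.rpow_le_rpow (by positivity) (pow_le_pow_left₀ (norm_nonneg _) a2 2) hp.le
    _ = ((1 + s ^ 2) ^ 2) ^ pe κ * (Real.exp ((1 + κ) * z.re)) ^ 2 := by
        rw [mul_pow, Real.mul_rpow (by positivity) (by positivity)]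
        congr 1
        rw [← Real.exp_nat_mul, ← Real.exp_nat_mul, ← Real.exp_mul]
        congr 1
        rw [← hκp]
        ring
    _ ≤ (1 + s) * (1 - s ^ 2) ^ 2 * (Real.exp ((1 + κ) * z.re)) ^ 2 :=
        mul_le_mul_of_nonneg_right h1 (by positivity)
    _ = (1 + s) * ((1 - s ^ 2) * Real.exp ((1 + κ) * z.re)) ^ 2 := by ring
    _ ≤ (1 + s) * ‖Ntr l (1 + κ) z‖ ^ 2 := by
        refine mul_le_mul_of_nonneg_left ?_ (by linarith)
        refine pow_le_pow_left₀ (mul_nonneg (by linarith) (Real.exp_pos _).le) ?_ 2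
        have h2 : (((1 + κ : ℝ)) : ℂ) = 1 + (κ : ℂ) := by push_cast; rfl
        exact b1

/-- the bad set -/
lemma bad {κ K : ℝ} {l n : ℕ} (hκ : 0 < κ) (hκ1 : κ < 1) (hK : 1 ≤ K) (hn : pe κ * l ≤ n)
    {z : ℂ} (hz : K ≤ ‖z‖) :
    (‖Ntr l κ z‖ ^ 2) ^ pe κ ≤ Real.exp (2 * pe κ * K) * ‖(z / (K : ℂ)) ^ n‖ ^ 2 := by
  have hp : 0 < pe κ := by unfold pe; positivity
  have hK0 : 0 < K := by linarith
  obtain ⟨t, ht⟩ : ∃ t, t = ‖z‖ / K := ⟨_, rfl⟩
  have ht1 : 1 ≤ t := by rw [ht, le_div_iff₀ hK0, one_mul]; exact hz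
  have hzt : ‖z‖ = t * K := by rw [ht]; field_simp
  have h1 : ‖Ntr l κ z‖ ≤ t ^ l * Real.exp K := by
    calc ‖Ntr l κ z‖ ≤ ∑ i ∈ Finset.range (l + 1), t ^ l * (K ^ i / i.factorial) := by
          refine (norm_sum_le _ _).trans (Finset.sum_le_sum fun i hi => ?_)
          rw [norm_div, norm_pow, norm_natCast, norm_mul, norm_real, Real.norm_eq_abs,
            abs_of_pos hκ, hzt]
          have hi' : i ≤ l := by
            have := Finset.mem_range.mp hi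
            omega
          have h2 : (κ * (t * K)) ^ i ≤ t ^ l * K ^ i := by
            calc (κ * (t * K)) ^ i = κ ^ i * (t ^ i * K ^ i) := by rw [mul_pow, mul_pow]
              _ ≤ 1 * (t ^ l * K ^ i) := by
                  refine mul_le_mul (pow_le_one₀ hκ.le hκ1.le) ?_ (by positivity) zero_le_one
                  exact mul_le_mul_of_nonneg_right (pow_le_pow_right₀ ht1 hi') (by positivity)
              _ = _ := one_mul _
          rw [← mul_div_assoc]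
          exact div_le_div_of_nonneg_right h2 (by positivity)
      _ = t ^ l * ∑ i ∈ Finset.range (l + 1), K ^ i / i.factorial := by rw [Finset.mul_sum]
      _ ≤ t ^ l * Real.exp K :=
          mul_le_mul_of_nonneg_left (Real.sum_le_exp_of_nonneg hK0.le _) (by positivity)
  have h3 : ‖(z / (K : ℂ)) ^ n‖ = t ^ n := by
    rw [norm_pow, norm_div, norm_real, Real.norm_eq_abs, abs_of_pos hK0, ← ht]
  have h4 : ((t ^ l) ^ 2) ^ pe κ ≤ (t ^ n) ^ 2 := by
    have h5 : ((t ^ l) ^ 2) ^ pe κ = t ^ (2 * (pe κ * l)) := by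
      rw [← pow_mul, ← Real.rpow_natCast, ← Real.rpow_mul (by linarith)]
      congr 1
      push_cast
      ring
    have h6 : (t ^ n) ^ 2 = t ^ (2 * (n : ℝ)) := by
      rw [← pow_mul, ← Real.rpow_natCast]
      congr 1
      push_cast
      ring
    rw [h5, h6]
    exact Real.rpow_le_rpow_of_exponent_le ht1 (by linarith)
  calc (‖Ntr l κ z‖ ^ 2) ^ pe κ ≤ ((t ^ l * Real.exp K) ^ 2) ^ pe κ :=
        Real.rpow_le_rpow (by positivity) (pow_le_pow_left₀ (norm_nonneg _) h1 2) hp.le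
    _ = Real.exp (2 * pe κ * K) * ((t ^ l) ^ 2) ^ pe κ := by
        rw [mul_pow, Real.mul_rpow (by positivity) (by positivity), mul_comm]
        congr 1
        rw [← Real.exp_nat_mul, ← Real.exp_mul]
        congr 1
        push_cast
        ring
    _ ≤ Real.exp (2 * pe κ * K) * ‖(z / (K : ℂ)) ^ n‖ ^ 2 := by
        rw [h3]
        exact mul_le_mul_of_nonneg_left h4 (Real.exp_pos _).le

lemma KK_ge {M J j : ℕ} (hj : j ≤ J) : (3 / 4 * M : ℝ) ≤ KK M J j := by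
  have h1 : (j : ℝ) ≤ J := by exact_mod_cast hj
  have h2 : (3 / 4 * M : ℝ) ≤ 3 / 4 * ((M : ℝ) + J - j) := by linarith
  have h3 := Real.add_one_le_exp (3 / 4 * ((M : ℝ) + J - j))
  unfold KK
  linarith

/-- the top factors -/
lemma top_pow {κ : ℝ} {C : Cfg} (hκ : 0 < κ) (i : ℕ) (w : ℂ) :
    (‖w ^ C.D i‖ ^ 2) ^ pe κ ≤
      ‖w‖ ^ (2 * rk κ C i) * ((1 - tk κ C i) + tk κ C i * ‖w‖ ^ 2) := by
  obtain ⟨t0, t1⟩ := Blk8.tk_mem (C := C) hκ i
  have h1 : (‖w ^ C.D i‖ ^ 2) ^ pe κ = (‖w‖ ^ 2) ^ ((rk κ C i : ℝ) + tk κ C i) := by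
    have h2 : (rk κ C i : ℝ) + tk κ C i = (C.D i : ℝ) * pe κ := by unfold tk; ring
    rw [h2, norm_pow, ← pow_mul, mul_comm (C.D i) 2, pow_mul, Real.rpow_mul (by positivity),
      Real.rpow_natCast]
  rw [h1, Real.rpow_add_of_nonneg (by positivity) (Nat.cast_nonneg _) t0, Real.rpow_natCast,
    ← pow_mul]
  refine mul_le_mul_of_nonneg_left ?_ (by positivity)
  have h3 := Real.geom_mean_le_arith_mean2_weighted (w₁ := 1 - tk κ C i) (w₂ := tk κ C i)
    (p₁ := 1) (p₂ := ‖w‖ ^ 2) (by linarith) t0 zero_le_one (by positivity) (by ring)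
  rw [Real.one_rpow, one_mul, mul_one] at h3
  exact h3

end Pt8

open Pt8

/-- module V1 -/
theorem stPtB : StPtB := by
  intro κ hκ hκ1
  obtain ⟨M₀, hM₀⟩ := exists_nat_ge (max 2 (4 * pe κ + 8) * 4)
  refine ⟨M₀, fun M hM T j hj z => ?_⟩
  have hM' : max 2 (4 * pe κ + 8) * 4 ≤ M := hM₀.trans (by exact_mod_cast hM)
  have hp : 0 < pe κ := by unfold pe; positivity
  have hK := KK_ge (M := M) hj
  have h1 : 8 ≤ (M : ℝ) := by
    have := le_max_left 2 (4 * pe κ + 8)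
    linarith
  have h2 : (4 * pe κ + 8) * 4 ≤ (M : ℝ) := by
    have := le_max_right 2 (4 * pe κ + 8)
    linarith
  obtain ⟨K, hKe⟩ : ∃ K, K = KK M (JJ T) j := ⟨_, rfl⟩
  have hl : 10 * K ≤ ll M (JJ T) j := by
    rw [hKe]
    exact Nat.le_ceil _
  unfold VBz
  rw [← hKe] at hK ⊢
  have hK1 : 1 ≤ K := by linarith
  rcases le_total ‖z‖ K with hz | hz
  · have hs : (4 * pe κ + 8) * Real.exp (-(K / 2)) ≤ 1 := by
      have h3 : 4 * pe κ + 8 ≤ Real.exp (K / 2) := by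
        have := Real.add_one_le_exp (K / 2)
        linarith
      calc (4 * pe κ + 8) * Real.exp (-(K / 2)) ≤ Real.exp (K / 2) * Real.exp (-(K / 2)) :=
            mul_le_mul_of_nonneg_right h3 (Real.exp_pos _).le
        _ = 1 := by rw [← Real.exp_add]; simp
    have h4 := good hκ hκ1 hK1 hl hs hz
    have h5 : 0 ≤ Real.exp (2 * pe κ * K) * ‖(z / (K : ℂ)) ^ nb κ T M j‖ ^ 2 := by positivity
    linarith
  · have h4 := bad (n := nb κ T M j) hκ hκ1 hK1 (Nat.le_ceil _) hz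
    have h5 : 0 ≤ (1 + Real.exp (-(K / 2))) * ‖Ntr (ll M (JJ T) j) (1 + κ) z‖ ^ 2 := by
      positivity
    linarith

/-- module V2 -/
theorem stPt8 (h : StPtB) : StPt8 := by
  intro κ hκ hκ1
  obtain ⟨M₀, hM₀⟩ := h κ hκ hκ1
  refine ⟨M₀, fun M hM C hC T f => ?_⟩
  have hp : 0 < pe κ := by unfold pe; positivity
  have e1 : NN T M κ f = ∏ j ∈ Finset.range (JJ T + 1),
      Ntr (ll M (JJ T) j) κ (Pj M (Sj T M (JJ T) j) f) := by
    unfold NN AA
    refine Finset.prod_congr rfl fun j hj => ?_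
    unfold Fc
    rw [if_pos hj, if_neg (Finset.notMem_empty j), mul_one]
  have e2 : ‖GW κ C T M f‖ ^ 2 = (∏ j ∈ Finset.range (JJ T + 1),
      ‖Ntr (ll M (JJ T) j) κ (Pj M (Sj T M (JJ T) j) f)‖ ^ 2) *
      ∏ i ∈ Finset.range C.N, ‖C.z T i f ^ C.D i‖ ^ 2 := by
    unfold GW
    rw [e1, norm_mul, norm_prod, norm_prod, mul_pow, Finset.prod_pow, Finset.prod_pow]
  rw [e2, Real.mul_rpow (Finset.prod_nonneg fun _ _ => by positivity)
    (Finset.prod_nonneg fun _ _ => by positivity),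
    ← Real.finsetProd_rpow _ _ (fun _ _ => by positivity),
    ← Real.finsetProd_rpow _ _ (fun _ _ => by positivity)]
  unfold VV8
  refine mul_le_mul ?_ ?_ (Finset.prod_nonneg fun _ _ => by positivity)
    (Finset.prod_nonneg fun j _ => Blk8.VBz_nonneg j _)
  · refine Finset.prod_le_prod (fun _ _ => by positivity) fun j hj => ?_
    have hj' := Finset.mem_range.mp hj
    exact hM₀ M hM T j (by omega) _
  · refine Finset.prod_le_prod (fun _ _ => by positivity) fun i _ => ?_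
    exact top_pow hκ i _

end K8
end Pool.Agent.Lib.MP_973905_nt
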