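import Pool.Agent.Lib.MP_973905_nt.K8.Stmts
import Pool.Agent.Lib.MP_973905_nt.K5.Rho

/-! Module Z3: facts on the limits of the top factors. -/

namespace Pool.Agent.Lib.MP_973905_nt
namespace K8

open MeasureTheory ProbabilityTheory Complex Filter Topology K1 K4 K5

namespace RhoZA

/-- the derivative of `LG` in the shift -/
def LGd {R : Type*} [CommRing R] (n : ℕ) (c V : R) : R :=
  ∑ j ∈ Finset.range (n + 1), ((n.choose j : ℕ) : R) ^ 2 * ((j.factorial : ℕ) : R) * V ^ j *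
    (((2 * (n - j) : ℕ) : R) * c ^ (2 * (n - j) - 1))

theorem LG_hasDeriv {F : Type*} [NontriviallyNormedField F] (n : ℕ) (V c : F) :
    HasDerivAt (fun x => LG n x V) (LGd n c V) c := by
  unfold LG LGd
  refine HasDerivAt.fun_sum fun j _ => ?_
  exact (hasDerivAt_pow _ _).const_mul _

theorem LG_cast (n : ℕ) (c V : ℝ) : ((LG n c V : ℝ) : ℂ) = LG n (c : ℂ) (V : ℂ) := by
  unfold LG
  push_cast
  rfl

theorem LGd_cast (n : ℕ) (c V : ℝ) : ((LGd n c V : ℝ) : ℂ) = LGd n (c : ℂ) (V : ℂ) := by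
  unfold LGd
  push_cast
  rfl

theorem LG_pos (n : ℕ) (c : ℝ) {V : ℝ} (hV : 0 < V) : 0 < LG n c V := by
  unfold LG
  refine Finset.sum_pos' (fun j _ => ?_) ⟨n, by simp, ?_⟩
  · rw [pow_mul c 2]
    positivity
  · simp only [Nat.choose_self, Nat.sub_self, mul_zero, pow_zero, mul_one, Nat.cast_one, one_pow,
      one_mul]
    positivity

theorem LGd_nonneg (n : ℕ) {c V : ℝ} (hc : 0 ≤ c) (hV : 0 ≤ V) : 0 ≤ LGd n c V := by
  unfold LGd
  refine Finset.sum_nonneg fun j _ => ?_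
  positivity

theorem LG_norm_le (n : ℕ) {c δ V : ℝ} {z : ℂ} (hc : 0 < c) (hV : 0 ≤ V)
    (hz : ‖z - (c : ℂ)‖ ≤ δ) :
    ‖LG n z (V : ℂ)‖ ≤ LG n c V * (1 + δ / c) ^ (2 * n) := by
  have hδ : 0 ≤ δ := (norm_nonneg _).trans hz
  have hz2 : ‖z‖ ≤ c * (1 + δ / c) := by
    have h1 : z = (c : ℂ) + (z - c) := by ring
    rw [h1]
    refine (norm_add_le _ _).trans ?_
    rw [Complex.norm_real, Real.norm_of_nonneg hc.le]
    have h2 : c * (1 + δ / c) = c + δ := by field_simp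
    rw [h2]
    linarith
  have hq : 1 ≤ 1 + δ / c := by
    have : 0 ≤ δ / c := by positivity
    linarith
  unfold LG
  rw [Finset.sum_mul]
  refine (norm_sum_le _ _).trans (Finset.sum_le_sum fun j _ => ?_)
  rw [norm_mul, norm_mul, norm_mul, norm_pow, norm_pow, norm_pow, Complex.norm_natCast,
    Complex.norm_natCast, Complex.norm_real, Real.norm_of_nonneg hV]
  have h1 : ‖z‖ ^ (2 * (n - j)) ≤ c ^ (2 * (n - j)) * (1 + δ / c) ^ (2 * n) := by
    calc ‖z‖ ^ (2 * (n - j)) ≤ (c * (1 + δ / c)) ^ (2 * (n - j)) :=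
          pow_le_pow_left₀ (norm_nonneg _) hz2 _
      _ = c ^ (2 * (n - j)) * (1 + δ / c) ^ (2 * (n - j)) := by rw [mul_pow]
      _ ≤ c ^ (2 * (n - j)) * (1 + δ / c) ^ (2 * n) := by
          apply mul_le_mul_of_nonneg_left _ (by positivity)
          exact pow_le_pow_right₀ hq (by omega)
  rw [mul_assoc (_ * _ * _) (c ^ _)]
  exact mul_le_mul_of_nonneg_left h1 (by positivity)

theorem LG_norm_le' (n : ℕ) {c δ V : ℝ} {z : ℂ} (hn : (n : ℝ) ≤ 4 * c) (hc : 0 < c) (hV : 0 < V)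
    (hz : ‖z - (c : ℂ)‖ ≤ δ) :
    ‖LG n z (V : ℂ)‖ ≤ LG n c V * Real.exp (8 * δ) := by
  have hδ : 0 ≤ δ := (norm_nonneg _).trans hz
  refine (LG_norm_le n hc hV.le hz).trans ?_
  apply mul_le_mul_of_nonneg_left _ (LG_pos n c hV).le
  calc (1 + δ / c) ^ (2 * n) ≤ (Real.exp (δ / c)) ^ (2 * n) := by
        apply pow_le_pow_left₀ (by positivity)
        rw [add_comm]
        exact Real.add_one_le_exp _
    _ = Real.exp ((2 * n : ℕ) * (δ / c)) := by rw [← Real.exp_nat_mul]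
    _ ≤ Real.exp (8 * δ) := by
        apply Real.exp_le_exp.mpr
        push_cast
        have h1 : (2 * (n : ℝ)) * (δ / c) = (n : ℝ) / c * (2 * δ) := by ring
        rw [h1]
        have h2 : (n : ℝ) / c ≤ 4 := by rwa [div_le_iff₀ hc]
        have h3 := mul_le_mul_of_nonneg_right h2 (by positivity : 0 ≤ 2 * δ)
        linarith

section

variable {κ : ℝ} {M : ℕ} {C : Cfg} (h : Adm κ M C)

include h

theorem te_pos1 {i : ℕ} (hi : i < C.N) : 0 < C.te (i + 1) := h.hpos _ (by omega)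

theorem te_le {i : ℕ} (hi : i < C.N) : C.te (i + 1) ≤ C.te i := (h.hdec i hi).le

theorem V_pos {i : ℕ} (hi : i < C.N) : 0 < C.V i := by
  unfold Cfg.V
  apply Real.log_pos
  rw [one_lt_div (te_pos1 h hi)]
  exact h.hdec i hi

theorem Vc_pos {i : ℕ} (hi : i < C.N) : 0 < C.V i + C.c i := by
  have h1 := h.hc i hi
  have h2 : (1 : ℝ) ≤ C.D i := by exact_mod_cast h.hD i hi
  linarith

theorem te_le_top {i : ℕ} (hi : i ≤ C.N) : C.te i ≤ C.te 0 := by
  induction i with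
  | zero => exact le_rfl
  | succ n ih => exact (te_le h (by omega)).trans (ih (by omega))

theorem te_le_one {i : ℕ} (hi : i ≤ C.N) : C.te i ≤ 1 :=
  (te_le_top h hi).trans (h.htop.trans (by norm_num))

theorem aZ_pos {i : ℕ} (hi : i < C.N) : 0 < aZ C i := by
  unfold aZ
  have := LG_pos (C.D i) (C.V i + C.c i) (V_pos h hi)
  have hm := h.hm i hi
  positivity

theorem tk_nonneg (hκ : 0 < κ) (i : ℕ) : 0 ≤ tk κ C i := by
  unfold tk rk pe
  have : 0 ≤ (C.D i : ℝ) * ((1 + κ) / κ) := by positivity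
  have := Nat.floor_le this
  linarith

omit h in
theorem tk_lt (κ : ℝ) (C : Cfg) (i : ℕ) : tk κ C i < 1 := by
  unfold tk rk
  have := Nat.lt_floor_add_one ((C.D i : ℝ) * pe κ)
  linarith

theorem aV_pos (hκ : 0 < κ) {i : ℕ} (hi : i < C.N) : 0 < aV κ C i := by
  unfold aV
  have h1 := LG_pos (rk κ C i) (C.c i) (V_pos h hi)
  have h2 := LG_pos (rk κ C i + 1) (C.c i) (V_pos h hi)
  have hm := h.hm i hi
  have h3 : 0 < 1 - tk κ C i := by linarith [tk_lt κ C i]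
  have h4 := tk_nonneg h hκ i
  have h5 : 0 < LG (rk κ C i) (C.c i) (C.V i) / C.m i ^ (2 * rk κ C i) := by positivity
  have h6 : 0 < LG (rk κ C i + 1) (C.c i) (C.V i) / C.m i ^ (2 * (rk κ C i + 1)) := by positivity
  have := mul_pos h3 h5
  have := mul_nonneg h4 h6.le
  linarith

theorem vv0 {i : ℕ} (hi : i < C.N) : vv (C.te (i + 1)) (C.te i) 0 = ((C.V i : ℝ) : ℂ) := by
  rw [RhoA.vv_zero (te_pos1 h hi) (te_le h hi)]
  rfl

theorem fac0 {i : ℕ} (hi : i < C.N) :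
    LG (C.D i) (vv (C.te (i + 1)) (C.te i) 0 + (C.c i : ℂ)) (C.V i : ℂ) /
      (C.m i : ℂ) ^ (2 * C.D i) = ((aZ C i : ℝ) : ℂ) := by
  rw [vv0 h hi, aZ, Complex.ofReal_div, LG_cast]
  push_cast
  rfl

theorem fac_hasDeriv {i : ℕ} (hi : i < C.N) (u : ℂ) :
    HasDerivAt (fun u => LG (C.D i) (vv (C.te (i + 1)) (C.te i) u + (C.c i : ℂ)) (C.V i : ℂ) /
      (C.m i : ℂ) ^ (2 * C.D i))
      (LGd (C.D i) (vv (C.te (i + 1)) (C.te i) u + (C.c i : ℂ)) (C.V i : ℂ) *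
        (-∫ x in (C.te (i + 1))..(C.te i), cexp (-(u * x))) / (C.m i : ℂ) ^ (2 * C.D i)) u := by
  have h1 := (RhoA.vv_hasDeriv (te_pos1 h hi) (te_le h hi) u).add_const (C.c i : ℂ)
  have h2 := (LG_hasDeriv (C.D i) (C.V i : ℂ) (vv (C.te (i + 1)) (C.te i) u + (C.c i : ℂ))).comp u h1
  exact h2.div_const _

theorem rhoZ_hasDeriv (u : ℂ) : HasDerivAt (rhoZ C)
    (∑ i ∈ Finset.range C.N, (∏ j ∈ (Finset.range C.N).erase i,
      (LG (C.D j) (vv (C.te (j + 1)) (C.te j) u + (C.c j : ℂ)) (C.V j : ℂ) /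
        (C.m j : ℂ) ^ (2 * C.D j))) •
      (LGd (C.D i) (vv (C.te (i + 1)) (C.te i) u + (C.c i : ℂ)) (C.V i : ℂ) *
        (-∫ x in (C.te (i + 1))..(C.te i), cexp (-(u * x))) / (C.m i : ℂ) ^ (2 * C.D i))) u := by
  unfold rhoZ
  apply HasDerivAt.fun_finsetProd
  intro i hi
  exact fac_hasDeriv h (Finset.mem_range.mp hi) u

theorem deriv_real (i : ℕ) :
    deriv (fun x : ℝ => LG (C.D i) x (C.V i)) (C.V i + C.c i) =
      LGd (C.D i) (C.V i + C.c i) (C.V i) := (LG_hasDeriv _ _ _).deriv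

theorem rho8_nonneg : 0 ≤ rho8 C := by
  unfold rho8
  refine Finset.sum_nonneg fun i hi => ?_
  have hi' := Finset.mem_range.mp hi
  rw [deriv_real h i]
  have h1 := te_le h hi'
  have h2 := LGd_nonneg (C.D i) (Vc_pos h hi').le (V_pos h hi').le
  have h3 := LG_pos (C.D i) (C.V i + C.c i) (V_pos h hi')
  apply mul_nonneg (by linarith)
  positivity

theorem deriv_zero : deriv (rhoZ C) 0 =
    ((-(rho8 C * ∏ i ∈ Finset.range C.N, aZ C i) : ℝ) : ℂ) := by
  rw [(rhoZ_hasDeriv h 0).deriv]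
  unfold rho8
  rw [Finset.sum_mul, ← Finset.sum_neg_distrib, Complex.ofReal_sum]
  refine Finset.sum_congr rfl fun i hi => ?_
  have hi' := Finset.mem_range.mp hi
  have h1 : (∏ j ∈ (Finset.range C.N).erase i,
      (LG (C.D j) (vv (C.te (j + 1)) (C.te j) 0 + (C.c j : ℂ)) (C.V j : ℂ) /
        (C.m j : ℂ) ^ (2 * C.D j))) = ((∏ j ∈ (Finset.range C.N).erase i, aZ C j : ℝ) : ℂ) := by
    rw [Complex.ofReal_prod]
    refine Finset.prod_congr rfl fun j hj => ?_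
    exact fac0 h (Finset.mem_range.mp (Finset.mem_of_mem_erase hj))
  rw [h1, smul_eq_mul, vv0 h hi', deriv_real h i]
  have h2 : (-∫ x in (C.te (i + 1))..(C.te i), cexp (-((0 : ℂ) * x))) =
      ((-(C.te i - C.te (i + 1)) : ℝ) : ℂ) := by
    simp
  rw [h2, ← Complex.ofReal_add, ← LGd_cast, ← Finset.mul_prod_erase _ _ hi]
  have h3 : (LG (C.D i) (C.V i + C.c i) (C.V i) : ℝ) ≠ 0 :=
    (LG_pos (C.D i) (C.V i + C.c i) (V_pos h hi')).ne'
  have h4 : (C.m i : ℝ) ≠ 0 := (h.hm i hi').ne'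
  rw [← Complex.ofReal_mul, ← Complex.ofReal_pow, ← Complex.ofReal_div, ← Complex.ofReal_mul]
  congr 1
  unfold aZ
  field_simp

theorem sum_te : ∑ i ∈ Finset.range C.N, (C.te i - C.te (i + 1)) ≤ 1 / 4 := by
  rw [Finset.sum_range_sub']
  have := h.hpos C.N le_rfl
  have := h.htop
  linarith

theorem rhoZ_bound {u : ℂ} (hu : ‖u‖ ≤ 1) :
    ‖rhoZ C u‖ ≤ Real.exp 4 * ∏ i ∈ Finset.range C.N, aZ C i := by
  unfold rhoZ
  rw [norm_prod]
  have h1 : ∀ i ∈ Finset.range C.N,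
      ‖LG (C.D i) (vv (C.te (i + 1)) (C.te i) u + (C.c i : ℂ)) (C.V i : ℂ) /
        (C.m i : ℂ) ^ (2 * C.D i)‖ ≤ aZ C i * Real.exp (16 * (C.te i - C.te (i + 1))) := by
    intro i hi
    have hi' := Finset.mem_range.mp hi
    have hm := h.hm i hi'
    rw [norm_div, norm_pow, Complex.norm_real, Real.norm_of_nonneg hm.le]
    have h2 : ‖(vv (C.te (i + 1)) (C.te i) u + (C.c i : ℂ)) - ((C.V i + C.c i : ℝ) : ℂ)‖ ≤
        2 * (C.te i - C.te (i + 1)) := by
      have h3 := RhoA.vv_sub_le (te_pos1 h hi') (te_le h hi') (te_le_one h hi'.le) hu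
      have h4 : (vv (C.te (i + 1)) (C.te i) u + (C.c i : ℂ)) - ((C.V i + C.c i : ℝ) : ℂ) =
          vv (C.te (i + 1)) (C.te i) u - ((Real.log (C.te i / C.te (i + 1)) : ℝ) : ℂ) := by
        rw [Complex.ofReal_add]
        unfold Cfg.V
        ring
      rw [h4]
      exact h3
    have h5 := LG_norm_le' (C.D i) (h.hc i hi') (Vc_pos h hi') (V_pos h hi') h2
    have h6 : 8 * (2 * (C.te i - C.te (i + 1))) = 16 * (C.te i - C.te (i + 1)) := by ring
    rw [h6] at h5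
    unfold aZ
    rw [div_mul_eq_mul_div]
    exact div_le_div_of_nonneg_right h5 (by positivity)
  refine (Finset.prod_le_prod (fun i _ => norm_nonneg _) h1).trans ?_
  rw [Finset.prod_mul_distrib, ← Real.exp_sum, mul_comm]
  have h7 : 0 ≤ ∏ i ∈ Finset.range C.N, aZ C i :=
    Finset.prod_nonneg fun i hi => (aZ_pos h (Finset.mem_range.mp hi)).le
  apply mul_le_mul_of_nonneg_right _ h7
  apply Real.exp_le_exp.mpr
  rw [← Finset.mul_sum]
  have := sum_te h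
  linarith

end

end RhoZA

open RhoZA in
theorem stRhoZ : StRhoZ := by
  refine ⟨Real.exp 4, Real.one_le_exp (by norm_num), ?_⟩
  intro κ hκ _ M C h
  refine ⟨fun u => (rhoZ_hasDeriv h u).differentiableAt, fun i hi => aZ_pos h hi,
    fun i hi => aV_pos h hκ hi, rho8_nonneg h, ?_, deriv_zero h, fun u hu => rhoZ_bound h hu⟩
  unfold rhoZ
  rw [Complex.ofReal_prod]
  exact Finset.prod_congr rfl fun i hi => fac0 h (Finset.mem_range.mp hi)

end K8
end Pool.Agent.Lib.MP_973905_nt
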