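import Pool.Agent.Lib.MP_973905_nt.K8.Stmts
import Pool.Agent.Lib.MP_973905_nt.K3.AvgLow

/-! Module (Z7) of K8: from Gaussian means to the mean over `[0, T]` (lower bound). -/

namespace Pool.Agent.Lib.MP_973905_nt
namespace K8

open MeasureTheory ProbabilityTheory Complex Filter Topology K1 K4 K5

open K3.AL

/-- (Z7) from Gaussian means to the mean over `[0, T]` -/
theorem stAvL : StAvL := by
  have ev1 : ∀ᶠ T : ℝ in atTop, Real.log T ≤ T ^ (1 / 80 : ℝ) := by
    have h := (isLittleO_log_rpow_atTop (r := 1 / 80) (by positivity)).def (c := 1) one_pos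
    filter_upwards [h, eventually_ge_atTop 1] with T hT hT1
    rw [one_mul, Real.norm_eq_abs, Real.norm_eq_abs, abs_of_nonneg (Real.log_nonneg hT1),
      abs_of_nonneg (by positivity)] at hT
    exact hT
  have ev2 : ∀ᶠ T : ℝ in atTop, 64 * 1440 * Real.exp 3 * T ^ 19 ≤ Real.exp (T ^ (1 / 80 : ℝ)) := by
    have h := ev_exp (δ := 1 / 5) (by norm_num) (64 * 1440 * Real.exp 3) (by positivity)
    rw [show (1 / 5 / 16 : ℝ) = 1 / 80 by norm_num] at h
    exact h
  have ev3 : ∀ᶠ T : ℝ in atTop, 4 ≤ Real.log T := Real.tendsto_log_atTop.eventually_ge_atTop 4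
  obtain ⟨T₀, hT₀⟩ := eventually_atTop.mp (ev1.and (ev2.and ev3))
  refine ⟨2, max 3 T₀, by norm_num, le_max_left _ _, fun T hT F hF hF0 hFb D hD hDE => ?_⟩
  have hT3 : 3 ≤ T := (le_max_left _ _).trans hT
  obtain ⟨h1, h2, h3⟩ := hT₀ T ((le_max_right _ _).trans hT)
  have hT0 : 0 < T := by linarith
  have hL : 0 < Real.log T := by linarith
  set a : ℝ := T / Real.log T with ha
  have ha0 : 0 < a := by positivity
  have haT : a ≤ T / 4 := by
    rw [ha]
    exact div_le_div_of_nonneg_left hT0.le (by norm_num) h3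
  set γ := gaussianReal 0 (VV T) with hγ
  set y : ℝ := T ^ (1 / 80 : ℝ) with hy
  have hy1 : 1 ≤ y := Real.one_le_rpow (by linarith) (by positivity)
  have hy0 : 0 < y := by linarith
  have hyT : y ^ 2 ≤ T := by
    rw [hy, ← Real.rpow_natCast, ← Real.rpow_mul hT0.le]
    calc T ^ (1 / 80 * ((2 : ℕ) : ℝ)) ≤ T ^ (1 : ℝ) := by
          apply Real.rpow_le_rpow_of_exponent_le (by linarith)
          push_cast
          norm_num
      _ = T := Real.rpow_one T
  have hV : ((VV T : NNReal) : ℝ) = T ^ 2 / y ^ 8 := by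
    rw [VV_coe hT0.le, eq_div_iff (by positivity), hy, ← Real.rpow_natCast, ← Real.rpow_natCast,
      ← Real.rpow_mul hT0.le, ← Real.rpow_add hT0]
    congr 1
    push_cast
    norm_num
  -- the tail
  set q : ℝ := ∫ x, Set.indicator {x : ℝ | a < |x|} (fun x => (1 + |x|) ^ 6) x ∂γ with hq
  have hqi : Integrable (Set.indicator {x : ℝ | a < |x|} (fun x => (1 + |x|) ^ 6)) γ :=
    (integrable_one_add_abs_pow 0 _ 6).indicator (measurableSet_lt measurable_const measurable_id.abs)
  have hq1 : T ^ 7 * (1 + T) ^ 6 * q ≤ 1 := by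
    have hl : 0 < y ^ 2 / T := by positivity
    have h4 : q ≤ 1440 * ((y ^ 2 / T)⁻¹) ^ 6 * Real.exp (y ^ 2 / T - y ^ 2 / T * a +
        2 * ((VV T : NNReal) : ℝ) * (y ^ 2 / T) ^ 2) := tail6 hl
    have h5 : ((y ^ 2 / T)⁻¹) ^ 6 ≤ T ^ 6 := by
      have : (y ^ 2 / T)⁻¹ ≤ T := by
        rw [inv_div]
        exact div_le_self hT0.le (one_le_pow₀ hy1)
      gcongr
    have h6 : y ^ 2 / T ≤ 1 := by rw [div_le_one hT0]; exact hyT
    have h7 : y ≤ y ^ 2 / T * a := by
      rw [ha, div_mul_div_comm, le_div_iff₀ (by positivity)]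
      calc y * (T * Real.log T) = y * Real.log T * T := by ring
        _ ≤ y * y * T := by gcongr
        _ = y ^ 2 * T := by ring
    have h8 : 2 * ((VV T : NNReal) : ℝ) * (y ^ 2 / T) ^ 2 ≤ 2 := by
      rw [hV]
      have : 2 * (T ^ 2 / y ^ 8) * (y ^ 2 / T) ^ 2 = 2 * (1 / y ^ 4) := by
        field_simp
      rw [this]
      have : 1 / y ^ 4 ≤ 1 := by
        rw [div_le_one (by positivity)]; exact one_le_pow₀ hy1
      linarith
    have h9 : q ≤ 1440 * T ^ 6 * (Real.exp 3 * Real.exp (-y)) := by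
      refine h4.trans ?_
      rw [← Real.exp_add]
      exact mul_le_mul (by gcongr) (Real.exp_le_exp.2 (by linarith)) (Real.exp_pos _).le
        (by positivity)
    have h10 : (1 + T) ^ 6 ≤ 64 * T ^ 6 := by
      calc (1 + T) ^ 6 ≤ (2 * T) ^ 6 := by gcongr; linarith
        _ = _ := by ring
    calc T ^ 7 * (1 + T) ^ 6 * q ≤ T ^ 7 * (64 * T ^ 6) *
          (1440 * T ^ 6 * (Real.exp 3 * Real.exp (-y))) := by
          gcongr
          exact integral_nonneg fun x => Set.indicator_nonneg (fun t _ => by positivity) x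
      _ = (64 * 1440 * Real.exp 3 * T ^ 19) * Real.exp (-y) := by ring
      _ ≤ Real.exp y * Real.exp (-y) := by gcongr
      _ = 1 := by rw [← Real.exp_add]; simp
  have hFa : ∀ t, |F t| ≤ T ^ 6 * (1 + |t|) ^ 6 := fun t => by
    rw [abs_of_nonneg (hF0 t)]; exact hFb t
  have haT' : a ≤ T - a := by linarith
  obtain ⟨e1, j1, j2⟩ := average6 T hF hFa haT'
  have hFi : ∀ u v : ℝ, IntervalIntegrable F volume u v := fun u v => hF.intervalIntegrable u v
  set A : ℝ := ∫ t in (0 : ℝ)..T, F t with hA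
  -- lower bound
  have s1 : (T - 2 * a) * D ≤ ∫ τ in a..(T - a), EG T τ F := by
    have h4 : ∫ _ in a..(T - a), D ≤ ∫ τ in a..(T - a), EG T τ F := by
      refine intervalIntegral.integral_mono_on haT' (by simp) j2 fun τ hτ => ?_
      have h0 : 0 ≤ τ := by linarith [hτ.1]
      apply hDE τ
      · rw [abs_of_nonneg h0]; exact hτ.1
      · rw [abs_of_nonneg h0]; linarith [hτ.2]
    rw [intervalIntegral.integral_const, smul_eq_mul] at h4
    linarith
  have s2 : ∀ x : ℝ, (∫ t in (x + a)..(x + (T - a)), F t) ≤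
      A + T ^ 7 * (1 + T) ^ 6 * Set.indicator {x : ℝ | a < |x|} (fun x => (1 + |x|) ^ 6) x := by
    intro x
    by_cases hx : a < |x|
    · rw [Set.indicator_of_mem (show x ∈ {x : ℝ | a < |x|} from hx) _]
      have hA0 : 0 ≤ A := intervalIntegral.integral_nonneg hT0.le fun t _ => hF0 t
      have h8 := intervalIntegral.norm_integral_le_of_norm_le_const (a := x + a)
        (b := x + (T - a)) (f := F) (C := T ^ 6 * ((1 + T) * (1 + |x|)) ^ 6) (fun t ht => by
          rw [Set.uIoc_of_le (by linarith)] at ht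
          rw [Real.norm_eq_abs]
          refine (hFa t).trans ?_
          have h10 : |t| ≤ |x| + T := by
            rw [abs_le]
            constructor
            · linarith [ht.1, neg_abs_le x]
            · linarith [ht.2, le_abs_self x]
          have h11 : 1 + |t| ≤ (1 + T) * (1 + |x|) := by
            nlinarith [mul_nonneg hT0.le (abs_nonneg x)]
          gcongr)
      rw [abs_of_nonneg (by linarith : 0 ≤ x + (T - a) - (x + a))] at h8
      have h9 : T ^ 6 * ((1 + T) * (1 + |x|)) ^ 6 * (x + (T - a) - (x + a)) ≤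
          T ^ 6 * ((1 + T) * (1 + |x|)) ^ 6 * T := by
        gcongr
        linarith
      calc (∫ t in (x + a)..(x + (T - a)), F t)
          ≤ T ^ 6 * ((1 + T) * (1 + |x|)) ^ 6 * T := (le_abs_self _).trans (h8.trans h9)
        _ = T ^ 7 * (1 + T) ^ 6 * (1 + |x|) ^ 6 := by ring
        _ ≤ _ := by linarith
    · rw [Set.indicator_of_notMem (show x ∉ {x : ℝ | a < |x|} from hx) _, mul_zero, add_zero]
      push Not at hx
      have h9 := abs_le.mp hx
      exact intervalIntegral.integral_mono_interval (by linarith) (by linarith) (by linarith)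
        (Filter.Eventually.of_forall fun t => hF0 t) (hFi _ _)
  have s3 : ∫ x, (∫ t in (x + a)..(x + (T - a)), F t) ∂γ ≤ A + 1 := by
    calc ∫ x, (∫ t in (x + a)..(x + (T - a)), F t) ∂γ
        ≤ ∫ x, (A + T ^ 7 * (1 + T) ^ 6 *
          Set.indicator {x : ℝ | a < |x|} (fun x => (1 + |x|) ^ 6) x) ∂γ :=
          integral_mono j1 ((integrable_const _).add (hqi.const_mul _)) s2
      _ = A + T ^ 7 * (1 + T) ^ 6 * q := by
          rw [integral_add (integrable_const _) (hqi.const_mul _), integral_const_mul]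
          simp only [integral_const, probReal_univ, smul_eq_mul, one_mul]
          rfl
      _ ≤ A + 1 := by linarith
  have s4 : (T - 2 * a) * D ≤ A + 1 := by
    rw [e1] at s1
    exact s1.trans s3
  calc (1 - 2 / Real.log T) * D = T⁻¹ * ((T - 2 * a) * D) := by
        rw [ha]; field_simp
    _ ≤ T⁻¹ * (A + 1) := by gcongr
    _ = T⁻¹ * A + 1 / T := by ring

end K8
end Pool.Agent.Lib.MP_973905_nt
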