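import Pool.Agent.Lib.MP_973905_nt.K8.Stmts

/-! (N4) The factor of a block, side without zeta. -/

namespace Pool.Agent.Lib.MP_973905_nt
namespace K8

open MeasureTheory ProbabilityTheory Complex Filter Topology K1 K4 K5

namespace BhAux

theorem ee_eq (a k V : ℝ) (n : ℕ) (ha : 0 < a) (hV : 0 < V) : ∀ j : ℕ,
    ee (a * Real.sqrt V) (k * a * V) (n - k / a) j = dcf a k n j * Real.sqrt V ^ j
  | 0 => by simp [ee, dcf]
  | 1 => by
    simp only [ee, dcf, pow_one]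
    field_simp
  | j + 2 => by
    have h1 := ee_eq a k V n ha hV (j + 1)
    have h0 := ee_eq a k V n ha hV j
    have hs : Real.sqrt V ^ 2 = V := Real.sq_sqrt hV.le
    have e2 : Real.sqrt V ^ (j + 2) = Real.sqrt V ^ j * V := by rw [pow_add, hs]
    have e1 : Real.sqrt V ^ (j + 1) = Real.sqrt V ^ j * Real.sqrt V := pow_succ _ _
    rw [ee, dcf, h1, h0, e2, e1]
    have hj : ((j + 2 : ℕ) : ℝ) ≠ 0 := by positivity
    rw [div_mul_eq_mul_div]
    congr 1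
    have e3 : a * Real.sqrt V * (((j + 1 : ℕ) : ℝ) - (n - k / a)) =
        (a * ((j + 1 : ℕ) : ℝ) - n * a + k) * Real.sqrt V := by
      field_simp
      ring
    rw [e3]
    have e4 : (a * ((j + 1 : ℕ) : ℝ) - n * a + k) * Real.sqrt V *
        (dcf a k n (j + 1) * (Real.sqrt V ^ j * Real.sqrt V)) =
        (a * ((j + 1 : ℕ) : ℝ) - n * a + k) * dcf a k n (j + 1) * Real.sqrt V ^ j *
          Real.sqrt V ^ 2 := by ring
    rw [e4, hs]
    ring

theorem term_eq (a k V : ℝ) (n : ℕ) (ha : 0 < a) (hV : 0 < V) (j : ℕ) :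
    dcf a k n j ^ 2 * (j.factorial : ℝ) * V ^ j =
      ee (a * Real.sqrt V) (k * a * V) (n - k / a) j ^ 2 * (j.factorial : ℝ) := by
  rw [ee_eq a k V n ha hV j, mul_pow, ← pow_mul, mul_comm j 2, pow_mul, Real.sq_sqrt hV.le]
  ring

theorem sum_le (hF : StFock) (hC : StCrudeF) (a k V lam : ℝ) (n : ℕ) (ha : 0 < a) (hV : 0 < V)
    (hl : 1 ≤ lam) (h : n * a ^ 2 * (lam * V) < 1) :
    ∑' j : ℕ, dcf a k n j ^ 2 * (j.factorial : ℝ) * V ^ j ≤
      ∑ j ∈ Finset.range 8, dcf a k n j ^ 2 * (j.factorial : ℝ) * V ^ j +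
        1 / lam ^ 8 * (Real.exp (lam * V * (n * a - k) ^ 2 / (1 - n * a ^ 2 * (lam * V))) /
          (1 - n * a ^ 2 * (lam * V))) := by
  have hl0 : 0 < lam := by linarith
  have hlV : 0 < lam * V := by positivity
  have hs := (hF a k V n ha hV).summable
  have hs' := (hF a k (lam * V) n ha hlV).summable
  have hc := hC a k (lam * V) n ha hlV h
  rw [← hs.sum_add_tsum_nat_add 8]
  refine add_le_add le_rfl ?_
  refine le_trans ?_ (mul_le_mul_of_nonneg_left hc (by positivity))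
  have h1 : ∑' j : ℕ, dcf a k n (j + 8) ^ 2 * (((j + 8).factorial : ℕ) : ℝ) * V ^ (j + 8) ≤
      ∑' j : ℕ, 1 / lam ^ 8 *
        (dcf a k n (j + 8) ^ 2 * (((j + 8).factorial : ℕ) : ℝ) * (lam * V) ^ (j + 8)) := by
    refine ((summable_nat_add_iff 8).mpr hs).tsum_le_tsum ?_
      (((summable_nat_add_iff 8).mpr hs').mul_left _)
    intro j
    have e1 : 1 / lam ^ 8 *
        (dcf a k n (j + 8) ^ 2 * (((j + 8).factorial : ℕ) : ℝ) * (lam * V) ^ (j + 8)) =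
        (dcf a k n (j + 8) ^ 2 * (((j + 8).factorial : ℕ) : ℝ) * V ^ (j + 8)) * lam ^ j := by
      rw [mul_pow, pow_add lam j 8]
      field_simp
    rw [e1]
    exact le_mul_of_one_le_right (by positivity) (one_le_pow₀ hl)
  refine h1.trans ?_
  rw [tsum_mul_left]
  refine mul_le_mul_of_nonneg_left ?_ (by positivity)
  rw [← hs'.sum_add_tsum_nat_add 8]
  exact le_add_of_nonneg_left (Finset.sum_nonneg fun j _ => by positivity)

/-! real inequalities -/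

theorem exp_le_inv {v : ℝ} (h : v < 1) : Real.exp v ≤ 1 / (1 - v) := by
  have h1 : 1 - v ≤ Real.exp (-v) := by
    have := Real.add_one_le_exp (-v)
    linarith
  rw [Real.exp_neg] at h1
  have h2 : 0 < 1 - v := by linarith
  have h3 := Real.exp_pos v
  rw [le_div_iff₀ h2]
  have h4 : (1 - v) * Real.exp v ≤ (Real.exp v)⁻¹ * Real.exp v :=
    mul_le_mul_of_nonneg_right h1 h3.le
  rw [inv_mul_cancel₀ h3.ne'] at h4
  linarith

theorem q1 {x t : ℝ} (hx : 0 < x) (hx3 : x ≤ 1 / 3) (ht : 0 ≤ t) (ht1 : t ≤ 1) :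
    (1 - t) * Real.exp (4 * x * t ^ 2) ≤ 1 := by
  have h0 : 4 * x * t ^ 2 ≤ 4 / 3 * t ^ 2 := by nlinarith [sq_nonneg t]
  have h1 : Real.exp (4 * x * t ^ 2) ≤ Real.exp (4 / 3 * t ^ 2) := Real.exp_le_exp.mpr h0
  by_cases h : t ≤ 3 / 4
  · have h2 : 4 / 3 * t ^ 2 < 1 := by nlinarith
    have h3 := exp_le_inv h2
    have h4 : 0 < 1 - 4 / 3 * t ^ 2 := by linarith
    calc (1 - t) * Real.exp (4 * x * t ^ 2) ≤ (1 - t) * (1 / (1 - 4 / 3 * t ^ 2)) :=
          mul_le_mul_of_nonneg_left (h1.trans h3) (by linarith)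
      _ ≤ 1 := by
          rw [mul_one_div, div_le_one h4]
          nlinarith
  · push Not at h
    have h2 : Real.exp (4 / 3 * t ^ 2) ≤ 4 := by
      have h3 : Real.exp (4 / 3 * t ^ 2) ≤ Real.exp (1 + (1 / 6 + 1 / 6)) := by
        apply Real.exp_le_exp.mpr
        nlinarith
      have h4 : Real.exp (1 / 6) ≤ 1 / (1 - 1 / 6) := exp_le_inv (by norm_num)
      have h5 := Real.exp_one_lt_d9
      rw [Real.exp_add, Real.exp_add] at h3
      have h6 : Real.exp 1 * (Real.exp (1 / 6) * Real.exp (1 / 6)) ≤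
          2.7182818286 * (1 / (1 - 1 / 6) * (1 / (1 - 1 / 6))) :=
        mul_le_mul h5.le (mul_le_mul h4 h4 (Real.exp_pos _).le (by norm_num))
          (mul_pos (Real.exp_pos _) (Real.exp_pos _)).le (by norm_num)
      have h7 : (2.7182818286 * (1 / (1 - 1 / 6) * (1 / (1 - 1 / 6))) : ℝ) ≤ 4 := by norm_num
      linarith
    have h3 : (1 - t) * Real.exp (4 * x * t ^ 2) ≤ (1 - t) * 4 :=
      mul_le_mul_of_nonneg_left (h1.trans h2) (by linarith)
    nlinarith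

/-- `(1-s) exp(βs²/(1-βs)) ≤ 1 - βs` -/
theorem q2 {β s : ℝ} (hβ : 0 ≤ β) (hβ1 : β ≤ 35 / 66) (hs : 0 ≤ s) (hs1 : s ≤ 1) :
    (1 - s) * Real.exp (β * s ^ 2 / (1 - β * s)) ≤ 1 - β * s := by
  have hbs : β * s ≤ 35 / 66 := by nlinarith
  have hpos : 0 < 1 - β * s := by linarith
  by_cases h : β * (1 + s) ≤ 1
  · by_cases hs2 : s = 1
    · rw [hs2, sub_self, zero_mul]
      rw [hs2] at hpos
      exact hpos.le
    have hs3 : s < 1 := lt_of_le_of_ne hs1 hs2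
    have h1 : β * s ^ 2 / (1 - β * s) < 1 := by
      rw [div_lt_one hpos]
      nlinarith
    have h2 := exp_le_inv h1
    have h3 : 0 < 1 - β * s ^ 2 / (1 - β * s) := by linarith
    calc (1 - s) * Real.exp (β * s ^ 2 / (1 - β * s))
        ≤ (1 - s) * (1 / (1 - β * s ^ 2 / (1 - β * s))) :=
          mul_le_mul_of_nonneg_left h2 (by linarith)
      _ ≤ 1 - β * s := by
          rw [mul_one_div, div_le_iff₀ h3]
          have e : (1 - β * s) * (1 - β * s ^ 2 / (1 - β * s)) = 1 - β * s - β * s ^ 2 := by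
            field_simp
          rw [e]
          nlinarith
  · push Not at h
    have hs4 : 31 / 35 ≤ s := by
      by_contra hc
      push Not at hc
      nlinarith
    have h1 : β * s ^ 2 / (1 - β * s) ≤ 1 + 1 / 7 := by
      rw [div_le_iff₀ hpos]
      nlinarith
    have h2 : Real.exp (β * s ^ 2 / (1 - β * s)) ≤ 3.2 := by
      have h3 : Real.exp (β * s ^ 2 / (1 - β * s)) ≤ Real.exp (1 + 1 / 7) :=
        Real.exp_le_exp.mpr h1
      have h4 : Real.exp (1 / 7) ≤ 1 / (1 - 1 / 7) := exp_le_inv (by norm_num)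
      have h5 := Real.exp_one_lt_d9
      rw [Real.exp_add] at h3
      have h6 : Real.exp 1 * Real.exp (1 / 7) ≤ 2.7182818286 * (1 / (1 - 1 / 7)) :=
        mul_le_mul h5.le h4 (Real.exp_pos _).le (by norm_num)
      norm_num at h6 ⊢
      linarith
    have h3 : (1 - s) * Real.exp (β * s ^ 2 / (1 - β * s)) ≤ (1 - s) * 3.2 :=
      mul_le_mul_of_nonneg_left h2 (by linarith)
    norm_num at h3
    linarith

/-- the tail for `n = r` -/
theorem l1 {x t w : ℝ} (hx : 0 < x) (hx3 : x ≤ 1 / 3) (ht : 0 ≤ t) (ht1 : t ≤ 1) (hw : 0 ≤ w)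
    (hwx : w ≤ x ^ 2) :
    (1 - t) * (1 / (4 / (5 * x)) ^ 8 * (Real.exp (4 / (5 * x) * (w * t ^ 2) /
      (1 - 4 / (5 * x) * (x - t * w))) / (1 - 4 / (5 * x) * (x - t * w)))) ≤
      5 * (5 * x / 4) ^ 8 := by
  have e1 : 1 - 4 / (5 * x) * (x - t * w) = 1 / 5 + 4 / (5 * x) * (t * w) := by
    field_simp
    ring
  have h0 : 0 ≤ 4 / (5 * x) * (t * w) := by positivity
  have h1 : (1 : ℝ) / 5 ≤ 1 - 4 / (5 * x) * (x - t * w) := by rw [e1]; linarith
  set q := 1 - 4 / (5 * x) * (x - t * w) with hq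
  have hq0 : 0 < q := by linarith
  have h2 : 4 / (5 * x) * (w * t ^ 2) / q ≤ 4 * x * t ^ 2 := by
    rw [div_le_iff₀ hq0]
    have h3 : 4 / (5 * x) * (w * t ^ 2) ≤ 4 / (5 * x) * (x ^ 2 * t ^ 2) := by
      apply mul_le_mul_of_nonneg_left _ (by positivity)
      exact mul_le_mul_of_nonneg_right hwx (sq_nonneg t)
    have h4 : 4 / (5 * x) * (x ^ 2 * t ^ 2) = 4 * x * t ^ 2 * (1 / 5) := by
      field_simp
    rw [h4] at h3
    exact h3.trans (mul_le_mul_of_nonneg_left h1 (by positivity))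
  have h3 : Real.exp (4 / (5 * x) * (w * t ^ 2) / q) / q ≤ 5 * Real.exp (4 * x * t ^ 2) := by
    rw [div_le_iff₀ hq0]
    have h4 := Real.exp_le_exp.mpr h2
    have h5 := Real.exp_pos (4 * x * t ^ 2)
    nlinarith
  have e2 : 1 / (4 / (5 * x)) ^ 8 = (5 * x / 4) ^ 8 := by
    rw [one_div, ← inv_pow, inv_div]
  rw [e2]
  have h4 := q1 hx hx3 ht ht1
  calc (1 - t) * ((5 * x / 4) ^ 8 * (Real.exp (4 / (5 * x) * (w * t ^ 2) / q) / q))
      ≤ (1 - t) * ((5 * x / 4) ^ 8 * (5 * Real.exp (4 * x * t ^ 2))) := by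
        apply mul_le_mul_of_nonneg_left _ (by linarith)
        exact mul_le_mul_of_nonneg_left h3 (by positivity)
    _ = 5 * (5 * x / 4) ^ 8 * ((1 - t) * Real.exp (4 * x * t ^ 2)) := by ring
    _ ≤ 5 * (5 * x / 4) ^ 8 * 1 := mul_le_mul_of_nonneg_left h4 (by positivity)
    _ = _ := by ring

/-- the tail for `n = r + 1` -/
theorem l2 {x t w : ℝ} (hx : 0 < x) (hx3 : x ≤ 1 / 3) (ht : 0 ≤ t) (ht1 : t ≤ 1) (hw : 0 ≤ w)
    (hwx : w * (1 + 7 / 5 * x) ≤ x ^ 2) :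
    0 < 1 - 7 / (10 * x) * (x + (1 - t) * w) ∧
    t * (1 / (7 / (10 * x)) ^ 8 * (Real.exp (7 / (10 * x) * (w * (1 - t) ^ 2) /
      (1 - 7 / (10 * x) * (x + (1 - t) * w))) / (1 - 7 / (10 * x) * (x + (1 - t) * w)))) ≤
      10 / 3 * (10 * x / 7) ^ 8 := by
  set s := 1 - t with hs
  have hts : t = 1 - s := by rw [hs]; ring
  have hs0 : 0 ≤ s := by rw [hs]; linarith
  have hs1 : s ≤ 1 := by rw [hs]; linarith
  set β := 7 / (3 * x) * w with hβ
  have hβ0 : 0 ≤ β := by positivity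
  have hβ1 : β ≤ 35 / 66 := by
    rw [hβ]
    have h1 : 0 < 1 + 7 / 5 * x := by positivity
    have h2 : w ≤ x ^ 2 / (1 + 7 / 5 * x) := by rwa [le_div_iff₀ h1]
    have h3 : 7 / (3 * x) * w ≤ 7 / (3 * x) * (x ^ 2 / (1 + 7 / 5 * x)) :=
      mul_le_mul_of_nonneg_left h2 (by positivity)
    have h4 : 7 / (3 * x) * (x ^ 2 / (1 + 7 / 5 * x)) = 7 * x / (3 * (1 + 7 / 5 * x)) := by
      field_simp
    rw [h4] at h3
    refine h3.trans ?_
    rw [div_le_iff₀ (by positivity)]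
    nlinarith
  have e1 : 1 - 7 / (10 * x) * (x + s * w) = 3 / 10 * (1 - β * s) := by
    rw [hβ]
    field_simp
    ring
  have hbs : β * s ≤ 35 / 66 := by nlinarith
  have hpos : 0 < 1 - β * s := by linarith
  rw [e1]
  refine ⟨by positivity, ?_⟩
  have e2 : 7 / (10 * x) * (w * s ^ 2) / (3 / 10 * (1 - β * s)) = β * s ^ 2 / (1 - β * s) := by
    rw [div_eq_div_iff (by positivity) hpos.ne', hβ]
    field_simp
  have e3 : 1 / (7 / (10 * x)) ^ 8 = (10 * x / 7) ^ 8 := by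
    rw [one_div, ← inv_pow, inv_div]
  rw [e2, e3, hts]
  have h1 := q2 hβ0 hβ1 hs0 hs1
  have h2 : (1 - s) * (Real.exp (β * s ^ 2 / (1 - β * s)) / (3 / 10 * (1 - β * s))) ≤ 10 / 3 := by
    rw [← mul_div_assoc, div_le_iff₀ (by positivity)]
    calc (1 - s) * Real.exp (β * s ^ 2 / (1 - β * s)) ≤ 1 - β * s := h1
      _ = _ := by ring
  calc (1 - s) * ((10 * x / 7) ^ 8 *
        (Real.exp (β * s ^ 2 / (1 - β * s)) / (3 / 10 * (1 - β * s))))
      = (10 * x / 7) ^ 8 *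
        ((1 - s) * (Real.exp (β * s ^ 2 / (1 - β * s)) / (3 / 10 * (1 - β * s)))) := by ring
    _ ≤ (10 * x / 7) ^ 8 * (10 / 3) := mul_le_mul_of_nonneg_left h2 (by positivity)
    _ = _ := by ring

theorem l3 {x : ℝ} (hx : 0 < x) (hx3 : x ≤ 1 / 3) :
    5 * (5 * x / 4) ^ 8 + 10 / 3 * (10 * x / 7) ^ 8 ≤ x ^ 2 / 12 + 25 / 72 * x ^ 4 := by
  have e : 5 * (5 * x / 4) ^ 8 + 10 / 3 * (10 * x / 7) ^ 8 =
      (5 * (5 / 4) ^ 8 + 10 / 3 * (10 / 7) ^ 8) * x ^ 4 * x ^ 4 := by ring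
  have hx2 : x ^ 2 ≤ 1 / 9 := by nlinarith
  have hx4 : x ^ 4 ≤ 1 / 81 := by nlinarith [sq_nonneg x]
  have hp : 0 ≤ x ^ 4 := by positivity
  rw [e]
  have h1 : (5 * (5 / 4) ^ 8 + 10 / 3 * (10 / 7) ^ 8 : ℝ) ≤ 87.63 := by norm_num
  have h2 : (5 * (5 / 4) ^ 8 + 10 / 3 * (10 / 7) ^ 8) * x ^ 4 * x ^ 4 ≤ 87.63 * x ^ 4 * (1 / 81) := by
    have h3 : (5 * (5 / 4) ^ 8 + 10 / 3 * (10 / 7) ^ 8) * x ^ 4 ≤ 87.63 * x ^ 4 :=
      mul_le_mul_of_nonneg_right h1 hp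
    exact mul_le_mul h3 hx4 hp (by positivity)
  have h3 : x ^ 4 ≤ x ^ 2 * (1 / 9) := by
    have : x ^ 4 = x ^ 2 * x ^ 2 := by ring
    rw [this]
    exact mul_le_mul_of_nonneg_left hx2 (sq_nonneg x)
  nlinarith

end BhAux

open BhAux in
/-- (N4) -/
theorem stBh (hF : StFock) (hC : StCrudeF) (hP : StPart) : StBh := by
  intro κ V D hκ hκ1 hD hV hV2 hDV
  have hD0 : (0 : ℝ) < D := by exact_mod_cast hD
  have hD1 : (1 : ℝ) ≤ D := by exact_mod_cast hD
  have hV0 : 0 < V := by linarith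
  set k : ℝ := 1 + κ with hk
  have hk0 : 0 < k := by rw [hk]; linarith
  set a : ℝ := κ / D with ha
  have ha0 : 0 < a := by rw [ha]; positivity
  have hka : (D : ℝ) * pe κ = k / a := by
    rw [pe, ha, hk]
    field_simp
  have hp0 : 0 ≤ (D : ℝ) * pe κ := by rw [hka]; positivity
  set r : ℕ := ⌊(D : ℝ) * pe κ⌋₊ with hr
  set t : ℝ := (D : ℝ) * pe κ - r with ht
  have ht0 : 0 ≤ t := by
    rw [ht, sub_nonneg]
    exact Nat.floor_le hp0
  have ht1 : t ≤ 1 := by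
    have := Nat.lt_floor_add_one ((D : ℝ) * pe κ)
    rw [ht]
    linarith
  set x : ℝ := k * a * V with hx
  have hx0 : 0 < x := by rw [hx]; positivity
  have hxe : x = κ * k * V / D := by rw [hx, ha]; ring
  have hx3 : x ≤ 1 / 3 := by
    rw [hxe, div_le_iff₀ hD0]
    have : 3 * (κ * k * V) ≤ D := hDV
    linarith
  set α : ℝ := a * Real.sqrt V with hα
  have hα0 : 0 ≤ α := by rw [hα]; positivity
  have hα2 : α ^ 2 = a ^ 2 * V := by rw [hα, mul_pow, Real.sq_sqrt hV0.le]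
  -- `α² (1 + 7x/5) ≤ x²`
  have hαx : α ^ 2 * (1 + 7 / 5 * x) ≤ x ^ 2 := by
    have h1 : x ≤ κ * k * V := by
      rw [hxe, div_le_iff₀ hD0]
      have : 0 ≤ κ * k * V := by positivity
      nlinarith
    have h2 : 1 + 7 / 5 * x ≤ k ^ 2 * V := by
      have h3 : 1 + 7 / 5 * (κ * k * V) ≤ k ^ 2 * V := by
        rw [hk]
        nlinarith [mul_nonneg hκ.le hV0.le, mul_nonneg (mul_nonneg hκ.le hV0.le)
          (sub_nonneg.mpr hκ1.le)]
      linarith
    have h3 : x ^ 2 = a ^ 2 * V * (k ^ 2 * V) := by rw [hx]; ring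
    rw [hα2, h3]
    exact mul_le_mul_of_nonneg_left h2 (by positivity)
  have hw0 : 0 ≤ α ^ 2 := sq_nonneg α
  have hwx : α ^ 2 ≤ x ^ 2 := by nlinarith
  -- the two values of `τ`
  have hτ1 : (r : ℝ) - k / a = -t := by rw [ht, hka]; ring
  have hτ2 : ((r + 1 : ℕ) : ℝ) - k / a = 1 - t := by
    push_cast
    rw [ht, hka]
    ring
  have hna : ∀ n : ℕ, (n : ℝ) * a - k = a * ((n : ℝ) - k / a) := by
    intro n
    field_simp
  have hnu : ∀ n : ℕ, (n : ℝ) * a ^ 2 * V = x + ((n : ℝ) - k / a) * α ^ 2 := by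
    intro n
    rw [hα2, hx]
    field_simp
    ring
  -- the sums
  have key : ∀ (n : ℕ) (lam : ℝ), 1 ≤ lam → lam * (x + ((n : ℝ) - k / a) * α ^ 2) < 1 →
      Real.exp (k ^ 2 * V) * (a ^ (2 * n) * LG n (1 / a - k * V) V) ≤
      ∑ j ∈ Finset.range 8, ee α x ((n : ℝ) - k / a) j ^ 2 * (j.factorial : ℝ) +
        1 / lam ^ 8 * (Real.exp (lam * (α ^ 2 * ((n : ℝ) - k / a) ^ 2) /
          (1 - lam * (x + ((n : ℝ) - k / a) * α ^ 2))) /
          (1 - lam * (x + ((n : ℝ) - k / a) * α ^ 2))) := by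
    intro n lam hl hlt
    have e1 : (n : ℝ) * a ^ 2 * (lam * V) = lam * (x + ((n : ℝ) - k / a) * α ^ 2) := by
      rw [← hnu n]; ring
    have e2 : lam * V * ((n : ℝ) * a - k) ^ 2 = lam * (α ^ 2 * ((n : ℝ) - k / a) ^ 2) := by
      rw [hna n, hα2]; ring
    have h1 := sum_le hF hC a k V lam n ha0 hV0 hl (by rw [e1]; exact hlt)
    rw [(hF a k V n ha0 hV0).tsum_eq, e1, e2] at h1
    refine h1.trans (add_le_add (le_of_eq ?_) le_rfl)
    exact Finset.sum_congr rfl fun j _ => term_eq a k V n ha0 hV0 j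
  have k1 := key r (4 / (5 * x)) (by
      rw [le_div_iff₀ (by positivity)]
      linarith) (by
      rw [hτ1]
      have e : 4 / (5 * x) * (x + -t * α ^ 2) = 4 / 5 - 4 / (5 * x) * (t * α ^ 2) := by
        field_simp
        ring
      rw [e]
      have : 0 ≤ 4 / (5 * x) * (t * α ^ 2) := by positivity
      linarith)
  obtain ⟨hpos2, hl2⟩ := l2 hx0 hx3 ht0 ht1 hw0 hαx
  have k2 := key (r + 1) (7 / (10 * x)) (by
      rw [le_div_iff₀ (by positivity)]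
      linarith) (by
      rw [hτ2]
      linarith)
  rw [hτ1] at k1
  rw [hτ2] at k2
  have hl1 := l1 hx0 hx3 ht0 ht1 hw0 hwx
  have hp := hP α x t hx0 hx3 ht0 ht1 hα0 hαx
  have hl3 := l3 hx0 hx3
  have e1 : x + -t * α ^ 2 = x - t * α ^ 2 := by ring
  have e2 : (-t) ^ 2 = t ^ 2 := by ring
  rw [e1, e2] at k1
  have m1 := mul_le_mul_of_nonneg_left k1 (sub_nonneg.mpr ht1)
  have m2 := mul_le_mul_of_nonneg_left k2 ht0
  rw [mul_add (1 - t)] at m1
  rw [mul_add t] at m2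
  -- the sum of both
  have h1 : (1 - t) * (Real.exp (k ^ 2 * V) * (a ^ (2 * r) * LG r (1 / a - k * V) V)) +
      t * (Real.exp (k ^ 2 * V) * (a ^ (2 * (r + 1)) * LG (r + 1) (1 / a - k * V) V)) ≤
      Real.exp (5 / 6 * x ^ 2) := by
    have h2 : 1 + 5 / 6 * x ^ 2 + 25 / 72 * x ^ 4 ≤ Real.exp (5 / 6 * x ^ 2) := by
      have h3 := Real.quadratic_le_exp_of_nonneg (x := 5 / 6 * x ^ 2) (by positivity)
      calc 1 + 5 / 6 * x ^ 2 + 25 / 72 * x ^ 4
          = 1 + 5 / 6 * x ^ 2 + (5 / 6 * x ^ 2) ^ 2 / 2 := by ring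
        _ ≤ _ := h3
    linarith
  have hinv : 1 / a = D / κ := by rw [ha, one_div, inv_div]
  have hLG : ∀ n : ℕ, LG n (D / κ - k * V) V / (D / κ) ^ (2 * n) =
      a ^ (2 * n) * LG n (1 / a - k * V) V := by
    intro n
    rw [hinv, ← hinv, one_div, inv_pow, div_inv_eq_mul, mul_comm]
  rw [hLG r, hLG (r + 1)]
  have e3 : Real.exp (-(k ^ 2 * V) + 5 / 6 * (κ * k * V / D) ^ 2) =
      Real.exp (-(k ^ 2 * V)) * Real.exp (5 / 6 * x ^ 2) := by
    rw [Real.exp_add, hxe]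
  rw [e3]
  have hE : Real.exp (-(k ^ 2 * V)) * Real.exp (k ^ 2 * V) = 1 := by
    rw [← Real.exp_add, neg_add_cancel, Real.exp_zero]
  have h2 := mul_le_mul_of_nonneg_left h1 (Real.exp_pos (-(k ^ 2 * V))).le
  refine le_trans (le_of_eq ?_) h2
  calc (1 - t) * (a ^ (2 * r) * LG r (1 / a - k * V) V) +
        t * (a ^ (2 * (r + 1)) * LG (r + 1) (1 / a - k * V) V)
      = (Real.exp (-(k ^ 2 * V)) * Real.exp (k ^ 2 * V)) *
        ((1 - t) * (a ^ (2 * r) * LG r (1 / a - k * V) V) +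
        t * (a ^ (2 * (r + 1)) * LG (r + 1) (1 / a - k * V) V)) := by rw [hE, one_mul]
    _ = _ := by ring

end K8
end Pool.Agent.Lib.MP_973905_nt
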