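import Pool.Agent.Lib.MP_973905_nt.K8.Stmts
import Pool.Agent.Lib.MP_973905_nt.K1.BlockShift

/-! Module (V3) of K8: mean square of a truncated exponential over a block, `1 ≤ k ≤ 2`. -/

namespace Pool.Agent.Lib.MP_973905_nt
namespace K8

open MeasureTheory ProbabilityTheory Complex Filter Topology K1 K4 K5

namespace BlkNAux

open K1.BlkShift

lemma Ntr_two (l : ℕ) (k : ℝ) (z : ℂ) : Ntr l k z = Ntr l (k / 2) (2 * z) := by
  unfold Ntr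
  refine Finset.sum_congr rfl fun i _ => ?_
  congr 2
  push_cast
  ring

lemma tail_two (l : ℕ) {k : ℝ} (hk0 : 1 ≤ k) (hk1 : k ≤ 2) (z : ℂ) :
    ‖cexp (k * z) - Ntr l k z‖ ≤ Real.exp (-l) * Real.exp (6 * ‖z‖) := by
  have h := Ntr_tail l (α := k / 2) (by rw [abs_le]; constructor <;> linarith) (2 * z)
  rw [← Ntr_two] at h
  have e1 : ((k / 2 : ℝ) : ℂ) * (2 * z) = (k : ℂ) * z := by push_cast; ring
  have e2 : ‖2 * z‖ = 2 * ‖z‖ := by rw [norm_mul]; norm_num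
  rw [e1, e2] at h
  refine h.trans (le_of_eq ?_)
  congr 2; ring

lemma norm_Ntr_two (l : ℕ) {k : ℝ} (hk0 : 1 ≤ k) (hk1 : k ≤ 2) (z : ℂ) :
    ‖Ntr l k z‖ ≤ Real.exp (2 * ‖z‖) := by
  have h := norm_Ntr_le l (α := k / 2) (by rw [abs_le]; constructor <;> linarith) (2 * z)
  rw [← Ntr_two] at h
  have e2 : ‖2 * z‖ = 2 * ‖z‖ := by rw [norm_mul]; norm_num
  rwa [e2] at h

lemma norm_exp_two {k : ℝ} (hk0 : 1 ≤ k) (hk1 : k ≤ 2) (z : ℂ) :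
    ‖cexp (k * z)‖ ≤ Real.exp (2 * ‖z‖) := by
  rw [norm_exp, re_ofReal_mul]
  apply Real.exp_le_exp.mpr
  have h1 := abs_re_le_norm z
  have h2 : k * z.re ≤ k * |z.re| := mul_le_mul_of_nonneg_left (le_abs_self _) (by linarith)
  have h3 : k * |z.re| ≤ 2 * |z.re| := mul_le_mul_of_nonneg_right hk1 (abs_nonneg _)
  linarith

lemma diff_two (l : ℕ) {k : ℝ} (hk0 : 1 ≤ k) (hk1 : k ≤ 2) (z : ℂ) :
    |‖Ntr l k z‖ ^ 2 - ‖cexp (k * z)‖ ^ 2| ≤ 2 * Real.exp (-l) * Real.exp (4 * ‖z‖) ^ 2 := by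
  have e1 : ‖Ntr l k z‖ ^ 2 - ‖cexp (k * z)‖ ^ 2 =
      (‖Ntr l k z‖ - ‖cexp (k * z)‖) * (‖Ntr l k z‖ + ‖cexp (k * z)‖) := by ring
  rw [e1, abs_mul]
  have h3 : |‖Ntr l k z‖ - ‖cexp (k * z)‖| ≤ Real.exp (-l) * Real.exp (6 * ‖z‖) := by
    refine (abs_norm_sub_norm_le _ _).trans ?_
    rw [norm_sub_rev]
    exact tail_two l hk0 hk1 z
  have h4 : |‖Ntr l k z‖ + ‖cexp (k * z)‖| ≤ 2 * Real.exp (2 * ‖z‖) := by
    rw [abs_of_nonneg (by positivity)]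
    linarith [norm_Ntr_two l hk0 hk1 z, norm_exp_two hk0 hk1 z]
  calc |‖Ntr l k z‖ - ‖cexp (k * z)‖| * |‖Ntr l k z‖ + ‖cexp (k * z)‖| ≤
        (Real.exp (-l) * Real.exp (6 * ‖z‖)) * (2 * Real.exp (2 * ‖z‖)) := by gcongr
    _ = 2 * Real.exp (-l) * (Real.exp (6 * ‖z‖) * Real.exp (2 * ‖z‖)) := by ring
    _ = _ := by
        rw [← Real.exp_add, ← Real.exp_nat_mul, Nat.cast_ofNat]
        congr 2; ring

/-- the pointwise comparison with the Euler product, good when `rho` is small -/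
lemma pt_exp {A : ℕ} {S : Finset ℕ} {k : ℝ} (hS : ∀ p ∈ S, p.Prime) (hk0 : 1 ≤ k) (hk1 : k ≤ 2)
    {f : ℕ → ℂ} (hf : ∀ n, ‖f n‖ = 1) :
    |‖cexp (k * Pj A S (tw ((1 / 2 : ℝ) : ℂ) f))‖ ^ 2 - ‖ZZ S (tw ((1 / 2 : ℝ) : ℂ) f)‖ ^ (2 * k)| ≤
      (Real.exp (4 * rho A S) - 1) * ‖ZZ S (tw ((1 / 2 : ℝ) : ℂ) f)‖ ^ (2 * k) := by
  set P := Pj A S (tw ((1 / 2 : ℝ) : ℂ) f) with hP
  set R := Rm A S (tw ((1 / 2 : ℝ) : ℂ) f) with hR
  set W := ‖ZZ S (tw ((1 / 2 : ℝ) : ℂ) f)‖ ^ (2 * k) with hW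
  have hW0 : 0 ≤ W := Real.rpow_nonneg (norm_nonneg _) _
  have hR1 : ‖R‖ ≤ rho A S := norm_Rm_le A hS le_rfl hf
  have hρ := rho_nonneg A S
  have hWe : W = Real.exp (2 * k * P.re + 2 * k * R.re) := norm_ZZ_rpow A hS le_rfl hf k
  have e1 : ‖cexp (k * P)‖ ^ 2 = W * Real.exp (-(2 * k * R.re)) := by
    rw [hWe, norm_exp, ← Real.exp_nat_mul, re_ofReal_mul, Nat.cast_ofNat, ← Real.exp_add]
    congr 1; ring
  rw [e1, ← mul_sub_one, abs_mul, abs_of_nonneg hW0, mul_comm]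
  refine mul_le_mul_of_nonneg_right ?_ hW0
  have h3 : |-(2 * k * R.re)| ≤ 4 * rho A S := by
    rw [abs_neg, abs_mul, abs_of_nonneg (by linarith : (0:ℝ) ≤ 2 * k)]
    have h5 := (abs_re_le_norm R).trans hR1
    have h0 := abs_nonneg R.re
    nlinarith
  have h4 : |Real.exp (-(2 * k * R.re)) - 1| ≤ Real.exp |-(2 * k * R.re)| - 1 := by
    have := norm_exp_sub_one_le' ((-(2 * k * R.re) : ℝ) : ℂ)
    rw [← ofReal_exp, ← ofReal_one, ← ofReal_sub, norm_real, norm_real, Real.norm_eq_abs,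
      Real.norm_eq_abs] at this
    exact this
  refine h4.trans ?_
  have := Real.exp_le_exp.mpr h3
  linarith

/-- the crude upper bound for the exponential -/
lemma exp_up : ∃ C : ℝ, 0 ≤ C ∧ ∀ (A : ℕ) (S : Finset ℕ) (k : ℝ), 1 ≤ A → (∀ p ∈ S, p.Prime) →
    1 ≤ k → k ≤ 2 →
    ES S (fun f => ‖cexp (k * Pj A S (tw ((1 / 2 : ℝ) : ℂ) f))‖ ^ 2) ≤
      Real.exp (C + k ^ 2 * ∑ p ∈ S, 1 / (p : ℝ)) := by
  obtain ⟨C, hC, h⟩ := ES_exp 2
  refine ⟨2 * C, by positivity, fun A S k hA hS hk0 hk1 => ?_⟩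
  have hγ : ‖((k : ℝ) : ℂ)‖ ≤ 2 := by
    rw [norm_real, Real.norm_eq_abs, abs_le]; constructor <;> linarith
  have hy : ∀ p ∈ S, yp ((1 / 2 : ℝ) : ℂ).re (1 / 2) p ≤ 3 / 4 := by
    intro p hp
    rw [ofReal_re, yp, max_self]
    exact (prime_rpow_le (hS p hp) le_rfl).2
  have h1 := h A 0 S ((1 / 2 : ℝ) : ℂ) (k : ℂ) (1 / 2) hA (by norm_num) hγ hS hy
  have e1 : ∀ f : ℕ → ℂ, ‖(ZZ S (tw ((1 / 2 : ℝ) : ℂ) f)) ^ 0 *
      cexp ((k : ℂ) * Pj A S (tw ((1 / 2 : ℝ) : ℂ) f))‖ ^ 2 =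
      ‖cexp (k * Pj A S (tw ((1 / 2 : ℝ) : ℂ) f))‖ ^ 2 := by
    intro f; rw [pow_zero, one_mul]
  simp only [e1] at h1
  refine h1.trans (Real.exp_le_exp.mpr ?_)
  have hterm : ∀ p ∈ S, ‖((0 : ℕ) : ℂ) * (p : ℂ) ^ (-((1 / 2 : ℝ) : ℂ)) +
      (k : ℂ) * ((p : ℝ) ^ (-(1 / 2) : ℝ) : ℝ)‖ ^ 2 +
        C * (yp ((1 / 2 : ℝ) : ℂ).re (1 / 2) p) ^ 4 =
      k ^ 2 * (1 / (p : ℝ)) + C * ((p : ℝ) ^ 2)⁻¹ := by
    intro p _
    rw [ofReal_re, yp, max_self, Nat.cast_zero, zero_mul, zero_add, norm_mul, norm_real, norm_real,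
      mul_pow, Real.norm_eq_abs, Real.norm_eq_abs, sq_abs, sq_abs, inv_form, inv_form4]
  rw [Finset.sum_congr rfl hterm, Finset.sum_add_distrib, ← Finset.mul_sum, ← Finset.mul_sum]
  have h2 := mul_le_mul_of_nonneg_left (XB.sum_inv_sq hS) hC
  linarith

/-- the lower bound for the Euler product -/
lemma Dl_low {S : Finset ℕ} {k : ℝ} (hS : ∀ p ∈ S, p.Prime) (hk0 : 1 ≤ k) (hk1 : k ≤ 2) :
    Real.exp (k ^ 2 * ∑ p ∈ S, 1 / (p : ℝ) - 96) ≤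
      ∏ p ∈ S, Dl k ((p : ℝ) ^ (-(1 / 2) : ℝ)) := by
  have h1 : ∀ p ∈ S, Real.exp (k ^ 2 * (1 / (p : ℝ)) - 48 * ((p : ℝ) ^ 2)⁻¹) ≤
      Dl k ((p : ℝ) ^ (-(1 / 2) : ℝ)) := by
    intro p hp
    have h2 := prime_rpow_le (hS p hp) (le_refl (1 / 2 : ℝ))
    have h3 := Dl_ge (k := k) (x := (p : ℝ) ^ (-(1 / 2) : ℝ)) (by linarith) (by positivity)
      (by linarith)
    refine le_trans ?_ h3
    have h4 : 0 ≤ k ^ 2 * ((p : ℝ) ^ (-(1 / 2) : ℝ)) ^ 2 := by positivity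
    refine le_trans (Real.exp_le_exp.mpr ?_) (one_add_ge_exp (by linarith))
    have h5 : (k ^ 2 * ((p : ℝ) ^ (-(1 / 2) : ℝ)) ^ 2) ^ 2 = k ^ 4 * ((p : ℝ) ^ 2)⁻¹ := by
      rw [← inv_form4]; ring
    rw [h5, inv_form]
    have h6 : k ^ 4 ≤ 16 := by
      calc k ^ 4 ≤ 2 ^ 4 := by gcongr
        _ = 16 := by norm_num
    have h7 : k ^ 4 * ((p : ℝ) ^ 2)⁻¹ ≤ 16 * ((p : ℝ) ^ 2)⁻¹ :=
      mul_le_mul_of_nonneg_right h6 (by positivity)
    linarith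
  have h2 := Finset.prod_le_prod (fun p _ => (Real.exp_pos _).le) h1
  refine le_trans ?_ h2
  rw [← Real.exp_sum, Finset.sum_sub_distrib, ← Finset.mul_sum, ← Finset.mul_sum]
  apply Real.exp_le_exp.mpr
  have h3 := XB.sum_inv_sq hS
  linarith

/-- mean of the exponential -/
lemma mean_exp : ∃ C : ℝ, 0 < C ∧ ∀ (A : ℕ) (S : Finset ℕ) (k : ℝ), 1 ≤ A → (∀ p ∈ S, p.Prime) →
    1 ≤ k → k ≤ 2 →
    |ES S (fun f => ‖cexp (k * Pj A S (tw ((1 / 2 : ℝ) : ℂ) f))‖ ^ 2) -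
        ∏ p ∈ S, Dl k ((p : ℝ) ^ (-(1 / 2) : ℝ))| ≤
      C * (Real.exp (3 * Pool.Agent.Lib.MP_973905_nt.rho A S) - 1) *
        ∏ p ∈ S, Dl k ((p : ℝ) ^ (-(1 / 2) : ℝ)) := by
  obtain ⟨C, hC, hup⟩ := exp_up
  refine ⟨4 / 3 * Real.exp 4 + Real.exp (C + 96) + 1, by positivity,
    fun A S k hA hS hk0 hk1 => ?_⟩
  set D := ∏ p ∈ S, Dl k ((p : ℝ) ^ (-(1 / 2) : ℝ)) with hD
  have hDS : DS k (1 / 2) S = D := DS_eq S
  have hD1 : 1 ≤ D := by rw [← hDS]; exact DS_ge_one (by linarith) le_rfl hS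
  have hρ := rho_nonneg A S
  have he3 : 0 ≤ Real.exp (3 * Pool.Agent.Lib.MP_973905_nt.rho A S) - 1 := by
    have := Real.one_le_exp (show 0 ≤ 3 * Pool.Agent.Lib.MP_973905_nt.rho A S by linarith)
    linarith
  have bP : BS S (fun f => Pj A S (tw ((1 / 2 : ℝ) : ℂ) f)) := bs_Pj A S S _
  have bE : BS S (fun f => ‖cexp (k * Pj A S (tw ((1 / 2 : ℝ) : ℂ) f))‖ ^ 2) :=
    (((bs_const S (k : ℂ)).mul bP).cexp).norm_sq
  have bW := bs_ZZ_rpow hS (le_refl (1 / 2 : ℝ)) k (by linarith)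
  rcases le_or_gt (Pool.Agent.Lib.MP_973905_nt.rho A S) 1 with h1 | h1
  · -- small remainders
    have h2 : |ES S (fun f => ‖cexp (k * Pj A S (tw ((1 / 2 : ℝ) : ℂ) f))‖ ^ 2) - D| ≤
        ES S (fun f => (Real.exp (4 * Pool.Agent.Lib.MP_973905_nt.rho A S) - 1) *
          ‖ZZ S (tw ((1 / 2 : ℝ) : ℂ) f)‖ ^ (2 * k)) := by
      rw [← hDS, DS]
      unfold ES
      rw [← integral_sub bE.integrable bW.integrable, ← Real.norm_eq_abs]
      refine (norm_integral_le_integral_norm _).trans ?_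
      refine integral_mono (bE.integrable.sub bW.integrable).norm (bW.integrable.const_mul _) ?_
      intro ω
      simp only
      rw [Real.norm_eq_abs]
      exact pt_exp hS hk0 hk1 (norm_ext S ω)
    refine h2.trans ?_
    rw [ES_const_mul]
    have e3 : ES S (fun f => ‖ZZ S (tw ((1 / 2 : ℝ) : ℂ) f)‖ ^ (2 * k)) = D := hDS
    rw [e3]
    refine mul_le_mul_of_nonneg_right ?_ (by linarith)
    set ρ := Pool.Agent.Lib.MP_973905_nt.rho A S with hρd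
    have h3 : Real.exp (4 * ρ) - 1 ≤ 4 * ρ * Real.exp 4 := by
      have h4 := Real.one_sub_le_exp_neg (4 * ρ)
      have h5 : (1 - 4 * ρ) * Real.exp (4 * ρ) ≤ 1 := by
        calc (1 - 4 * ρ) * Real.exp (4 * ρ) ≤ Real.exp (-(4 * ρ)) * Real.exp (4 * ρ) := by gcongr
          _ = 1 := by rw [← Real.exp_add]; simp
      have h6 : Real.exp (4 * ρ) ≤ Real.exp 4 := Real.exp_le_exp.mpr (by linarith)
      have h7 : 4 * ρ * Real.exp (4 * ρ) ≤ 4 * ρ * Real.exp 4 := by gcongr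
      nlinarith
    have h4 := Real.add_one_le_exp (3 * ρ)
    have h5 : 4 * ρ * Real.exp 4 ≤ 4 / 3 * Real.exp 4 * (Real.exp (3 * ρ) - 1) := by
      have h6 : 3 * ρ ≤ Real.exp (3 * ρ) - 1 := by linarith
      have h7 : 4 / 3 * Real.exp 4 * (3 * ρ) ≤ 4 / 3 * Real.exp 4 * (Real.exp (3 * ρ) - 1) := by
        gcongr
      linarith
    have h6 : 0 ≤ (Real.exp (C + 96) + 1) * (Real.exp (3 * ρ) - 1) := by positivity
    linarith
  · -- large remainders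
    have h2 := hup A S k hA hS hk0 hk1
    have h3 := Dl_low hS hk0 hk1
    have h4 : ES S (fun f => ‖cexp (k * Pj A S (tw ((1 / 2 : ℝ) : ℂ) f))‖ ^ 2) ≤
        Real.exp (C + 96) * D := by
      refine h2.trans ?_
      calc Real.exp (C + k ^ 2 * ∑ p ∈ S, 1 / (p : ℝ)) =
            Real.exp (C + 96) * Real.exp (k ^ 2 * ∑ p ∈ S, 1 / (p : ℝ) - 96) := by
            rw [← Real.exp_add]; congr 1; ring
        _ ≤ _ := by gcongr
    have h5 : 0 ≤ ES S (fun f => ‖cexp (k * Pj A S (tw ((1 / 2 : ℝ) : ℂ) f))‖ ^ 2) :=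
      ES_nonneg fun ω => by positivity
    have h6 : 1 ≤ Real.exp (3 * Pool.Agent.Lib.MP_973905_nt.rho A S) - 1 := by
      have := Real.add_one_le_exp (3 * Pool.Agent.Lib.MP_973905_nt.rho A S)
      linarith
    have h7 : |ES S (fun f => ‖cexp (k * Pj A S (tw ((1 / 2 : ℝ) : ℂ) f))‖ ^ 2) - D| ≤
        (Real.exp (C + 96) + 1) * D := by
      rw [abs_le]
      have h8 : 0 ≤ Real.exp (C + 96) * D := by positivity
      constructor <;> linarith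
    refine h7.trans ?_
    refine mul_le_mul_of_nonneg_right ?_ (by linarith)
    have h8 : Real.exp (C + 96) + 1 ≤ (Real.exp (C + 96) + 1) *
        (Real.exp (3 * Pool.Agent.Lib.MP_973905_nt.rho A S) - 1) :=
      le_mul_of_one_le_right (by positivity) h6
    have h9 : 0 ≤ 4 / 3 * Real.exp 4 *
        (Real.exp (3 * Pool.Agent.Lib.MP_973905_nt.rho A S) - 1) := by positivity
    linarith

end BlkNAux

open K1.BlkShift BlkNAux in
/-- (V3) mean square of a truncated exponential over a block -/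
theorem stBlkN : StBlkN := by
  obtain ⟨C2, hC2, hmean⟩ := mean_exp
  obtain ⟨C4, hC4, hexp⟩ := ES_exp_norm (q := 4) (by norm_num)
  refine ⟨C2 + C4 + 2, by positivity, fun A l S k hA hS hk0 hk1 hcond => ?_⟩
  have hhalf : (1 / 2 : ℂ) = ((1 / 2 : ℝ) : ℂ) := by push_cast; ring
  rw [hhalf]
  set D := ∏ p ∈ S, Dl k ((p : ℝ) ^ (-(1 / 2) : ℝ)) with hD
  have hDS : DS k (1 / 2) S = D := DS_eq S
  have hD1 : 1 ≤ D := by rw [← hDS]; exact DS_ge_one (by linarith) le_rfl hS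
  have hρ := rho_nonneg A S
  have he3 : 0 ≤ Real.exp (3 * Pool.Agent.Lib.MP_973905_nt.rho A S) - 1 := by
    have := Real.one_le_exp (show 0 ≤ 3 * Pool.Agent.Lib.MP_973905_nt.rho A S by linarith)
    linarith
  have bP : BS S (fun f => Pj A S (tw ((1 / 2 : ℝ) : ℂ) f)) := bs_Pj A S S _
  have bE : BS S (fun f => ‖cexp (k * Pj A S (tw ((1 / 2 : ℝ) : ℂ) f))‖ ^ 2) :=
    (((bs_const S (k : ℂ)).mul bP).cexp).norm_sq
  have bN : BS S (fun f => ‖Ntr l k (Pj A S (tw ((1 / 2 : ℝ) : ℂ) f))‖ ^ 2) :=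
    (bs_Ntr l _ bP).norm_sq
  have bX : BS S (fun f => Real.exp (4 * ‖Pj A S (tw ((1 / 2 : ℝ) : ℂ) f)‖) ^ 2) := by
    have h := (bP.exp_norm 4 (by norm_num)).mul_real (bP.exp_norm 4 (by norm_num))
    have e : (fun f : ℕ → ℂ => Real.exp (4 * ‖Pj A S (tw ((1 / 2 : ℝ) : ℂ) f)‖) ^ 2) =
        fun f => Real.exp (4 * ‖Pj A S (tw ((1 / 2 : ℝ) : ℂ) f)‖) *
          Real.exp (4 * ‖Pj A S (tw ((1 / 2 : ℝ) : ℂ) f)‖) := by
      funext f; rw [sq]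
    rw [e]; exact h
  -- the moments of the exponential of the norm
  have hX : ES S (fun f => Real.exp (4 * ‖Pj A S (tw ((1 / 2 : ℝ) : ℂ) f)‖) ^ 2) ≤
      Real.exp (l / 2) := by
    have hy : ∀ p ∈ S, yp ((1 / 2 : ℝ) : ℂ).re (1 / 2) p ≤ 3 / 4 := by
      intro p hp
      rw [ofReal_re, yp, max_self]
      exact (prime_rpow_le (hS p hp) le_rfl).2
    have h1 := hexp A 0 S ((1 / 2 : ℝ) : ℂ) (1 / 2) hA (by norm_num)
      (by rw [ofReal_re]; norm_num) hS hy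
    have e1 : ∀ f : ℕ → ℂ, ‖(ZZ S (tw ((1 / 2 : ℝ) : ℂ) f)) ^ 0‖ ^ 2 *
        Real.exp (4 * ‖Pj A S (tw ((1 / 2 : ℝ) : ℂ) f)‖) ^ 2 =
        Real.exp (4 * ‖Pj A S (tw ((1 / 2 : ℝ) : ℂ) f)‖) ^ 2 := by
      intro f; rw [pow_zero, norm_one, one_pow, one_mul]
    simp only [e1] at h1
    have e2 : ∑ p ∈ S, (yp ((1 / 2 : ℝ) : ℂ).re (1 / 2) p) ^ 2 = ∑ p ∈ S, 1 / (p : ℝ) := by
      refine Finset.sum_congr rfl fun p _ => ?_
      rw [ofReal_re, yp, max_self, inv_form]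
    rw [e2] at h1
    refine h1.trans (le_trans ?_ hcond)
    have h0 : 0 ≤ ∑ p ∈ S, 1 / (p : ℝ) := Finset.sum_nonneg fun p _ => by positivity
    gcongr
    linarith
  have h1 : |ES S (fun f => ‖Ntr l k (Pj A S (tw ((1 / 2 : ℝ) : ℂ) f))‖ ^ 2) -
      ES S (fun f => ‖cexp (k * Pj A S (tw ((1 / 2 : ℝ) : ℂ) f))‖ ^ 2)| ≤
      2 * Real.exp (-(l / 2)) := by
    have h2 : |ES S (fun f => ‖Ntr l k (Pj A S (tw ((1 / 2 : ℝ) : ℂ) f))‖ ^ 2) -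
        ES S (fun f => ‖cexp (k * Pj A S (tw ((1 / 2 : ℝ) : ℂ) f))‖ ^ 2)| ≤
        ES S (fun f => 2 * Real.exp (-l) *
          Real.exp (4 * ‖Pj A S (tw ((1 / 2 : ℝ) : ℂ) f)‖) ^ 2) := by
      unfold ES
      rw [← integral_sub bN.integrable bE.integrable, ← Real.norm_eq_abs]
      refine (norm_integral_le_integral_norm _).trans ?_
      refine integral_mono (bN.integrable.sub bE.integrable).norm (bX.integrable.const_mul _) ?_
      intro ω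
      simp only
      rw [Real.norm_eq_abs]
      exact diff_two l hk0 hk1 _
    refine h2.trans ?_
    rw [ES_const_mul]
    calc 2 * Real.exp (-(l : ℝ)) *
          ES S (fun f => Real.exp (4 * ‖Pj A S (tw ((1 / 2 : ℝ) : ℂ) f)‖) ^ 2) ≤
          2 * Real.exp (-l) * Real.exp (l / 2) := by gcongr
      _ = 2 * (Real.exp (-l) * Real.exp (l / 2)) := by ring
      _ = 2 * Real.exp (-(l / 2)) := by rw [← Real.exp_add]; congr 2; ring
  have h2 := hmean A S k hA hS hk0 hk1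
  have h3 := abs_add_le (ES S (fun f => ‖Ntr l k (Pj A S (tw ((1 / 2 : ℝ) : ℂ) f))‖ ^ 2) -
      ES S (fun f => ‖cexp (k * Pj A S (tw ((1 / 2 : ℝ) : ℂ) f))‖ ^ 2))
    (ES S (fun f => ‖cexp (k * Pj A S (tw ((1 / 2 : ℝ) : ℂ) f))‖ ^ 2) - D)
  rw [sub_add_sub_cancel] at h3
  refine h3.trans ((add_le_add h1 h2).trans ?_)
  have hη := Real.exp_pos (-((l : ℝ) / 2))
  set η := Real.exp (-((l : ℝ) / 2)) with hηd
  set r := Real.exp (3 * Pool.Agent.Lib.MP_973905_nt.rho A S) - 1 with hr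
  have k1 : 2 * η ≤ (C2 + C4 + 2) * η * D := by
    calc 2 * η ≤ (C2 + C4 + 2) * η := by
          have : 0 ≤ (C2 + C4) * η := by positivity
          linarith
      _ ≤ _ := le_mul_of_one_le_right (by positivity) hD1
  have k2 : C2 * r * D ≤ (C2 + C4 + 2) * r * D := by
    have h4 : 0 ≤ (C4 + 2) * r * D := by positivity
    linarith
  calc 2 * η + C2 * r * D ≤ (C2 + C4 + 2) * η * D + (C2 + C4 + 2) * r * D := add_le_add k1 k2
    _ = _ := by ring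

end K8
end Pool.Agent.Lib.MP_973905_nt
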