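import Pool.Agent.Lib.MP_973905_nt.K8.Stmts
import Pool.Agent.Lib.MP_973905_nt.Core3
import Pool.Agent.Lib.MP_973905_nt.Sums
import Pool.Agent.Lib.MP_973905_nt.IngDefs

/-! Module (V5): the product over the bottom blocks, side without zeta. -/

namespace Pool.Agent.Lib.MP_973905_nt
namespace K8

open MeasureTheory ProbabilityTheory Complex Filter Topology K1 K4 K5

namespace BotVAux

lemma half_cast : ((1 / 2 : ℝ) : ℂ) = 1 / 2 := by push_cast; ring

/-- The errors of all the blocks are small for large `M`. -/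
lemma small_err {C₁ δ : ℝ} (hδ : 0 < δ) : ∀ᶠ M : ℕ in atTop,
    2 * Real.exp (-(1 / 2 * Real.exp (3 / 4 * (M : ℝ)))) +
      (C₁ * (6 * (4 * (2 : ℝ) ^ (-(((M : ℝ) - 3) / 2))) +
        2 * Real.exp (-(5 * Real.exp (3 / 4 * (M : ℝ))))) +
      2 * Real.exp (-(1 * Real.exp (3 / 4 * (M : ℝ))))) ≤ Real.log (1 + δ) ∧
    3 * (4 * (2 : ℝ) ^ (-(((M : ℝ) - 3) / 2))) ≤ 1 := by
  have t1 : Tendsto (fun M : ℕ => (2 : ℝ) ^ (-(((M : ℝ) - 3) / 2))) atTop (𝓝 0) := by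
    have h1 : Tendsto (fun M : ℕ => (((M : ℝ) - 3) / 2)) atTop atTop :=
      (tendsto_atTop_add_const_right _ (-3) tendsto_natCast_atTop_atTop).atTop_div_const (by norm_num)
    have h2 : Tendsto (fun x : ℝ => (2 : ℝ) ^ (-x)) atTop (𝓝 0) := by
      have : (fun x : ℝ => (2 : ℝ) ^ (-x)) = fun x : ℝ => Real.exp (-(Real.log 2 * x)) := by
        ext x; rw [Real.rpow_def_of_pos (by norm_num)]; congr 1; ring
      rw [this]
      exact Real.tendsto_exp_neg_atTop_nhds_zero.comp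
        (tendsto_id.const_mul_atTop (Real.log_pos (by norm_num)))
    exact h2.comp h1
  have t3 : ∀ a : ℝ, 0 < a →
      Tendsto (fun M : ℕ => Real.exp (-(a * Real.exp (3 / 4 * (M : ℝ))))) atTop (𝓝 0) := by
    intro a ha
    refine Real.tendsto_exp_neg_atTop_nhds_zero.comp ?_
    refine Tendsto.const_mul_atTop ha (Real.tendsto_exp_atTop.comp ?_)
    exact Tendsto.const_mul_atTop (by norm_num) tendsto_natCast_atTop_atTop
  have t4 := ((t3 (1 / 2) (by norm_num)).const_mul 2).add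
    (((((t1.const_mul 4).const_mul 6).add ((t3 5 (by norm_num)).const_mul 2)).const_mul C₁).add
      ((t3 1 one_pos).const_mul 2))
  have t5 := (t1.const_mul 4).const_mul 3
  simp only [mul_zero, add_zero] at t4 t5
  exact (t4.eventually (eventually_le_nhds (Real.log_pos (by linarith)))).and
    (t5.eventually (eventually_le_nhds zero_lt_one))

lemma exp_sub_one_le {x : ℝ} (h0 : 0 ≤ x) (h1 : x ≤ 1) : Real.exp x - 1 ≤ 2 * x := by
  have h2 := Real.abs_exp_sub_one_le (x := x) (by rw [abs_of_nonneg h0]; exact h1)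
  rw [abs_of_nonneg h0] at h2
  exact (le_abs_self _).trans h2

/-- The mean of the majorant of one block. -/
lemma ES_VB (κ T : ℝ) (M j : ℕ) :
    ES (Sj T M (JJ T) j) (fun f => VB κ T M j (tw (1 / 2) f)) =
      (1 + Real.exp (-(KK M (JJ T) j / 2))) * ES (Sj T M (JJ T) j) (fun f =>
        ‖Ntr (ll M (JJ T) j) (1 + κ) (Pj M (Sj T M (JJ T) j) (tw (1 / 2) f))‖ ^ 2) +
      Real.exp (2 * pe κ * KK M (JJ T) j) * ES (Sj T M (JJ T) j) (fun f =>
        ‖(Pj M (Sj T M (JJ T) j) (tw (1 / 2) f) / (KK M (JJ T) j : ℂ)) ^ nb κ T M j‖ ^ 2) := by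
  set S := Sj T M (JJ T) j with hS
  have b0 : BS S (fun f => Pj M S (tw (1 / 2) f)) := bs_Pj M S S _
  have b1 : BS S (fun f => ‖Ntr (ll M (JJ T) j) (1 + κ) (Pj M S (tw (1 / 2) f))‖ ^ 2) :=
    (bs_Ntr _ _ b0).norm_sq
  have b2 : BS S (fun f => ‖(Pj M S (tw (1 / 2) f) / (KK M (JJ T) j : ℂ)) ^ nb κ T M j‖ ^ 2) := by
    have b3 : BS S (fun f => Pj M S (tw (1 / 2) f) * ((KK M (JJ T) j : ℂ))⁻¹) :=
      b0.mul (bs_const S _)
    have b4 := (b3.pow (nb κ T M j)).norm_sq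
    simpa only [div_eq_mul_inv] using b4
  have c1 : BS S (fun f => (1 + Real.exp (-(KK M (JJ T) j / 2))) *
      ‖Ntr (ll M (JJ T) j) (1 + κ) (Pj M S (tw (1 / 2) f))‖ ^ 2) :=
    (bs_const S _).mul_real b1
  have c2 : BS S (fun f => Real.exp (2 * pe κ * KK M (JJ T) j) *
      ‖(Pj M S (tw (1 / 2) f) / (KK M (JJ T) j : ℂ)) ^ nb κ T M j‖ ^ 2) :=
    (bs_const S _).mul_real b2
  have h1 := ES_add c1 c2
  rw [ES_const_mul, ES_const_mul] at h1
  rw [← h1]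
  rfl

/-- one block -/
lemma one_block {a b c D E : ℝ} (ha : 0 ≤ a) (hb : 0 ≤ b) (hc : 0 ≤ c) (hD : 1 ≤ D)
    (hE : E ≤ (1 + a) * ((1 + b) * D) + c) : E ≤ D * Real.exp (a + (b + c)) := by
  have h1 := Real.add_one_le_exp a
  have h2 := Real.add_one_le_exp b
  have h3 := Real.add_one_le_exp c
  rw [Real.exp_add, Real.exp_add]
  have h4 : (1 + a) * ((1 + b) * (1 + c)) ≤ Real.exp a * (Real.exp b * Real.exp c) := by
    have : 1 + a ≤ Real.exp a := by linarith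
    have : 1 + b ≤ Real.exp b := by linarith
    have : 1 + c ≤ Real.exp c := by linarith
    gcongr
  have h5 : c ≤ D * ((1 + a) * (1 + b) * c) := by
    have h6 : 1 ≤ D * ((1 + a) * (1 + b)) := by
      have : 1 ≤ (1 + a) * (1 + b) := by nlinarith [mul_nonneg ha hb]
      nlinarith
    nlinarith
  calc E ≤ (1 + a) * ((1 + b) * D) + c := hE
    _ ≤ (1 + a) * ((1 + b) * D) + D * ((1 + a) * (1 + b) * c) := by linarith
    _ = D * ((1 + a) * ((1 + b) * (1 + c))) := by ring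
    _ ≤ _ := by gcongr

/-- The product against the normaliser. -/
lemma prod_VB (hb : StBlkN) (hB : StBadN) {κ : ℝ} (hκ0 : 0 < κ) (hκ1 : κ < 1) {δ : ℝ}
    (hδ : 0 < δ) : ∃ M₀ : ℕ, ∀ M : ℕ, M₀ ≤ M → ∃ T₀ : ℝ, 3 ≤ T₀ ∧ ∀ T, T₀ ≤ T →
    ∏ j ∈ Finset.range (JJ T + 1), ES (Sj T M (JJ T) j) (fun f => VB κ T M j (tw (1 / 2) f)) ≤
      (1 + δ) * DJ (1 + κ) (1 / 2) T M (JJ T) := by
  obtain ⟨C₁, hC₁, hcore⟩ := hb
  obtain ⟨M₁, hM₁⟩ := block_cond C₁ hC₁
  obtain ⟨M₂, hM₂⟩ := eventually_atTop.mp (small_err (C₁ := C₁) hδ)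
  obtain ⟨M₃, hM₃⟩ := hB κ hκ0 hκ1
  refine ⟨max (max M₁ M₂) (max M₃ 4), fun M hM => ?_⟩
  have hMM₁ : M₁ ≤ M := (le_max_left _ _).trans ((le_max_left _ _).trans hM)
  have hMM₂ : M₂ ≤ M := (le_max_right _ _).trans ((le_max_left _ _).trans hM)
  have hMM₃ : M₃ ≤ M := (le_max_left _ _).trans ((le_max_right _ _).trans hM)
  have hM4 : 4 ≤ M := (le_max_right _ _).trans ((le_max_right _ _).trans hM)
  obtain ⟨T₁, hT₁3, hT₁⟩ := hM₁ M hMM₁
  obtain ⟨T₂, hT₂3, hT₂⟩ := hM₃ M hMM₃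
  obtain ⟨hsm, hsm'⟩ := hM₂ M hMM₂
  refine ⟨max T₁ T₂, hT₁3.trans (le_max_left _ _), fun T hT => ?_⟩
  have hTT₁ : T₁ ≤ T := (le_max_left _ _).trans hT
  have hTT₂ : T₂ ≤ T := (le_max_right _ _).trans hT
  have hT1 : 1 < T := by linarith
  set J := JJ T with hJ
  have hS : ∀ j, ∀ p ∈ Sj T M J j, p.Prime := fun j p hp => prime_Sj hT1 hp
  have hDS : ∀ j, 1 ≤ DS (1 + κ) (1 / 2) (Sj T M J j) := fun j =>
    DS_ge_one (by linarith) le_rfl (hS j)
  set r : ℕ → ℝ := fun j => Pool.Agent.Lib.MP_973905_nt.rho M (Sj T M J j) with hr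
  have hr0 : ∀ j, 0 ≤ r j := fun j => rho_nonneg M (Sj T M J j)
  have hrsum : ∑ j ∈ Finset.range (J + 1), r j ≤ 4 * (2 : ℝ) ^ (-(((M : ℝ) - 3) / 2)) :=
    sum_rho hT1 (M := M) (J := J) (by omega)
  have hr1 : ∀ j ∈ Finset.range (J + 1), 3 * r j ≤ 1 := by
    intro j hj
    have h1 := Finset.single_le_sum (f := r) (fun i _ => hr0 i) hj
    linarith
  set b : ℕ → ℝ := fun j => C₁ * (6 * r j + Real.exp (-((ll M J j : ℝ) / 2))) with hbdef
  have hb0 : ∀ j, 0 ≤ b j := fun j => by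
    have := hr0 j
    simp only [hbdef]; positivity
  set ε : ℕ → ℝ := fun j => Real.exp (-(KK M J j / 2)) + (b j + Real.exp (-KK M J j)) with hε
  have hEM : 1 ≤ Real.exp (3 / 4 * (M : ℝ)) := Real.one_le_exp (by positivity)
  have hEM2 : 2 ≤ Real.exp (3 / 4 * (M : ℝ)) := by
    have h1 := Real.add_one_le_exp (3 / 4 * (M : ℝ))
    have h2 : (4 : ℝ) ≤ M := by exact_mod_cast hM4
    linarith
  have hεsum : ∑ j ∈ Finset.range (J + 1), ε j ≤ Real.log (1 + δ) := by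
    refine le_trans ?_ hsm
    simp only [hε, hbdef]
    rw [Finset.sum_add_distrib, Finset.sum_add_distrib, ← Finset.mul_sum, Finset.sum_add_distrib,
      ← Finset.mul_sum]
    have s1 : ∑ j ∈ Finset.range (J + 1), Real.exp (-(KK M J j / 2)) ≤
        2 * Real.exp (-(1 / 2 * Real.exp (3 / 4 * (M : ℝ)))) := by
      refine le_trans (le_of_eq ?_) (sum_exp_KK (M := M) (J := J) (a := 1 / 2) (by linarith)
        (by norm_num))
      refine Finset.sum_congr rfl fun j _ => ?_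
      congr 2; ring
    have s2 : ∑ j ∈ Finset.range (J + 1), Real.exp (-KK M J j) ≤
        2 * Real.exp (-(1 * Real.exp (3 / 4 * (M : ℝ)))) := by
      refine le_trans (le_of_eq ?_) (sum_exp_KK (M := M) (J := J) (a := 1) (by linarith) one_pos)
      refine Finset.sum_congr rfl fun j _ => ?_
      congr 2; ring
    have s3 : ∑ j ∈ Finset.range (J + 1), Real.exp (-((ll M J j : ℝ) / 2)) ≤
        2 * Real.exp (-(5 * Real.exp (3 / 4 * (M : ℝ)))) := by
      refine le_trans (Finset.sum_le_sum fun j _ => ?_) (sum_exp_KK (J := J) (by linarith)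
        (by norm_num))
      apply Real.exp_le_exp.mpr
      have : 10 * KK M J j ≤ (ll M J j : ℝ) := Nat.le_ceil _
      linarith
    gcongr
  have hexp : Real.exp (∑ j ∈ Finset.range (J + 1), ε j) ≤ 1 + δ := by
    rw [← Real.exp_log (show 0 < 1 + δ by linarith)]
    exact Real.exp_le_exp.mpr hεsum
  have h1 : ∏ j ∈ Finset.range (J + 1), ES (Sj T M J j) (fun f => VB κ T M j (tw (1 / 2) f)) ≤
      ∏ j ∈ Finset.range (J + 1), (DS (1 + κ) (1 / 2) (Sj T M J j) * Real.exp (ε j)) := by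
    refine Finset.prod_le_prod (fun j _ => ES_nonneg fun ω => ?_) fun j hj => ?_
    · unfold VB VBz; positivity
    have hj' : j ≤ J := by have := Finset.mem_range.mp hj; omega
    have hbad := hT₂ T hTT₂ j hj'
    have hcond := (hT₁ T hTT₁ j hj' (1 / 2) le_rfl).1
    have hsumeq : ∑ p ∈ Sj T M J j, (p : ℝ) ^ (-(2 * (1 / 2 : ℝ))) =
        ∑ p ∈ Sj T M J j, 1 / (p : ℝ) := by
      refine Finset.sum_congr rfl fun p _ => ?_
      rw [show -(2 * (1 / 2 : ℝ)) = -1 by ring, Real.rpow_neg_one, one_div]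
    rw [hsumeq] at hcond
    have h2 := hcore M (ll M J j) (Sj T M J j) (1 + κ) (by omega) (hS j) (by linarith)
      (by linarith) hcond
    rw [← DS_eq] at h2
    have h3 := (abs_le.mp h2).2
    have hD := hDS j
    have h4 : C₁ * (Real.exp (3 * Pool.Agent.Lib.MP_973905_nt.rho M (Sj T M J j)) - 1 +
        Real.exp (-((ll M J j : ℝ) / 2))) ≤ b j := by
      simp only [hbdef]
      have h5 := exp_sub_one_le (x := 3 * r j) (by have := hr0 j; linarith) (hr1 j hj)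
      simp only [hr] at h5 ⊢
      gcongr
      linarith
    have h6 : ES (Sj T M J j) (fun f =>
        ‖Ntr (ll M J j) (1 + κ) (Pj M (Sj T M J j) (tw (1 / 2) f))‖ ^ 2) ≤
        (1 + b j) * DS (1 + κ) (1 / 2) (Sj T M J j) := by
      have h7 := mul_le_mul_of_nonneg_right h4 (show 0 ≤ DS (1 + κ) (1 / 2) (Sj T M J j) by
        linarith)
      linarith
    have h8 := ES_VB κ T M j
    refine one_block (Real.exp_pos _).le (hb0 j) (Real.exp_pos _).le hD ?_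
    rw [h8]
    have h9 : 0 ≤ 1 + Real.exp (-(KK M J j / 2)) := by positivity
    have h10 := mul_le_mul_of_nonneg_left h6 h9
    exact add_le_add h10 hbad
  rw [Finset.prod_mul_distrib, ← Real.exp_sum] at h1
  have hD0 : 0 ≤ DJ (1 + κ) (1 / 2) T M J := Finset.prod_nonneg fun j _ => by linarith [hDS j]
  calc _ ≤ DJ (1 + κ) (1 / 2) T M J * Real.exp (∑ j ∈ Finset.range (J + 1), ε j) := h1
    _ ≤ DJ (1 + κ) (1 / 2) T M J * (1 + δ) := by gcongr
    _ = _ := mul_comm _ _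

/-- The normaliser against its asymptotics. -/
lemma DJ_asymp (hA : K7.StAK7) {k : ℝ} (hk1 : 1 ≤ k) (hk2 : k ≤ 2) {δ : ℝ} (hδ : 0 < δ) (M : ℕ) :
    ∃ T₀ : ℝ, 3 ≤ T₀ ∧ ∀ T, T₀ ≤ T →
      DJ k (1 / 2) T M (JJ T) ≤ (1 + δ) * (aK k * lM T M ^ (k ^ 2)) := by
  obtain ⟨hak, hlim, -⟩ := hA k hk1 hk2
  have hev : ∀ᶠ y : ℝ in atTop, (∏ p ∈ PS 0 y, Dl k ((p : ℝ) ^ (-(1 / 2) : ℝ))) /
      (Real.exp Real.eulerMascheroniConstant * Real.log y) ^ (k ^ 2) ≤ (1 + δ) * aK k := by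
    refine hlim.eventually (eventually_le_nhds ?_)
    nlinarith
  have ht : Tendsto (fun T : ℝ => Real.exp (Real.exp (-(M : ℝ)) * Real.log T)) atTop atTop :=
    Real.tendsto_exp_atTop.comp (Real.tendsto_log_atTop.const_mul_atTop (Real.exp_pos _))
  obtain ⟨T₁, hT₁⟩ := eventually_atTop.mp (ht.eventually hev)
  refine ⟨max T₁ 3, le_max_right _ _, fun T hT => ?_⟩
  have hT3 : 3 ≤ T := (le_max_right _ _).trans hT
  have hT1 : 1 < T := by linarith
  have hL : 0 < Real.log T := Real.log_pos hT1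
  have h1 := hT₁ T ((le_max_left _ _).trans hT)
  have e1 : Real.exp Real.eulerMascheroniConstant *
      Real.log (Real.exp (Real.exp (-(M : ℝ)) * Real.log T)) = lM T M := by
    rw [Real.log_exp, lM, sub_eq_add_neg, Real.exp_add]
    ring
  rw [e1, ← DJ_eq hT1 k (1 / 2) M (JJ T)] at h1
  have hl : 0 < lM T M := mul_pos (Real.exp_pos _) hL
  rw [div_le_iff₀ (Real.rpow_pos_of_pos hl _)] at h1
  linarith

end BotVAux

open BotVAux in
theorem stBotV (hb : StBlkN) (hB : StBadN) (hA : K7.StAK7) : StBotV := by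
  intro κ hκ0 hκ1 η hη
  obtain ⟨δ, hδ, hδ1, hδ2⟩ : ∃ δ : ℝ, 0 < δ ∧ δ ≤ 1 ∧ δ ≤ η / 3 :=
    ⟨min 1 (η / 3), lt_min one_pos (by positivity), min_le_left _ _, min_le_right _ _⟩
  obtain ⟨M₀, hM₀⟩ := prod_VB hb hB hκ0 hκ1 hδ
  refine ⟨M₀, fun M hM => ?_⟩
  obtain ⟨T₁, hT₁3, hT₁⟩ := hM₀ M hM
  obtain ⟨T₂, hT₂3, hT₂⟩ := DJ_asymp hA (k := 1 + κ) (by linarith) (by linarith) hδ M
  refine ⟨max T₁ T₂, hT₁3.trans (le_max_left _ _), fun T hT => ?_⟩
  have hT3 : 3 ≤ T := hT₁3.trans ((le_max_left _ _).trans hT)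
  have hL : 0 < Real.log T := Real.log_pos (by linarith)
  have h1 := hT₁ T ((le_max_left _ _).trans hT)
  have h2 := hT₂ T ((le_max_right _ _).trans hT)
  obtain ⟨hak, -⟩ := hA (1 + κ) (by linarith) (by linarith)
  have hl : 0 < lM T M := mul_pos (Real.exp_pos _) hL
  have hP : 0 < aK (1 + κ) * lM T M ^ ((1 + κ) ^ 2) := mul_pos hak (Real.rpow_pos_of_pos hl _)
  calc _ ≤ (1 + δ) * DJ (1 + κ) (1 / 2) T M (JJ T) := h1
    _ ≤ (1 + δ) * ((1 + δ) * (aK (1 + κ) * lM T M ^ ((1 + κ) ^ 2))) := by gcongr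
    _ = ((1 + δ) * (1 + δ)) * (aK (1 + κ) * lM T M ^ ((1 + κ) ^ 2)) := by ring
    _ ≤ (1 + η) * (aK (1 + κ) * lM T M ^ ((1 + κ) ^ 2)) := by
        refine mul_le_mul_of_nonneg_right ?_ hP.le
        nlinarith

end K8
end Pool.Agent.Lib.MP_973905_nt
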