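import Pool.Agent.Lib.MP_973905_nt.K8.Stmts

/-! (N2) A crude bound for the Gaussian mean square of `(1 + a z)^n e^{-kz}` (Parseval). -/

namespace Pool.Agent.Lib.MP_973905_nt
namespace K8

open MeasureTheory ProbabilityTheory Complex Filter Topology K1 K4 K5

namespace CrF

/-! ### the coefficients -/

/-- the Taylor coefficients of `(1 + a z)^n e^{-kz}`, by recursion on `n` -/
noncomputable def cf (a k : ℝ) : ℕ → ℕ → ℝ
  | 0, j => (-k) ^ j / (j.factorial : ℝ)
  | n + 1, 0 => cf a k n 0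
  | n + 1, j + 1 => cf a k n (j + 1) + a * cf a k n j

lemma cf_zero (a k : ℝ) (n : ℕ) : cf a k n 0 = 1 := by
  induction n with
  | zero => simp [cf]
  | succ n ih => simpa [cf] using ih

lemma cf_rec (a k : ℝ) (n : ℕ) : cf a k n 1 = n * a - k ∧
    ∀ j : ℕ, ((j : ℝ) + 2) * cf a k n (j + 2) =
      (n * a - k - a * ((j : ℝ) + 1)) * cf a k n (j + 1) - k * a * cf a k n j := by
  induction n with
  | zero =>
    refine ⟨by simp [cf], fun j => ?_⟩
    simp only [cf]
    have h0 : ((j.factorial : ℕ) : ℝ) ≠ 0 := by positivity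
    rw [Nat.factorial_succ (j + 1), Nat.factorial_succ j]
    push_cast
    field_simp
    ring
  | succ n ih =>
    obtain ⟨h1, h2⟩ := ih
    constructor
    · change cf a k n 1 + a * cf a k n 0 = _
      rw [h1, cf_zero]
      push_cast
      ring
    · intro j
      match j with
      | 0 =>
        change (((0 : ℕ) : ℝ) + 2) * (cf a k n 2 + a * cf a k n 1) =
          (((n + 1 : ℕ) : ℝ) * a - k - a * (((0 : ℕ) : ℝ) + 1)) *
            (cf a k n 1 + a * cf a k n 0) - k * a * cf a k n 0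
        have h3 := h2 0
        rw [cf_zero] at h3 ⊢
        push_cast at h3 ⊢
        linear_combination h3 + a * h1
      | j + 1 =>
        change (((j + 1 : ℕ) : ℝ) + 2) * (cf a k n (j + 3) + a * cf a k n (j + 2)) =
          (((n + 1 : ℕ) : ℝ) * a - k - a * (((j + 1 : ℕ) : ℝ) + 1)) *
            (cf a k n (j + 2) + a * cf a k n (j + 1)) -
              k * a * (cf a k n (j + 1) + a * cf a k n j)
        have h3 := h2 (j + 1)
        have h4 := h2 j
        push_cast at h3 h4 ⊢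
        linear_combination h3 + a * h4

lemma dcf_eq (a k : ℝ) (n j : ℕ) : dcf a k n j = cf a k n j := by
  induction j using Nat.strong_induction_on with
  | _ j ih =>
    match j with
    | 0 => rw [cf_zero]; rfl
    | 1 => rw [(cf_rec a k n).1]; rfl
    | j + 2 =>
      have h := (cf_rec a k n).2 j
      rw [dcf, ih (j + 1) (by omega), ih j (by omega), div_eq_iff (by positivity)]
      push_cast
      linarith

lemma hasSum_cexp (w : ℂ) :
    HasSum (fun j : ℕ => w ^ j / (j.factorial : ℂ)) (Complex.exp w) := by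
  rw [Complex.exp_eq_exp_ℂ]
  exact NormedSpace.expSeries_div_hasSum_exp w

lemma hasSum_rexp (w : ℝ) :
    HasSum (fun j : ℕ => w ^ j / (j.factorial : ℝ)) (Real.exp w) := by
  rw [Real.exp_eq_exp_ℝ]
  exact NormedSpace.expSeries_div_hasSum_exp w

lemma hasSum_cf (a k : ℝ) (n : ℕ) (z : ℂ) :
    HasSum (fun j : ℕ => (cf a k n j : ℂ) * z ^ j)
      ((1 + a * z) ^ n * Complex.exp (-(k * z))) := by
  induction n with
  | zero =>
    have h := hasSum_cexp (-(k * z))
    simp only [pow_zero, one_mul]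
    convert h using 2 with j
    simp only [cf]
    push_cast
    rw [show -((k : ℂ) * z) = (-(k : ℂ)) * z by ring, mul_pow]
    ring
  | succ n ih =>
    have h1 := (hasSum_nat_add_iff' 1).mpr ih
    have h2 := h1.add (ih.mul_left (a * z))
    rw [← hasSum_nat_add_iff' 1]
    convert h2 using 1
    · funext j
      simp only [cf]
      push_cast
      ring
    · simp only [Finset.sum_range_one, cf_zero]
      push_cast
      ring

/-! ### Parseval -/

lemma int_exp (m : ℤ) (hm : m ≠ 0) :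
    ∫ θ in (0 : ℝ)..(2 * Real.pi), Complex.exp ((m : ℂ) * I * θ) = 0 := by
  have h0 : (m : ℂ) * I ≠ 0 := mul_ne_zero (by exact_mod_cast hm) I_ne_zero
  rw [integral_exp_mul_complex h0]
  have h1 : (m : ℂ) * I * ((2 * Real.pi : ℝ) : ℂ) = m * (2 * Real.pi * I) := by
    push_cast
    ring
  rw [h1, Complex.exp_int_mul_two_pi_mul_I]
  simp

lemma term_eq (c r θ : ℝ) (j : ℕ) : (c : ℂ) * ((r : ℂ) * Complex.exp (θ * I)) ^ j =
    ((c * r ^ j : ℝ) : ℂ) * Complex.exp (j * (θ * I)) := by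
  rw [mul_pow, ← Complex.exp_nat_mul]
  push_cast
  ring

lemma term_mul (u v θ : ℝ) (i j : ℕ) :
    ((u : ℂ) * Complex.exp (i * (θ * I))) *
      (starRingEnd ℂ) ((v : ℂ) * Complex.exp (j * (θ * I))) =
    ((u * v : ℝ) : ℂ) * Complex.exp ((((i : ℤ) - (j : ℤ) : ℤ) : ℂ) * I * θ) := by
  rw [map_mul, Complex.conj_ofReal, ← Complex.exp_conj, map_mul, map_mul, Complex.conj_ofReal,
    Complex.conj_I, Complex.conj_natCast]
  have h : Complex.exp ((((i : ℤ) - (j : ℤ) : ℤ) : ℂ) * I * θ) =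
      Complex.exp (i * (θ * I)) * Complex.exp (j * (θ * -I)) := by
    rw [← Complex.exp_add]
    congr 1
    push_cast
    ring
  rw [h]
  push_cast
  ring

lemma sum2 {u : ℕ → ℝ} (hs : Summable (fun j => |u j|)) :
    Summable (fun p : ℕ × ℕ => |u p.1| * |u p.2|) := by
  have h1 : Summable (fun j => ‖|u j|‖) := by
    simpa only [Real.norm_eq_abs, abs_abs] using hs
  exact summable_mul_of_summable_norm h1 h1

lemma norm_term (x θ : ℝ) (m : ℤ) :
    ‖((x : ℝ) : ℂ) * Complex.exp ((m : ℂ) * I * θ)‖ = |x| := by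
  rw [norm_mul, Complex.norm_real, Real.norm_eq_abs, Complex.norm_exp]
  have h : ((m : ℂ) * I * θ).re = 0 := by simp
  rw [h, Real.exp_zero, mul_one]

lemma int_term (x : ℝ) (m : ℤ) :
    ∫ θ in (0 : ℝ)..(2 * Real.pi), (x : ℂ) * Complex.exp ((m : ℂ) * I * θ) =
      if m = 0 then ((2 * Real.pi * x : ℝ) : ℂ) else 0 := by
  split_ifs with h
  · subst h
    simp only [Int.cast_zero, zero_mul, Complex.exp_zero, mul_one]
    rw [intervalIntegral.integral_const, sub_zero, Complex.real_smul]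
    push_cast
    ring
  · rw [intervalIntegral.integral_const_mul, int_exp _ h, mul_zero]

/-- Parseval, trigonometric series -/
lemma pars0 (u : ℕ → ℝ) (hs : Summable (fun j => |u j|)) (G : ℝ → ℝ)
    (h1 : ∀ θ : ℝ, HasSum (fun p : ℕ × ℕ => ((u p.1 * u p.2 : ℝ) : ℂ) *
      Complex.exp ((((p.1 : ℤ) - (p.2 : ℤ) : ℤ) : ℂ) * I * θ)) ((G θ : ℝ) : ℂ)) :
    HasSum (fun j => 2 * Real.pi * (u j * u j)) (∫ θ in (0 : ℝ)..(2 * Real.pi), G θ) := by
  have h2 := intervalIntegral.hasSum_integral_of_dominated_convergence (μ := volume)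
    (a := 0) (b := 2 * Real.pi)
    (F := fun (p : ℕ × ℕ) (θ : ℝ) => ((u p.1 * u p.2 : ℝ) : ℂ) *
      Complex.exp ((((p.1 : ℤ) - (p.2 : ℤ) : ℤ) : ℂ) * I * θ))
    (f := fun θ => ((G θ : ℝ) : ℂ))
    (fun p _ => |u p.1| * |u p.2|)
    (fun p => Continuous.aestronglyMeasurable (by fun_prop))
    (fun p => ae_of_all _ fun θ _ => by rw [norm_term, abs_mul])
    (ae_of_all _ fun θ _ => sum2 hs) intervalIntegrable_const (ae_of_all _ fun θ _ => h1 θ)
  have hinj : Function.Injective (fun j : ℕ => (j, j)) := fun a b h => (Prod.mk.inj h).1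
  simp only [int_term] at h2
  have h3 := (hinj.hasSum_iff (by
    rintro ⟨i, j⟩ hij
    have hne : i ≠ j := by
      rintro rfl
      exact hij ⟨i, rfl⟩
    exact if_neg (by omega))).mpr h2
  rw [intervalIntegral.integral_ofReal] at h3
  have h4 : ((fun n : ℕ × ℕ => if ((n.1 : ℤ) - (n.2 : ℤ) : ℤ) = 0 then
      ((2 * Real.pi * (u n.1 * u n.2) : ℝ) : ℂ) else 0) ∘ fun j : ℕ => (j, j)) =
      fun j : ℕ => ((2 * Real.pi * (u j * u j) : ℝ) : ℂ) := by
    funext j
    exact if_pos (sub_self _)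
  rw [h4] at h3
  exact Complex.hasSum_ofReal.mp h3

lemma hmul (x y : ℕ → ℂ) (X Y : ℂ) (n1 : HasSum x X) (n2 : HasSum y Y) :
    HasSum (fun p : ℕ × ℕ => x p.1 * y p.2) (X * Y) :=
  HasSum.mul n1 n2 (summable_mul_of_summable_norm n1.summable.norm n2.summable.norm)

lemma mulconj (x : ℕ → ℂ) (X : ℂ) (h : HasSum x X) :
    HasSum (fun p : ℕ × ℕ => x p.1 * (starRingEnd ℂ) (x p.2)) ((‖X‖ ^ 2 : ℝ) : ℂ) := by
  have e4 := hmul x (fun j => (starRingEnd ℂ) (x j)) X _ h (Complex.hasSum_conj'.mpr h)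
  have e5 : X * (starRingEnd ℂ) X = ((‖X‖ ^ 2 : ℝ) : ℂ) := by
    rw [Complex.mul_conj']
    push_cast
    rfl
  rw [e5] at e4
  exact e4

/-- Parseval on a circle -/
lemma pars (c : ℕ → ℝ) (r : ℝ) (F : ℂ → ℂ)
    (hF : ∀ z, HasSum (fun j => (c j : ℂ) * z ^ j) (F z)) :
    HasSum (fun j => c j ^ 2 * r ^ (2 * j))
      ((2 * Real.pi)⁻¹ * ∫ θ in (0 : ℝ)..(2 * Real.pi), ‖F (r * Complex.exp (θ * I))‖ ^ 2) := by
  set u : ℕ → ℝ := fun j => c j * r ^ j with hu
  have hs : Summable (fun j => |u j|) := by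
    refine (hF r).summable.norm.congr fun j => ?_
    rw [← Complex.ofReal_pow, ← Complex.ofReal_mul, Complex.norm_real, Real.norm_eq_abs]
  have h1 : ∀ θ : ℝ, HasSum (fun p : ℕ × ℕ => ((u p.1 * u p.2 : ℝ) : ℂ) *
      Complex.exp ((((p.1 : ℤ) - (p.2 : ℤ) : ℤ) : ℂ) * I * θ))
      ((‖F (r * Complex.exp (θ * I))‖ ^ 2 : ℝ) : ℂ) := by
    intro θ
    have e1 := hF (r * Complex.exp (θ * I))
    simp only [term_eq] at e1
    have e3 := mulconj _ _ e1
    simp only [term_mul] at e3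
    exact e3
  have h5 := (pars0 u hs _ h1).mul_left (2 * Real.pi)⁻¹
  have h7 : (fun i => (2 * Real.pi)⁻¹ * (2 * Real.pi * (u i * u i))) =
      fun j => c j ^ 2 * r ^ (2 * j) := by
    funext j
    have h6 : Real.pi ≠ 0 := Real.pi_ne_zero
    simp only [hu]
    rw [inv_mul_cancel_left₀ (by positivity)]
    ring
  rw [h7] at h5
  exact h5

/-! ### the pointwise bound -/

lemma norm_bd (a k : ℝ) (n : ℕ) (z : ℂ) :
    ‖(1 + a * z) ^ n * Complex.exp (-(k * z))‖ ^ 2 ≤
      Real.exp (n * a ^ 2 * ‖z‖ ^ 2) * ‖Complex.exp (((n * a - k : ℝ) : ℂ) * z)‖ ^ 2 := by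
  have h1 : ‖1 + (a : ℂ) * z‖ ^ 2 ≤ Real.exp (2 * a * z.re + a ^ 2 * ‖z‖ ^ 2) := by
    have h : ‖1 + (a : ℂ) * z‖ ^ 2 = 1 + (2 * a * z.re + a ^ 2 * ‖z‖ ^ 2) := by
      rw [← Complex.normSq_eq_norm_sq, ← Complex.normSq_eq_norm_sq, Complex.normSq_apply,
        Complex.normSq_apply]
      simp
      ring
    rw [h]
    linarith [Real.add_one_le_exp (2 * a * z.re + a ^ 2 * ‖z‖ ^ 2)]
  rw [norm_mul, norm_pow, mul_pow, Complex.norm_exp, Complex.norm_exp, ← pow_mul, mul_comm n 2,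
    pow_mul]
  have h2 : (‖1 + (a : ℂ) * z‖ ^ 2) ^ n ≤ Real.exp (2 * a * z.re + a ^ 2 * ‖z‖ ^ 2) ^ n :=
    pow_le_pow_left₀ (by positivity) h1 n
  calc (‖1 + (a : ℂ) * z‖ ^ 2) ^ n * Real.exp (-(↑k * z)).re ^ 2
      ≤ Real.exp (2 * a * z.re + a ^ 2 * ‖z‖ ^ 2) ^ n * Real.exp (-(↑k * z)).re ^ 2 :=
        mul_le_mul_of_nonneg_right h2 (by positivity)
    _ = Real.exp (n * a ^ 2 * ‖z‖ ^ 2) * Real.exp ((((n * a - k : ℝ) : ℂ) * z).re) ^ 2 := by
        rw [← Real.exp_nat_mul, ← Real.exp_nat_mul, ← Real.exp_nat_mul, ← Real.exp_add,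
          ← Real.exp_add]
        congr 1
        simp
        ring

/-- the bound for the power series -/
lemma ser_bd (a k r : ℝ) (n N : ℕ) :
    ∑ j ∈ Finset.range N, cf a k n j ^ 2 * r ^ (2 * j) ≤
      Real.exp (n * a ^ 2 * r ^ 2) *
        ∑' j : ℕ, ((n * a - k) ^ j / (j.factorial : ℝ)) ^ 2 * r ^ (2 * j) := by
  have hA := pars (cf a k n) r _ (hasSum_cf a k n)
  have hB := pars (fun j => (n * a - k) ^ j / (j.factorial : ℝ)) r
    (fun z => Complex.exp (((n * a - k : ℝ) : ℂ) * z)) (fun z => by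
      convert hasSum_cexp (((n * a - k : ℝ) : ℂ) * z) using 2 with j
      rw [mul_pow]
      push_cast
      ring)
  rw [hB.tsum_eq]
  refine (sum_le_hasSum _ (fun j _ => by rw [pow_mul]; positivity) hA).trans ?_
  rw [mul_left_comm]
  refine mul_le_mul_of_nonneg_left ?_ (by positivity)
  rw [← intervalIntegral.integral_const_mul]
  apply intervalIntegral.integral_mono_on (by positivity)
  · exact Continuous.intervalIntegrable (by fun_prop) _ _
  · exact Continuous.intervalIntegrable (by fun_prop) _ _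
  · intro θ _
    have h := norm_bd a k n (r * Complex.exp (θ * I))
    have h2 : ‖(r : ℂ) * Complex.exp (θ * I)‖ ^ 2 = r ^ 2 := by
      rw [norm_mul, Complex.norm_exp_ofReal_mul_I, mul_one, Complex.norm_real, Real.norm_eq_abs,
        sq_abs]
    rw [h2] at h
    exact h

/-! ### the integral against `e^{-s}` -/

lemma mom (b : ℝ) (hb : 0 < b) (j : ℕ) :
    IntegrableOn (fun s : ℝ => s ^ j * Real.exp (-(b * s))) (Set.Ioi 0) ∧
      ∫ s in Set.Ioi (0 : ℝ), s ^ j * Real.exp (-(b * s)) = (j.factorial : ℝ) / b ^ (j + 1) := by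
  constructor
  · have h := integrableOn_rpow_mul_exp_neg_mul_rpow (p := 1) (s := j) (b := b)
      (by linarith [(Nat.cast_nonneg j : (0 : ℝ) ≤ j)]) one_pos hb
    refine h.congr_fun (fun s hs => ?_) measurableSet_Ioi
    simp only [Real.rpow_natCast, Real.rpow_one]
    rw [neg_mul]
  · have h := Real.integral_rpow_mul_exp_neg_mul_Ioi (a := (j : ℝ) + 1) (r := b)
      (by positivity) hb
    rw [Real.Gamma_nat_eq_factorial] at h
    rw [add_sub_cancel_right] at h
    simp only [Real.rpow_natCast] at h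
    rw [h, show (j : ℝ) + 1 = ((j + 1 : ℕ) : ℝ) by push_cast; ring, Real.rpow_natCast, one_div,
      inv_pow]
    field_simp

lemma gval (b V c : ℝ) (hb : 0 < b) (j : ℕ) :
    (c ^ j / (j.factorial : ℝ)) ^ 2 * V ^ j * ((j.factorial : ℝ) / b ^ (j + 1)) =
      (V * c ^ 2 / b) ^ j / (j.factorial : ℝ) * b⁻¹ := by
  have h0 : ((j.factorial : ℕ) : ℝ) ≠ 0 := by positivity
  have h1 : (V * c ^ 2 / b) ^ j = V ^ j * (c ^ j) ^ 2 / b ^ j := by
    rw [div_pow, mul_pow, ← pow_mul, ← pow_mul, mul_comm 2 j]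
  rw [h1, div_pow (c ^ j), pow_succ b j]
  field_simp

end CrF

open CrF in
theorem stCrudeF : StCrudeF := by
  intro a k V n ha hV hν
  set ν : ℝ := n * a ^ 2 * V with hνd
  set c : ℝ := n * a - k with hc
  have hb : 0 < 1 - ν := by linarith
  have hR : 0 ≤ Real.exp (V * c ^ 2 / (1 - ν)) / (1 - ν) := by positivity
  simp only [dcf_eq]
  refine Real.tsum_le_of_sum_range_le (fun j => by positivity) fun N => ?_
  -- the right side
  set g : ℕ → ℝ → ℝ := fun j s =>
    (c ^ j / (j.factorial : ℝ)) ^ 2 * V ^ j * (s ^ j * Real.exp (-((1 - ν) * s))) with hg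
  have g0 : ∀ j, ∀ s : ℝ, 0 < s → 0 ≤ g j s := by
    intro j s hs
    simp only [hg]
    positivity
  have gi : ∀ j, IntegrableOn (g j) (Set.Ioi 0) := fun j => ((mom (1 - ν) hb j).1).const_mul _
  have gv : ∀ j, ∫ s in Set.Ioi (0 : ℝ), g j s =
      (V * c ^ 2 / (1 - ν)) ^ j / (j.factorial : ℝ) * (1 - ν)⁻¹ := by
    intro j
    simp only [hg]
    rw [integral_const_mul, (mom (1 - ν) hb j).2]
    exact gval _ _ _ hb j
  have gs : HasSum (fun j => ∫ s in Set.Ioi (0 : ℝ), g j s)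
      (Real.exp (V * c ^ 2 / (1 - ν)) / (1 - ν)) := by
    simp only [gv]
    exact (hasSum_rexp _).mul_right _
  -- the left side
  set f : ℝ → ℝ := fun s => ∑ j ∈ Finset.range N,
    cf a k n j ^ 2 * V ^ j * (s ^ j * Real.exp (-(1 * s))) with hf
  have fi : IntegrableOn f (Set.Ioi 0) := by
    simp only [hf]
    exact integrable_finsetSum _ fun j _ => ((mom 1 one_pos j).1).const_mul _
  have fv : ∫ s in Set.Ioi (0 : ℝ), f s =
      ∑ j ∈ Finset.range N, cf a k n j ^ 2 * (j.factorial : ℝ) * V ^ j := by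
    simp only [hf]
    rw [integral_finsetSum _ fun j _ => ((mom 1 one_pos j).1).const_mul _]
    refine Finset.sum_congr rfl fun j _ => ?_
    rw [integral_const_mul, (mom 1 one_pos j).2, one_pow, div_one]
    ring
  have f0 : ∀ s : ℝ, 0 < s → 0 ≤ f s := by
    intro s hs
    simp only [hf]
    positivity
  -- the pointwise inequality
  have hpt : ∀ s : ℝ, 0 < s → Summable (fun j => g j s) ∧ f s ≤ ∑' j, g j s := by
    intro s hs
    have hr : ∀ j : ℕ, Real.sqrt (V * s) ^ (2 * j) = V ^ j * s ^ j := by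
      intro j
      rw [pow_mul, Real.sq_sqrt (by positivity), mul_pow]
    have h1 := ser_bd a k (Real.sqrt (V * s)) n N
    simp only [hr] at h1
    rw [Real.sq_sqrt (by positivity)] at h1
    have hS : Summable (fun j : ℕ => (c ^ j / (j.factorial : ℝ)) ^ 2 * (V ^ j * s ^ j)) := by
      have hB := pars (fun j => c ^ j / (j.factorial : ℝ)) (Real.sqrt (V * s))
        (fun z => Complex.exp ((c : ℂ) * z)) (fun z => by
          convert hasSum_cexp ((c : ℂ) * z) using 2 with j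
          rw [mul_pow]
          push_cast
          ring)
      simp only [hr] at hB
      exact hB.summable
    have e1 : ∀ j, g j s = Real.exp (-((1 - ν) * s)) *
        ((c ^ j / (j.factorial : ℝ)) ^ 2 * (V ^ j * s ^ j)) := by
      intro j
      simp only [hg]
      ring
    refine ⟨by simp only [e1]; exact hS.mul_left _, ?_⟩
    simp only [e1]
    rw [tsum_mul_left]
    have e2 : f s = Real.exp (-s) * ∑ j ∈ Finset.range N, cf a k n j ^ 2 * (V ^ j * s ^ j) := by
      simp only [hf, one_mul]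
      rw [Finset.mul_sum]
      refine Finset.sum_congr rfl fun j _ => ?_
      ring
    rw [e2]
    calc Real.exp (-s) * ∑ j ∈ Finset.range N, cf a k n j ^ 2 * (V ^ j * s ^ j)
        ≤ Real.exp (-s) * (Real.exp (n * a ^ 2 * (V * s)) *
          ∑' j : ℕ, (c ^ j / (j.factorial : ℝ)) ^ 2 * (V ^ j * s ^ j)) :=
          mul_le_mul_of_nonneg_left h1 (Real.exp_pos _).le
      _ = Real.exp (-((1 - ν) * s)) *
          ∑' j : ℕ, (c ^ j / (j.factorial : ℝ)) ^ 2 * (V ^ j * s ^ j) := by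
          rw [← mul_assoc, ← Real.exp_add]
          congr 2
          rw [hνd]
          ring
  -- integration
  have key : ENNReal.ofReal (∫ s in Set.Ioi (0 : ℝ), f s) ≤
      ENNReal.ofReal (Real.exp (V * c ^ 2 / (1 - ν)) / (1 - ν)) := by
    rw [ofReal_integral_eq_lintegral_ofReal fi
      ((ae_restrict_iff' measurableSet_Ioi).mpr (ae_of_all _ fun s hs => f0 s hs))]
    calc ∫⁻ s in Set.Ioi (0 : ℝ), ENNReal.ofReal (f s)
        ≤ ∫⁻ s in Set.Ioi (0 : ℝ), ∑' j, ENNReal.ofReal (g j s) := by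
          refine setLIntegral_mono' measurableSet_Ioi fun s hs => ?_
          rw [← ENNReal.ofReal_tsum_of_nonneg (fun j => g0 j s hs) (hpt s hs).1]
          exact ENNReal.ofReal_le_ofReal (hpt s hs).2
      _ = ∑' j, ∫⁻ s in Set.Ioi (0 : ℝ), ENNReal.ofReal (g j s) :=
          lintegral_tsum fun j => ((gi j).aestronglyMeasurable.aemeasurable).ennreal_ofReal
      _ = ∑' j, ENNReal.ofReal (∫ s in Set.Ioi (0 : ℝ), g j s) := by
          congr 1
          funext j
          rw [ofReal_integral_eq_lintegral_ofReal (gi j)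
            ((ae_restrict_iff' measurableSet_Ioi).mpr (ae_of_all _ fun s hs => g0 j s hs))]
      _ = ENNReal.ofReal (Real.exp (V * c ^ 2 / (1 - ν)) / (1 - ν)) := by
          rw [← ENNReal.ofReal_tsum_of_nonneg (fun j =>
            setIntegral_nonneg measurableSet_Ioi fun s hs => g0 j s hs) gs.summable, gs.tsum_eq]
  rw [← fv]
  exact (ENNReal.ofReal_le_ofReal_iff hR).mp key

end K8
end Pool.Agent.Lib.MP_973905_nt
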