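import Pool.Agent.Lib.MP_973905_nt.K8.Base
import Pool.Agent.Lib.MP_973905_nt.K1.FinalK1

/-! Module (F) of folder K8: the lower bound for every fixed order between 1 and 2. -/

namespace Pool.Agent.Lib.MP_973905_nt
namespace K8

open MeasureTheory ProbabilityTheory Complex Filter Topology K1 K4 K5
open Pool.Agent.Lib.MP_973905_nt.CK

namespace Fin8

lemma d0_pos {κ : ℝ} (hκ : 0 < κ) : 1 ≤ d0 κ := by
  have h : 0 < 3 * (κ * (1 + κ)) := by positivity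
  exact Nat.one_le_iff_ne_zero.2 (Nat.pos_iff_ne_zero.1 (Nat.ceil_pos.2 h))

lemma th_pos {κ : ℝ} (hκ : 0 < κ) : 0 < th κ := by
  have h1 : (0 : ℝ) ≤ d0 κ := Nat.cast_nonneg _
  rw [th]
  positivity

lemma th_le {κ : ℝ} (hκ : 0 < κ) : th κ ≤ 2 / 5 * κ := by
  have h1 : (1 : ℝ) ≤ d0 κ := by exact_mod_cast d0_pos hκ
  rw [th, div_le_iff₀ (by positivity)]
  nlinarith [mul_nonneg hκ.le (sub_nonneg.2 h1), mul_nonneg (mul_nonneg hκ.le hκ.le)
    (sub_nonneg.2 h1)]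

lemma two_th_lt {κ : ℝ} (hκ : 0 < κ) (hκ1 : κ < 1) : 2 * κ * th κ < 1 := by
  have h := th_le hκ
  have h0 := th_pos hκ
  nlinarith [mul_pos hκ h0]

/-- the exponents -/
lemma main_log {κ : ℝ} {C : Cfg} {M : ℕ} (hC : Adm κ M C)
    (hZ : ∀ i, i < C.N → 0 < aZ C i) (hV : ∀ i, i < C.N → 0 < aV κ C i) :
    Real.exp ((Real.eulerMascheroniConstant - M) * (κ * (1 + κ))) *
        ((∏ i ∈ Finset.range C.N, aZ C i) * (1 - rho8 C)) ^ (1 + κ) /
        (∏ i ∈ Finset.range C.N, aV κ C i) ^ κ =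
      Real.exp (κ * (1 + κ) * (Real.eulerMascheroniConstant + Real.log (C.te 0)) +
        (1 + κ) * Real.log (1 - rho8 C) - ∑ i ∈ Finset.range C.N, lam8 κ C i) := by
  have h1 : 0 < 1 - rho8 C := by linarith [hC.hrho]
  have hZ' : 0 < ∏ i ∈ Finset.range C.N, aZ C i :=
    Finset.prod_pos fun i hi => hZ i (Finset.mem_range.1 hi)
  have hV' : 0 < ∏ i ∈ Finset.range C.N, aV κ C i :=
    Finset.prod_pos fun i hi => hV i (Finset.mem_range.1 hi)
  rw [Real.rpow_def_of_pos (mul_pos hZ' h1), Real.rpow_def_of_pos hV', ← Real.exp_add,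
    ← Real.exp_sub, Real.log_mul hZ'.ne' h1.ne']
  congr 1
  rw [Real.log_prod fun i hi => (hZ i (Finset.mem_range.1 hi)).ne',
    Real.log_prod fun i hi => (hV i (Finset.mem_range.1 hi)).ne']
  have h2 : ∑ i ∈ Finset.range C.N, lam8 κ C i =
      κ * ∑ i ∈ Finset.range C.N, Real.log (aV κ C i) -
        (1 + κ) * ∑ i ∈ Finset.range C.N, Real.log (aZ C i) +
        κ * (1 + κ) * ∑ i ∈ Finset.range C.N, C.V i := by
    rw [Finset.mul_sum, Finset.mul_sum, Finset.mul_sum, ← Finset.sum_sub_distrib,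
      ← Finset.sum_add_distrib]
    rfl
  rw [h2, Blk8.sum_V hC]
  ring

end Fin8

open Fin8

/-- (F) the lower bound for every fixed order between 1 and 2 -/
theorem stFinal8 (h : StHold8) (hadm : StAdm8) (hlam : StLam8) (hGu : StGu) (hnum : StNum8)
    (hr : StRhoZ) (hA : K7.StAK7) : StFinal8 := by
  intro κ hκ0 hκ1 ε hε
  have haK : 0 < aK (1 + κ) := (hA (1 + κ) (by linarith) (by linarith)).1
  have hG1 : 0 < barnesG (1 + κ + 1) := barnesG_pos (by linarith)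
  have hG2 : 0 < barnesG (2 * (1 + κ) + 1) := barnesG_pos (by linarith)
  set G : ℝ := barnesG (1 + κ + 1) ^ 2 / barnesG (2 * (1 + κ) + 1) with hG
  have hG0 : 0 < G := by positivity
  have hcK : cK (1 + κ) = aK (1 + κ) * G := by rw [cK, hG, mul_div_assoc]
  have hc0 : 0 < cK (1 + κ) := by rw [hcK]; positivity
  have hGle : G ≤ Real.exp (-(κ * (83 / 100 + 7 / 5 * κ + 1 / 5 * κ ^ 2))) := hGu κ hκ0 hκ1
  have hLL : LL8 κ = Real.exp (κ * Real.log κ - 18 / 5 * κ ^ 2) := by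
    rw [LL8, Real.rpow_def_of_pos hκ0, ← Real.exp_add]
    congr 1
    ring
  have hLL0 : 0 < LL8 κ := by rw [hLL]; exact Real.exp_pos _
  have hLL1 : LL8 κ ≤ 1 := by
    rw [hLL, Real.exp_le_one_iff]
    have h1 : Real.log κ ≤ 0 := Real.log_nonpos hκ0.le hκ1.le
    nlinarith [mul_nonneg hκ0.le (neg_nonneg.2 h1), sq_nonneg κ]
  set δ : ℝ := min (ε / 2) (1 / 2) with hδ
  have hδ0 : 0 < δ := lt_min (by positivity) (by norm_num)
  have hδ1 : δ ≤ 1 / 2 := min_le_right _ _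
  have hδε : δ ≤ ε / 2 := min_le_left _ _
  obtain ⟨K, hK1, hR⟩ := hr
  obtain ⟨M₀, hM₀⟩ := h κ hκ0 hκ1 δ hδ0
  obtain ⟨M₁, hM₁⟩ := hadm κ hκ0 hκ1
  obtain ⟨M₂, hM₂⟩ := hlam κ hκ0 hκ1 δ hδ0
  set M : ℕ := max M₀ (max M₁ M₂) with hM
  have hm0 : M₀ ≤ M := le_max_left _ _
  have hm1 : M₁ ≤ M := (le_max_left _ _).trans (le_max_right _ _)
  have hm2 : M₂ ≤ M := (le_max_right _ _).trans (le_max_right _ _)
  obtain ⟨hC, hrho, hte, -, -, -, -⟩ := hM₁ M hm1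
  have hL := hM₂ M hm2
  obtain ⟨-, hZ, hV, hrho0, -, -, -⟩ := hR κ hκ0 hκ1 M _ hC
  obtain ⟨T₀, hT₀, hT⟩ := hM₀ M hm0 _ hC
  rw [main_log hC hZ hV, hte] at hT
  refine ⟨T₀, hT₀, fun T hTT => ?_⟩
  have hT3 : 3 ≤ T := hT₀.trans hTT
  have hL0 : 0 < Real.log T := Real.log_pos (by linarith)
  set Λ : ℝ := (Real.log T) ^ ((1 + κ) ^ 2) with hΛ
  have hΛ0 : 0 < Λ := Real.rpow_pos_of_pos hL0 _
  rw [le_div_iff₀ (mul_pos hc0 hΛ0)]
  refine le_trans ?_ (hT T hTT)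
  set E : ℝ := κ * (1 + κ) * (Real.eulerMascheroniConstant + Real.log (th κ)) +
    (1 + κ) * Real.log (1 - rho8 (cfg8 κ M)) -
    ∑ i ∈ Finset.range (cfg8 κ M).N, lam8 κ (cfg8 κ M) i with hE
  have h2t : 2 * κ * th κ < 1 := two_th_lt hκ0 hκ1
  have hlog : Real.log (1 - 2 * κ * th κ) ≤ Real.log (1 - rho8 (cfg8 κ M)) :=
    Real.log_le_log (by linarith) (by linarith)
  have hn := hnum κ hκ0 hκ1
  have hE1 : κ * Real.log κ - 18 / 5 * κ ^ 2 - κ * (83 / 100 + 7 / 5 * κ + 1 / 5 * κ ^ 2) - δ ≤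
      E := by
    have h3 : (1 + κ) * Real.log (1 - 2 * κ * th κ) ≤
        (1 + κ) * Real.log (1 - rho8 (cfg8 κ M)) :=
      mul_le_mul_of_nonneg_left hlog (by linarith)
    rw [hE]
    linarith
  have hE2 : LL8 κ * (1 - δ) * G ≤ Real.exp E := by
    have h3 : LL8 κ * G * Real.exp (-δ) ≤ Real.exp E := by
      calc LL8 κ * G * Real.exp (-δ) ≤ LL8 κ *
          Real.exp (-(κ * (83 / 100 + 7 / 5 * κ + 1 / 5 * κ ^ 2))) * Real.exp (-δ) := by
            gcongr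
        _ = Real.exp (κ * Real.log κ - 18 / 5 * κ ^ 2 -
            κ * (83 / 100 + 7 / 5 * κ + 1 / 5 * κ ^ 2) - δ) := by
          rw [hLL, ← Real.exp_add, ← Real.exp_add]
          congr 1
        _ ≤ Real.exp E := Real.exp_le_exp.2 hE1
    refine le_trans ?_ h3
    have h4 : 1 - δ ≤ Real.exp (-δ) := by linarith [Real.add_one_le_exp (-δ)]
    calc LL8 κ * (1 - δ) * G = LL8 κ * G * (1 - δ) := by ring
      _ ≤ LL8 κ * G * Real.exp (-δ) := mul_le_mul_of_nonneg_left h4 (by positivity)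
  have h5 : 0 ≤ aK (1 + κ) * Λ := by positivity
  have h6 : 0 ≤ 1 - δ := by linarith
  have h7 : (1 - δ) * (aK (1 + κ) * Λ * (LL8 κ * (1 - δ) * G)) ≤
      (1 - δ) * (aK (1 + κ) * Λ * Real.exp E) :=
    mul_le_mul_of_nonneg_left (mul_le_mul_of_nonneg_left hE2 h5) h6
  refine le_trans ?_ h7
  have h8 : LL8 κ - ε ≤ (1 - δ) * (LL8 κ * (1 - δ)) := by
    nlinarith [mul_nonneg hδ0.le (sub_nonneg.2 hLL1), mul_nonneg hLL0.le (sq_nonneg δ)]
  rw [hcK]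
  calc (LL8 κ - ε) * (aK (1 + κ) * G * Λ) ≤ (1 - δ) * (LL8 κ * (1 - δ)) *
      (aK (1 + κ) * G * Λ) := mul_le_mul_of_nonneg_right h8 (by positivity)
    _ = (1 - δ) * (aK (1 + κ) * Λ * (LL8 κ * (1 - δ) * G)) := by ring

end K8
end Pool.Agent.Lib.MP_973905_nt
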