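import Pool.Agent.Lib.MP_973905_nt.K8.Stmts

/-! Folder K8, item N1: the Gaussian shift in terms of Taylor coefficients.  The coefficients
`dcf a k n j` are those of `(1 + a z)^n e^{-k z}`; the weighted sum of their squares is the norm of
this function in the Fock space of parameter `V`. -/

namespace Pool.Agent.Lib.MP_973905_nt
namespace K8

open Filter Topology

namespace FockX

/-- The coefficient of `z^j` in `z^m e^{-k z}`. -/
noncomputable def e (k : ℝ) (j m : ℕ) : ℝ :=
  if m ≤ j then (-k) ^ (j - m) / ((j - m).factorial : ℝ) else 0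

theorem e_ss (k : ℝ) (j m : ℕ) : e k (j + 1) (m + 1) = e k j m := by
  unfold e
  simp only [Nat.add_sub_add_right, Nat.add_le_add_iff_right]

theorem e_lt (k : ℝ) {j m : ℕ} (h : j < m) : e k j m = 0 := by
  unfold e
  rw [if_neg (by omega)]

theorem e_add (k : ℝ) (r m : ℕ) : e k (r + m) m = (-k) ^ r / (r.factorial : ℝ) := by
  unfold e
  rw [if_pos (by omega), Nat.add_sub_cancel]

theorem e_rec (k : ℝ) (j m : ℕ) :
    (((j : ℝ) + 1) - m) * e k (j + 1) m = -k * e k j m := by
  by_cases h : m ≤ j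
  · obtain ⟨r, rfl⟩ := Nat.exists_eq_add_of_le' h
    have h1 : r + m + 1 = (r + 1) + m := by ring
    rw [h1, e_add, e_add, Nat.factorial_succ, pow_succ]
    push_cast
    have h2 : ((r : ℝ) + 1) ≠ 0 := by positivity
    have h3 : (r.factorial : ℝ) ≠ 0 := by positivity
    field_simp
    ring
  · rw [e_lt k (by omega : j < m), mul_zero]
    by_cases h' : m = j + 1
    · subst h'
      push_cast
      ring
    · rw [e_lt k (by omega : j + 1 < m), mul_zero]

/-- The coefficient of `z^m` in `(1 + a z)^n`. -/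
noncomputable def g (n : ℕ) (a : ℝ) (m : ℕ) : ℝ := (n.choose m : ℝ) * a ^ m

theorem g_rec (n : ℕ) (a : ℝ) (m : ℕ) :
    ((m : ℝ) + 1) * g n a (m + 1) = ((n : ℝ) - m) * a * g n a m := by
  unfold g
  by_cases h : m ≤ n
  · have h1 := Nat.choose_succ_right_eq n m
    have h2 : ((n.choose (m + 1) : ℕ) : ℝ) * ((m : ℝ) + 1) = (n.choose m : ℝ) * ((n : ℝ) - m) := by
      have := congrArg (fun x : ℕ => (x : ℝ)) h1
      simp only [Nat.cast_mul] at this
      rw [Nat.cast_sub h] at this
      push_cast at this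
      exact this
    calc ((m : ℝ) + 1) * ((n.choose (m + 1) : ℝ) * a ^ (m + 1))
        = ((n.choose (m + 1) : ℝ) * ((m : ℝ) + 1)) * a ^ (m + 1) := by ring
      _ = _ := by rw [h2, pow_succ]; ring
  · rw [Nat.choose_eq_zero_of_lt (by omega : n < m + 1), Nat.choose_eq_zero_of_lt (by omega : n < m)]
    simp

noncomputable def Y (n : ℕ) (a k : ℝ) (j : ℕ) : ℝ := ∑ m ∈ Finset.range (n + 1), g n a m * e k j m

noncomputable def Z (n : ℕ) (a k : ℝ) (j : ℕ) : ℝ :=
  ∑ m ∈ Finset.range (n + 1), (m : ℝ) * (g n a m * e k j m)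

theorem Z_succ (n : ℕ) (a k : ℝ) (j : ℕ) :
    Z n a k (j + 1) = n * a * Y n a k j - a * Z n a k j := by
  have h1 : Z n a k (j + 1) = ∑ m ∈ Finset.range n, ((n : ℝ) - m) * a * (g n a m * e k j m) := by
    unfold Z
    rw [Finset.sum_range_succ']
    simp only [Nat.cast_zero, zero_mul, add_zero]
    refine Finset.sum_congr rfl fun m _ => ?_
    rw [e_ss]
    push_cast
    rw [← mul_assoc, g_rec]
    ring
  have h2 : ∑ m ∈ Finset.range (n + 1), ((n : ℝ) - m) * a * (g n a m * e k j m) =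
      ∑ m ∈ Finset.range n, ((n : ℝ) - m) * a * (g n a m * e k j m) := by
    rw [Finset.sum_range_succ]
    simp
  rw [h1, ← h2]
  unfold Y Z
  rw [Finset.mul_sum, Finset.mul_sum, ← Finset.sum_sub_distrib]
  refine Finset.sum_congr rfl fun m _ => ?_
  ring

theorem Y_succ (n : ℕ) (a k : ℝ) (j : ℕ) :
    ((j : ℝ) + 1) * Y n a k (j + 1) = -k * Y n a k j + Z n a k (j + 1) := by
  unfold Y Z
  rw [Finset.mul_sum, Finset.mul_sum, ← Finset.sum_add_distrib]
  refine Finset.sum_congr rfl fun m _ => ?_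
  have := e_rec k j m
  calc ((j : ℝ) + 1) * (g n a m * e k (j + 1) m)
      = g n a m * ((((j : ℝ) + 1) - m) * e k (j + 1) m) + (m : ℝ) * (g n a m * e k (j + 1) m) := by
        ring
    _ = _ := by rw [this]; ring

theorem Y_zero (n : ℕ) (a k : ℝ) : Y n a k 0 = 1 := by
  unfold Y
  rw [Finset.sum_range_succ', Finset.sum_eq_zero]
  · simp [g, e]
  · intro m _
    rw [e_lt k (by omega : 0 < m + 1), mul_zero]

theorem Z_zero (n : ℕ) (a k : ℝ) : Z n a k 0 = 0 := by
  unfold Z
  rw [Finset.sum_range_succ', Finset.sum_eq_zero]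
  · simp
  · intro m _
    rw [e_lt k (by omega : 0 < m + 1), mul_zero, mul_zero]

theorem Y_one (n : ℕ) (a k : ℝ) : Y n a k 1 = n * a - k := by
  have h := Y_succ n a k 0
  rw [Z_succ, Y_zero, Z_zero] at h
  simp only [Nat.cast_zero, zero_add, one_mul] at h
  rw [h]
  ring

theorem Y_rec (n : ℕ) (a k : ℝ) (j : ℕ) :
    Y n a k (j + 2) = ((n * a - k - a * ((j + 1 : ℕ) : ℝ)) * Y n a k (j + 1) - k * a * Y n a k j) /
      ((j + 2 : ℕ) : ℝ) := by
  have h1 := Y_succ n a k (j + 1)
  have h2 := Y_succ n a k j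
  rw [Z_succ n a k (j + 1)] at h1
  have h3 : ((j + 2 : ℕ) : ℝ) ≠ 0 := by positivity
  rw [eq_div_iff h3]
  push_cast at h1 h2 ⊢
  have h4 : Z n a k (j + 1) = ((j : ℝ) + 1) * Y n a k (j + 1) + k * Y n a k j := by
    rw [h2]; ring
  rw [h4] at h1
  have h5 : j + 1 + 1 = j + 2 := rfl
  rw [h5] at h1
  linear_combination h1

theorem dcf_eq (n : ℕ) (a k : ℝ) (j : ℕ) : dcf a k n j = Y n a k j := by
  have : dcf a k n j = Y n a k j ∧ dcf a k n (j + 1) = Y n a k (j + 1) := by
    induction j with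
    | zero => exact ⟨by rw [Y_zero]; rfl, by rw [Y_one]; rfl⟩
    | succ j ih =>
      refine ⟨ih.2, ?_⟩
      rw [Y_rec, ← ih.1, ← ih.2]
      rfl
  exact this.1

/-! ### The sum over `j` -/

theorem hs_s (k t : ℝ) (s : ℕ) :
    HasSum (fun r : ℕ => ((r.choose s : ℕ) : ℝ) * ((-k) ^ r / (r.factorial : ℝ) * t ^ (r - s)))
      ((-k) ^ s / (s.factorial : ℝ) * Real.exp (-k * t)) := by
  rw [← hasSum_nat_add_iff' s]
  have h0 : ∑ i ∈ Finset.range s,
      ((i.choose s : ℕ) : ℝ) * ((-k) ^ i / (i.factorial : ℝ) * t ^ (i - s)) = 0 := by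
    refine Finset.sum_eq_zero fun i hi => ?_
    rw [Nat.choose_eq_zero_of_lt (Finset.mem_range.mp hi)]
    simp
  rw [h0, sub_zero]
  have h1 : HasSum (fun q : ℕ => (-k * t) ^ q / (q.factorial : ℝ)) (Real.exp (-k * t)) := by
    rw [Real.exp_eq_exp_ℝ]
    exact NormedSpace.expSeries_div_hasSum_exp (-k * t)
  have h2 := h1.mul_left ((-k) ^ s / (s.factorial : ℝ))
  refine h2.congr_fun ?_
  intro q
  have h4 : (((q + s).choose s : ℕ) : ℝ) * q.factorial * s.factorial = ((q + s).factorial : ℝ) := by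
    have := Nat.choose_mul_factorial_mul_factorial (Nat.le_add_left s q)
    rw [Nat.add_sub_cancel] at this
    have h5 := congrArg (fun x : ℕ => (x : ℝ)) this
    simp only [Nat.cast_mul] at h5
    rw [← h5]
    ring
  rw [Nat.add_sub_cancel]
  have h6 : ((q + s).factorial : ℝ) ≠ 0 := by positivity
  have h7 : (q.factorial : ℝ) ≠ 0 := by positivity
  have h8 : (s.factorial : ℝ) ≠ 0 := by positivity
  rw [mul_pow, pow_add]
  field_simp
  rw [← h4]
  ring

/-- `HasSum` in `r` after Vandermonde's identity. -/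
theorem hs_m (k t : ℝ) (m i : ℕ) :
    HasSum (fun j : ℕ => e k j m * (((j.choose i : ℕ) : ℝ) * t ^ (j - i)))
      (∑ l ∈ Finset.range (i + 1), ((m.choose l : ℕ) : ℝ) * t ^ (m - l) *
        (e k i l * Real.exp (-k * t))) := by
  rw [← hasSum_nat_add_iff' m]
  have h0 : ∑ j ∈ Finset.range m, e k j m * (((j.choose i : ℕ) : ℝ) * t ^ (j - i)) = 0 := by
    refine Finset.sum_eq_zero fun j hj => ?_
    rw [e_lt k (Finset.mem_range.mp hj), zero_mul]
  rw [h0, sub_zero]
  have h1 : HasSum (fun r : ℕ => ∑ l ∈ Finset.range (i + 1), ((m.choose l : ℕ) : ℝ) * t ^ (m - l) *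
      (((r.choose (i - l) : ℕ) : ℝ) * ((-k) ^ r / (r.factorial : ℝ) * t ^ (r - (i - l)))))
      (∑ l ∈ Finset.range (i + 1), ((m.choose l : ℕ) : ℝ) * t ^ (m - l) *
        ((-k) ^ (i - l) / ((i - l).factorial : ℝ) * Real.exp (-k * t))) :=
    hasSum_sum fun l _ => (hs_s k t (i - l)).mul_left _
  have h2 : ∑ l ∈ Finset.range (i + 1), ((m.choose l : ℕ) : ℝ) * t ^ (m - l) *
        (e k i l * Real.exp (-k * t)) = ∑ l ∈ Finset.range (i + 1), ((m.choose l : ℕ) : ℝ) *
        t ^ (m - l) * ((-k) ^ (i - l) / ((i - l).factorial : ℝ) * Real.exp (-k * t)) := by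
    refine Finset.sum_congr rfl fun l hl => ?_
    have : l ≤ i := Nat.lt_succ_iff.mp (Finset.mem_range.mp hl)
    unfold e
    rw [if_pos this]
  rw [h2]
  refine h1.congr_fun ?_
  intro r
  rw [e_add, Nat.add_comm r m, Nat.add_choose_eq,
    Finset.Nat.sum_antidiagonal_eq_sum_range_succ_mk]
  push_cast
  rw [Finset.sum_mul, Finset.mul_sum]
  refine Finset.sum_congr rfl fun l hl => ?_
  have hli : l ≤ i := Nat.lt_succ_iff.mp (Finset.mem_range.mp hl)
  by_cases h3 : m < l
  · rw [Nat.choose_eq_zero_of_lt h3]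
    simp
  by_cases h4 : r < i - l
  · rw [Nat.choose_eq_zero_of_lt h4]
    simp
  have h5 : m + r - i = (m - l) + (r - (i - l)) := by omega
  rw [h5, pow_add]
  ring

theorem hs_n (k t : ℝ) (n m i : ℕ) (hi : i < n + 1) :
    HasSum (fun j : ℕ => e k j m * (((j.choose i : ℕ) : ℝ) * t ^ (j - i)))
      (∑ l ∈ Finset.range (n + 1), ((m.choose l : ℕ) : ℝ) * t ^ (m - l) *
        (e k i l * Real.exp (-k * t))) := by
  have h1 := hs_m k t m i
  rwa [Finset.sum_subset (Finset.range_subset_range.mpr (by omega : i + 1 ≤ n + 1))] at h1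
  intro l _ hl
  rw [e_lt k (by simpa using hl : i < l)]
  simp

theorem e_fact (k V : ℝ) (j i : ℕ) :
    e k j i * ((j.factorial : ℝ) * V ^ j) =
      ((i.factorial : ℝ) * V ^ i) * (((j.choose i : ℕ) : ℝ) * (-k * V) ^ (j - i)) := by
  by_cases h : i ≤ j
  · obtain ⟨q, rfl⟩ := Nat.exists_eq_add_of_le' h
    rw [e_add, Nat.add_sub_cancel, mul_pow, pow_add]
    have h4 : (((q + i).choose i : ℕ) : ℝ) * i.factorial * q.factorial =
        ((q + i).factorial : ℝ) := by
      have := Nat.choose_mul_factorial_mul_factorial (Nat.le_add_left i q)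
      rw [Nat.add_sub_cancel] at this
      have h5 := congrArg (fun x : ℕ => (x : ℝ)) this
      simp only [Nat.cast_mul] at h5
      exact h5
    have h7 : (q.factorial : ℝ) ≠ 0 := by positivity
    rw [← h4]
    field_simp
  · rw [e_lt k (by omega : j < i), Nat.choose_eq_zero_of_lt (by omega : j < i)]
    simp

/-- The coefficient function after the shift. -/
noncomputable def f (n : ℕ) (a t : ℝ) (l : ℕ) : ℝ :=
  ∑ m ∈ Finset.range (n + 1), g n a m * (((m.choose l : ℕ) : ℝ) * t ^ (m - l))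

theorem f_eq (n : ℕ) (a t : ℝ) (l : ℕ) (hl : l < n + 1) :
    f n a t l = ((n.choose l : ℕ) : ℝ) * a ^ l * (1 + a * t) ^ (n - l) := by
  obtain ⟨q, rfl⟩ := Nat.exists_eq_add_of_le (Nat.lt_succ_iff.mp hl)
  unfold f
  rw [Nat.add_assoc l q 1, Finset.sum_range_add]
  have h1 : ∑ m ∈ Finset.range l,
      g (l + q) a m * (((m.choose l : ℕ) : ℝ) * t ^ (m - l)) = 0 := by
    refine Finset.sum_eq_zero fun m hm => ?_
    rw [Nat.choose_eq_zero_of_lt (Finset.mem_range.mp hm)]
    simp
  rw [h1, zero_add, Nat.add_sub_cancel_left, add_comm (1 : ℝ), add_pow, Finset.mul_sum]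
  refine Finset.sum_congr rfl fun x _ => ?_
  unfold g
  have h2 := Nat.choose_mul (n := l + q) (k := l + x) (s := l) (Nat.le_add_right l x)
  rw [Nat.add_sub_cancel_left, Nat.add_sub_cancel_left] at h2
  have h3 : (((l + q).choose (l + x) : ℕ) : ℝ) * (((l + x).choose l : ℕ) : ℝ) =
      (((l + q).choose l : ℕ) : ℝ) * ((q.choose x : ℕ) : ℝ) := by
    exact_mod_cast h2
  rw [Nat.add_sub_cancel_left, one_pow, mul_one, mul_pow, pow_add]
  calc (((l + q).choose (l + x) : ℕ) : ℝ) * (a ^ l * a ^ x) * ((((l + x).choose l : ℕ) : ℝ) * t ^ x)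
      = ((((l + q).choose (l + x) : ℕ) : ℝ) * (((l + x).choose l : ℕ) : ℝ)) *
          (a ^ l * a ^ x * t ^ x) := by ring
    _ = _ := by rw [h3]; ring

theorem term_eq (n : ℕ) (a k V : ℝ) (j : ℕ) :
    Y n a k j ^ 2 * (j.factorial : ℝ) * V ^ j =
      ∑ i ∈ Finset.range (n + 1), g n a i * ((i.factorial : ℝ) * V ^ i) *
        ∑ m ∈ Finset.range (n + 1), g n a m *
          (e k j m * (((j.choose i : ℕ) : ℝ) * (-k * V) ^ (j - i))) := by
  have h1 : Y n a k j ^ 2 * (j.factorial : ℝ) * V ^ j =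
      (∑ i ∈ Finset.range (n + 1), g n a i * (e k j i * ((j.factorial : ℝ) * V ^ j))) *
        Y n a k j := by
    have : ∑ i ∈ Finset.range (n + 1), g n a i * (e k j i * ((j.factorial : ℝ) * V ^ j)) =
        Y n a k j * ((j.factorial : ℝ) * V ^ j) := by
      unfold Y
      rw [Finset.sum_mul]
      refine Finset.sum_congr rfl fun i _ => ?_
      ring
    rw [this]
    ring
  rw [h1, Finset.sum_mul]
  refine Finset.sum_congr rfl fun i _ => ?_
  rw [e_fact]
  unfold Y
  rw [Finset.mul_sum, Finset.mul_sum]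
  refine Finset.sum_congr rfl fun m _ => ?_
  ring

theorem hs_all (n : ℕ) (a k V : ℝ) :
    HasSum (fun j : ℕ => Y n a k j ^ 2 * (j.factorial : ℝ) * V ^ j)
      (Real.exp (k ^ 2 * V) * ∑ l ∈ Finset.range (n + 1),
        f n a (-k * V) l ^ 2 * ((l.factorial : ℝ) * V ^ l)) := by
  have h1 : HasSum (fun j : ℕ => ∑ i ∈ Finset.range (n + 1), g n a i * ((i.factorial : ℝ) * V ^ i) *
        ∑ m ∈ Finset.range (n + 1), g n a m *
          (e k j m * (((j.choose i : ℕ) : ℝ) * (-k * V) ^ (j - i))))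
      (∑ i ∈ Finset.range (n + 1), g n a i * ((i.factorial : ℝ) * V ^ i) *
        ∑ m ∈ Finset.range (n + 1), g n a m *
          (∑ l ∈ Finset.range (n + 1), ((m.choose l : ℕ) : ℝ) * (-k * V) ^ (m - l) *
            (e k i l * Real.exp (-k * (-k * V))))) :=
    hasSum_sum fun i hi => (hasSum_sum fun m _ =>
      (hs_n k (-k * V) n m i (Finset.mem_range.mp hi)).mul_left _).mul_left _
  have h2 : (∑ i ∈ Finset.range (n + 1), g n a i * ((i.factorial : ℝ) * V ^ i) *
        ∑ m ∈ Finset.range (n + 1), g n a m *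
          (∑ l ∈ Finset.range (n + 1), ((m.choose l : ℕ) : ℝ) * (-k * V) ^ (m - l) *
            (e k i l * Real.exp (-k * (-k * V))))) =
      Real.exp (k ^ 2 * V) * ∑ l ∈ Finset.range (n + 1),
        f n a (-k * V) l ^ 2 * ((l.factorial : ℝ) * V ^ l) := by
    have h3 : -k * (-k * V) = k ^ 2 * V := by ring
    rw [h3]
    have h4 : ∀ i, ∑ m ∈ Finset.range (n + 1), g n a m *
          (∑ l ∈ Finset.range (n + 1), ((m.choose l : ℕ) : ℝ) * (-k * V) ^ (m - l) *
            (e k i l * Real.exp (k ^ 2 * V))) =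
        ∑ l ∈ Finset.range (n + 1), f n a (-k * V) l * (e k i l * Real.exp (k ^ 2 * V)) := by
      intro i
      simp only [Finset.mul_sum]
      rw [Finset.sum_comm]
      refine Finset.sum_congr rfl fun l _ => ?_
      unfold f
      rw [Finset.sum_mul]
      refine Finset.sum_congr rfl fun m _ => ?_
      ring
    simp only [h4]
    simp only [Finset.mul_sum]
    rw [Finset.sum_comm]
    refine Finset.sum_congr rfl fun l _ => ?_
    have h5 : f n a (-k * V) l * ((l.factorial : ℝ) * V ^ l) =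
        ∑ i ∈ Finset.range (n + 1), g n a i * (e k i l * ((i.factorial : ℝ) * V ^ i)) := by
      unfold f
      rw [Finset.sum_mul]
      refine Finset.sum_congr rfl fun i _ => ?_
      rw [e_fact]
      ring
    calc _ = Real.exp (k ^ 2 * V) * (f n a (-k * V) l *
          ∑ i ∈ Finset.range (n + 1), g n a i * (e k i l * ((i.factorial : ℝ) * V ^ i))) := by
          rw [Finset.mul_sum, Finset.mul_sum]
          refine Finset.sum_congr rfl fun i _ => ?_
          ring
      _ = _ := by rw [← h5]; ring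
  rw [h2] at h1
  refine h1.congr_fun ?_
  intro j
  exact term_eq n a k V j

end FockX

/-- (N1) the Gaussian shift, in terms of Taylor coefficients. -/
theorem stFock : StFock := by
  intro a k V n ha _
  have h1 := FockX.hs_all n a k V
  have h2 : (∑ l ∈ Finset.range (n + 1),
        FockX.f n a (-k * V) l ^ 2 * ((l.factorial : ℝ) * V ^ l)) =
      a ^ (2 * n) * LG n (1 / a - k * V) V := by
    unfold LG
    rw [Finset.mul_sum]
    refine Finset.sum_congr rfl fun l hl => ?_
    rw [FockX.f_eq n a (-k * V) l (Finset.mem_range.mp hl)]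
    obtain ⟨q, rfl⟩ := Nat.exists_eq_add_of_le (Nat.lt_succ_iff.mp (Finset.mem_range.mp hl))
    rw [Nat.add_sub_cancel_left]
    have h3 : a * (1 / a - k * V) = 1 + a * (-k * V) := by
      field_simp
      ring
    have h4 : a ^ (2 * (l + q)) = a ^ (2 * l) * a ^ (2 * q) := by
      rw [← pow_add]
      congr 1
      ring
    rw [h4]
    calc _ = a ^ (2 * l) * (((l + q).choose l : ℕ) : ℝ) ^ 2 * ((l.factorial : ℕ) : ℝ) * V ^ l *
          (1 + a * (-k * V)) ^ (2 * q) := by
          generalize 1 + a * (-k * V) = x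
          ring
      _ = _ := by
          rw [← h3, mul_pow]
          ring
  rw [← h2]
  refine h1.congr_fun ?_
  intro j
  rw [FockX.dcf_eq]

end K8
end Pool.Agent.Lib.MP_973905_nt
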