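import Pool.Agent.Lib.MP_973905_nt.K8.Stmts
import Pool.Agent.Lib.MP_973905_nt.K5.GaussBlock

/-! Module Z1: the complex Gaussian limit of one top block. -/

namespace Pool.Agent.Lib.MP_973905_nt
namespace K8

open MeasureTheory ProbabilityTheory Complex Filter Topology K1 K4 K5

namespace GaussCx

open K5.GaussB

/-! ### The tower of derivatives of the limit -/

lemma LG_cast (n : ℕ) (c V : ℝ) : ((LG n c V : ℝ) : ℂ) = LG n (c : ℂ) (V : ℂ) := by
  unfold LG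
  push_cast
  rfl

/-- The derivatives of `(m + z V)^n e^{z m}`. -/
noncomputable def Hs (m V : ℂ) (n k : ℕ) (z : ℂ) : ℂ :=
  ∑ j ∈ Finset.range (k + 1), ((k.choose j : ℕ) : ℂ) *
    ((((n.descFactorial j : ℕ) : ℂ) * V ^ j * (m + z * V) ^ (n - j)) * m ^ (k - j)) * cexp (z * m)

lemma Hs_zero (m V : ℂ) (n : ℕ) (z : ℂ) : Hs m V n 0 z = (m + z * V) ^ n * cexp (z * m) := by
  simp [Hs]

lemma Hs_diag (m V : ℂ) (n : ℕ) : Hs m V n n 0 = LG n m V := by
  rw [Hs, LG]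
  refine Finset.sum_congr rfl fun j _ => ?_
  rw [zero_mul, add_zero, zero_mul, Complex.exp_zero, mul_one,
    Nat.descFactorial_eq_factorial_mul_choose, two_mul (n - j), pow_add]
  push_cast
  ring

lemma hasDerivAt_Hs (m V : ℂ) (n k : ℕ) (z : ℂ) :
    HasDerivAt (Hs m V n k) (Hs m V n (k + 1) z) z := by
  have hlin : HasDerivAt (fun z : ℂ => m + z * V) V z := by
    simpa using ((hasDerivAt_id z).mul_const V).const_add m
  have hexp : HasDerivAt (fun z : ℂ => cexp (z * m)) (cexp (z * m) * m) z := by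
    have h1 : HasDerivAt (fun z : ℂ => z * m) m z := by
      simpa using (hasDerivAt_id z).mul_const m
    exact h1.cexp
  have hterm : ∀ j ∈ Finset.range (k + 1), HasDerivAt (fun z : ℂ => ((k.choose j : ℕ) : ℂ) *
      ((((n.descFactorial j : ℕ) : ℂ) * V ^ j * (m + z * V) ^ (n - j)) * m ^ (k - j)) *
        cexp (z * m))
      (((k.choose j : ℕ) : ℂ) *
        ((((n.descFactorial j : ℕ) : ℂ) * V ^ j * (((n - j : ℕ) : ℂ) *
          (m + z * V) ^ (n - j - 1) * V)) * m ^ (k - j)) * cexp (z * m) +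
        ((k.choose j : ℕ) : ℂ) *
      ((((n.descFactorial j : ℕ) : ℂ) * V ^ j * (m + z * V) ^ (n - j)) * m ^ (k - j)) *
        (cexp (z * m) * m)) z := by
    intro j _
    have h1 := (((hlin.pow (n - j)).const_mul (((n.descFactorial j : ℕ) : ℂ) * V ^ j)).mul_const
      (m ^ (k - j))).const_mul ((k.choose j : ℕ) : ℂ)
    exact h1.mul hexp
  have h := HasDerivAt.fun_sum hterm
  refine h.congr_deriv ?_
  have e := Finset.sum_choose_succ_mul (R := ℂ) (fun i j => (((n.descFactorial i : ℕ) : ℂ) *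
    V ^ i * (m + z * V) ^ (n - i)) * m ^ j * cexp (z * m)) k
  have e2 : Hs m V n (k + 1) z = ∑ i ∈ Finset.range (k + 2), (((k + 1).choose i : ℕ) : ℂ) *
      ((((n.descFactorial i : ℕ) : ℂ) * V ^ i * (m + z * V) ^ (n - i)) * m ^ (k + 1 - i) *
        cexp (z * m)) := by
    rw [Hs]
    refine Finset.sum_congr rfl fun j _ => ?_
    ring
  rw [e2, e, ← Finset.sum_add_distrib]
  refine Finset.sum_congr rfl fun j hj => ?_
  have hj' : j ≤ k := Nat.lt_succ_iff.mp (Finset.mem_range.mp hj)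
  have e3 : k + 1 - j = (k - j) + 1 := by omega
  have e4 : n - (j + 1) = n - j - 1 := by omega
  rw [e3, e4, Nat.descFactorial_succ]
  push_cast
  ring

/-- The derivatives of `exp ((z₁ + z₂) m + z₁ z₂ V)` in `z₁`. -/
noncomputable def Gt (m V z₂ : ℂ) (k : ℕ) (z : ℂ) : ℂ :=
  (m + z₂ * V) ^ k * cexp (z * (m + z₂ * V) + z₂ * m)

lemma hasDerivAt_Gt (m V z₂ : ℂ) (k : ℕ) (z : ℂ) :
    HasDerivAt (Gt m V z₂ k) (Gt m V z₂ (k + 1) z) z := by
  have h1 : HasDerivAt (fun z : ℂ => z * (m + z₂ * V) + z₂ * m) (m + z₂ * V) z := by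
    simpa using ((hasDerivAt_id z).mul_const (m + z₂ * V)).add_const (z₂ * m)
  have h2 := h1.cexp.const_mul ((m + z₂ * V) ^ k)
  refine h2.congr_deriv ?_
  rw [Gt]
  ring

/-! ### The local factor -/

/-- The average of the local factor. -/
noncomputable def Aq (x : ℝ) (x₁ z₁ z₂ : ℂ) : ℂ :=
  Real.circleAverage (fun f : ℂ => (1 - x₁ * f)⁻¹ * (1 - x₁ * (starRingEnd ℂ) f)⁻¹ * (1 - x₁ ^ 2) *
    cexp (z₁ * (x * f) + z₂ * (x * (starRingEnd ℂ) f))) 0 1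

lemma Aq_bound {x : ℝ} {x₁ z₁ z₂ : ℂ} (hx0 : 0 ≤ x) (hx : x ≤ 1 / 6) (hx1 : ‖x₁‖ ≤ 3 * x)
    (hz1 : ‖z₁‖ ≤ 1) (hz2 : ‖z₂‖ ≤ 1) :
    ‖Aq x x₁ z₁ z₂ - (1 + (z₁ + z₂) * (x * x₁) + z₁ * z₂ * (x : ℂ) ^ 2)‖ ≤ 500 * x ^ 3 := by
  have e1 : (1 + (z₁ + z₂) * (x * x₁) + z₁ * z₂ * (x : ℂ) ^ 2) =
      Real.circleAverage (fun f : ℂ => 1 + (x₁ + z₁ * x) * f +
        (x₁ + z₂ * x) * (starRingEnd ℂ) f + (x₁ ^ 2 + z₁ * x * x₁ + z₁ ^ 2 * x ^ 2 / 2) * f ^ 2 +
        (x₁ ^ 2 + z₂ * x * x₁ + z₂ ^ 2 * x ^ 2 / 2) * (starRingEnd ℂ) f ^ 2 +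
        ((z₁ + z₂) * x * x₁ + z₁ * z₂ * x ^ 2) * (f * (starRingEnd ℂ) f)) 0 1 := by
    rw [avg_poly]
    ring
  have hx6 : 3 * x ≤ 1 / 2 := by linarith
  rw [e1, Aq, ← integral_mu0, ← integral_mu0, ← integral_sub]
  · have h := norm_integral_le_of_norm_le_const (μ := mu0) (C := 18 * (3 * x) ^ 3)
      (f := fun θ : ℝ => (1 - x₁ * circleMap 0 1 θ)⁻¹ *
        (1 - x₁ * (starRingEnd ℂ) (circleMap 0 1 θ))⁻¹ * (1 - x₁ ^ 2) *
          cexp (z₁ * (x * circleMap 0 1 θ) + z₂ * (x * (starRingEnd ℂ) (circleMap 0 1 θ))) -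
        (1 + (x₁ + z₁ * x) * circleMap 0 1 θ +
        (x₁ + z₂ * x) * (starRingEnd ℂ) (circleMap 0 1 θ) +
        (x₁ ^ 2 + z₁ * x * x₁ + z₁ ^ 2 * x ^ 2 / 2) * circleMap 0 1 θ ^ 2 +
        (x₁ ^ 2 + z₂ * x * x₁ + z₂ ^ 2 * x ^ 2 / 2) * (starRingEnd ℂ) (circleMap 0 1 θ) ^ 2 +
        ((z₁ + z₂) * x * x₁ + z₁ * z₂ * x ^ 2) *
          (circleMap 0 1 θ * (starRingEnd ℂ) (circleMap 0 1 θ)))) ?_
    · refine h.trans ?_
      rw [probReal_univ, mul_one]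
      nlinarith [pow_nonneg hx0 3]
    · refine Filter.Eventually.of_forall fun θ => ?_
      set f := circleMap 0 1 θ with hf
      have hfn : ‖f‖ = 1 := by simp [hf]
      have hff : f * (starRingEnd ℂ) f = 1 := by
        rw [mul_conj, normSq_eq_norm_sq, hfn]; simp
      have ha : ‖x₁ * f‖ ≤ 3 * x := by rw [norm_mul, hfn, mul_one]; exact hx1
      have hb : ‖x₁ * (starRingEnd ℂ) f‖ ≤ 3 * x := by
        rw [norm_mul, RCLike.norm_conj, hfn, mul_one]; exact hx1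
      have hy : ‖z₁ * (x * f) + z₂ * (x * (starRingEnd ℂ) f)‖ ≤ 3 * x := by
        refine (norm_add_le _ _).trans ?_
        rw [norm_mul, norm_mul, norm_mul, norm_mul, RCLike.norm_conj, hfn, norm_real,
          Real.norm_of_nonneg hx0, mul_one]
        calc ‖z₁‖ * x + ‖z₂‖ * x ≤ 1 * x + 1 * x := by gcongr
          _ ≤ 3 * x := by linarith
      have hp := pt_aux (r := 3 * x) (by positivity) hx6 ha hb hy
      have e2 : x₁ * f * (x₁ * (starRingEnd ℂ) f) = x₁ ^ 2 := by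
        calc x₁ * f * (x₁ * (starRingEnd ℂ) f) = x₁ ^ 2 * (f * (starRingEnd ℂ) f) := by ring
          _ = x₁ ^ 2 := by rw [hff, mul_one]
      rw [e2] at hp
      refine le_of_eq_of_le ?_ hp
      congr 2
      ring
  · apply int_mu0
    have h1 : ∀ c : ℂ, ‖c‖ = 1 → 1 - x₁ * c ≠ 0 := by
      intro c hc h
      have h2 : x₁ * c = 1 := (sub_eq_zero.mp h).symm
      have h3 : ‖x₁ * c‖ = 1 := by rw [h2, norm_one]
      rw [norm_mul, hc, mul_one] at h3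
      linarith
    have hm : Continuous fun θ : ℝ => circleMap 0 1 θ := continuous_circleMap (0 : ℂ) 1
    have hc : Continuous fun θ : ℝ => (starRingEnd ℂ) (circleMap 0 1 θ) :=
      continuous_conj.comp (continuous_circleMap 0 1)
    refine Continuous.mul (Continuous.mul (Continuous.mul (Continuous.inv₀ ?_ fun θ => ?_)
      (Continuous.inv₀ ?_ fun θ => ?_)) continuous_const) (continuous_exp.comp ?_)
    · exact continuous_const.sub (continuous_const.mul (continuous_circleMap 0 1))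
    · exact h1 _ (by simp)
    · exact continuous_const.sub (continuous_const.mul hc)
    · exact h1 _ (by rw [RCLike.norm_conj]; simp)
    · exact (continuous_const.mul (continuous_const.mul hm)).add
        (continuous_const.mul (continuous_const.mul hc))
  · apply int_mu0
    have hm := continuous_circleMap (0 : ℂ) 1
    have hc : Continuous fun θ : ℝ => (starRingEnd ℂ) (circleMap 0 1 θ) :=
      continuous_conj.comp hm
    exact ((((continuous_const.add (continuous_const.mul hm)).add (continuous_const.mul hc)).add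
      (continuous_const.mul (hm.pow 2))).add (continuous_const.mul (hc.pow 2))).add
      (continuous_const.mul (hm.mul hc))

/-! ### Products -/

lemma block_diff2 {S : Finset ℕ} {x : ℕ → ℝ} {x₁ : ℕ → ℂ} {z₁ z₂ : ℂ} {δ Q : ℝ}
    (hδ0 : 0 ≤ δ) (hδ : δ ≤ 1 / 6) (hx : ∀ p ∈ S, 0 ≤ x p ∧ x p ≤ δ)
    (hx1 : ∀ p ∈ S, ‖x₁ p‖ ≤ 3 * x p)
    (hz1 : ‖z₁‖ ≤ 1) (hz2 : ‖z₂‖ ≤ 1) (hQ : ∑ p ∈ S, x p ^ 2 ≤ Q) :
    ‖∏ p ∈ S, Aq (x p) (x₁ p) z₁ z₂ -
      cexp ((z₁ + z₂) * (∑ p ∈ S, (x p : ℂ) * x₁ p) + z₁ * z₂ * (∑ p ∈ S, (x p : ℂ) ^ 2))‖ ≤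
      (600 * δ * Q) * Real.exp (107 * Q) := by
  have e1 : cexp ((z₁ + z₂) * (∑ p ∈ S, (x p : ℂ) * x₁ p) +
      z₁ * z₂ * (∑ p ∈ S, (x p : ℂ) ^ 2)) =
      ∏ p ∈ S, cexp ((z₁ + z₂) * (x p * x₁ p) + z₁ * z₂ * (x p : ℂ) ^ 2) := by
    rw [← exp_sum, Finset.sum_add_distrib, ← Finset.mul_sum, ← Finset.mul_sum]
  rw [e1]
  have hB : ∀ p ∈ S, ‖(z₁ + z₂) * (x p * x₁ p) + z₁ * z₂ * (x p : ℂ) ^ 2‖ ≤ 7 * x p ^ 2 := by
    intro p hp
    obtain ⟨h0, h1⟩ := hx p hp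
    have h2 := hx1 p hp
    have hz : ‖z₁ + z₂‖ ≤ 2 := (norm_add_le _ _).trans (by linarith)
    have t1 : ‖(z₁ + z₂) * (x p * x₁ p)‖ ≤ 2 * (x p * (3 * x p)) := by
      rw [norm_mul, norm_mul, norm_real, Real.norm_of_nonneg h0]
      gcongr
    have t2 : ‖z₁ * z₂ * (x p : ℂ) ^ 2‖ ≤ 1 * 1 * x p ^ 2 := by
      rw [norm_mul, norm_mul, norm_pow, norm_real, Real.norm_of_nonneg h0]
      gcongr
    refine (norm_add_le _ _).trans ?_
    nlinarith [sq_nonneg (x p)]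
  have hD : ∀ p ∈ S, ‖Aq (x p) (x₁ p) z₁ z₂ -
      cexp ((z₁ + z₂) * (x p * x₁ p) + z₁ * z₂ * (x p : ℂ) ^ 2)‖ ≤ 600 * x p ^ 3 := by
    intro p hp
    obtain ⟨h0, h1⟩ := hx p hp
    have h2 := Aq_bound h0 (h1.trans hδ) (hx1 p hp) hz1 hz2
    have hB1 := hB p hp
    have hx6 : x p ≤ 1 / 6 := h1.trans hδ
    have h3 : ‖(z₁ + z₂) * (x p * x₁ p) + z₁ * z₂ * (x p : ℂ) ^ 2‖ ≤ 1 :=
      hB1.trans (by nlinarith)
    have h4 := Complex.norm_exp_sub_one_sub_id_le h3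
    have h5 : ‖(z₁ + z₂) * (x p * x₁ p) + z₁ * z₂ * (x p : ℂ) ^ 2‖ ^ 2 ≤ (7 * x p ^ 2) ^ 2 :=
      pow_le_pow_left₀ (norm_nonneg _) hB1 2
    have e : Aq (x p) (x₁ p) z₁ z₂ - cexp ((z₁ + z₂) * (x p * x₁ p) + z₁ * z₂ * (x p : ℂ) ^ 2) =
        (Aq (x p) (x₁ p) z₁ z₂ - (1 + (z₁ + z₂) * (x p * x₁ p) + z₁ * z₂ * (x p : ℂ) ^ 2)) -
        (cexp ((z₁ + z₂) * (x p * x₁ p) + z₁ * z₂ * (x p : ℂ) ^ 2) - 1 -
          ((z₁ + z₂) * (x p * x₁ p) + z₁ * z₂ * (x p : ℂ) ^ 2)) := by ring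
    rw [e]
    refine (norm_sub_le _ _).trans ?_
    have h6 : x p ^ 4 ≤ 1 / 6 * x p ^ 3 := by
      have : 0 ≤ x p ^ 3 := by positivity
      nlinarith
    have h7 : 0 ≤ x p ^ 3 := by positivity
    calc _ ≤ 500 * x p ^ 3 + (7 * x p ^ 2) ^ 2 := add_le_add h2 (h4.trans h5)
      _ = 500 * x p ^ 3 + 49 * x p ^ 4 := by ring
      _ ≤ 600 * x p ^ 3 := by linarith
  have hE : ∀ p ∈ S, ‖cexp ((z₁ + z₂) * (x p * x₁ p) + z₁ * z₂ * (x p : ℂ) ^ 2)‖ ≤
      Real.exp (7 * x p ^ 2) := by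
    intro p hp
    rw [norm_exp]
    exact Real.exp_le_exp.mpr ((re_le_norm _).trans (hB p hp))
  have hM1 : ∀ p ∈ S, Real.exp (7 * x p ^ 2) + 600 * x p ^ 3 ≤ Real.exp (107 * x p ^ 2) := by
    intro p hp
    obtain ⟨h0, h1⟩ := hx p hp
    have h2 : 600 * x p ^ 3 ≤ 100 * x p ^ 2 := by
      have : 0 ≤ x p ^ 2 := by positivity
      nlinarith
    have h3 : 1 ≤ Real.exp (7 * x p ^ 2) := Real.one_le_exp (by positivity)
    have h4 : 1 + 100 * x p ^ 2 ≤ Real.exp (100 * x p ^ 2) := by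
      have := Real.add_one_le_exp (100 * x p ^ 2)
      linarith
    have h5 : 0 ≤ x p ^ 2 := by positivity
    calc Real.exp (7 * x p ^ 2) + 600 * x p ^ 3 ≤
        Real.exp (7 * x p ^ 2) * (1 + 100 * x p ^ 2) := by nlinarith
      _ ≤ Real.exp (7 * x p ^ 2) * Real.exp (100 * x p ^ 2) := by gcongr
      _ = Real.exp (107 * x p ^ 2) := by rw [← Real.exp_add]; ring_nf
  have h := prod_diff S (fun p => Aq (x p) (x₁ p) z₁ z₂)
    (fun p => cexp ((z₁ + z₂) * (x p * x₁ p) + z₁ * z₂ * (x p : ℂ) ^ 2))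
    (fun p => Real.exp (107 * x p ^ 2)) (fun p _ => Real.one_le_exp (by positivity))
    (fun p hp => by
      have h1 := hD p hp
      have h2 := hE p hp
      have h3 := hM1 p hp
      have h4 := norm_sub_norm_le (Aq (x p) (x₁ p) z₁ z₂)
        (cexp ((z₁ + z₂) * (x p * x₁ p) + z₁ * z₂ * (x p : ℂ) ^ 2))
      linarith)
    (fun p hp => by
      have h2 := hE p hp
      have h3 := hM1 p hp
      have h0 : 0 ≤ x p ^ 3 := pow_nonneg (hx p hp).1 3
      linarith)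
  refine h.trans ?_
  have hQ0 : 0 ≤ ∑ p ∈ S, x p ^ 2 := Finset.sum_nonneg fun _ _ => by positivity
  have s1 : ∑ p ∈ S, ‖Aq (x p) (x₁ p) z₁ z₂ -
      cexp ((z₁ + z₂) * (x p * x₁ p) + z₁ * z₂ * (x p : ℂ) ^ 2)‖ ≤ 600 * δ * Q := by
    calc _ ≤ ∑ p ∈ S, 600 * x p ^ 3 := Finset.sum_le_sum hD
      _ ≤ ∑ p ∈ S, 600 * δ * x p ^ 2 := by
          refine Finset.sum_le_sum fun p hp => ?_
          obtain ⟨h0, h1⟩ := hx p hp
          have : 0 ≤ x p ^ 2 := by positivity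
          nlinarith
      _ = 600 * δ * ∑ p ∈ S, x p ^ 2 := by rw [Finset.mul_sum]
      _ ≤ 600 * δ * Q := by gcongr
  have s2 : ∏ p ∈ S, Real.exp (107 * x p ^ 2) ≤ Real.exp (107 * Q) := by
    rw [← Real.exp_sum, ← Finset.mul_sum]
    apply Real.exp_le_exp.mpr
    linarith
  have hQ1 : 0 ≤ Q := hQ0.trans hQ
  exact mul_le_mul s1 s2 (Finset.prod_nonneg fun _ _ => (Real.exp_pos _).le) (by positivity)

/-- The prime sum with its shift. -/
noncomputable def Y1 (S : Finset ℕ) (x : ℕ → ℝ) (c : ℝ) (f : ℕ → ℂ) : ℂ :=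
  (∑ p ∈ S, (x p : ℂ) * f p) + (c : ℂ)

/-- The conjugate of the prime sum with its shift. -/
noncomputable def Y2 (S : Finset ℕ) (x : ℕ → ℝ) (c : ℝ) (f : ℕ → ℂ) : ℂ :=
  (∑ p ∈ S, (x p : ℂ) * (starRingEnd ℂ) (f p)) + (c : ℂ)

lemma bs_Y1 (S : Finset ℕ) (x : ℕ → ℝ) (c : ℝ) : BS S (Y1 S x c) := by
  refine ⟨?_, (∑ p ∈ S, |x p|) + |c|, fun ω => ?_⟩
  · refine (continuous_finsetSum _ fun p _ => ?_).add continuous_const
    exact continuous_const.mul (continuous_ext S p)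
  · rw [Y1]
    refine (norm_add_le _ _).trans ?_
    rw [norm_real, Real.norm_eq_abs]
    gcongr
    refine (norm_sum_le _ _).trans (Finset.sum_le_sum fun p _ => ?_)
    rw [norm_mul, norm_ext, norm_real, Real.norm_eq_abs, mul_one]

lemma bs_Y2 (S : Finset ℕ) (x : ℕ → ℝ) (c : ℝ) : BS S (Y2 S x c) := by
  refine ⟨?_, (∑ p ∈ S, |x p|) + |c|, fun ω => ?_⟩
  · refine (continuous_finsetSum _ fun p _ => ?_).add continuous_const
    exact continuous_const.mul (continuous_conj.comp (continuous_ext S p))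
  · rw [Y2]
    refine (norm_add_le _ _).trans ?_
    rw [norm_real, Real.norm_eq_abs]
    gcongr
    refine (norm_sum_le _ _).trans (Finset.sum_le_sum fun p _ => ?_)
    rw [norm_mul, RCLike.norm_conj, norm_ext, norm_real, Real.norm_eq_abs, mul_one]

lemma Es_zero2 (S : Finset ℕ) (x : ℕ → ℝ) (x₁ : ℕ → ℂ) (c : ℝ) (z₁ z₂ : ℂ) :
    Es S (fun f => Wt S x₁ f * cexp (z₂ * Y2 S x c f)) (Y1 S x c) 0 z₁ =
      cexp ((z₁ + z₂) * c) * ∏ p ∈ S, Aq (x p) (x₁ p) z₁ z₂ := by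
  have e1 : ∀ f : ℕ → ℂ, (Wt S x₁ f * cexp (z₂ * Y2 S x c f)) *
      (Y1 S x c f ^ 0 * cexp (z₁ * Y1 S x c f)) =
      cexp ((z₁ + z₂) * c) * ∏ p ∈ S, ((1 - x₁ p * f p)⁻¹ *
        (1 - x₁ p * (starRingEnd ℂ) (f p))⁻¹ *
        (1 - x₁ p ^ 2) * cexp (z₁ * (x p * f p) + z₂ * (x p * (starRingEnd ℂ) (f p)))) := by
    intro f
    have h1 : cexp (z₂ * Y2 S x c f) * cexp (z₁ * Y1 S x c f) =
        cexp ((z₁ + z₂) * c) *
          ∏ p ∈ S, cexp (z₁ * (x p * f p) + z₂ * (x p * (starRingEnd ℂ) (f p))) := by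
      rw [← exp_sum, ← Complex.exp_add, ← Complex.exp_add, Y1, Y2]
      congr 1
      rw [Finset.sum_add_distrib, ← Finset.mul_sum, ← Finset.mul_sum]
      ring
    rw [pow_zero, one_mul, mul_assoc, h1, Finset.prod_mul_distrib, Wt]
    ring
  rw [Es]
  simp only [e1]
  rw [ES, integral_const_mul]
  congr 1
  exact ES_prod S (fun p f => (1 - x₁ p * f)⁻¹ * (1 - x₁ p * (starRingEnd ℂ) f)⁻¹ *
    (1 - x₁ p ^ 2) * cexp (z₁ * (x p * f) + z₂ * (x p * (starRingEnd ℂ) f)))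

theorem core (V c K : ℝ) (hV : 0 ≤ V) (n : ℕ) {ε : ℝ} (hε : 0 < ε) : ∃ δ : ℝ, 0 < δ ∧
    ∀ (S : Finset ℕ) (x : ℕ → ℝ) (x₁ : ℕ → ℂ) (v : ℂ), (∀ p ∈ S, 0 ≤ x p ∧ x p ≤ δ) →
    (∀ p ∈ S, ‖x₁ p‖ ≤ 3 * x p) → |∑ p ∈ S, x p ^ 2 - V| ≤ δ →
    ‖∑ p ∈ S, (x p : ℂ) * x₁ p - v‖ ≤ δ → ‖v‖ ≤ K →
    ‖ES S (fun f => Wt S x₁ f * (Y1 S x c f ^ n * Y2 S x c f ^ n)) -
      LG n (v + (c : ℂ)) (V : ℂ)‖ ≤ ε := by
  set A : ℝ := 600 * (V + 1) * Real.exp (107 * (V + 1)) + 6 * Real.exp (2 * K + V) with hA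
  have hA0 : 0 < A := by positivity
  set C : ℝ := n.factorial * (n.factorial * (Real.exp (2 * |c|) * A)) with hC
  have hC0 : 0 < C := by positivity
  refine ⟨min (1 / 6) (ε / C), by positivity, ?_⟩
  set δ := min (1 / 6) (ε / C) with hδd
  have hδ0 : 0 < δ := by positivity
  have hδ6 : δ ≤ 1 / 6 := min_le_left _ _
  have hδC : C * δ ≤ ε := by
    calc C * δ ≤ C * (ε / C) := by gcongr; exact min_le_right _ _
      _ = ε := by field_simp
  intro S x x₁ v hx hx1 hx2 hxv hv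
  set m : ℂ := v + (c : ℂ) with hm
  have hW : BS S (Wt S x₁) := bs_Wt fun p hp => by
    have h1 := hx1 p hp
    have h2 := (hx p hp).2
    linarith
  have hY1 := bs_Y1 S x c
  have hY2 := bs_Y2 S x c
  -- first tower
  have first : ∀ z₂ : ℂ, ‖z₂‖ ≤ 1 →
      ‖Es S (fun f => Wt S x₁ f * cexp (z₂ * Y2 S x c f)) (Y1 S x c) n 0 - Gt m V z₂ n 0‖ ≤
        n.factorial * (Real.exp (2 * |c|) * A * δ) := by
    intro z₂ hz2
    have hW2 : BS S (fun f => Wt S x₁ f * cexp (z₂ * Y2 S x c f)) :=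
      hW.mul ((bs_const S z₂).mul hY2).cexp
    have hD : ∀ k z, HasDerivAt
        ((fun k z => Es S (fun f => Wt S x₁ f * cexp (z₂ * Y2 S x c f)) (Y1 S x c) k z -
          Gt m V z₂ k z) k)
        ((fun k z => Es S (fun f => Wt S x₁ f * cexp (z₂ * Y2 S x c f)) (Y1 S x c) k z -
          Gt m V z₂ k z) (k + 1) z) z :=
      fun k z => (hasDerivAt_Es hW2 hY1 k z).sub (hasDerivAt_Gt _ _ _ k z)
    have hb : ∀ z : ℂ, ‖z‖ ≤ 1 →
        ‖(fun k z => Es S (fun f => Wt S x₁ f * cexp (z₂ * Y2 S x c f)) (Y1 S x c) k z -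
          Gt m V z₂ k z) 0 z‖ ≤ Real.exp (2 * |c|) * A * δ := by
      intro z hz
      simp only
      rw [Es_zero2]
      have hQ : ∑ p ∈ S, x p ^ 2 ≤ V + 1 := by
        have := (abs_le.mp hx2).2
        linarith
      have h1 := block_diff2 hδ0.le hδ6 hx hx1 hz hz2 hQ
      set P := ∏ p ∈ S, Aq (x p) (x₁ p) z z₂ with hP
      set a := (z + z₂) * (∑ p ∈ S, (x p : ℂ) * x₁ p) + z * z₂ * (∑ p ∈ S, (x p : ℂ) ^ 2) with ha
      set b := (z + z₂) * v + z * z₂ * (V : ℂ) with hb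
      have hzz : ‖z + z₂‖ ≤ 2 := (norm_add_le _ _).trans (by linarith)
      have hab : ‖a - b‖ ≤ 3 * δ := by
        have e : a - b = (z + z₂) * (∑ p ∈ S, (x p : ℂ) * x₁ p - v) +
            z * z₂ * ((((∑ p ∈ S, x p ^ 2 - V : ℝ)) : ℂ)) := by
          rw [ha, hb]
          push_cast
          ring
        rw [e]
        refine (norm_add_le _ _).trans ?_
        rw [norm_mul, norm_mul, norm_mul, norm_real, Real.norm_eq_abs]
        calc _ ≤ 2 * δ + 1 * 1 * δ := by gcongr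
          _ ≤ 3 * δ := by linarith
      have hbn : ‖b‖ ≤ 2 * K + V := by
        refine (norm_add_le _ _).trans ?_
        rw [norm_mul, norm_mul, norm_mul, norm_real, Real.norm_of_nonneg hV]
        calc _ ≤ 2 * K + 1 * 1 * V := by gcongr
          _ ≤ 2 * K + V := by linarith
      have h2 := exp_diff (η := 3 * δ) (by linarith) hab hbn
      have e2 : Gt m V z₂ 0 z = cexp ((z + z₂) * c) * cexp b := by
        rw [Gt, ← Complex.exp_add, hb, hm, pow_zero, one_mul]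
        congr 1
        ring
      rw [e2, ← mul_sub, norm_mul]
      have h3 : ‖cexp ((z + z₂) * c)‖ ≤ Real.exp (2 * |c|) := by
        rw [norm_exp]
        apply Real.exp_le_exp.mpr
        refine (re_le_norm _).trans ?_
        rw [norm_mul, norm_real, Real.norm_eq_abs]
        gcongr
      have h4 : ‖P - cexp b‖ ≤ A * δ := by
        have e3 : P - cexp b = (P - cexp a) + (cexp a - cexp b) := by ring
        rw [e3]
        refine (norm_add_le _ _).trans ?_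
        calc _ ≤ 600 * δ * (V + 1) * Real.exp (107 * (V + 1)) +
              2 * (3 * δ) * Real.exp (2 * K + V) := add_le_add h1 h2
          _ = A * δ := by rw [hA]; ring
      calc _ ≤ Real.exp (2 * |c|) * (A * δ) := by gcongr
        _ = _ := by ring
    exact cauchy_tower _ hD hb n
  -- second tower
  have hW3 : BS S (fun f => Wt S x₁ f * Y1 S x c f ^ n) := hW.mul (hY1.pow n)
  have hD : ∀ k z, HasDerivAt
      ((fun k z => Es S (fun f => Wt S x₁ f * Y1 S x c f ^ n) (Y2 S x c) k z -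
        Hs m V n k z) k)
      ((fun k z => Es S (fun f => Wt S x₁ f * Y1 S x c f ^ n) (Y2 S x c) k z -
        Hs m V n k z) (k + 1) z) z :=
    fun k z => (hasDerivAt_Es hW3 hY2 k z).sub (hasDerivAt_Hs _ _ _ k z)
  have hb : ∀ z : ℂ, ‖z‖ ≤ 1 →
      ‖(fun k z => Es S (fun f => Wt S x₁ f * Y1 S x c f ^ n) (Y2 S x c) k z -
        Hs m V n k z) 0 z‖ ≤ n.factorial * (Real.exp (2 * |c|) * A * δ) := by
    intro z hz
    have h1 := first z hz
    simp only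
    have e1 : Es S (fun f => Wt S x₁ f * Y1 S x c f ^ n) (Y2 S x c) 0 z =
        Es S (fun f => Wt S x₁ f * cexp (z * Y2 S x c f)) (Y1 S x c) n 0 := by
      rw [Es, Es]
      congr 1
      funext f
      rw [zero_mul, Complex.exp_zero]
      ring
    have e2 : Hs m V n 0 z = Gt m V z n 0 := by
      rw [Hs_zero, Gt, zero_mul, zero_add]
    rw [e1, e2]
    exact h1
  have h := cauchy_tower _ hD hb n
  rw [Hs_diag] at h
  have e1 : Es S (fun f => Wt S x₁ f * Y1 S x c f ^ n) (Y2 S x c) n 0 =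
      ES S (fun f => Wt S x₁ f * (Y1 S x c f ^ n * Y2 S x c f ^ n)) := by
    rw [Es]
    congr 1
    funext f
    rw [zero_mul, Complex.exp_zero]
    ring
  rw [e1] at h
  refine h.trans ?_
  calc _ = C * δ := by rw [hC]; ring
    _ ≤ ε := hδC

lemma norm_pow_eq (S : Finset ℕ) (c : ℝ) (n : ℕ) (f : ℕ → ℂ) :
    (((‖(∑ p ∈ S, tw (1 / 2) f p) + (c : ℂ)‖ ^ (2 * n) : ℝ)) : ℂ) =
      Y1 S (fun p => (p : ℝ) ^ (-(1 / 2) : ℝ)) c f ^ n *
        Y2 S (fun p => (p : ℝ) ^ (-(1 / 2) : ℝ)) c f ^ n := by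
  have h1 : (∑ p ∈ S, tw (1 / 2) f p) + (c : ℂ) =
      Y1 S (fun p => (p : ℝ) ^ (-(1 / 2) : ℝ)) c f := by
    rw [Y1]
    congr 1
    refine Finset.sum_congr rfl fun p _ => ?_
    have h1 := tw_real (1 / 2) f p
    push_cast at h1
    rw [h1]
  have h2 : (starRingEnd ℂ) (Y1 S (fun p => (p : ℝ) ^ (-(1 / 2) : ℝ)) c f) =
      Y2 S (fun p => (p : ℝ) ^ (-(1 / 2) : ℝ)) c f := by
    rw [Y1, Y2, map_add, map_sum, conj_ofReal]
    congr 1
    refine Finset.sum_congr rfl fun p _ => ?_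
    rw [map_mul, conj_ofReal]
  rw [h1, ← mul_pow, ← h2, mul_conj, normSq_eq_norm_sq, pow_mul]
  push_cast
  rfl

end GaussCx

theorem stGaussC (h : K5.StPrimeInt) : StGaussC := by
  intro lo hi c hlo hlh hhi n ε hε
  set V := Real.log (hi / lo) with hV
  have hV0 : 0 ≤ V := Real.log_nonneg (by rw [one_le_div hlo]; exact hlh.le)
  obtain ⟨δ₁, hδ₁, H₁⟩ := GaussCx.core V c (Real.exp 1 / lo * |hi - lo|) hV0 n hε
  obtain ⟨δ₂, hδ₂, H₂⟩ := GaussCx.core V c 0 hV0 n hε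
  set δ := min δ₁ δ₂ with hδ
  have hδ0 : 0 < δ := lt_min hδ₁ hδ₂
  obtain ⟨T₁, hT₁, H⟩ := h lo hi hlo hlh hhi δ hδ0
  refine ⟨max T₁ (Real.exp (2 * |Real.log δ| / lo)), hT₁.trans (le_max_left _ _), ?_⟩
  intro T hT S hS
  have hT1 : T₁ ≤ T := (le_max_left _ _).trans hT
  have hT3 : 3 ≤ T := hT₁.trans hT1
  have hT0 : 0 < T := by linarith
  have hL : 0 < Real.log T := Real.log_pos (by linarith)
  have hL2 : 2 * |Real.log δ| / lo ≤ Real.log T := by
    rw [← Real.log_exp (2 * |Real.log δ| / lo)]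
    exact Real.log_le_log (Real.exp_pos _) ((le_max_right _ _).trans hT)
  have hmem : ∀ p ∈ S, p.Prime ∧ Real.exp (lo * Real.log T) ≤ p ∧ (p : ℝ) ≤ Real.exp (hi * Real.log T) := by
    intro p hp
    rw [hS] at hp
    exact GaussB.mem_PS (Real.exp_pos _).le hp
  -- the size of a prime
  have hx : ∀ p ∈ S, 0 ≤ (p : ℝ) ^ (-(1 / 2) : ℝ) ∧ (p : ℝ) ^ (-(1 / 2) : ℝ) ≤ δ := by
    intro p hp
    obtain ⟨h1, h2, h3⟩ := hmem p hp
    refine ⟨by positivity, ?_⟩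
    have hp0 : (0 : ℝ) < p := by exact_mod_cast h1.pos
    have h4 : lo * Real.log T ≤ Real.log p := by
      rw [← Real.log_exp (lo * Real.log T)]
      exact Real.log_le_log (Real.exp_pos _) h2
    have h5 : 2 * |Real.log δ| ≤ lo * Real.log T := by
      rw [div_le_iff₀ hlo] at hL2
      linarith
    rw [Real.rpow_def_of_pos hp0, ← Real.exp_log hδ0]
    apply Real.exp_le_exp.mpr
    have h6 := neg_abs_le (Real.log δ)
    nlinarith
  have hsq : ∀ p ∈ S, ((p : ℝ) ^ (-(1 / 2) : ℝ)) ^ 2 = (p : ℝ)⁻¹ := by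
    intro p hp
    rw [← Real.rpow_natCast, ← Real.rpow_mul (by positivity), ← Real.rpow_neg_one]
    norm_num
  have hV1 : |∑ p ∈ S, ((p : ℝ) ^ (-(1 / 2) : ℝ)) ^ 2 - V| ≤ δ := by
    have h1 := H T hT1 0 (by simp)
    rw [GaussB.vv_zero hlo hlh, ← hS, ← hV] at h1
    have e : ∑ p ∈ S, (p : ℂ) ^ (-(1 + 0 / (Real.log T : ℂ))) =
        ((∑ p ∈ S, ((p : ℝ) ^ (-(1 / 2) : ℝ)) ^ 2 : ℝ) : ℂ) := by
      push_cast
      refine Finset.sum_congr rfl fun p hp => ?_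
      rw [← ofReal_pow, hsq p hp]
      push_cast
      simp [cpow_neg_one]
    rw [e, ← ofReal_sub, norm_real, Real.norm_eq_abs] at h1
    exact h1
  constructor
  · intro u hu
    set w : ℂ := u / Real.log T with hw
    have hwn : ‖w‖ ≤ 1 / Real.log T := by
      rw [hw, norm_div, norm_real, Real.norm_of_nonneg hL.le]
      gcongr
    have hx1 : ∀ p ∈ S, ‖(p : ℂ) ^ (-(1 / 2 + w))‖ ≤ 3 * (p : ℝ) ^ (-(1 / 2) : ℝ) := by
      intro p hp
      obtain ⟨h1, h2, h3⟩ := hmem p hp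
      have hp0 : (0 : ℝ) < p := by exact_mod_cast h1.pos
      have hp1 : 0 ≤ Real.log p := Real.log_nonneg (by exact_mod_cast h1.one_lt.le)
      have h4 : Real.log p ≤ Real.log T := by
        have h5 : Real.log p ≤ hi * Real.log T := by
          rw [← Real.log_exp (hi * Real.log T)]
          exact Real.log_le_log hp0 h3
        nlinarith
      rw [norm_natCast_cpow_of_pos h1.pos]
      have e1 : (-(1 / 2 + w)).re = -(1 / 2) + -w.re := by
        simp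
        ring
      rw [e1, Real.rpow_add hp0, mul_comm]
      have h6 : (p : ℝ) ^ (-w.re) ≤ 3 := by
        rw [Real.rpow_def_of_pos hp0]
        have h7 : Real.log p * -w.re ≤ 1 := by
          have h8 : -w.re ≤ 1 / Real.log T := by
            have := abs_re_le_norm w
            have := neg_abs_le w.re
            linarith
          calc Real.log p * -w.re ≤ Real.log p * (1 / Real.log T) := by gcongr
            _ ≤ Real.log T * (1 / Real.log T) := by gcongr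
            _ = 1 := by field_simp
        calc Real.exp (Real.log p * -w.re) ≤ Real.exp 1 := Real.exp_le_exp.mpr h7
          _ ≤ 3 := by linarith [Real.exp_one_lt_d9]
      gcongr
    have hsum : ‖∑ p ∈ S, (((p : ℝ) ^ (-(1 / 2) : ℝ) : ℝ) : ℂ) * (p : ℂ) ^ (-(1 / 2 + w)) -
        vv lo hi u‖ ≤ δ := by
      have h1 := H T hT1 u hu
      rw [← hS] at h1
      have e : ∑ p ∈ S, (((p : ℝ) ^ (-(1 / 2) : ℝ) : ℝ) : ℂ) * (p : ℂ) ^ (-(1 / 2 + w)) =
          ∑ p ∈ S, (p : ℂ) ^ (-(1 + w)) :=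
        Finset.sum_congr rfl fun p hp => GaussB.sqrt_mul (hmem p hp).1.ne_zero w
      rw [e]
      exact h1
    have hmain := H₁ S (fun p => (p : ℝ) ^ (-(1 / 2) : ℝ)) (fun p => (p : ℂ) ^ (-(1 / 2 + w)))
      (vv lo hi u) (fun p hp => ⟨(hx p hp).1, (hx p hp).2.trans (min_le_left _ _)⟩) hx1
      (hV1.trans (min_le_left _ _)) (hsum.trans (min_le_left _ _))
      (GaussB.vv_bound hlo hlh hhi hu)
    have e : ES S (fun f => ZZ S (tw (1 / 2 + w) f) *
        (starRingEnd ℂ) (ZZ S (tw (1 / 2 + (starRingEnd ℂ) w) f)) *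
        ((‖(∑ p ∈ S, tw (1 / 2) f p) + (c : ℂ)‖ ^ (2 * n) : ℝ) : ℂ)) *
        ∏ p ∈ S, (1 - (p : ℂ) ^ (-(1 + w + w))) =
        ES S (fun f => GaussB.Wt S (fun p => (p : ℂ) ^ (-(1 / 2 + w))) f *
          (GaussCx.Y1 S (fun p => (p : ℝ) ^ (-(1 / 2) : ℝ)) c f ^ n *
            GaussCx.Y2 S (fun p => (p : ℝ) ^ (-(1 / 2) : ℝ)) c f ^ n)) := by
      rw [ES, ES, ← integral_mul_const]
      refine integral_congr_ae (Filter.Eventually.of_forall fun ω => ?_)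
      simp only
      set f := ext S ω with hf
      rw [GaussCx.norm_pow_eq]
      have e1 : ZZ S (tw (1 / 2 + w) f) * (starRingEnd ℂ) (ZZ S (tw (1 / 2 + (starRingEnd ℂ) w) f)) *
          ∏ p ∈ S, (1 - (p : ℂ) ^ (-(1 + w + w))) =
          GaussB.Wt S (fun p => (p : ℂ) ^ (-(1 / 2 + w))) f := by
        rw [ZZ, ZZ, map_prod, GaussB.Wt, ← Finset.prod_mul_distrib, ← Finset.prod_mul_distrib]
        refine Finset.prod_congr rfl fun p hp => ?_
        have hp0 : p ≠ 0 := (hmem p hp).1.ne_zero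
        rw [map_inv₀, map_sub, map_one, tw, tw, map_mul, GaussB.conj_cpow_nat hp0]
        congr 2
        rw [sq, ← cpow_add _ _ (by exact_mod_cast hp0)]
        congr 1
        ring
      rw [← e1]
      ring
    rw [e]
    exact hmain
  · have hmain := H₂ S (fun p => (p : ℝ) ^ (-(1 / 2) : ℝ)) (fun _ => 0)
      0 (fun p hp => ⟨(hx p hp).1, (hx p hp).2.trans (min_le_right _ _)⟩)
      (fun p hp => by rw [norm_zero]; positivity)
      (hV1.trans (min_le_right _ _)) (by simp [hδ₂.le]) (by simp)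
    have e : ((ES S (fun f => ‖(∑ p ∈ S, tw (1 / 2) f p) + (c : ℂ)‖ ^ (2 * n)) : ℝ) : ℂ) =
        ES S (fun f => GaussB.Wt S (fun _ => 0) f *
          (GaussCx.Y1 S (fun p => (p : ℝ) ^ (-(1 / 2) : ℝ)) c f ^ n *
            GaussCx.Y2 S (fun p => (p : ℝ) ^ (-(1 / 2) : ℝ)) c f ^ n)) := by
      rw [ES, ES, ← integral_complex_ofReal]
      refine integral_congr_ae (Filter.Eventually.of_forall fun ω => ?_)
      simp only
      rw [GaussCx.norm_pow_eq, GaussB.Wt]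
      simp
    rw [← e, zero_add, ← GaussCx.LG_cast, ← ofReal_sub, norm_real, Real.norm_eq_abs] at hmain
    exact hmain

end K8
end Pool.Agent.Lib.MP_973905_nt
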