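import Pool.Agent.Lib.MP_973905_nt.K8.Stmts

/-! (N7) the total loss. -/

namespace Pool.Agent.Lib.MP_973905_nt
namespace K8

open MeasureTheory ProbabilityTheory Complex Filter Topology K1 K4 K5

namespace Lam8Aux

theorem LG_pos (n : ℕ) (c V : ℝ) (hV : 0 < V) : 0 < LG n c V := by
  unfold LG
  refine Finset.sum_pos' ?_ ⟨n, Finset.self_mem_range_succ n, ?_⟩
  · intro j _
    have h1 : 0 ≤ c ^ (2 * (n - j)) := by
      rw [pow_mul]; positivity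
    positivity
  · have : 0 < ((n.factorial : ℕ) : ℝ) := by exact_mod_cast n.factorial_pos
    simp only [Nat.choose_self, Nat.sub_self, mul_zero, pow_zero, mul_one, Nat.cast_one, one_pow,
      one_mul]
    positivity

theorem log_lower {y : ℝ} (hy : 0 ≤ y) : y - y ^ 2 / 2 ≤ Real.log (1 + y) := by
  have hd : ∀ t : ℝ, 0 ≤ t → HasDerivAt (fun t : ℝ => Real.log (1 + t) - (t - t ^ 2 / 2))
      (t ^ 2 / (1 + t)) t := by
    intro t ht
    have hne : (1 : ℝ) + t ≠ 0 := by linarith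
    have hd : HasDerivAt (fun t : ℝ => Real.log (1 + t) - (t - t ^ 2 / 2))
        (1 / (1 + t) - (1 - (2 * t ^ 1) / 2)) t := by
      refine HasDerivAt.sub (HasDerivAt.log ((hasDerivAt_id t).const_add 1) hne) ?_
      refine HasDerivAt.sub (hasDerivAt_id t) ?_
      exact (hasDerivAt_pow 2 t).div_const 2
    have e : 1 / (1 + t) - (1 - (2 * t ^ 1) / 2) = t ^ 2 / (1 + t) := by
      field_simp
      ring
    rwa [e] at hd
  have key : MonotoneOn (fun t : ℝ => Real.log (1 + t) - (t - t ^ 2 / 2)) (Set.Ici 0) := by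
    apply monotoneOn_of_deriv_nonneg (convex_Ici 0)
    · intro t ht
      exact (hd t ht).continuousAt.continuousWithinAt
    · intro t ht
      rw [interior_Ici] at ht
      exact (hd t (le_of_lt ht)).differentiableAt.differentiableWithinAt
    · intro t ht
      rw [interior_Ici] at ht
      have ht' : (0 : ℝ) < t := ht
      rw [(hd t ht'.le).deriv]
      positivity
  have h := key (Set.mem_Ici.mpr le_rfl) (Set.mem_Ici.mpr hy) hy
  simp only [add_zero, Real.log_one] at h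
  nlinarith [h]

/-- The loss of one block. -/
theorem lam_le (hB : StBh) (hA : StAh) {κ : ℝ} (h0 : 0 < κ) (h1 : κ < 1) (M i : ℕ)
    (hD : 1 ≤ d0 κ + i) (hV1 : 1 ≤ (cfg8 κ M).V i) (hV2 : (cfg8 κ M).V i ≤ 2)
    (h3 : 3 * (κ * (1 + κ) * (cfg8 κ M).V i) ≤ ((d0 κ + i : ℕ) : ℝ)) :
    lam8 κ (cfg8 κ M) i ≤
      5 / 6 * κ * (κ * (1 + κ) * (cfg8 κ M).V i / ((d0 κ + i : ℕ) : ℝ)) ^ 2 -
        (1 + κ) * (κ ^ 4 * (cfg8 κ M).V i ^ 2 / (2 * ((d0 κ + i : ℕ) : ℝ) ^ 2) -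
          (κ ^ 4 * (cfg8 κ M).V i ^ 2 / (2 * ((d0 κ + i : ℕ) : ℝ) ^ 2)) ^ 2 / 2) := by
  have hDr : (1 : ℝ) ≤ ((d0 κ + i : ℕ) : ℝ) := by exact_mod_cast hD
  have hB' := hB κ ((cfg8 κ M).V i) (d0 κ + i) h0 h1 hD hV1 hV2 h3
  obtain ⟨hA', -, -⟩ := hA κ ((cfg8 κ M).V i) (d0 κ + i) h0 h1 hD hV1 hV2 h3
  have eV : aV κ (cfg8 κ M) i =
      (1 - (((d0 κ + i : ℕ) : ℝ) * pe κ - ⌊((d0 κ + i : ℕ) : ℝ) * pe κ⌋₊)) *
        (LG ⌊((d0 κ + i : ℕ) : ℝ) * pe κ⌋₊ (((d0 κ + i : ℕ) : ℝ) / κ -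
          (1 + κ) * (cfg8 κ M).V i) ((cfg8 κ M).V i) /
            (((d0 κ + i : ℕ) : ℝ) / κ) ^ (2 * ⌊((d0 κ + i : ℕ) : ℝ) * pe κ⌋₊)) +
      (((d0 κ + i : ℕ) : ℝ) * pe κ - ⌊((d0 κ + i : ℕ) : ℝ) * pe κ⌋₊) *
        (LG (⌊((d0 κ + i : ℕ) : ℝ) * pe κ⌋₊ + 1) (((d0 κ + i : ℕ) : ℝ) / κ -
          (1 + κ) * (cfg8 κ M).V i) ((cfg8 κ M).V i) /
          (((d0 κ + i : ℕ) : ℝ) / κ) ^ (2 * (⌊((d0 κ + i : ℕ) : ℝ) * pe κ⌋₊ + 1))) := rfl
  have eZ : aZ (cfg8 κ M) i =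
      LG (d0 κ + i) ((cfg8 κ M).V i + (((d0 κ + i : ℕ) : ℝ) / κ - (1 + κ) * (cfg8 κ M).V i))
        ((cfg8 κ M).V i) / (((d0 κ + i : ℕ) : ℝ) / κ) ^ (2 * (d0 κ + i)) := rfl
  rw [← eV] at hB'
  rw [← eZ] at hA'
  set V := (cfg8 κ M).V i with hVdef
  set D : ℝ := ((d0 κ + i : ℕ) : ℝ) with hDdef
  have hVpos : 0 < V := by linarith
  have hDpos : 0 < D := by linarith
  have hm : 0 < D / κ := by positivity
  have hpe : 0 < pe κ := by unfold pe; positivity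
  have hr1 : (⌊D * pe κ⌋₊ : ℝ) ≤ D * pe κ := Nat.floor_le (by positivity)
  have hr2 : D * pe κ < (⌊D * pe κ⌋₊ : ℝ) + 1 := Nat.lt_floor_add_one _
  have haV : 0 < aV κ (cfg8 κ M) i := by
    rw [eV]
    have p1 := LG_pos ⌊D * pe κ⌋₊ (D / κ - (1 + κ) * V) V hVpos
    have p2 := LG_pos (⌊D * pe κ⌋₊ + 1) (D / κ - (1 + κ) * V) V hVpos
    have q1 : 0 < LG ⌊D * pe κ⌋₊ (D / κ - (1 + κ) * V) V / (D / κ) ^ (2 * ⌊D * pe κ⌋₊) := by
      positivity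
    have q2 : 0 < LG (⌊D * pe κ⌋₊ + 1) (D / κ - (1 + κ) * V) V /
        (D / κ) ^ (2 * (⌊D * pe κ⌋₊ + 1)) := by positivity
    have r1 : 0 < 1 - (D * pe κ - ⌊D * pe κ⌋₊) := by linarith
    have r2 : 0 ≤ D * pe κ - ⌊D * pe κ⌋₊ := by linarith
    have := mul_pos r1 q1
    have := mul_nonneg r2 q2.le
    linarith
  have hlV : Real.log (aV κ (cfg8 κ M) i) ≤
      -((1 + κ) ^ 2 * V) + 5 / 6 * (κ * (1 + κ) * V / D) ^ 2 := by
    have := Real.log_le_log haV hB'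
    rwa [Real.log_exp] at this
  set y : ℝ := κ ^ 4 * V ^ 2 / (2 * D ^ 2) with hy
  have hy0 : 0 ≤ y := by positivity
  have hlZ : -(κ ^ 2 * V) + (y - y ^ 2 / 2) ≤ Real.log (aZ (cfg8 κ M) i) := by
    have h1y : 0 < 1 + y := by linarith
    have hh := Real.log_le_log (by positivity) hA'
    rw [Real.log_mul (Real.exp_pos _).ne' h1y.ne', Real.log_exp] at hh
    have := log_lower hy0
    linarith
  unfold lam8
  rw [← hVdef]
  have e1 : κ * Real.log (aV κ (cfg8 κ M) i) ≤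
      κ * (-((1 + κ) ^ 2 * V) + 5 / 6 * (κ * (1 + κ) * V / D) ^ 2) :=
    mul_le_mul_of_nonneg_left hlV h0.le
  have e2 : (1 + κ) * (-(κ ^ 2 * V) + (y - y ^ 2 / 2)) ≤
      (1 + κ) * Real.log (aZ (cfg8 κ M) i) :=
    mul_le_mul_of_nonneg_left hlZ (by linarith)
  have e3 : κ * (-((1 + κ) ^ 2 * V) + 5 / 6 * (κ * (1 + κ) * V / D) ^ 2) -
      (1 + κ) * (-(κ ^ 2 * V) + (y - y ^ 2 / 2)) + κ * (1 + κ) * V =
      5 / 6 * κ * (κ * (1 + κ) * V / D) ^ 2 - (1 + κ) * (y - y ^ 2 / 2) := by ring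
  linarith

theorem summable_s2 (n : ℕ) : Summable (fun i : ℕ => 1 / ((n + i : ℕ) : ℝ) ^ 2) := by
  have h := (Real.summable_one_div_nat_pow (p := 2)).mpr (by norm_num)
  have := (summable_nat_add_iff n).mpr h
  refine this.congr ?_
  intro i
  rw [add_comm]

theorem summable_s4 (n : ℕ) : Summable (fun i : ℕ => 1 / ((n + i : ℕ) : ℝ) ^ 4) := by
  have h := (Real.summable_one_div_nat_pow (p := 4)).mpr (by norm_num)
  have := (summable_nat_add_iff n).mpr h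
  refine this.congr ?_
  intro i
  rw [add_comm]

end Lam8Aux

open Lam8Aux in
/-- (N7) the total loss -/
theorem stLam8 (hB : StBh) (hA : StAh) (hadm : StAdm8) : StLam8 := by
  intro κ h0 h1 ε hε
  obtain ⟨M₀, hM₀⟩ := hadm κ h0 h1
  have hk : 0 < κ * (1 + κ) := by positivity
  have hd : 1 ≤ d0 κ := by
    unfold d0
    exact Nat.one_le_ceil_iff.mpr (by positivity)
  have hd3 : 3 * (κ * (1 + κ)) ≤ (d0 κ : ℝ) := Nat.le_ceil _
  have hdr : (1 : ℝ) ≤ (d0 κ : ℝ) := by exact_mod_cast hd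
  obtain ⟨B, hB1, hB2⟩ : ∃ B : ℝ, 14 ≤ B ∧ ∀ x : ℝ, B ≤ x →
      5 / 6 * κ * (2 * (κ * (1 + κ)) / x) ^ 2 ≤ ε := by
    refine ⟨max 14 (5 / 6 * κ * (2 * (κ * (1 + κ))) ^ 2 / ε + 1), le_max_left _ _, ?_⟩
    intro x hx
    have hx1 : 14 ≤ x := (le_max_left _ _).trans hx
    have hx2 : 5 / 6 * κ * (2 * (κ * (1 + κ))) ^ 2 / ε + 1 ≤ x := (le_max_right _ _).trans hx
    have hx0 : 0 < x := by linarith
    rw [div_pow, ← mul_div_assoc, div_le_iff₀ (by positivity)]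
    have h3 : 5 / 6 * κ * (2 * (κ * (1 + κ))) ^ 2 / ε ≤ x := by linarith
    rw [div_le_iff₀ hε] at h3
    have h4 : x ≤ x ^ 2 := by nlinarith
    nlinarith
  refine ⟨max M₀ ⌈B + 1 - Real.log (th κ)⌉₊, ?_⟩
  intro M hM
  obtain ⟨-, -, -, hV1, hVl1, hVl2, hN⟩ := hM₀ M ((le_max_left _ _).trans hM)
  have hM2 : B + 1 - Real.log (th κ) ≤ (M : ℝ) :=
    (Nat.le_ceil _).trans (by exact_mod_cast (le_max_right _ _).trans hM)
  have hNB : B ≤ ((cfg8 κ M).N : ℝ) := by linarith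
  have hN14 : (14 : ℝ) ≤ ((cfg8 κ M).N : ℝ) := hB1.trans hNB
  obtain ⟨n, hn⟩ : ∃ n, (cfg8 κ M).N = n + 1 := by
    refine Nat.exists_eq_succ_of_ne_zero ?_
    intro h
    rw [h] at hN14
    norm_num at hN14
  have hnr : ((cfg8 κ M).N : ℝ) = n + 1 := by rw [hn]; push_cast; ring
  -- the last block
  have hlast : lam8 κ (cfg8 κ M) n ≤ ε := by
    have hVn1 : 1 ≤ (cfg8 κ M).V n := by
      have := hVl1
      rwa [hn, Nat.add_sub_cancel] at this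
    have hVn2 : (cfg8 κ M).V n ≤ 2 := by
      have := hVl2
      rwa [hn, Nat.add_sub_cancel] at this
    have hDn : B ≤ ((d0 κ + n : ℕ) : ℝ) := by
      push_cast
      linarith
    have hDpos : (0 : ℝ) < ((d0 κ + n : ℕ) : ℝ) := by linarith
    have hk2 : κ * (1 + κ) ≤ 2 := by nlinarith
    have h3V : 3 * (κ * (1 + κ) * (cfg8 κ M).V n) ≤ ((d0 κ + n : ℕ) : ℝ) := by
      have : κ * (1 + κ) * (cfg8 κ M).V n ≤ 2 * 2 :=
        mul_le_mul hk2 hVn2 (by linarith) (by norm_num)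
      linarith
    have h := lam_le hB hA h0 h1 M n (by omega) hVn1 hVn2 h3V
    refine h.trans ?_
    have hb := hB2 _ hDn
    set V := (cfg8 κ M).V n
    set D : ℝ := ((d0 κ + n : ℕ) : ℝ)
    have hx : (κ * (1 + κ) * V / D) ^ 2 ≤ (2 * (κ * (1 + κ)) / D) ^ 2 := by
      apply pow_le_pow_left₀ (by positivity)
      apply div_le_div_of_nonneg_right _ hDpos.le
      nlinarith
    have hy : 0 ≤ κ ^ 4 * V ^ 2 / (2 * D ^ 2) - (κ ^ 4 * V ^ 2 / (2 * D ^ 2)) ^ 2 / 2 := by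
      have hy0 : 0 ≤ κ ^ 4 * V ^ 2 / (2 * D ^ 2) := by positivity
      have hy1 : κ ^ 4 * V ^ 2 / (2 * D ^ 2) ≤ 1 := by
        rw [div_le_one (by positivity)]
        have a1 : κ ^ 4 ≤ 1 := pow_le_one₀ h0.le h1.le
        have a2 : V ^ 2 ≤ 4 := by nlinarith
        have a3 : (14 : ℝ) ≤ D := hB1.trans hDn
        have a4 : κ ^ 4 * V ^ 2 ≤ 1 * 4 := mul_le_mul a1 a2 (by positivity) (by norm_num)
        nlinarith
      nlinarith
    have hx' : 5 / 6 * κ * (κ * (1 + κ) * V / D) ^ 2 ≤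
        5 / 6 * κ * (2 * (κ * (1 + κ)) / D) ^ 2 :=
      mul_le_mul_of_nonneg_left hx (by positivity)
    have hy' : 0 ≤ (1 + κ) * (κ ^ 4 * V ^ 2 / (2 * D ^ 2) -
        (κ ^ 4 * V ^ 2 / (2 * D ^ 2)) ^ 2 / 2) := mul_nonneg (by linarith) hy
    linarith
  -- the other blocks
  have hrest : ∑ i ∈ Finset.range n, lam8 κ (cfg8 κ M) i ≤ LamB κ := by
    set c2 : ℝ := 5 / 6 * κ * (κ * (1 + κ)) ^ 2 - (1 + κ) * κ ^ 4 / 2 with hc2
    set c4 : ℝ := (1 + κ) * κ ^ 8 / 8 with hc4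
    have hc2' : 0 ≤ c2 := by
      have : c2 = (1 + κ) * κ ^ 3 * (5 / 6 + κ / 3) := by rw [hc2]; ring
      rw [this]; positivity
    have hc4' : 0 ≤ c4 := by rw [hc4]; positivity
    have hterm : ∀ i ∈ Finset.range n, lam8 κ (cfg8 κ M) i ≤
        c2 * (1 / ((d0 κ + i : ℕ) : ℝ) ^ 2) + c4 * (1 / ((d0 κ + i : ℕ) : ℝ) ^ 4) := by
      intro i hi
      rw [Finset.mem_range] at hi
      have hVi : (cfg8 κ M).V i = 1 := hV1 i (by omega)
      have hDge : (d0 κ : ℝ) ≤ ((d0 κ + i : ℕ) : ℝ) := by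
        push_cast
        linarith [Nat.cast_nonneg (α := ℝ) i]
      have hDpos : (0 : ℝ) < ((d0 κ + i : ℕ) : ℝ) := by linarith
      have h := lam_le hB hA h0 h1 M i (by omega) (by rw [hVi]) (by rw [hVi]; norm_num)
        (by rw [hVi]; linarith)
      refine h.trans (le_of_eq ?_)
      rw [hVi, hc2, hc4]
      field_simp
      ring
    refine (Finset.sum_le_sum hterm).trans ?_
    rw [Finset.sum_add_distrib, ← Finset.mul_sum, ← Finset.mul_sum]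
    have e2 : ∑ i ∈ Finset.range n, 1 / ((d0 κ + i : ℕ) : ℝ) ^ 2 ≤ s2 (d0 κ) :=
      (summable_s2 (d0 κ)).sum_le_tsum _ (fun i _ => by positivity)
    have e4 : ∑ i ∈ Finset.range n, 1 / ((d0 κ + i : ℕ) : ℝ) ^ 4 ≤ s4 (d0 κ) :=
      (summable_s4 (d0 κ)).sum_le_tsum _ (fun i _ => by positivity)
    unfold LamB
    rw [← hc2, ← hc4]
    exact add_le_add (mul_le_mul_of_nonneg_left e2 hc2') (mul_le_mul_of_nonneg_left e4 hc4')
  rw [hn, Finset.sum_range_succ]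
  linarith

end K8
end Pool.Agent.Lib.MP_973905_nt
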