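import Pool.Agent.Lib.MP_973905_nt.K1.Lower
import Pool.Agent.Lib.MP_973905_nt.K8.Base

/-! Module V6 of K8: the Gaussian means of the weight on the side without zeta. -/

namespace Pool.Agent.Lib.MP_973905_nt
namespace K8

open MeasureTheory ProbabilityTheory Complex Filter Topology K1 K4 K5

namespace MV8

variable {κ T : ℝ} {M : ℕ} {C : Cfg}

/-! ### expansion of the weight -/

lemma prod_add_ite (s : Finset ℕ) (u v : ℕ → ℝ) :
    ∏ i ∈ s, (u i + v i) = ∑ t ∈ s.powerset, ∏ i ∈ s, (if i ∈ t then u i else v i) := by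
  rw [Finset.prod_add]
  refine Finset.sum_congr rfl fun t ht => ?_
  have hts := Finset.mem_powerset.mp ht
  rw [Finset.prod_ite]
  congr 1
  · refine Finset.prod_congr ?_ fun _ _ => rfl
    ext i
    simp only [Finset.mem_filter]
    exact ⟨fun h => ⟨hts h, h⟩, fun h => h.2⟩
  · refine Finset.prod_congr ?_ fun _ _ => rfl
    ext i
    simp only [Finset.mem_filter, Finset.mem_sdiff]

/-- the coefficients of the bottom blocks -/
noncomputable def ab (κ T : ℝ) (M : ℕ) (h : Finset ℕ) (j : ℕ) : ℝ :=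
  if j ∈ h then Real.exp (2 * pe κ * KK M (JJ T) j) else 1 + Real.exp (-(KK M (JJ T) j / 2))

/-- the coefficients of the top blocks -/
noncomputable def at' (κ : ℝ) (C : Cfg) (g : Finset ℕ) (i : ℕ) : ℝ :=
  if i ∈ g then tk κ C i else 1 - tk κ C i

/-- the coefficients -/
noncomputable def ac (κ : ℝ) (C : Cfg) (T : ℝ) (M : ℕ) (h g : Finset ℕ) : ℝ :=
  (∏ j ∈ Finset.range (JJ T + 1), ab κ T M h j) * ∏ i ∈ Finset.range C.N, at' κ C g i

/-- the bottom polynomials -/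
noncomputable def Gb (κ T : ℝ) (M : ℕ) (h : Finset ℕ) (f : ℕ → ℂ) : ℂ :=
  ∏ j ∈ Finset.range (JJ T + 1),
      (if j ∈ h then (Pj M (Sj T M (JJ T) j) f / (KK M (JJ T) j : ℂ)) ^ nb κ T M j
        else Ntr (ll M (JJ T) j) (1 + κ) (Pj M (Sj T M (JJ T) j) f))

/-- the exponents of the top factors -/
noncomputable def et (κ : ℝ) (C : Cfg) (g : Finset ℕ) (i : ℕ) : ℕ :=
  rk κ C i + if i ∈ g then 1 else 0

/-- the top polynomials -/
noncomputable def Gt (κ : ℝ) (C : Cfg) (T : ℝ) (g : Finset ℕ) (f : ℕ → ℂ) : ℂ :=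
  ∏ i ∈ Finset.range C.N, C.z T i f ^ et κ C g i

/-- our polynomials -/
noncomputable def GG (κ : ℝ) (C : Cfg) (T : ℝ) (M : ℕ) (h g : Finset ℕ) (f : ℕ → ℂ) : ℂ :=
  Gb κ T M h f * Gt κ C T g f

lemma VB_prod (f : ℕ → ℂ) :
    ∏ j ∈ Finset.range (JJ T + 1), VB κ T M j f =
      ∑ h ∈ (Finset.range (JJ T + 1)).powerset,
        (∏ j ∈ Finset.range (JJ T + 1), ab κ T M h j) * ‖Gb κ T M h f‖ ^ 2 := by
  have e : ∀ j, VB κ T M j f =
      Real.exp (2 * pe κ * KK M (JJ T) j) *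
        ‖(Pj M (Sj T M (JJ T) j) f / (KK M (JJ T) j : ℂ)) ^ nb κ T M j‖ ^ 2 +
      (1 + Real.exp (-(KK M (JJ T) j / 2))) *
        ‖Ntr (ll M (JJ T) j) (1 + κ) (Pj M (Sj T M (JJ T) j) f)‖ ^ 2 := by
    intro j
    unfold VB VBz
    ring
  simp only [e]
  rw [prod_add_ite]
  refine Finset.sum_congr rfl fun h _ => ?_
  unfold Gb
  rw [norm_prod, ← Finset.prod_pow, ← Finset.prod_mul_distrib]
  refine Finset.prod_congr rfl fun j _ => ?_
  unfold ab
  split_ifs <;> rfl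

lemma VT_prod (f : ℕ → ℂ) :
    ∏ i ∈ Finset.range C.N, VT κ C T i f =
      ∑ g ∈ (Finset.range C.N).powerset,
        (∏ i ∈ Finset.range C.N, at' κ C g i) * ‖Gt κ C T g f‖ ^ 2 := by
  have e : ∀ i, VT κ C T i f =
      tk κ C i * ‖C.z T i f ^ (rk κ C i + 1)‖ ^ 2 +
      (1 - tk κ C i) * ‖C.z T i f ^ (rk κ C i + 0)‖ ^ 2 := by
    intro i
    unfold VT
    rw [norm_pow, norm_pow]
    ring
  simp only [e]
  rw [prod_add_ite]
  refine Finset.sum_congr rfl fun g _ => ?_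
  unfold Gt
  rw [norm_prod, ← Finset.prod_pow, ← Finset.prod_mul_distrib]
  refine Finset.prod_congr rfl fun i _ => ?_
  unfold at' et
  split_ifs <;> rfl

/-- the pairs of sets -/
noncomputable def PR (C : Cfg) (T : ℝ) : Finset (Finset ℕ × Finset ℕ) :=
  (Finset.range (JJ T + 1)).powerset ×ˢ (Finset.range C.N).powerset

lemma VV8_eq (f : ℕ → ℂ) :
    VV8 κ C T M f = ∑ x ∈ PR C T, ac κ C T M x.1 x.2 * ‖GG κ C T M x.1 x.2 f‖ ^ 2 := by
  unfold VV8 PR
  rw [VB_prod, VT_prod, Finset.sum_mul_sum, ← Finset.sum_product']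
  refine Finset.sum_congr rfl fun x _ => ?_
  unfold ac GG
  rw [norm_mul, mul_pow]
  ring

lemma ac_nonneg (hκ : 0 < κ) (h g : Finset ℕ) : 0 ≤ ac κ C T M h g := by
  unfold ac
  refine mul_nonneg (Finset.prod_nonneg fun j _ => ?_) (Finset.prod_nonneg fun i _ => ?_)
  · unfold ab
    split_ifs <;> positivity
  · obtain ⟨h1, h2⟩ := Blk8.tk_mem (C := C) hκ i
    unfold at'
    split_ifs
    · exact h1
    · linarith

lemma pe_ge_one (h0 : 0 < κ) : 1 ≤ pe κ := by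
  unfold pe
  rw [le_div_iff₀ h0]
  linarith

lemma sum_ac (hκ : 0 < κ) :
    ∑ x ∈ PR C T, ac κ C T M x.1 x.2 ≤
      ∏ j ∈ Finset.range (JJ T + 1), (2 * Real.exp (2 * pe κ * KK M (JJ T) j)) := by
  unfold PR ac
  rw [Finset.sum_product]
  simp only
  rw [← Finset.sum_mul_sum]
  have e1 : ∑ g ∈ (Finset.range C.N).powerset, ∏ i ∈ Finset.range C.N, at' κ C g i = 1 := by
    unfold at'
    rw [← prod_add_ite]
    exact Finset.prod_eq_one fun i _ => by ring
  have e2 : ∑ h ∈ (Finset.range (JJ T + 1)).powerset, ∏ j ∈ Finset.range (JJ T + 1), ab κ T M h j =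
      ∏ j ∈ Finset.range (JJ T + 1), (Real.exp (2 * pe κ * KK M (JJ T) j) +
        (1 + Real.exp (-(KK M (JJ T) j / 2)))) := by
    unfold ab
    rw [← prod_add_ite]
  rw [e1, e2, mul_one]
  refine Finset.prod_le_prod (fun j _ => by positivity) fun j hj => ?_
  have hjJ : j ≤ JJ T := by
    have := Finset.mem_range.mp hj
    omega
  have hK := Len.KK_ge_one (M := M) hjJ
  have hp := pe_ge_one hκ
  have h1 : Real.exp (-(KK M (JJ T) j / 2)) ≤ 1 := Real.exp_le_one_iff.mpr (by linarith)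
  have h2 : 1 ≤ pe κ * KK M (JJ T) j := by nlinarith
  have h3 := Real.add_one_le_exp (2 * pe κ * KK M (JJ T) j)
  nlinarith

/-! ### the length of the top polynomials -/

lemma dp_z {i : ℕ} (hi : 0 ≤ C.te i) (hT : 1 < T) (hm : 0 < C.m i) :
    DP (Real.exp (C.te i * Real.log T))
      (Real.exp (C.te i * Real.log T) * ((1 + |C.c i|) / C.m i)) (C.z T i) := by
  set y := Real.exp (C.te i * Real.log T) with hy
  have hL : 0 < Real.log T := Real.log_pos hT
  have hy1 : 1 ≤ y := Real.one_le_exp (mul_nonneg hi hL.le)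
  have h1 : DP y (∑ p ∈ C.U T i, ‖(1 : ℂ)‖) (fun f => ∑ p ∈ C.U T i, (1 : ℂ) * f p) :=
    dp_sum (C.U T i) (M := fun _ => ‖(1 : ℂ)‖) (G := fun p f => (1 : ℂ) * f p) fun p hp => by
      have := Blk8.mem_U.mp hp
      exact dp_single 1 p this.1.one_le this.2.2
  have hcard : ((C.U T i).card : ℝ) ≤ y := by
    have h2 : (C.U T i).card ≤ ⌊y⌋₊ := by
      unfold Cfg.U PS
      refine (Finset.card_filter_le _ _).trans ?_
      rw [Nat.card_Ioc]
      exact Nat.sub_le _ _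
    calc ((C.U T i).card : ℝ) ≤ (⌊y⌋₊ : ℝ) := by exact_mod_cast h2
      _ ≤ y := Nat.floor_le (by linarith)
  have h3 : DP y ‖(C.c i : ℂ)‖ (fun _ => (C.c i : ℂ)) := (dp_const _).mono hy1 le_rfl
  have h4 := (h1.add h3).const_mul ((C.m i : ℂ)⁻¹)
  refine (h4.mono le_rfl ?_).congr fun f _ => ?_
  · simp only [norm_one, Finset.sum_const, nsmul_eq_mul, mul_one]
    rw [norm_inv, norm_real, norm_real, Real.norm_eq_abs, Real.norm_eq_abs, abs_of_pos hm,
      div_eq_mul_inv]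
    have hc := abs_nonneg (C.c i)
    have hmi : 0 ≤ (C.m i)⁻¹ := by positivity
    calc (C.m i)⁻¹ * (((C.U T i).card : ℝ) + |C.c i|)
        ≤ (C.m i)⁻¹ * (y + y * |C.c i|) := by
          gcongr
          nlinarith
      _ = y * ((1 + |C.c i|) * (C.m i)⁻¹) := by ring
  · unfold Cfg.z
    simp only [one_mul]
    rw [div_eq_mul_inv]
    ring

/-- the constant in the coefficients -/
noncomputable def bc (C : Cfg) (i : ℕ) : ℝ := 1 + (1 + |C.c i|) / C.m i

/-- the constant in the coefficients -/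
noncomputable def cc (κ : ℝ) (C : Cfg) : ℝ := ∏ i ∈ Finset.range C.N, bc C i ^ (rk κ C i + 1)

lemma bc_ge (hC : Adm κ M C) {i : ℕ} (hi : i < C.N) : 1 ≤ bc C i := by
  have := hC.hm i hi
  unfold bc
  have : 0 ≤ (1 + |C.c i|) / C.m i := by positivity
  linarith

lemma dp_Gt (hC : Adm κ M C) (hT : 1 < T) (g : Finset ℕ) :
    DP (T ^ (93 / 100 : ℝ)) (T ^ (93 / 100 : ℝ) * cc κ C) (Gt κ C T g) := by
  have hL : 0 < Real.log T := Real.log_pos hT
  have hT0 : 0 < T := by linarith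
  have h1 := dp_prod (Finset.range C.N)
    (N := fun i => Real.exp (C.te i * Real.log T) ^ et κ C g i)
    (M := fun i => (Real.exp (C.te i * Real.log T) * ((1 + |C.c i|) / C.m i)) ^ et κ C g i)
    (G := fun i f => C.z T i f ^ et κ C g i) (fun i hi => by
      have hi' := Finset.mem_range.mp hi
      exact (dp_z (hC.hpos i hi'.le).le hT (hC.hm i hi')).pow _)
  have e1 : ∏ i ∈ Finset.range C.N, Real.exp (C.te i * Real.log T) ^ (rk κ C i + 1) ≤
      T ^ (93 / 100 : ℝ) := by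
    have e2 : ∀ i, Real.exp (C.te i * Real.log T) ^ (rk κ C i + 1) =
        Real.exp (((rk κ C i : ℝ) + 1) * C.te i * Real.log T) := by
      intro i
      rw [← Real.exp_nat_mul]
      congr 1
      push_cast
      ring
    simp only [e2]
    rw [← Real.exp_sum, ← Finset.sum_mul, Real.rpow_def_of_pos hT0]
    apply Real.exp_le_exp.mpr
    rw [mul_comm (Real.log T)]
    exact mul_le_mul_of_nonneg_right hC.bud2 hL.le
  have hle : ∀ i, et κ C g i ≤ rk κ C i + 1 := by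
    intro i
    unfold et
    split_ifs <;> omega
  have hy1 : ∀ i, i < C.N → 1 ≤ Real.exp (C.te i * Real.log T) := fun i hi =>
    Real.one_le_exp (mul_nonneg (hC.hpos i hi.le).le hL.le)
  refine h1.mono ?_ ?_
  · refine le_trans (Finset.prod_le_prod (fun i _ => by positivity) fun i hi => ?_) e1
    exact pow_le_pow_right₀ (hy1 i (Finset.mem_range.mp hi)) (hle i)
  · calc ∏ i ∈ Finset.range C.N,
          (Real.exp (C.te i * Real.log T) * ((1 + |C.c i|) / C.m i)) ^ et κ C g i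
        ≤ ∏ i ∈ Finset.range C.N,
          (Real.exp (C.te i * Real.log T) ^ (rk κ C i + 1) * bc C i ^ (rk κ C i + 1)) := by
          refine Finset.prod_le_prod (fun i hi => ?_) fun i hi => ?_
          · have := hC.hm i (Finset.mem_range.mp hi)
            positivity
          · have hi' := Finset.mem_range.mp hi
            have hm := hC.hm i hi'
            have h2 := hy1 i hi'
            have h3 := bc_ge hC hi'
            rw [← mul_pow]
            calc (Real.exp (C.te i * Real.log T) * ((1 + |C.c i|) / C.m i)) ^ et κ C g i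
                ≤ (Real.exp (C.te i * Real.log T) * bc C i) ^ et κ C g i := by
                  gcongr
                  unfold bc
                  linarith
              _ ≤ _ := pow_le_pow_right₀ (one_le_mul_of_one_le_of_one_le h2 h3) (hle i)
      _ = (∏ i ∈ Finset.range C.N, Real.exp (C.te i * Real.log T) ^ (rk κ C i + 1)) * cc κ C := by
          rw [Finset.prod_mul_distrib]
          rfl
      _ ≤ _ := by
          have : 0 ≤ cc κ C := Finset.prod_nonneg fun i hi => by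
            have := bc_ge hC (Finset.mem_range.mp hi)
            positivity
          gcongr

lemma dp_GG (hC : Adm κ M C) (hT : 1 < T) (h g : Finset ℕ)
    (hb : DP (T ^ (1 / 100 : ℝ)) (T ^ (1 / 100 : ℝ)) (Gb κ T M h)) (hcc : cc κ C ≤ T) :
    DP (T ^ (94 / 100 : ℝ)) (T ^ 2) (GG κ C T M h g) := by
  have hT0 : 0 < T := by linarith
  have h1 := hb.mul (dp_Gt hC hT g)
  have e1 : T ^ (1 / 100 : ℝ) * T ^ (93 / 100 : ℝ) = T ^ (94 / 100 : ℝ) := by
    rw [← Real.rpow_add hT0]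
    norm_num
  refine h1.mono e1.le ?_
  rw [← mul_assoc, e1]
  have h2 : T ^ (94 / 100 : ℝ) ≤ T := by
    calc T ^ (94 / 100 : ℝ) ≤ T ^ (1 : ℝ) := Real.rpow_le_rpow_of_exponent_le hT.le (by norm_num)
      _ = T := Real.rpow_one T
  have h3 : 0 ≤ T ^ (94 / 100 : ℝ) := Real.rpow_nonneg hT0.le _
  calc T ^ (94 / 100 : ℝ) * cc κ C ≤ T ^ (94 / 100 : ℝ) * T := by gcongr
    _ ≤ T * T := by gcongr
    _ = T ^ 2 := by ring

/-! ### the Gaussian means -/

lemma ES_one (S : Finset ℕ) : ES S (fun _ => (1 : ℝ)) = 1 := by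
  simp [ES]

lemma ER_VV8 (hC : Adm κ M C) (hT : 1 < T) :
    ER (SB8 C T M) (fun f => VV8 κ C T M (tw (1 / 2) f)) =
      (∏ j ∈ Finset.range (JJ T + 1), ES (Sj T M (JJ T) j) (fun f => VB κ T M j (tw (1 / 2) f))) *
        (∏ i ∈ Finset.range C.N, ES (C.U T i) (fun f => VT κ C T i (tw (1 / 2) f))) := by
  have h := Blk8.fact_gen (𝕜 := ℝ) hC hT (fun j f => VB κ T M j (tw (1 / 2) f))
    (fun i f => VT κ C T i (tw (1 / 2) f)) (fun _ => 1) (by
      intro j f g hfg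
      unfold VB Pj
      congr 1
      refine Finset.sum_congr rfl fun p hp => ?_
      simp only [tw, hfg p hp]) (by
      intro i f g hfg
      unfold VT
      simp only [Blk8.z_dep hfg]) (by
      intro f g _
      rfl)
  rw [ES_one, mul_one] at h
  rw [← h]
  unfold VV8
  simp only [mul_one]

lemma ev_err : ∀ᶠ T : ℝ in atTop, T ^ 15 * Real.exp (-(T ^ (1 / 50 : ℝ) / 2)) ≤ 1 := by
  have h1 : Tendsto (fun T : ℝ => T ^ (1 / 50 : ℝ)) atTop atTop :=
    tendsto_rpow_atTop (by norm_num)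
  have h2 : ∀ᶠ u : ℝ in atTop, u ^ 750 ≤ 1 * Real.exp (1 / 2 * u) := by
    have := (isLittleO_pow_exp_pos_mul_atTop 750 (show (0 : ℝ) < 1 / 2 by norm_num)).def
      (show (0 : ℝ) < 1 by norm_num)
    filter_upwards [this, eventually_ge_atTop 0] with u hu hu0
    rw [Real.norm_eq_abs, Real.norm_eq_abs, abs_of_nonneg (by positivity),
      abs_of_pos (Real.exp_pos _)] at hu
    exact hu
  filter_upwards [h1.eventually h2, eventually_ge_atTop 0] with T hT hT0
  have e1 : T ^ 15 = (T ^ (1 / 50 : ℝ)) ^ 750 := by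
    rw [← Real.rpow_natCast, ← Real.rpow_natCast, ← Real.rpow_mul hT0]
    congr 1; norm_num
  rw [e1]
  calc (T ^ (1 / 50 : ℝ)) ^ 750 * Real.exp (-(T ^ (1 / 50 : ℝ) / 2))
      ≤ (1 * Real.exp (1 / 2 * T ^ (1 / 50 : ℝ))) * Real.exp (-(T ^ (1 / 50 : ℝ) / 2)) := by gcongr
    _ = Real.exp (1 / 2 * T ^ (1 / 50 : ℝ)) * Real.exp (-(T ^ (1 / 50 : ℝ) / 2)) := by ring
    _ = 1 := by
        rw [← Real.exp_add, show 1 / 2 * T ^ (1 / 50 : ℝ) + -(T ^ (1 / 50 : ℝ) / 2) = 0 by ring,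
          Real.exp_zero]

lemma VV_ratio (hT : 0 < T) :
    (VV T : ℝ) / (2 * (T ^ (94 / 100 : ℝ)) ^ 2) = T ^ (1 / 50 : ℝ) / 2 := by
  rw [VV_coe hT.le, ← Real.rpow_natCast (T ^ (94 / 100 : ℝ)), ← Real.rpow_mul hT.le]
  have : T ^ (19 / 10 : ℝ) = T ^ (1 / 50 : ℝ) * T ^ (94 / 100 * ((2 : ℕ) : ℝ)) := by
    rw [← Real.rpow_add hT]; norm_num
  rw [this]
  have h0 : 0 < T ^ (94 / 100 * ((2 : ℕ) : ℝ)) := Real.rpow_pos_of_pos hT _
  field_simp

lemma mem_blk (hC : Adm κ M C) (hT : 1 < T) (n : ℕ) (h1 : 1 ≤ n)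
    (h2 : (n : ℝ) ≤ T ^ (94 / 100 : ℝ)) : n ∈ Nat.factoredNumbers (UU (SB8 C T M)) := by
  refine Blk8.mem_factored_SB8 hC hT h1 (h2.trans ?_)
  calc T ^ (94 / 100 : ℝ) ≤ T ^ (1 : ℝ) := Real.rpow_le_rpow_of_exponent_le hT.le (by norm_num)
    _ = T := Real.rpow_one T

lemma eg_one (hC : Adm κ M C) (hT : 1 < T) (h g : Finset ℕ)
    (hd : DP (T ^ (94 / 100 : ℝ)) (T ^ 2) (GG κ C T M h g)) (τ : ℝ) :
    EG T τ (fun t => ‖GG κ C T M h g (fs (1 / 2 + t * I))‖ ^ 2) ≤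
      ER (SB8 C T M) (fun f => ‖GG κ C T M h g (tw (1 / 2) f)‖ ^ 2) +
        T ^ 4 * Real.exp (-(T ^ (1 / 50 : ℝ) / 2)) := by
  have hT0 : 0 < T := by linarith
  have h1 := transfer_sq (mem_blk hC hT) (hd.twist (w := 1 / 2) (by norm_num)) le_rfl T τ
  have e1 : ∀ t : ℝ, GG κ C T M h g (tw (1 / 2) (fs (t * I))) =
      GG κ C T M h g (fs (1 / 2 + t * I)) := fun t => (hd.fs_add _ _).symm
  simp only [e1] at h1
  rw [VV_ratio hT0] at h1
  have h2 := (abs_le.1 h1).2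
  have e2 : (T ^ 2) ^ 2 = T ^ 4 := by ring
  rw [e2] at h2
  linarith

lemma eg_sum (hκ : 0 < κ) (hC : Adm κ M C) (hT : 1 < T)
    (hd : ∀ h g, DP (T ^ (94 / 100 : ℝ)) (T ^ 2) (GG κ C T M h g)) (τ : ℝ) :
    EG T τ (fun t => VV8 κ C T M (fs (1 / 2 + t * I))) ≤
      ER (SB8 C T M) (fun f => VV8 κ C T M (tw (1 / 2) f)) +
        (∑ x ∈ PR C T, ac κ C T M x.1 x.2) * (T ^ 4 * Real.exp (-(T ^ (1 / 50 : ℝ) / 2))) := by
  have hint : ∀ x ∈ PR C T, Integrable (fun t : ℝ => ac κ C T M x.1 x.2 *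
      ‖GG κ C T M x.1 x.2 (fs (1 / 2 + t * I))‖ ^ 2) (gaussianReal τ (VV T)) := by
    intro x _
    obtain ⟨h1, h2⟩ := Lower.dp_half (hd x.1 x.2)
    apply Integrable.const_mul
    refine Integrable.of_bound (C := (T ^ 2) ^ 2) ((h1.norm.pow 2).aestronglyMeasurable) ?_
    refine Filter.Eventually.of_forall fun t => ?_
    rw [Real.norm_eq_abs, abs_of_nonneg (by positivity)]
    exact pow_le_pow_left₀ (norm_nonneg _) (h2 t) 2
  have e1 : EG T τ (fun t => VV8 κ C T M (fs (1 / 2 + t * I))) =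
      ∑ x ∈ PR C T, ac κ C T M x.1 x.2 *
        EG T τ (fun t => ‖GG κ C T M x.1 x.2 (fs (1 / 2 + t * I))‖ ^ 2) := by
    simp only [EG, VV8_eq]
    rw [integral_finsetSum _ hint]
    refine Finset.sum_congr rfl fun x _ => ?_
    exact integral_const_mul _ _
  have e2 : ER (SB8 C T M) (fun f => VV8 κ C T M (tw (1 / 2) f)) =
      ∑ x ∈ PR C T, ac κ C T M x.1 x.2 *
        ER (SB8 C T M) (fun f => ‖GG κ C T M x.1 x.2 (tw (1 / 2) f)‖ ^ 2) := by
    simp only [ER_eq, VV8_eq]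
    rw [integral_finsetSum]
    · refine Finset.sum_congr rfl fun x _ => ?_
      exact integral_const_mul _ _
    · intro x _
      have h1 : BC (SB8 C T M) (fun f => GG κ C T M x.1 x.2 (tw (1 / 2) f)) :=
        ((hd x.1 x.2).twist (w := 1 / 2) (by norm_num)).eval_XX
      exact h1.norm_sq.integrable.const_mul _
  rw [e1, e2, Finset.sum_mul, ← Finset.sum_add_distrib]
  refine Finset.sum_le_sum fun x _ => ?_
  rw [← mul_add]
  exact mul_le_mul_of_nonneg_left (eg_one hC hT x.1 x.2 (hd x.1 x.2) τ) (ac_nonneg hκ _ _)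

end MV8

open MV8 in
/-- (V6) the Gaussian means of the weight -/
theorem stMeanV (hl : StLen8) : StMeanV := by
  intro κ h0 h1
  obtain ⟨M₀, hM₀⟩ := hl κ (1 / 100) h0 h1 (by norm_num)
  refine ⟨M₀, fun M hM C hC => ?_⟩
  obtain ⟨T₁, hT₁3, hT₁⟩ := hM₀ M hM
  obtain ⟨T₂, hT₂⟩ := Filter.eventually_atTop.mp ev_err
  refine ⟨max T₁ (max T₂ (cc κ C)), hT₁3.trans (le_max_left _ _), fun T hT τ => ?_⟩
  have hTa : T₁ ≤ T := (le_max_left _ _).trans hT
  have hTb : T₂ ≤ T := ((le_max_left _ _).trans (le_max_right _ _)).trans hT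
  have hTc : cc κ C ≤ T := ((le_max_right _ _).trans (le_max_right _ _)).trans hT
  have hT3 : 3 ≤ T := hT₁3.trans hTa
  have hT1 : 1 < T := by linarith
  have hT0 : 0 < T := by linarith
  have hd : ∀ h g, DP (T ^ (94 / 100 : ℝ)) (T ^ 2) (MV8.GG κ C T M h g) := fun h g =>
    dp_GG hC hT1 h g (hT₁ T hTa h).1 hTc
  have h2 := eg_sum h0 hC hT1 hd τ
  rw [ER_VV8 hC hT1] at h2
  refine h2.trans ?_
  have h3 : ∑ x ∈ PR C T, ac κ C T M x.1 x.2 ≤ T := by
    refine ((sum_ac h0).trans (hT₁ T hTa ∅).2).trans ?_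
    calc T ^ (1 / 100 : ℝ) ≤ T ^ (1 : ℝ) := Real.rpow_le_rpow_of_exponent_le hT1.le (by norm_num)
      _ = T := Real.rpow_one T
  have h4 := hT₂ T hTb
  have h5 : (∑ x ∈ PR C T, ac κ C T M x.1 x.2) * (T ^ 4 * Real.exp (-(T ^ (1 / 50 : ℝ) / 2))) ≤
      T ^ (-10 : ℝ) := by
    have h6 : T ^ (-10 : ℝ) = (T ^ 10)⁻¹ := by
      rw [Real.rpow_neg hT0.le]
      congr 1
      exact_mod_cast Real.rpow_natCast T 10
    rw [h6]
    have h7 : 0 < T ^ 10 := by positivity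
    rw [← one_div, le_div_iff₀ h7]
    have h8 : 0 ≤ T ^ 4 * Real.exp (-(T ^ (1 / 50 : ℝ) / 2)) := by positivity
    calc (∑ x ∈ PR C T, ac κ C T M x.1 x.2) * (T ^ 4 * Real.exp (-(T ^ (1 / 50 : ℝ) / 2))) * T ^ 10
        ≤ T * (T ^ 4 * Real.exp (-(T ^ (1 / 50 : ℝ) / 2))) * T ^ 10 := by gcongr
      _ = T ^ 15 * Real.exp (-(T ^ (1 / 50 : ℝ) / 2)) := by ring
      _ ≤ 1 := h4
  linarith

end K8
end Pool.Agent.Lib.MP_973905_nt
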