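import Pool.Agent.Lib.MP_973905_nt.K8.Stmts

/-! The final numerical inequality (K8, module N9). -/

namespace Pool.Agent.Lib.MP_973905_nt
namespace K8

open MeasureTheory ProbabilityTheory Complex Filter Topology K1 K4 K5

namespace Num8

lemma harm : (54253 / 10000 : ℚ) ≤ harmonic 127 := by decide +kernel

lemma gamma_ge : (573 / 1000 : ℝ) ≤ Real.eulerMascheroniConstant := by
  have h1 := Real.eulerMascheroniSeq_lt_eulerMascheroniConstant 127
  unfold Real.eulerMascheroniSeq at h1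
  have h2 : Real.log ((127 : ℕ) + 1) = 7 * Real.log 2 := by
    rw [show (((127 : ℕ) : ℝ) + 1) = 2 ^ 7 by norm_num, Real.log_pow]
    norm_num
  rw [h2] at h1
  have h3 : ((54253 / 10000 : ℚ) : ℝ) ≤ ((harmonic 127 : ℚ) : ℝ) := by
    exact_mod_cast harm
  have h4 := Real.log_two_lt_d9
  push_cast at h3
  linarith

/-- upper bounds for logarithms -/
lemma log_le (x L : ℝ) (n : ℕ) (hx : 0 < x) (hL : 0 ≤ L)
    (h : x ≤ ∑ i ∈ Finset.range n, L ^ i / (i.factorial : ℝ)) : Real.log x ≤ L :=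
  (Real.log_le_iff_le_exp hx).2 (h.trans (Real.sum_le_exp_of_nonneg hL n))

lemma s2_eq (n : ℕ) : s2 n = Real.pi ^ 2 / 6 - ∑ i ∈ Finset.range n, 1 / (i : ℝ) ^ 2 := by
  have h := hasSum_zeta_two
  have h1 := h.summable.sum_add_tsum_nat_add n
  rw [h.tsum_eq] at h1
  have h2 : s2 n = ∑' i : ℕ, 1 / ((i + n : ℕ) : ℝ) ^ 2 := by
    unfold s2
    exact tsum_congr fun i => by rw [add_comm]
  rw [h2]
  linarith

lemma pi_sq : Real.pi ^ 2 / 6 ≤ 16450 / 10000 := by
  have h := Real.pi_lt_d4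
  have h0 := Real.pi_pos
  nlinarith

lemma summable_s2 (n : ℕ) : Summable fun i : ℕ => 1 / ((n + i : ℕ) : ℝ) ^ 2 := by
  have h := (summable_nat_add_iff n).2 hasSum_zeta_two.summable
  refine h.congr fun i => ?_
  rw [add_comm]

lemma s4_le (n : ℕ) (hn : 1 ≤ n) : s4 n ≤ s2 n / (n : ℝ) ^ 2 := by
  have hn0 : (0 : ℝ) < n := by exact_mod_cast hn
  unfold s4 s2
  rw [← tsum_div_const]
  have hs := (summable_s2 n).div_const ((n : ℝ) ^ 2)
  have hle : ∀ i : ℕ, 1 / ((n + i : ℕ) : ℝ) ^ 4 ≤ 1 / ((n + i : ℕ) : ℝ) ^ 2 / (n : ℝ) ^ 2 := by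
    intro i
    have h1 : (n : ℝ) ≤ ((n + i : ℕ) : ℝ) := by push_cast; linarith [(Nat.cast_nonneg i : (0 : ℝ) ≤ i)]
    have h2 : (0 : ℝ) < ((n + i : ℕ) : ℝ) := by linarith
    rw [div_div, div_le_div_iff_of_pos_left one_pos (by positivity) (by positivity)]
    have h3 : (n : ℝ) ^ 2 ≤ ((n + i : ℕ) : ℝ) ^ 2 := pow_le_pow_left₀ hn0.le h1 2
    nlinarith [sq_nonneg (((n + i : ℕ) : ℝ))]
  refine Summable.tsum_le_tsum hle ?_ hs
  exact Summable.of_nonneg_of_le (fun i => by positivity) hle hs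

/-- the reduction to a polynomial inequality -/
lemma master (κ : ℝ) (h0 : 0 < κ) (h1 : κ < 1) (n : ℕ) (hn : 1 ≤ n) (hd : d0 κ = n)
    (z0 k0 lk Ly c c2 z : ℝ) (hz0 : 0 < z0) (hk0 : 0 < k0) (hc0 : 0 < c)
    (hlk : Real.log (1 / k0) ≤ lk) (hLy : Real.log z0 ≤ Ly)
    (hc2 : s2 n ≤ c2)
    (hz : z = ((1 + κ) * (1582 / 1000 * n + 921 / 1000) + 1582 / 1000 * κ) / (93 / 100))
    (hc : 1 + κ ≤ c * (z - 2 * κ ^ 2))
    (hP : 0 ≤ κ * (1 - lk) - k0 + (1 + κ) * (573 / 1000 - Ly + 1 - z / z0) + 18 / 5 * κ -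
      2 * c * κ - (5 / 6 * (κ * (1 + κ)) ^ 2 - (1 + κ) * κ ^ 3 / 2) * c2 -
      κ ^ 2 * (c2 / (n : ℝ) ^ 2) / 4 + (83 / 100 + 7 / 5 * κ + 1 / 5 * κ ^ 2)) :
    κ * Real.log κ - 18 / 5 * κ ^ 2 ≤
      κ * (1 + κ) * (Real.eulerMascheroniConstant + Real.log (th κ)) +
        (1 + κ) * Real.log (1 - 2 * κ * th κ) - LamB κ +
        κ * (83 / 100 + 7 / 5 * κ + 1 / 5 * κ ^ 2) := by
  have hn1 : (1 : ℝ) ≤ n := by exact_mod_cast hn
  have hzpos : 0 < z := by rw [hz]; positivity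
  have hth : th κ = κ / z := by
    unfold th
    rw [hd, hz]
    field_simp
  have hlth : Real.log (th κ) = Real.log κ - Real.log z := by
    rw [hth, Real.log_div h0.ne' hzpos.ne']
  have hlz : Real.log z ≤ Ly + z / z0 - 1 := by
    have e1 : Real.log z = Real.log z0 + Real.log (z / z0) := by
      rw [← Real.log_mul hz0.ne' (by positivity)]
      congr 1
      field_simp
    have e2 := Real.log_le_sub_one_of_pos (x := z / z0) (by positivity)
    linarith
  have hlκ : κ * (1 - lk) - k0 ≤ κ * Real.log κ := by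
    have e1 : Real.log κ = Real.log (κ / k0) - Real.log (1 / k0) := by
      rw [Real.log_div h0.ne' hk0.ne', Real.log_div one_ne_zero hk0.ne', Real.log_one]
      ring
    have e2 := Real.one_sub_inv_le_log_of_pos (x := κ / k0) (by positivity)
    have e3 : κ * (1 - (κ / k0)⁻¹) = κ - k0 := by
      field_simp
    have e4 := mul_le_mul_of_nonneg_left e2 h0.le
    have e5 := mul_le_mul_of_nonneg_left hlk h0.le
    rw [e3] at e4
    rw [e1]
    linarith
  have hκ2 : 0 < κ ^ 2 := by positivity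
  have hzz : 0 < z - 2 * κ ^ 2 := by
    by_contra hcon
    push Not at hcon
    have : c * (z - 2 * κ ^ 2) ≤ 0 := mul_nonpos_of_nonneg_of_nonpos hc0.le hcon
    linarith
  have hl3 : -(2 * c * κ ^ 2) ≤ (1 + κ) * Real.log (1 - 2 * κ * th κ) := by
    have e1 : 1 - 2 * κ * th κ = (z - 2 * κ ^ 2) / z := by
      rw [hth]
      field_simp
    have e2 := Real.one_sub_inv_le_log_of_pos (x := (z - 2 * κ ^ 2) / z) (by positivity)
    have e3 : 1 - ((z - 2 * κ ^ 2) / z)⁻¹ = -(2 * κ ^ 2 / (z - 2 * κ ^ 2)) := by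
      field_simp
      ring
    rw [e3] at e2
    have e4 : (1 + κ) * (2 * κ ^ 2 / (z - 2 * κ ^ 2)) ≤ 2 * c * κ ^ 2 := by
      rw [← mul_div_assoc, div_le_iff₀ hzz]
      have := mul_le_mul_of_nonneg_left hc (by positivity : 0 ≤ 2 * κ ^ 2)
      linarith
    rw [e1]
    have e5 := mul_le_mul_of_nonneg_left e2 (by linarith : 0 ≤ 1 + κ)
    linarith
  have hs2 : 0 ≤ s2 n := by
    unfold s2
    exact tsum_nonneg fun i => by positivity
  have hLam : LamB κ ≤ κ * ((5 / 6 * (κ * (1 + κ)) ^ 2 - (1 + κ) * κ ^ 3 / 2) * c2 +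
      κ ^ 2 * (c2 / (n : ℝ) ^ 2) / 4) := by
    unfold LamB
    rw [hd]
    have e1 : 0 ≤ 5 / 6 * κ * (κ * (1 + κ)) ^ 2 - (1 + κ) * κ ^ 4 / 2 := by
      have : 5 / 6 * κ * (κ * (1 + κ)) ^ 2 - (1 + κ) * κ ^ 4 / 2 =
          (1 + κ) * κ ^ 3 * (5 / 6 * (1 + κ) - κ / 2) := by ring
      rw [this]
      have : 0 ≤ 5 / 6 * (1 + κ) - κ / 2 := by linarith
      positivity
    have e2 := mul_le_mul_of_nonneg_left hc2 e1
    have e3 : s4 n ≤ c2 / (n : ℝ) ^ 2 :=
      (s4_le n hn).trans (div_le_div_of_nonneg_right hc2 (by positivity))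
    have e4 : 0 ≤ c2 / (n : ℝ) ^ 2 := div_nonneg (hs2.trans hc2) (by positivity)
    have e5 : (1 + κ) * κ ^ 8 / 8 ≤ κ ^ 3 / 4 := by
      have f1 : κ ^ 8 ≤ κ ^ 3 := pow_le_pow_of_le_one h0.le h1.le (by norm_num)
      have f2 : κ * κ ^ 8 ≤ 1 * κ ^ 8 := mul_le_mul_of_nonneg_right h1.le (by positivity)
      linarith
    have e6 : (1 + κ) * κ ^ 8 / 8 * s4 n ≤ κ ^ 3 / 4 * (c2 / (n : ℝ) ^ 2) := by
      have g1 : (1 + κ) * κ ^ 8 / 8 * s4 n ≤ (1 + κ) * κ ^ 8 / 8 * (c2 / (n : ℝ) ^ 2) :=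
        mul_le_mul_of_nonneg_left e3 (by positivity)
      exact g1.trans (mul_le_mul_of_nonneg_right e5 e4)
    calc _ ≤ (5 / 6 * κ * (κ * (1 + κ)) ^ 2 - (1 + κ) * κ ^ 4 / 2) * c2 +
        κ ^ 3 / 4 * (c2 / (n : ℝ) ^ 2) := add_le_add e2 e6
      _ = _ := by ring
  have hγ := gamma_ge
  have hA : κ * (1 + κ) * (573 / 1000 - Ly + 1 - z / z0) + κ * (κ * (1 - lk) - k0) +
      κ * Real.log κ ≤ κ * (1 + κ) * (Real.eulerMascheroniConstant + Real.log (th κ)) := by
    rw [hlth]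
    have f1 : κ * (1 + κ) * (573 / 1000 - Ly + 1 - z / z0) ≤
        κ * (1 + κ) * (Real.eulerMascheroniConstant - Real.log z) :=
      mul_le_mul_of_nonneg_left (by linarith) (by positivity)
    have f2 := mul_le_mul_of_nonneg_left hlκ h0.le
    linarith
  have hPκ := mul_nonneg h0.le hP
  linarith

/-- the piece `d0 κ = 1` -/
lemma piece1 (κ : ℝ) (h0 : 0 < κ) (h1 : κ < 1) (hd : d0 κ = 1)
    (ha : 0 ≤ κ) (hb : κ ≤ 2638/10000) :
    κ * Real.log κ - 18 / 5 * κ ^ 2 ≤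
      κ * (1 + κ) * (Real.eulerMascheroniConstant + Real.log (th κ)) +
        (1 + κ) * Real.log (1 - 2 * κ * th κ) - LamB κ +
        κ * (83 / 100 + 7 / 5 * κ + 1 / 5 * κ ^ 2) := by
  have ha' := sub_nonneg.2 ha
  have hb' := sub_nonneg.2 hb
  have hab := mul_nonneg ha' hb'
  refine master κ h0 h1 1 (by norm_num) hd (32/10) (1/10) (2303/1000) (11632/10000) (38/100) (1645/1000) _
    (by norm_num) (by norm_num) (by norm_num) ?_ ?_ ?_ rfl ?_ ?_
  · exact log_le _ _ 14 (by norm_num) (by norm_num) (by norm_num [Finset.sum_range_succ, Nat.factorial])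
  · exact log_le _ _ 14 (by norm_num) (by norm_num) (by norm_num [Finset.sum_range_succ, Nat.factorial])
  · rw [s2_eq]
    have := pi_sq
    norm_num [Finset.sum_range_succ]
    linarith
  · push_cast
    nlinarith [hab]
  · push_cast
    nlinarith [hab, mul_nonneg hab ha', mul_nonneg hab hb', mul_nonneg hab hab]

/-- the piece `d0 κ = 2` -/
lemma piece2 (κ : ℝ) (h0 : 0 < κ) (h1 : κ < 1) (hd : d0 κ = 2)
    (ha : 2637/10000 ≤ κ) (hb : κ ≤ 4575/10000) :
    κ * Real.log κ - 18 / 5 * κ ^ 2 ≤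
      κ * (1 + κ) * (Real.eulerMascheroniConstant + Real.log (th κ)) +
        (1 + κ) * Real.log (1 - 2 * κ * th κ) - LamB κ +
        κ * (83 / 100 + 7 / 5 * κ + 1 / 5 * κ ^ 2) := by
  have ha' := sub_nonneg.2 ha
  have hb' := sub_nonneg.2 hb
  have hab := mul_nonneg ha' hb'
  refine master κ h0 h1 2 (by norm_num) hd (61/10) (28/100) (12731/10000) (18084/10000) (217/1000) (645/1000) _
    (by norm_num) (by norm_num) (by norm_num) ?_ ?_ ?_ rfl ?_ ?_
  · exact log_le _ _ 14 (by norm_num) (by norm_num) (by norm_num [Finset.sum_range_succ, Nat.factorial])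
  · exact log_le _ _ 14 (by norm_num) (by norm_num) (by norm_num [Finset.sum_range_succ, Nat.factorial])
  · rw [s2_eq]
    have := pi_sq
    norm_num [Finset.sum_range_succ]
    linarith
  · push_cast
    nlinarith [hab]
  · push_cast
    nlinarith [hab, mul_nonneg hab ha', mul_nonneg hab hb', mul_nonneg hab hab]

/-- the piece `d0 κ = 3` -/
lemma piece3 (κ : ℝ) (h0 : 0 < κ) (h1 : κ < 1) (hd : d0 κ = 3)
    (ha : 4574/10000 ≤ κ) (hb : κ ≤ 6181/10000) :
    κ * Real.log κ - 18 / 5 * κ ^ 2 ≤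
      κ * (1 + κ) * (Real.eulerMascheroniConstant + Real.log (th κ)) +
        (1 + κ) * Real.log (1 - 2 * κ * th κ) - LamB κ +
        κ * (83 / 100 + 7 / 5 * κ + 1 / 5 * κ ^ 2) := by
  have ha' := sub_nonneg.2 ha
  have hb' := sub_nonneg.2 hb
  have hab := mul_nonneg ha' hb'
  refine master κ h0 h1 3 (by norm_num) hd (98/10) (47/100) (7551/10000) (22825/10000) (161/1000) (395/1000) _
    (by norm_num) (by norm_num) (by norm_num) ?_ ?_ ?_ rfl ?_ ?_
  · exact log_le _ _ 14 (by norm_num) (by norm_num) (by norm_num [Finset.sum_range_succ, Nat.factorial])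
  · exact log_le _ _ 14 (by norm_num) (by norm_num) (by norm_num [Finset.sum_range_succ, Nat.factorial])
  · rw [s2_eq]
    have := pi_sq
    norm_num [Finset.sum_range_succ]
    linarith
  · push_cast
    nlinarith [hab]
  · push_cast
    nlinarith [hab, mul_nonneg hab ha', mul_nonneg hab hb', mul_nonneg hab hab]

/-- the piece `d0 κ = 4` -/
lemma piece4 (κ : ℝ) (h0 : 0 < κ) (h1 : κ < 1) (hd : d0 κ = 4)
    (ha : 6180/10000 ≤ κ) (hb : κ ≤ 7584/10000) :
    κ * Real.log κ - 18 / 5 * κ ^ 2 ≤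
      κ * (1 + κ) * (Real.eulerMascheroniConstant + Real.log (th κ)) +
        (1 + κ) * Real.log (1 - 2 * κ * th κ) - LamB κ +
        κ * (83 / 100 + 7 / 5 * κ + 1 / 5 * κ ^ 2) := by
  have ha' := sub_nonneg.2 ha
  have hb' := sub_nonneg.2 hb
  have hab := mul_nonneg ha' hb'
  refine master κ h0 h1 4 (by norm_num) hd (138/10) (63/100) (4621/10000) (26248/10000) (128/1000) (284/1000) _
    (by norm_num) (by norm_num) (by norm_num) ?_ ?_ ?_ rfl ?_ ?_
  · exact log_le _ _ 14 (by norm_num) (by norm_num) (by norm_num [Finset.sum_range_succ, Nat.factorial])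
  · exact log_le _ _ 14 (by norm_num) (by norm_num) (by norm_num [Finset.sum_range_succ, Nat.factorial])
  · rw [s2_eq]
    have := pi_sq
    norm_num [Finset.sum_range_succ]
    linarith
  · push_cast
    nlinarith [hab]
  · push_cast
    nlinarith [hab, mul_nonneg hab ha', mul_nonneg hab hb', mul_nonneg hab hab]

/-- the piece `d0 κ = 5` -/
lemma piece5 (κ : ℝ) (h0 : 0 < κ) (h1 : κ < 1) (hd : d0 κ = 5)
    (ha : 7583/10000 ≤ κ) (hb : κ ≤ 8845/10000) :
    κ * Real.log κ - 18 / 5 * κ ^ 2 ≤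
      κ * (1 + κ) * (Real.eulerMascheroniConstant + Real.log (th κ)) +
        (1 + κ) * Real.log (1 - 2 * κ * th κ) - LamB κ +
        κ * (83 / 100 + 7 / 5 * κ + 1 / 5 * κ ^ 2) := by
  have ha' := sub_nonneg.2 ha
  have hb' := sub_nonneg.2 hb
  have hab := mul_nonneg ha' hb'
  refine master κ h0 h1 5 (by norm_num) hd (181/10) (77/100) (2615/10000) (2896/1000) (107/1000) (2214/10000) _
    (by norm_num) (by norm_num) (by norm_num) ?_ ?_ ?_ rfl ?_ ?_
  · exact log_le _ _ 14 (by norm_num) (by norm_num) (by norm_num [Finset.sum_range_succ, Nat.factorial])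
  · exact log_le _ _ 14 (by norm_num) (by norm_num) (by norm_num [Finset.sum_range_succ, Nat.factorial])
  · rw [s2_eq]
    have := pi_sq
    norm_num [Finset.sum_range_succ]
    linarith
  · push_cast
    nlinarith [hab]
  · push_cast
    nlinarith [hab, mul_nonneg hab ha', mul_nonneg hab hb', mul_nonneg hab hab]

/-- the piece `d0 κ = 6` -/
lemma piece6 (κ : ℝ) (h0 : 0 < κ) (h1 : κ < 1) (hd : d0 κ = 6)
    (ha : 8844/10000 ≤ κ) (hb : κ ≤ 1) :
    κ * Real.log κ - 18 / 5 * κ ^ 2 ≤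
      κ * (1 + κ) * (Real.eulerMascheroniConstant + Real.log (th κ)) +
        (1 + κ) * Real.log (1 - 2 * κ * th κ) - LamB κ +
        κ * (83 / 100 + 7 / 5 * κ + 1 / 5 * κ ^ 2) := by
  have ha' := sub_nonneg.2 ha
  have hb' := sub_nonneg.2 hb
  have hab := mul_nonneg ha' hb'
  refine master κ h0 h1 6 (by norm_num) hd (227/10) (89/100) (1166/10000) (31225/10000) (915/10000) (1814/10000) _
    (by norm_num) (by norm_num) (by norm_num) ?_ ?_ ?_ rfl ?_ ?_
  · exact log_le _ _ 14 (by norm_num) (by norm_num) (by norm_num [Finset.sum_range_succ, Nat.factorial])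
  · exact log_le _ _ 14 (by norm_num) (by norm_num) (by norm_num [Finset.sum_range_succ, Nat.factorial])
  · rw [s2_eq]
    have := pi_sq
    norm_num [Finset.sum_range_succ]
    linarith
  · push_cast
    nlinarith [hab]
  · push_cast
    nlinarith [hab, mul_nonneg hab ha', mul_nonneg hab hb', mul_nonneg hab hab]

end Num8

/-- (N9) -/
theorem stNum8 : StNum8 := by
  intro κ h0 h1
  have hpos : 0 < 3 * (κ * (1 + κ)) := by positivity
  have hlt : 3 * (κ * (1 + κ)) < 6 := by nlinarith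
  have hle : d0 κ ≤ 6 := by
    unfold d0
    refine Nat.ceil_le.2 ?_
    push_cast
    exact hlt.le
  have hge : 1 ≤ d0 κ := by
    unfold d0
    exact Nat.one_le_iff_ne_zero.2 (Nat.ceil_pos.2 hpos).ne'
  have hup : 3 * (κ * (1 + κ)) ≤ d0 κ := Nat.le_ceil _
  have hlo : (d0 κ : ℝ) < 3 * (κ * (1 + κ)) + 1 := Nat.ceil_lt_add_one hpos.le
  have key : ∀ n : ℕ, d0 κ = n → 3 * (κ * (1 + κ)) ≤ n ∧ (n : ℝ) < 3 * (κ * (1 + κ)) + 1 := by
    intro n hn
    rw [hn] at hup hlo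
    exact ⟨hup, hlo⟩
  have hcases : d0 κ = 1 ∨ d0 κ = 2 ∨ d0 κ = 3 ∨ d0 κ = 4 ∨ d0 κ = 5 ∨ d0 κ = 6 := by omega
  rcases hcases with h | h | h | h | h | h
  · obtain ⟨e1, e2⟩ := key 1 h
    push_cast at e1 e2
    refine Num8.piece1 κ h0 h1 h ?_ ?_
    · exact h0.le
    · by_contra hc; push Not at hc; nlinarith
  · obtain ⟨e1, e2⟩ := key 2 h
    push_cast at e1 e2
    refine Num8.piece2 κ h0 h1 h ?_ ?_
    · by_contra hc; push Not at hc; nlinarith
    · by_contra hc; push Not at hc; nlinarith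
  · obtain ⟨e1, e2⟩ := key 3 h
    push_cast at e1 e2
    refine Num8.piece3 κ h0 h1 h ?_ ?_
    · by_contra hc; push Not at hc; nlinarith
    · by_contra hc; push Not at hc; nlinarith
  · obtain ⟨e1, e2⟩ := key 4 h
    push_cast at e1 e2
    refine Num8.piece4 κ h0 h1 h ?_ ?_
    · by_contra hc; push Not at hc; nlinarith
    · by_contra hc; push Not at hc; nlinarith
  · obtain ⟨e1, e2⟩ := key 5 h
    push_cast at e1 e2
    refine Num8.piece5 κ h0 h1 h ?_ ?_
    · by_contra hc; push Not at hc; nlinarith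
    · by_contra hc; push Not at hc; nlinarith
  · obtain ⟨e1, e2⟩ := key 6 h
    push_cast at e1 e2
    refine Num8.piece6 κ h0 h1 h ?_ ?_
    · by_contra hc; push Not at hc; nlinarith
    · exact h1.le

end K8
end Pool.Agent.Lib.MP_973905_nt
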