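import Pool.Agent.Lib.MP_973905_nt.K8.Stmts
import Pool.Agent.Lib.MP_973905_nt.K5.SecF
import Pool.Agent.Lib.MP_973905_nt.K5.Rho

/-! (Z6) lower bound for the Gaussian means on the side of zeta: `stSecZ`. -/

namespace Pool.Agent.Lib.MP_973905_nt
namespace K8

open MeasureTheory ProbabilityTheory Complex Filter Topology K1 K4 K5

namespace SecZAux

/-- the exact evaluation with an entire function -/
lemma long_apply (hL : K5.StLong) (hq : StBQZ) (hf : StFactZ) {κ : ℝ} (hk0 : 0 < κ)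
    (hk1 : κ < 1) :
    ∃ M₀ : ℕ, ∀ M : ℕ, M₀ ≤ M → ∀ C : Cfg, Adm κ M C → ∃ T₀ : ℝ, 3 ≤ T₀ ∧ ∀ T, T₀ ≤ T →
      ∃ R : ℂ → ℂ, Differentiable ℂ R ∧
      (∀ w : ℂ, ‖w‖ ≤ 1 / Real.log T → R w =
        (∏ j ∈ Finset.range (JJ T + 1), EBo T M (1 + κ) (Finset.range (JJ T + 1)) ∅ w j) *
          ∏ i ∈ Finset.range C.N, ETz C T w i) ∧
      ∀ τ : ℝ, T / Real.log T ≤ |τ| → |τ| ≤ 3 / 2 * T →
        (R 0 * ((Real.log (|τ| / (2 * Real.pi)) + 2 * Real.eulerMascheroniConstant : ℝ) : ℂ) +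
          deriv R 0).re - T ^ (-(5 / 1000) : ℝ) ≤
        EG T τ (fun t => ‖riemannZeta (1 / 2 + t * I)‖ ^ 2 *
          ‖GW κ C T M (fs (1 / 2 + t * I))‖ ^ 2) := by
  obtain ⟨M₁, h1⟩ := hq κ hk0 hk1
  obtain ⟨T₂, hT₂, h2⟩ := hL
  refine ⟨M₁, fun M hM C hC => ?_⟩
  obtain ⟨T₁, hT₁, h1⟩ := h1 M hM C hC
  obtain ⟨T₃, hT₃, h3⟩ := hf κ hk0 hk1 M C hC
  refine ⟨max T₁ (max T₂ T₃), hT₁.trans (le_max_left _ _), fun T hT => ?_⟩
  have hTT₁ : T₁ ≤ T := (le_max_left _ _).trans hT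
  have hTT₂ : T₂ ≤ T := (le_max_left _ _).trans ((le_max_right _ _).trans hT)
  have hTT₃ : T₃ ≤ T := (le_max_right _ _).trans ((le_max_right _ _).trans hT)
  have hT3 : 3 ≤ T := hT₁.trans hTT₁
  have hT0 : 0 < T := by linarith
  obtain ⟨c, hc1, hc2, hc3⟩ := h1 T hTT₁
  set N := ⌊T ^ (89 / 100 : ℝ)⌋₊ with hN
  have hNT : (N : ℝ) ≤ T := by
    refine (Nat.floor_le (Real.rpow_nonneg hT0.le _)).trans ?_
    calc T ^ (89 / 100 : ℝ) ≤ T ^ (1 : ℝ) :=
          Real.rpow_le_rpow_of_exponent_le (by linarith) (by norm_num)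
      _ = T := Real.rpow_one T
  refine ⟨RB N c, K5.SecFAux.RB_diff N c, fun w hw => ?_, fun τ hτ1 hτ2 => ?_⟩
  · exact h3 T hTT₃ N c hNT (fun f hf' => hc3 f hf') w hw
  · have h4 := h2 T hTT₂ τ hτ1 hτ2 N c hNT hc1 hc2
    have h5 : EG T τ (fun t => ((‖riemannZeta (1 / 2 + t * I)‖ ^ 2 : ℝ) : ℂ) *
        GB N c (fs (1 / 2 + t * I))) =
        ((EG T τ (fun t => ‖riemannZeta (1 / 2 + t * I)‖ ^ 2 *
          ‖GW κ C T M (fs (1 / 2 + t * I))‖ ^ 2) : ℝ) : ℂ) := by
      unfold EG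
      refine Eq.trans (integral_congr_ae (Filter.Eventually.of_forall fun t => ?_))
        integral_complex_ofReal
      show _ * _ = _
      rw [← hc3 _ (cmul_fs _), ← Complex.ofReal_mul]
    rw [h5] at h4
    have h6 := (Complex.abs_re_le_norm _).trans h4
    rw [Complex.sub_re, Complex.ofReal_re] at h6
    have := (abs_le.1 h6).1
    linarith

/-- the factors of the limit are bounded on the unit disc -/
lemma fac_bound {κ : ℝ} {M : ℕ} {C : Cfg} (hC : Adm κ M C) : ∃ B : ℝ, 0 ≤ B ∧ ∀ i, i < C.N →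
    ∀ u : ℂ, ‖u‖ ≤ 1 → ‖LG (C.D i) (vv (C.te (i + 1)) (C.te i) u + (C.c i : ℂ)) (C.V i : ℂ) /
      (C.m i : ℂ) ^ (2 * C.D i)‖ ≤ B := by
  have h1 : ∀ i, i < C.N → ∃ B : ℝ, ∀ u : ℂ, ‖u‖ ≤ 1 →
      ‖LG (C.D i) (vv (C.te (i + 1)) (C.te i) u + (C.c i : ℂ)) (C.V i : ℂ) /
        (C.m i : ℂ) ^ (2 * C.D i)‖ ≤ B := by
    intro i hi
    have hv : Continuous (vv (C.te (i + 1)) (C.te i)) := by
      rw [continuous_iff_continuousAt]
      intro u
      exact (K5.RhoA.vv_hasDeriv (hC.hpos (i + 1) (by omega)) (hC.hdec i hi).le u).continuousAt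
    have hg : Continuous (fun u : ℂ => LG (C.D i) (vv (C.te (i + 1)) (C.te i) u + (C.c i : ℂ))
        (C.V i : ℂ) / (C.m i : ℂ) ^ (2 * C.D i)) := by
      apply Continuous.div_const
      unfold LG
      fun_prop
    obtain ⟨B, hB⟩ := (isCompact_closedBall (0 : ℂ) 1).exists_bound_of_continuousOn
      hg.continuousOn
    refine ⟨B, fun u hu => hB u ?_⟩
    rw [mem_closedBall_zero_iff]
    exact hu
  choose! B hB using h1
  refine ⟨∑ i ∈ Finset.range C.N, |B i|, Finset.sum_nonneg fun i _ => abs_nonneg _, ?_⟩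
  intro i hi u hu
  refine (hB i hi u hu).trans ((le_abs_self _).trans ?_)
  exact Finset.single_le_sum (f := fun i => |B i|) (fun j _ => abs_nonneg _)
    (Finset.mem_range.2 hi)

/-- the logarithm of the conductor from below -/
lemma log_lower {T τ : ℝ} (hT : 3 ≤ T) (h1 : T / Real.log T ≤ |τ|) :
    Real.log T - Real.log (Real.log T) - 2 ≤
      Real.log (|τ| / (2 * Real.pi)) + 2 * Real.eulerMascheroniConstant := by
  have hT0 : 0 < T := by linarith
  have hL : 0 < Real.log T := Real.log_pos (by linarith)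
  have hg1 := Real.one_half_lt_eulerMascheroniConstant
  have hpi := Real.pi_pos
  have h2 : 0 < T / Real.log T := div_pos hT0 hL
  have h3 : Real.log (T / Real.log T / (2 * Real.pi)) ≤ Real.log (|τ| / (2 * Real.pi)) := by
    apply Real.log_le_log (by positivity)
    exact div_le_div_of_nonneg_right h1 (by positivity)
  rw [Real.log_div h2.ne' (by positivity), Real.log_div hT0.ne' hL.ne'] at h3
  have h4 : Real.log (2 * Real.pi) ≤ 3 := by
    have h5 : 2 * Real.pi ≤ Real.exp 3 := by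
      have h6 := Real.pi_lt_four
      have h7 : (2 : ℝ) ^ 3 ≤ Real.exp 1 ^ 3 :=
        pow_le_pow_left₀ (by norm_num) (by linarith [Real.add_one_le_exp (1 : ℝ)]) 3
      have h8 : Real.exp 1 ^ 3 = Real.exp 3 := by
        rw [← Real.exp_nat_mul]
        norm_num
      linarith
    calc Real.log (2 * Real.pi) ≤ Real.log (Real.exp 3) :=
          Real.log_le_log (by positivity) h5
      _ = 3 := Real.log_exp 3
  linarith

end SecZAux

open K5.SecFAux SecZAux in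
theorem stSecZ (hL : K5.StLong) (hq : StBQZ) (hf : StFactZ) (hm : K7.StBotA) (ht : StTop8)
    (hr : StRhoZ) (hA : K7.StAK7) : StSecZ := by
  intro κ hk0 hk1 η hη
  obtain ⟨K, hK1, hr⟩ := hr
  have hK0 : 0 < K := by linarith
  obtain ⟨Ml, hl⟩ := SecZAux.long_apply hL hq hf hk0 hk1
  set η3 : ℝ := min η 1 / 8 with hη3
  have hmin : 0 < min η 1 := lt_min hη one_pos
  have hη30 : 0 < η3 := by positivity
  have hη3a : 8 * η3 ≤ η := by
    have := min_le_left η 1
    rw [hη3]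
    linarith
  have hη3b : η3 ≤ 1 / 8 := by
    have := min_le_right η 1
    rw [hη3]
    linarith
  set η1 : ℝ := η3 / (2 * (K + 1)) with hη1
  set η2 : ℝ := η3 / 2 with hη2
  have hη10 : 0 < η1 := by positivity
  have hη20 : 0 < η2 := by positivity
  obtain ⟨Mm, hm⟩ := hm κ hk0 hk1 η1 hη10
  refine ⟨max Ml Mm, fun M hM C hC => ?_⟩
  obtain ⟨hρd, haZ, -, hr80, hρ0, hρ', hρK⟩ := hr κ hk0 hk1 M C hC
  obtain ⟨T₁, hT₁, h1⟩ := hl M ((le_max_left _ _).trans hM) C hC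
  obtain ⟨T₂, hT₂, h2⟩ := hm M ((le_max_right _ _).trans hM)
  obtain ⟨Cb, hCb0, hCb⟩ := SecZAux.fac_bound hC
  set n := C.N with hn
  set PA : ℝ := ∏ i ∈ Finset.range n, aZ C i with hPA
  have hPA0 : 0 < PA := Finset.prod_pos fun i hi => haZ i (Finset.mem_range.1 hi)
  -- the precision for the top blocks
  set ε : ℝ := min 1 (η2 * PA / ((n + 1) * (Cb + 1) ^ n)) with hε
  have hε0 : 0 < ε := lt_min one_pos (by positivity)
  have hε1 : ε ≤ 1 := min_le_left _ _
  have hεn : n * (Cb + 1) ^ n * ε ≤ η2 * PA := by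
    have e1 : ε ≤ η2 * PA / ((n + 1) * (Cb + 1) ^ n) := min_le_right _ _
    rw [le_div_iff₀ (by positivity)] at e1
    have e2 : 0 ≤ (Cb + 1) ^ n * ε := by positivity
    nlinarith
  obtain ⟨T₃, hT₃, h3⟩ := unif (P := fun i T => i < n → ∀ u : ℂ, ‖u‖ ≤ 1 →
    ‖ETz C T (u / Real.log T) i -
      LG (C.D i) (vv (C.te (i + 1)) (C.te i) u + (C.c i : ℂ)) (C.V i : ℂ) /
        (C.m i : ℂ) ^ (2 * C.D i)‖ ≤ ε) (by
      intro i
      by_cases hi : i < n
      · obtain ⟨S, hS, hS'⟩ := ht κ hk0 hk1 M C hC i hi ε hε0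
        exact ⟨S, hS, fun T hT _ => (hS' T hT).1⟩
      · exact ⟨3, le_rfl, fun T _ h => absurd h hi⟩) n
  have haK : 0 < aK (1 + κ) := (hA (1 + κ) (by linarith) (by linarith)).1
  -- the size of `T`
  have hev : ∀ᶠ T : ℝ in atTop, Real.log (Real.log T) + 2 ≤ η3 * Real.log T ∧
      Real.exp M ≤ Real.log T ∧ T ^ (-(5 / 1000) : ℝ) ≤ η3 * (aK (1 + κ) * PA) := by
    have e1 : ∀ᶠ T : ℝ in atTop, Real.log (Real.log T) ≤ η3 / 2 * Real.log T := by
      have h5 := Real.isLittleO_log_id_atTop.def (c := η3 / 2) (by positivity)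
      have h6 := Real.tendsto_log_atTop.eventually h5
      filter_upwards [h6, Real.tendsto_log_atTop.eventually_ge_atTop 1] with T h7 h8
      rw [Real.norm_of_nonneg (Real.log_nonneg h8), id, Real.norm_of_nonneg (by linarith)] at h7
      exact h7
    have e2 := Real.tendsto_log_atTop.eventually_ge_atTop (Real.exp M)
    have e3 : ∀ᶠ T : ℝ in atTop, T ^ (-(5 / 1000) : ℝ) < η3 * (aK (1 + κ) * PA) :=
      (tendsto_rpow_neg_atTop (show (0 : ℝ) < 5 / 1000 by norm_num)).eventually_lt_const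
        (by positivity)
    have e4 := Real.tendsto_log_atTop.eventually_ge_atTop (4 / η3)
    filter_upwards [e1, e2, e3, e4] with T a b c d
    refine ⟨?_, b, c.le⟩
    rw [div_le_iff₀ hη30] at d
    linarith
  obtain ⟨T₄, h4⟩ := hev.exists_forall_of_atTop
  refine ⟨max (max T₁ T₂) (max T₃ T₄), (hT₁.trans (le_max_left _ _)).trans (le_max_left _ _),
    fun T hT τ hτ1 hτ2 => ?_⟩
  have hTT₁ : T₁ ≤ T := ((le_max_left _ _).trans (le_max_left _ _)).trans hT
  have hTT₂ : T₂ ≤ T := ((le_max_right _ _).trans (le_max_left _ _)).trans hT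
  have hTT₃ : T₃ ≤ T := ((le_max_left _ _).trans (le_max_right _ _)).trans hT
  have hTT₄ : T₄ ≤ T := ((le_max_right _ _).trans (le_max_right _ _)).trans hT
  have hT3 : 3 ≤ T := hT₁.trans hTT₁
  obtain ⟨hTb, hTc, hTd⟩ := h4 T hTT₄
  set L := Real.log T with hLdef
  have hL1 : 1 ≤ L := (Real.one_le_exp (Nat.cast_nonneg M)).trans hTc
  have hL0 : 0 < L := by linarith
  obtain ⟨R, hR, hRe, hRE⟩ := h1 T hTT₁
  have hEG := hRE τ hτ1 hτ2
  have hΛ := SecZAux.log_lower hT3 hτ1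
  set Λ := Real.log (|τ| / (2 * Real.pi)) + 2 * Real.eulerMascheroniConstant with hΛdef
  set D0 : ℝ := aK (1 + κ) * lM T M ^ ((1 + κ) ^ 2 - 1) with hD0
  have hlM : 0 < lM T M := by
    unfold lM
    positivity
  have hD00 : 0 < D0 := mul_pos haK (Real.rpow_pos_of_pos hlM _)
  have hclose : ∀ u : ℂ, ‖u‖ ≤ 1 → ‖R (u / L) - (D0 : ℂ) * rhoZ C u‖ ≤ D0 * PA * η3 := by
    intro u hu
    have hw : ‖u / (L : ℂ)‖ ≤ 1 / L := by
      rw [norm_div, Complex.norm_real, Real.norm_of_nonneg hL0.le]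
      exact div_le_div_of_nonneg_right hu hL0.le
    have hE := h2 T hTT₂ (u / L) hw
    have hB := prod_close (a := fun i => ETz C T (u / L) i)
      (b := fun i => LG (C.D i) (vv (C.te (i + 1)) (C.te i) u + (C.c i : ℂ)) (C.V i : ℂ) /
        (C.m i : ℂ) ^ (2 * C.D i)) hCb0 hε0.le hε1 n
      (fun i hi => hCb i hi u hu) (fun i hi => h3 T hTT₃ i hi hi u hu)
    obtain ⟨-, -, hB3⟩ := hB
    have hrho : rhoZ C u = ∏ i ∈ Finset.range n,
      (LG (C.D i) (vv (C.te (i + 1)) (C.te i) u + (C.c i : ℂ)) (C.V i : ℂ) /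
        (C.m i : ℂ) ^ (2 * C.D i)) := rfl
    rw [← hrho] at hB3
    have hB4 := hB3.trans hεn
    set E := ∏ j ∈ Finset.range (JJ T + 1), EBo T M (1 + κ) (Finset.range (JJ T + 1)) ∅ (u / L) j
      with hEdef
    set B := ∏ i ∈ Finset.range n, ETz C T (u / L) i with hBdef
    rw [hRe (u / L) hw]
    have hBn : ‖B‖ ≤ (K + 1) * PA := by
      have e1 : B = (B - rhoZ C u) + rhoZ C u := by ring
      rw [e1]
      refine (norm_add_le _ _).trans ?_
      have e2 := hρK u hu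
      have e3 : η2 * PA ≤ 1 * PA := by
        apply mul_le_mul_of_nonneg_right _ hPA0.le
        rw [hη2]
        linarith
      calc ‖B - rhoZ C u‖ + ‖rhoZ C u‖ ≤ η2 * PA + K * PA := add_le_add hB4 e2
        _ ≤ 1 * PA + K * PA := by linarith
        _ = _ := by ring
    have e1 : E * B - (D0 : ℂ) * rhoZ C u = (E - (D0 : ℂ)) * B +
        (D0 : ℂ) * (B - rhoZ C u) := by ring
    rw [e1]
    refine (norm_add_le _ _).trans ?_
    rw [norm_mul, norm_mul, Complex.norm_real, Real.norm_of_nonneg hD00.le]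
    have e2 : ‖E - (D0 : ℂ)‖ * ‖B‖ ≤ (η1 * D0) * ((K + 1) * PA) :=
      mul_le_mul hE hBn (norm_nonneg _) (by positivity)
    have e3 : D0 * ‖B - rhoZ C u‖ ≤ D0 * (η2 * PA) := mul_le_mul_of_nonneg_left hB4 hD00.le
    have e4 : (η1 * D0) * ((K + 1) * PA) + D0 * (η2 * PA) = D0 * PA * η3 := by
      rw [hη1, hη2]
      field_simp
      ring
    linarith
  have hR0 : D0 * PA * (1 - η3) ≤ (R 0).re := by
    have e1 := hclose 0 (by simp)
    rw [zero_div, hρ0] at e1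
    have e2 := (Complex.abs_re_le_norm _).trans e1
    rw [Complex.sub_re, ← Complex.ofReal_mul, Complex.ofReal_re] at e2
    have e3 := (abs_le.1 e2).1
    have e4 : D0 * PA * (1 - η3) = D0 * PA - D0 * PA * η3 := by ring
    rw [e4]
    linarith
  have hR1 : -(L * (D0 * (rho8 C * PA))) - L * (D0 * PA * η3) ≤ (deriv R 0).re := by
    have e1 := cauchy hR hρd hL0 hclose
    have e2 := (Complex.abs_re_le_norm _).trans e1
    rw [Complex.sub_re] at e2
    have e3 : ((L : ℂ) * ((D0 : ℂ) * deriv (rhoZ C) 0)).re =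
        -(L * (D0 * (rho8 C * PA))) := by
      rw [hρ', Complex.re_ofReal_mul, Complex.re_ofReal_mul, Complex.ofReal_re]
      ring
    rw [e3] at e2
    have e4 := (abs_le.1 e2).1
    linarith
  have hDL : aK (1 + κ) ≤ D0 * L := by
    have e1 : 1 ≤ lM T M ^ ((1 + κ) ^ 2 - 1) * L := by
      have hk2 : 0 ≤ (1 + κ) ^ 2 - 1 := by nlinarith
      have hg := Real.one_half_lt_eulerMascheroniConstant
      have e2 : 1 ≤ lM T M := by
        rw [lM]
        calc (1 : ℝ) = Real.exp (-M) * Real.exp M := by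
              rw [← Real.exp_add, neg_add_cancel, Real.exp_zero]
          _ ≤ Real.exp (Real.eulerMascheroniConstant - M) * L := by
              apply mul_le_mul _ hTc (Real.exp_nonneg _) (Real.exp_nonneg _)
              exact Real.exp_le_exp.2 (by linarith)
      calc (1 : ℝ) = 1 * 1 := by ring
        _ ≤ _ := mul_le_mul (Real.one_le_rpow e2 hk2) hL1 zero_le_one
          (Real.rpow_nonneg hlM.le _)
    calc aK (1 + κ) = aK (1 + κ) * 1 := by ring
      _ ≤ aK (1 + κ) * (lM T M ^ ((1 + κ) ^ 2 - 1) * L) := mul_le_mul_of_nonneg_left e1 haK.le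
      _ = D0 * L := by rw [hD0]; ring
  have hsmall : T ^ (-(5 / 1000) : ℝ) ≤ η3 * (D0 * L * PA) := by
    refine hTd.trans (mul_le_mul_of_nonneg_left ?_ hη30.le)
    exact mul_le_mul_of_nonneg_right hDL hPA0.le
  have hre : (R 0 * ((Λ : ℝ) : ℂ) + deriv R 0).re = (R 0).re * Λ + (deriv R 0).re := by
    rw [Complex.add_re, mul_comm (R 0), Complex.re_ofReal_mul, mul_comm Λ]
  rw [hre] at hEG
  have hΛ1 : L * (1 - η3) ≤ Λ := by
    have e1 : L * (1 - η3) = L - η3 * L := by ring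
    rw [e1]
    linarith
  have hX : 0 < D0 * L * PA := by positivity
  have h5 : D0 * PA * (1 - η3) * (L * (1 - η3)) ≤ (R 0).re * Λ := by
    have e1 : 0 ≤ D0 * PA * (1 - η3) := mul_nonneg (by positivity) (by linarith)
    have e2 : 0 ≤ L * (1 - η3) := mul_nonneg hL0.le (by linarith)
    exact mul_le_mul hR0 hΛ1 e2 (e1.trans hR0)
  have h8 : D0 * PA * (1 - η3) * (L * (1 - η3)) + (-(L * (D0 * (rho8 C * PA))) -
      L * (D0 * PA * η3)) - η3 * (D0 * L * PA) =
      D0 * L * PA * ((1 - η3) ^ 2 - rho8 C - 2 * η3) := by ring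
  have h9 : 1 - rho8 C - η ≤ (1 - η3) ^ 2 - rho8 C - 2 * η3 := by
    nlinarith
  have h10 := mul_le_mul_of_nonneg_left h9 hX.le
  have h12 : D0 * PA * (1 - η3) * (L * (1 - η3)) + (-(L * (D0 * (rho8 C * PA))) -
      L * (D0 * PA * η3)) - η3 * (D0 * L * PA) ≤ (R 0).re * Λ + (deriv R 0).re -
        T ^ (-(5 / 1000) : ℝ) := by linarith
  rw [h8] at h12
  exact (h10.trans h12).trans hEG

end K8
end Pool.Agent.Lib.MP_973905_nt
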