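import Pool.Agent.Lib.MP_973905_nt.K8.Stmts
import Pool.Agent.Lib.MP_973905_nt.K1.Averages

/-! Module (V8): the side without zeta on `[0, T]`: `stSideV`. -/

namespace Pool.Agent.Lib.MP_973905_nt
namespace K8

open MeasureTheory ProbabilityTheory Complex Filter Topology K1 K4 K5

namespace SideVAux

/-- the limit of the product over the top blocks -/
lemma prod_lim {κ : ℝ} (ht : StTop8) (h0 : 0 < κ) (h1 : κ < 1) {M : ℕ} {C : Cfg}
    (hC : Adm κ M C) :
    Tendsto (fun T : ℝ => ∏ i ∈ Finset.range C.N,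
      ES (C.U T i) (fun f => VT κ C T i (tw (1 / 2) f))) atTop
      (𝓝 (∏ i ∈ Finset.range C.N, aV κ C i)) := by
  refine tendsto_finsetProd _ fun i hi => ?_
  have hi' := Finset.mem_range.mp hi
  rw [Metric.tendsto_atTop]
  intro ε hε
  obtain ⟨T₀, -, h⟩ := ht κ h0 h1 M C hC i hi' (ε / 2) (by positivity)
  refine ⟨T₀, fun T hT => ?_⟩
  rw [Real.dist_eq]
  exact ((h T hT).2).trans_lt (by linarith)

/-- the main term tends to infinity -/
lemma main_top {a k : ℝ} (ha : 0 < a) (hk : 0 < k) (M : ℕ) :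
    Tendsto (fun T : ℝ => a * lM T M ^ k) atTop atTop := by
  refine Tendsto.const_mul_atTop ha ?_
  refine (tendsto_rpow_atTop hk).comp ?_
  unfold lM
  exact Tendsto.const_mul_atTop (Real.exp_pos _) Real.tendsto_log_atTop

/-- the numbers at the end -/
lemma num {x X D I η : ℝ} (hx0 : 0 < x) (hx : x ≤ 1 / 8) (hxη : 8 * x ≤ η) (hX : 0 ≤ X)
    (hD : D = (1 + x) * (1 + x) * X + x * X) (hI : I ≤ D + x * D) : I ≤ (1 + η) * X := by
  have e1 : D + x * D = (1 + 4 * x + 4 * x ^ 2 + x ^ 3) * X := by rw [hD]; ring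
  have e2 : 1 + 4 * x + 4 * x ^ 2 + x ^ 3 ≤ 1 + η := by
    have h1 : x ^ 2 ≤ 1 / 8 * x := by nlinarith
    have h2 : x ^ 3 ≤ 1 / 8 * x := by nlinarith [sq_nonneg x]
    linarith
  rw [e1] at hI
  exact hI.trans (mul_le_mul_of_nonneg_right e2 hX)

end SideVAux

open SideVAux in
theorem stSideV (hm : StMeanV) (hb : StBotV) (ht : StTop8) (hc : StCont8) (hr : StRhoZ)
    (hA : K7.StAK7) : StSideV := by
  intro κ h0 h1 η hη
  obtain ⟨Ca, T₁, hCa, hT₁, ha⟩ := stAvgUp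
  set x : ℝ := min η 1 / 8 with hxdef
  have hmin : 0 < min η 1 := lt_min hη one_pos
  have hx0 : 0 < x := by positivity
  have hx8 : x ≤ 1 / 8 := by
    have := min_le_right η 1
    rw [hxdef]
    linarith
  have hxη : 8 * x ≤ η := by
    have := min_le_left η 1
    rw [hxdef]
    linarith
  obtain ⟨M₁, hm⟩ := hm κ h0 h1
  obtain ⟨M₂, hb⟩ := hb κ h0 h1 x hx0
  obtain ⟨M₃, hc⟩ := hc κ h0 h1
  obtain ⟨_, -, hr⟩ := hr
  have hak : 0 < aK (1 + κ) := (hA (1 + κ) (by linarith) (by linarith)).1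
  refine ⟨max M₁ (max M₂ M₃), fun M hM C hC => ?_⟩
  obtain ⟨T₂, hT₂, hm⟩ := hm M ((le_max_left _ _).trans hM) C hC
  obtain ⟨T₃, hT₃, hb⟩ := hb M (((le_max_left _ _).trans (le_max_right _ _)).trans hM)
  obtain ⟨T₄, hT₄, hc⟩ := hc M (((le_max_right _ _).trans (le_max_right _ _)).trans hM) C hC
  obtain ⟨-, -, haV, -⟩ := hr κ h0 h1 M C hC
  set PV : ℝ := ∏ i ∈ Finset.range C.N, aV κ C i with hPV
  have hPV0 : 0 < PV := Finset.prod_pos fun i hi => haV i (Finset.mem_range.mp hi)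
  have hk2 : 0 < (1 + κ) ^ 2 := by positivity
  have hev : ∀ᶠ T : ℝ in atTop,
      (∏ i ∈ Finset.range C.N, ES (C.U T i) (fun f => VT κ C T i (tw (1 / 2) f))) ≤
        (1 + x) * PV ∧
      0 ≤ (∏ i ∈ Finset.range C.N, ES (C.U T i) (fun f => VT κ C T i (tw (1 / 2) f))) ∧
      1 ≤ Real.log T ∧ 2 * Ca / x ≤ Real.log T ∧
      x⁻¹ ≤ aK (1 + κ) * PV * lM T M ^ ((1 + κ) ^ 2) := by
    have e1 : ∀ᶠ T : ℝ in atTop,
        (∏ i ∈ Finset.range C.N, ES (C.U T i) (fun f => VT κ C T i (tw (1 / 2) f))) <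
          (1 + x) * PV :=
      (prod_lim ht h0 h1 hC).eventually_lt_const (by nlinarith)
    have e0 : ∀ᶠ T : ℝ in atTop,
        0 < (∏ i ∈ Finset.range C.N, ES (C.U T i) (fun f => VT κ C T i (tw (1 / 2) f))) :=
      (prod_lim ht h0 h1 hC).eventually_const_lt hPV0
    have e2 := Real.tendsto_log_atTop.eventually_ge_atTop 1
    have e3 := Real.tendsto_log_atTop.eventually_ge_atTop (2 * Ca / x)
    have e4 := (main_top (mul_pos hak hPV0) hk2 M).eventually_ge_atTop x⁻¹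
    filter_upwards [e1, e0, e2, e3, e4] with T a a0 b c d
    exact ⟨a.le, a0.le, b, c, d⟩
  obtain ⟨T₅, hT₅⟩ := hev.exists_forall_of_atTop
  refine ⟨max T₁ (max (max T₂ T₃) (max T₄ T₅)), hT₁.trans (le_max_left _ _), fun T hT => ?_⟩
  have hTT₁ : T₁ ≤ T := (le_max_left _ _).trans hT
  have hT' := (le_max_right _ _).trans hT
  have hTT₂ : T₂ ≤ T := ((le_max_left _ _).trans (le_max_left _ _)).trans hT'
  have hTT₃ : T₃ ≤ T := ((le_max_right _ _).trans (le_max_left _ _)).trans hT'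
  have hTT₄ : T₄ ≤ T := ((le_max_left _ _).trans (le_max_right _ _)).trans hT'
  have hTT₅ : T₅ ≤ T := ((le_max_right _ _).trans (le_max_right _ _)).trans hT'
  have hT3 : 3 ≤ T := hT₁.trans hTT₁
  have hT0 : 0 < T := by linarith
  have hTone : 1 ≤ T := by linarith
  obtain ⟨hP, hP0, hL1, hLC, hXx⟩ := hT₅ T hTT₅
  have hL0 : 0 < Real.log T := by linarith
  obtain ⟨-, -, cV, nV, bV⟩ := hc T hTT₄
  have hlM0 : 0 < lM T M := by
    unfold lM
    exact mul_pos (Real.exp_pos _) hL0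
  have hlk : 0 < lM T M ^ ((1 + κ) ^ 2) := Real.rpow_pos_of_pos hlM0 _
  set X : ℝ := aK (1 + κ) * lM T M ^ ((1 + κ) ^ 2) * PV with hXdef
  have hX0 : 0 < X := by positivity
  have hX1 : x⁻¹ ≤ X := by
    rw [hXdef]
    calc x⁻¹ ≤ aK (1 + κ) * PV * lM T M ^ ((1 + κ) ^ 2) := hXx
      _ = _ := by ring
  have hxX : 1 ≤ x * X := by
    rw [inv_le_iff_one_le_mul₀ hx0] at hX1
    linarith
  set D : ℝ := (1 + x) * (1 + x) * X + x * X with hD
  have hD1 : 1 ≤ D := by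
    have : 0 ≤ (1 + x) * (1 + x) * X := by positivity
    rw [hD]
    linarith
  have hmean : ∀ τ : ℝ, EG T τ (fun t => VV8 κ C T M (fs (1 / 2 + t * I))) ≤ D := by
    intro τ
    refine (hm T hTT₂ τ).trans ?_
    have e1 := hb T hTT₃
    have e2 : T ^ (-10 : ℝ) ≤ x * X := by
      refine le_trans ?_ hxX
      exact Real.rpow_le_one_of_one_le_of_nonpos hTone (by norm_num)
    have e4 : 0 ≤ (1 + x) * (aK (1 + κ) * lM T M ^ ((1 + κ) ^ 2)) := by positivity
    have e5 := mul_le_mul e1 hP hP0 e4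
    rw [hD]
    calc _ ≤ (1 + x) * (aK (1 + κ) * lM T M ^ ((1 + κ) ^ 2)) * ((1 + x) * PV) + x * X :=
          add_le_add e5 e2
      _ = _ := by rw [hXdef]; ring
  have hmain := ha T hTT₁ (fun t => VV8 κ C T M (fs (1 / 2 + t * I))) cV (fun t => nV _)
    (fun t => (bV t).trans (by
      have e1 : T ^ 2 ≤ T ^ 4 := pow_le_pow_right₀ hTone (by norm_num)
      have e2 : 1 ≤ (1 + |t|) ^ 4 := one_le_pow₀ (by linarith [abs_nonneg t])
      calc T ^ 2 ≤ T ^ 4 := e1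
        _ ≤ T ^ 4 * (1 + |t|) ^ 4 := le_mul_of_one_le_right (by positivity) e2))
    D D (by linarith) hD1 (fun τ _ _ => hmean τ) (fun τ _ => hmean τ)
  have hI : T⁻¹ * ∫ t in (0 : ℝ)..T, VV8 κ C T M (fs (1 / 2 + t * I)) ≤ D + x * D := by
    refine hmain.trans ?_
    have e1 : Ca * (D + D) / Real.log T ≤ x * D := by
      rw [div_le_iff₀ hx0] at hLC
      rw [div_le_iff₀ hL0]
      calc Ca * (D + D) = (2 * Ca) * D := by ring
        _ ≤ (Real.log T * x) * D := by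
            apply mul_le_mul_of_nonneg_right hLC (by linarith)
        _ = _ := by ring
    linarith
  exact num hx0 hx8 hxη hX0.le hD hI

end K8
end Pool.Agent.Lib.MP_973905_nt
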