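import Pool.Agent.Lib.MP_973905_nt.K8.Stmts
import Pool.Agent.Lib.MP_973905_nt.Holder

/-! Module (Z9): the side of zeta on `[0, T]`: `stSideZ`. -/

namespace Pool.Agent.Lib.MP_973905_nt
namespace K8

open MeasureTheory ProbabilityTheory Complex Filter Topology K1 K4 K5

namespace SideZAux

lemma zcont : Continuous fun t : ℝ => riemannZeta (1 / 2 + t * I) := by
  have h := continuous_zeta_line (σ := 1 / 2) (by norm_num)
  have e : ((1 / 2 : ℝ) : ℂ) = 1 / 2 := by push_cast; ring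
  simpa only [e] using h

lemma zbd : ∃ C : ℝ, 0 < C ∧ ∀ t : ℝ, ‖riemannZeta (1 / 2 + t * I)‖ ^ 2 ≤ C * (1 + |t|) ^ 4 := by
  obtain ⟨C, hC, h⟩ := zeta_poly
  refine ⟨C ^ 2, by positivity, fun t => ?_⟩
  have h1 := h (1 / 2) t le_rfl (by norm_num)
  have e : ((1 / 2 : ℝ) : ℂ) = 1 / 2 := by push_cast; ring
  rw [e] at h1
  calc ‖riemannZeta (1 / 2 + t * I)‖ ^ 2 ≤ (C * (1 + |t|) ^ 2) ^ 2 := by gcongr
    _ = _ := by ring

end SideZAux

open SideZAux in
theorem stSideZ (hs : StSecZ) (ha : StAvL) (hc : StCont8) (hr : StRhoZ) (hA : K7.StAK7) :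
    StSideZ := by
  intro κ hk0 hk1 η hη
  obtain ⟨Cz, hCz, hz⟩ := zbd
  obtain ⟨Ca, T₀, hCa, hT₀, ha⟩ := ha
  obtain ⟨Kr, -, hr⟩ := hr
  have haK : 0 < aK (1 + κ) := (hA (1 + κ) (by linarith) (by linarith)).1
  have hk2 : 0 ≤ (1 + κ) ^ 2 - 1 := by nlinarith
  set η' : ℝ := min (η / 2) (1 / 20) with hη'
  have hη'0 : 0 < η' := lt_min (by positivity) (by norm_num)
  have hη'1 : η' ≤ η / 2 := min_le_left _ _
  have hη'2 : η' ≤ 1 / 20 := min_le_right _ _
  obtain ⟨M₁, hs⟩ := hs κ hk0 hk1 η' hη'0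
  obtain ⟨M₂, hc⟩ := hc κ hk0 hk1
  refine ⟨max M₁ M₂, fun M hM C hC => ?_⟩
  obtain ⟨T₁, hT₁, hs⟩ := hs M ((le_max_left _ _).trans hM) C hC
  obtain ⟨T₂, hT₂, hc⟩ := hc M ((le_max_right _ _).trans hM) C hC
  obtain ⟨-, haZ, -, hrho0, -, -, -⟩ := hr κ hk0 hk1 M C hC
  have hrho1 : rho8 C ≤ 9 / 10 := hC.hrho
  set PA : ℝ := ∏ i ∈ Finset.range C.N, aZ C i with hPA
  have hPA0 : 0 < PA := Finset.prod_pos fun i hi => haZ i (Finset.mem_range.mp hi)
  have hev : ∀ᶠ T : ℝ in atTop, Real.exp M ≤ Real.log T ∧ 4 * Ca / η ≤ Real.log T ∧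
      Cz ≤ T ∧ 1 / (η / 4 * (aK (1 + κ) * PA)) ≤ T := by
    have e1 := Real.tendsto_log_atTop.eventually_ge_atTop (Real.exp M)
    have e2 := Real.tendsto_log_atTop.eventually_ge_atTop (4 * Ca / η)
    filter_upwards [e1, e2, eventually_ge_atTop Cz,
      eventually_ge_atTop (1 / (η / 4 * (aK (1 + κ) * PA)))] with T a b c d
    exact ⟨a, b, c, d⟩
  obtain ⟨T₃, hT₃⟩ := hev.exists_forall_of_atTop
  refine ⟨max (max T₀ T₁) (max T₂ T₃), (hT₀.trans (le_max_left _ _)).trans (le_max_left _ _),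
    fun T hT => ?_⟩
  have hTT₀ : T₀ ≤ T := ((le_max_left _ _).trans (le_max_left _ _)).trans hT
  have hTT₁ : T₁ ≤ T := ((le_max_right _ _).trans (le_max_left _ _)).trans hT
  have hTT₂ : T₂ ≤ T := ((le_max_left _ _).trans (le_max_right _ _)).trans hT
  have hTT₃ : T₃ ≤ T := ((le_max_right _ _).trans (le_max_right _ _)).trans hT
  obtain ⟨hLM, hL2, hCzT, hTe⟩ := hT₃ T hTT₃
  obtain ⟨hGc, hGb, -, -, -⟩ := hc T hTT₂
  have hT3 : 3 ≤ T := hT₀.trans hTT₀
  have hT0 : 0 < T := by linarith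
  have hT1 : 1 ≤ T := by linarith
  set L := Real.log T with hLdef
  have hL1 : 1 ≤ L := (Real.one_le_exp (Nat.cast_nonneg M)).trans hLM
  have hL0 : 0 < L := by linarith
  have hlM1 : 1 ≤ lM T M := by
    rw [lM]
    calc (1 : ℝ) = Real.exp (-M) * Real.exp M := by
          rw [← Real.exp_add, neg_add_cancel, Real.exp_zero]
      _ ≤ Real.exp (Real.eulerMascheroniConstant - M) * L := by
          apply mul_le_mul _ hLM (Real.exp_nonneg _) (Real.exp_nonneg _)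
          have := Real.one_half_lt_eulerMascheroniConstant
          exact Real.exp_le_exp.2 (by linarith)
  have hP1 : 1 ≤ lM T M ^ ((1 + κ) ^ 2 - 1) := Real.one_le_rpow hlM1 hk2
  set X : ℝ := aK (1 + κ) * lM T M ^ ((1 + κ) ^ 2 - 1) * L * PA with hX
  have hXc : aK (1 + κ) * PA ≤ X := by
    have e1 : 1 ≤ lM T M ^ ((1 + κ) ^ 2 - 1) * L := by
      calc (1 : ℝ) = 1 * 1 := by ring
        _ ≤ _ := mul_le_mul hP1 hL1 zero_le_one (by linarith)
    calc aK (1 + κ) * PA = (aK (1 + κ) * PA) * 1 := by ring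
      _ ≤ (aK (1 + κ) * PA) * (lM T M ^ ((1 + κ) ^ 2 - 1) * L) := by gcongr
      _ = X := by rw [hX]; ring
  have hX0 : 0 < X := lt_of_lt_of_le (by positivity) hXc
  have hFc : Continuous fun t : ℝ => ‖riemannZeta (1 / 2 + t * I)‖ ^ 2 *
      ‖GW κ C T M (fs (1 / 2 + t * I))‖ ^ 2 := (zcont.norm.pow 2).mul (hGc.norm.pow 2)
  have hFb : ∀ t : ℝ, ‖riemannZeta (1 / 2 + t * I)‖ ^ 2 *
      ‖GW κ C T M (fs (1 / 2 + t * I))‖ ^ 2 ≤ T ^ 6 * (1 + |t|) ^ 6 := by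
    intro t
    have h1t : 1 ≤ 1 + |t| := by
      have := abs_nonneg t
      linarith
    calc ‖riemannZeta (1 / 2 + t * I)‖ ^ 2 * ‖GW κ C T M (fs (1 / 2 + t * I))‖ ^ 2 ≤
        (Cz * (1 + |t|) ^ 4) * T ^ 2 := by
          apply mul_le_mul (hz t) _ (by positivity) (by positivity)
          have := hGb t
          gcongr
      _ ≤ (T * (1 + |t|) ^ 4) * T ^ 2 := by gcongr
      _ = T ^ 3 * (1 + |t|) ^ 4 := by ring
      _ ≤ T ^ 6 * (1 + |t|) ^ 6 := by
          apply mul_le_mul (pow_le_pow_right₀ hT1 (by norm_num))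
            (pow_le_pow_right₀ h1t (by norm_num)) (by positivity) (by positivity)
  have hpos : 0 ≤ 1 - rho8 C - η' := by linarith
  have hmain := ha T hTT₀ (fun t => ‖riemannZeta (1 / 2 + t * I)‖ ^ 2 *
      ‖GW κ C T M (fs (1 / 2 + t * I))‖ ^ 2) hFc (fun t => by positivity) hFb
      (X * (1 - rho8 C - η')) (mul_nonneg hX0.le hpos) (fun τ h1 h2 => hs T hTT₁ τ h1 h2)
  have e1 : Ca / L * (1 - rho8 C - η') ≤ η / 4 := by
    have h1 : Ca / L ≤ η / 4 := by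
      rw [div_le_iff₀ hη] at hL2
      rw [div_le_iff₀ hL0]
      linarith
    have h2 : 0 ≤ Ca / L := by positivity
    calc Ca / L * (1 - rho8 C - η') ≤ Ca / L * 1 := by
          apply mul_le_mul_of_nonneg_left _ h2
          linarith
      _ ≤ η / 4 := by rw [mul_one]; exact h1
  have e2 : 1 / T ≤ η / 4 * X := by
    have h0 : 0 < η / 4 * (aK (1 + κ) * PA) := by positivity
    have h1 : 1 / T ≤ η / 4 * (aK (1 + κ) * PA) := by
      rw [div_le_iff₀ h0] at hTe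
      rw [div_le_iff₀ hT0]
      linarith
    exact h1.trans (by gcongr)
  have e3 : X * (Ca / L * (1 - rho8 C - η')) ≤ X * (η / 4) := by gcongr
  have e4 : (1 - Ca / L) * (X * (1 - rho8 C - η')) =
      X * (1 - rho8 C - η') - X * (Ca / L * (1 - rho8 C - η')) := by ring
  have e5 : X * η' ≤ X * (η / 2) := by gcongr
  have e6 : X * (1 - rho8 C - η) = X * (1 - rho8 C - η') + X * η' - X * η := by ring
  rw [e4] at hmain
  rw [e6]
  linarith

end K8
end Pool.Agent.Lib.MP_973905_nt
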