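import Pool.Agent.Lib.MP_973905_nt.K8.Base
import Pool.Agent.Lib.MP_973905_nt.K5.TopLim

set_option autoImplicit false

/-! Module (Z2) of K8: the limits of the factors of the top blocks. -/

namespace Pool.Agent.Lib.MP_973905_nt
namespace K8

open MeasureTheory ProbabilityTheory Complex Filter Topology K1 K4 K5

namespace Top8Aux

/-- the power of the norm of the shifted prime sum -/
noncomputable def Q (S : Finset ℕ) (c : ℝ) (n : ℕ) (f : ℕ → ℂ) : ℝ :=
  ‖(∑ p ∈ S, tw (1 / 2) f p) + (c : ℂ)‖ ^ (2 * n)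

lemma bs_Q (S : Finset ℕ) (c : ℝ) (n : ℕ) : BS S (Q S c n) := by
  obtain ⟨h1, C, h2⟩ := bs_sum (S := S) S (F := fun p f => tw (1 / 2) f p)
    (fun p _ => bs_tw S (1 / 2) p)
  refine ⟨((h1.add continuous_const).norm).pow (2 * n), (C + |c|) ^ (2 * n), fun ω => ?_⟩
  unfold Q
  rw [norm_pow, norm_norm]
  refine pow_le_pow_left₀ (norm_nonneg _) ?_ _
  refine (norm_add_le _ _).trans (add_le_add (h2 ω) (le_of_eq ?_))
  rw [Complex.norm_real, Real.norm_eq_abs]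

/-- the norm of the linear form -/
lemma norm_z {C : Cfg} {T : ℝ} {i : ℕ} (hm : 0 < C.m i) (n : ℕ) (f : ℕ → ℂ) :
    ‖C.z T i (tw (1 / 2) f)‖ ^ (2 * n) = (C.m i ^ (2 * n))⁻¹ * Q (C.U T i) (C.c i) n f := by
  unfold Cfg.z Q
  rw [norm_div, Complex.norm_real, Real.norm_eq_abs, abs_of_pos hm, div_pow]
  rw [div_eq_inv_mul]

end Top8Aux

open Top8Aux

/-- (Z2) the limits of the top factors (compare `K5.StTopLim`) -/
theorem stTop8 (h : StGaussC) : StTop8 := by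
  intro κ hκ hκ1 M C hC i hi ε hε
  have hlo : 0 < C.te (i + 1) := hC.hpos (i + 1) (by omega)
  have hlh : C.te (i + 1) < C.te i := hC.hdec i hi
  have hhi : C.te i ≤ 1 := (Blk8.te_anti hC (Nat.zero_le i) hi.le).trans (Blk8.te_zero_le hC)
  have hm : 0 < C.m i := hC.hm i hi
  have hmD : 0 < C.m i ^ (2 * C.D i) := pow_pos hm _
  have hmr : 0 < C.m i ^ (2 * rk κ C i) := pow_pos hm _
  have hmr' : 0 < C.m i ^ (2 * (rk κ C i + 1)) := pow_pos hm _
  obtain ⟨T₁, hT₁, h1⟩ := h _ _ (C.c i) hlo hlh hhi (C.D i) (ε * C.m i ^ (2 * C.D i))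
    (mul_pos hε hmD)
  obtain ⟨T₂, hT₂, h2⟩ := h _ _ (C.c i) hlo hlh hhi (rk κ C i) (ε * C.m i ^ (2 * rk κ C i))
    (mul_pos hε hmr)
  obtain ⟨T₃, hT₃, h3⟩ := h _ _ (C.c i) hlo hlh hhi (rk κ C i + 1)
    (ε * C.m i ^ (2 * (rk κ C i + 1))) (mul_pos hε hmr')
  refine ⟨max T₁ (max T₂ T₃), le_trans hT₁ (le_max_left _ _), fun T hT => ?_⟩
  have hTa : T₁ ≤ T := (le_max_left _ _).trans hT
  have hTb : T₂ ≤ T := (le_max_left _ _).trans ((le_max_right _ _).trans hT)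
  have hTc : T₃ ≤ T := (le_max_right _ _).trans ((le_max_right _ _).trans hT)
  constructor
  · intro u hu
    have h4 := (h1 T hTa (C.U T i) rfl).1 u hu
    have e1 : ETz C T (u / Real.log T) i = ((C.m i : ℂ) ^ (2 * C.D i))⁻¹ *
        (ES (C.U T i) (fun f => ZZ (C.U T i) (tw (1 / 2 + u / Real.log T) f) *
        (starRingEnd ℂ) (ZZ (C.U T i) (tw (1 / 2 + (starRingEnd ℂ) (u / Real.log T)) f)) *
        ((‖(∑ p ∈ C.U T i, tw (1 / 2) f p) + (C.c i : ℂ)‖ ^ (2 * C.D i) : ℝ) : ℂ)) *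
        ∏ p ∈ C.U T i, (1 - (p : ℂ) ^ (-(1 + u / Real.log T + u / Real.log T)))) := by
      unfold ETz
      rw [← mul_assoc]
      congr 1
      have e2 : ∀ f : ℕ → ℂ, ZZ (C.U T i) (tw (1 / 2 + u / Real.log T) f) *
          (starRingEnd ℂ) (ZZ (C.U T i) (tw (1 / 2 + (starRingEnd ℂ) (u / Real.log T)) f)) *
          ((‖C.z T i (tw (1 / 2) f)‖ ^ (2 * C.D i) : ℝ) : ℂ) =
          ((C.m i : ℂ) ^ (2 * C.D i))⁻¹ * (ZZ (C.U T i) (tw (1 / 2 + u / Real.log T) f) *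
          (starRingEnd ℂ) (ZZ (C.U T i) (tw (1 / 2 + (starRingEnd ℂ) (u / Real.log T)) f)) *
          ((‖(∑ p ∈ C.U T i, tw (1 / 2) f p) + (C.c i : ℂ)‖ ^ (2 * C.D i) : ℝ) : ℂ)) := by
        intro f
        rw [norm_z hm, Q]
        push_cast
        ring
      simp only [e2]
      exact integral_const_mul _ _
    have e3 : LG (C.D i) (vv (C.te (i + 1)) (C.te i) u + (C.c i : ℂ)) (C.V i : ℂ) /
        (C.m i : ℂ) ^ (2 * C.D i) = ((C.m i : ℂ) ^ (2 * C.D i))⁻¹ *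
        LG (C.D i) (vv (C.te (i + 1)) (C.te i) u + (C.c i : ℂ))
          ((Real.log (C.te i / C.te (i + 1)) : ℝ) : ℂ) := by
      rw [div_eq_inv_mul]
      rfl
    rw [e1, e3, ← mul_sub, norm_mul, norm_inv, norm_pow, Complex.norm_real, Real.norm_eq_abs,
      abs_of_pos hm, inv_mul_le_iff₀ hmD, mul_comm (C.m i ^ (2 * C.D i)) ε]
    exact h4
  · have h4 := (h2 T hTb (C.U T i) rfl).2
    have h5 := (h3 T hTc (C.U T i) rfl).2
    obtain ⟨ht0, ht1⟩ := Blk8.tk_mem (C := C) hκ i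
    set t := tk κ C i with ht
    set r := rk κ C i with hr
    have e1 : ∀ f : ℕ → ℂ, VT κ C T i (tw (1 / 2) f) =
        ((1 - t) * (C.m i ^ (2 * r))⁻¹) * Q (C.U T i) (C.c i) r f +
          (t * (C.m i ^ (2 * (r + 1)))⁻¹) * Q (C.U T i) (C.c i) (r + 1) f := by
      intro f
      have e2 : VT κ C T i (tw (1 / 2) f) = (1 - t) * ‖C.z T i (tw (1 / 2) f)‖ ^ (2 * r) +
          t * ‖C.z T i (tw (1 / 2) f)‖ ^ (2 * (r + 1)) := by
        unfold VT
        rw [← ht, ← hr]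
        ring
      rw [e2, norm_z hm, norm_z hm]
      ring
    have e3 : ES (C.U T i) (fun f => VT κ C T i (tw (1 / 2) f)) =
        ((1 - t) * (C.m i ^ (2 * r))⁻¹) * ES (C.U T i) (Q (C.U T i) (C.c i) r) +
          (t * (C.m i ^ (2 * (r + 1)))⁻¹) * ES (C.U T i) (Q (C.U T i) (C.c i) (r + 1)) := by
      simp only [e1]
      have e4 : ES (C.U T i) (fun f => ((1 - t) * (C.m i ^ (2 * r))⁻¹) * Q (C.U T i) (C.c i) r f +
          (t * (C.m i ^ (2 * (r + 1)))⁻¹) * Q (C.U T i) (C.c i) (r + 1) f) =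
          ES (C.U T i) (fun f => ((1 - t) * (C.m i ^ (2 * r))⁻¹) * Q (C.U T i) (C.c i) r f) +
          ES (C.U T i) (fun f => (t * (C.m i ^ (2 * (r + 1)))⁻¹) *
            Q (C.U T i) (C.c i) (r + 1) f) :=
        integral_add ((bs_Q _ _ _).integrable.const_mul _) ((bs_Q _ _ _).integrable.const_mul _)
      rw [e4]
      congr 1
      · exact integral_const_mul _ _
      · exact integral_const_mul _ _
    have e5 : aV κ C i = ((1 - t) * (C.m i ^ (2 * r))⁻¹) *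
        LG r (C.c i) (Real.log (C.te i / C.te (i + 1))) +
          (t * (C.m i ^ (2 * (r + 1)))⁻¹) *
            LG (r + 1) (C.c i) (Real.log (C.te i / C.te (i + 1))) := by
      unfold aV
      rw [← ht, ← hr, div_eq_mul_inv, div_eq_mul_inv]
      change (1 - t) * (LG r (C.c i) (Real.log (C.te i / C.te (i + 1))) * _) +
        t * (LG (r + 1) (C.c i) (Real.log (C.te i / C.te (i + 1))) * _) = _
      ring
    have e6 : ES (C.U T i) (fun f => VT κ C T i (tw (1 / 2) f)) - aV κ C i =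
        (1 - t) * ((C.m i ^ (2 * r))⁻¹ * (ES (C.U T i) (Q (C.U T i) (C.c i) r) -
          LG r (C.c i) (Real.log (C.te i / C.te (i + 1))))) +
        t * ((C.m i ^ (2 * (r + 1)))⁻¹ * (ES (C.U T i) (Q (C.U T i) (C.c i) (r + 1)) -
          LG (r + 1) (C.c i) (Real.log (C.te i / C.te (i + 1))))) := by
      rw [e3, e5]; ring
    have b1 : |(C.m i ^ (2 * r))⁻¹ * (ES (C.U T i) (Q (C.U T i) (C.c i) r) -
          LG r (C.c i) (Real.log (C.te i / C.te (i + 1))))| ≤ ε := by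
      rw [abs_mul, abs_inv, abs_of_pos hmr, inv_mul_le_iff₀ hmr,
        mul_comm (C.m i ^ (2 * r)) ε]
      exact h4
    have b2 : |(C.m i ^ (2 * (r + 1)))⁻¹ * (ES (C.U T i) (Q (C.U T i) (C.c i) (r + 1)) -
          LG (r + 1) (C.c i) (Real.log (C.te i / C.te (i + 1))))| ≤ ε := by
      rw [abs_mul, abs_inv, abs_of_pos hmr', inv_mul_le_iff₀ hmr',
        mul_comm (C.m i ^ (2 * (r + 1))) ε]
      exact h5
    rw [e6]
    refine (abs_add_le _ _).trans ?_
    rw [abs_mul (1 - t), abs_mul t, abs_of_nonneg ht0,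
      abs_of_nonneg (by linarith : (0 : ℝ) ≤ 1 - t)]
    calc _ ≤ (1 - t) * ε + t * ε := add_le_add
          (mul_le_mul_of_nonneg_left b1 (by linarith)) (mul_le_mul_of_nonneg_left b2 ht0)
      _ = ε := by ring

end K8
end Pool.Agent.Lib.MP_973905_nt
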