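import Pool.Agent.Lib.MP_973905_nt.K5.AllK5
import Pool.Agent.Lib.MP_973905_nt.K7.AllK7
import Pool.Agent.Lib.MP_973905_nt.K8.Adm8
import Pool.Agent.Lib.MP_973905_nt.K8.Ah
import Pool.Agent.Lib.MP_973905_nt.K8.AvL
import Pool.Agent.Lib.MP_973905_nt.K8.BQZ
import Pool.Agent.Lib.MP_973905_nt.K8.BadN
import Pool.Agent.Lib.MP_973905_nt.K8.Bh
import Pool.Agent.Lib.MP_973905_nt.K8.BlkN
import Pool.Agent.Lib.MP_973905_nt.K8.BotV
import Pool.Agent.Lib.MP_973905_nt.K8.Cont8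
import Pool.Agent.Lib.MP_973905_nt.K8.CrudeF
import Pool.Agent.Lib.MP_973905_nt.K8.FactZ
import Pool.Agent.Lib.MP_973905_nt.K8.Fock
import Pool.Agent.Lib.MP_973905_nt.K8.GaussC
import Pool.Agent.Lib.MP_973905_nt.K8.Gu
import Pool.Agent.Lib.MP_973905_nt.K8.Hold8
import Pool.Agent.Lib.MP_973905_nt.K8.Lam8
import Pool.Agent.Lib.MP_973905_nt.K8.Len8
import Pool.Agent.Lib.MP_973905_nt.K8.MeanV
import Pool.Agent.Lib.MP_973905_nt.K8.Num8
import Pool.Agent.Lib.MP_973905_nt.K8.Part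
import Pool.Agent.Lib.MP_973905_nt.K8.Pt8
import Pool.Agent.Lib.MP_973905_nt.K8.RhoZ
import Pool.Agent.Lib.MP_973905_nt.K8.SecZ
import Pool.Agent.Lib.MP_973905_nt.K8.SideV
import Pool.Agent.Lib.MP_973905_nt.K8.SideZ
import Pool.Agent.Lib.MP_973905_nt.K8.Top8
import Pool.Agent.Lib.MP_973905_nt.K8.Final8

/-! Assembly of the lower bound with explicit constants for all orders `1 < k < 2`. -/

namespace Pool.Agent.Lib.MP_973905_nt.K8

/-- The lower bound for every fixed order `1 < k < 2`. -/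
theorem final8 : StFinal8 := by
  have l1 : K5.StHalf := K5.stHalf K5.stRect K5.stStripH (K5.stFE K1.stFFpair (K5.stM4 F4.stCr4_all))
  have l2 : K5.StLong := K5.stLong l1 K5.stMove K5.stPairA (K5.stBack K5.stRect) K5.stMS
  have s1 : K7.StAK7 := K7.stAK7 K5.stMertens
  have s2 : K7.StLFn := K7.stLFn
  have s4 : K7.StBotA := K7.stBotA (K7.stBlk2 s2) s2 s1
  have z2 : StTop8 := stTop8 (stGaussC K5.stPrimeInt)
  have z3 : StRhoZ := stRhoZ
  have z4 : StFactZ := stFactZ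
  have z5 : StBQZ := stBQZ K1.stShort
  have z6 : StSecZ := stSecZ l2 z5 z4 s4 z2 z3 s1
  have v4 : StLen8 := stLen8
  have z8 : StCont8 := stCont8 v4
  have z9 : StSideZ := stSideZ z6 stAvL z8 z3 s1
  have v5 : StBotV := stBotV stBlkN stBadN s1
  have v7 : StSideV := stSideV (stMeanV v4) v5 z2 z8 z3 s1
  have hh : StHold8 := stHold8 z9 v7 (stPt8 stPtB) z8 z3 s1
  have n1 : StFock := stFock
  have n4 : StBh := stBh n1 stCrudeF stPart
  have n5 : StAh := stAh n1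
  have n6 : StAdm8 := stAdm8 n5
  have n7 : StLam8 := stLam8 n4 n5 n6
  exact stFinal8 hh n6 n7 stGu stNum8 z3 s1

end Pool.Agent.Lib.MP_973905_nt.K8
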