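import Pool.Agent.Lib.MP_973905_nt.K7.Stmts

/-! Definitions for the lower bounds with explicit constants for all orders `1 < k < 2`
(folder K8). Throughout `k = 1 + κ`. -/

namespace Pool.Agent.Lib.MP_973905_nt
namespace K8

open MeasureTheory ProbabilityTheory Complex Filter Topology K1 K4 K5

/-! ### The top blocks -/

/-- The data of the top blocks: their number, their ends (exponents of `T`), the degrees, shifts
and scales of the linear forms. -/
structure Cfg where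
  /-- number of top blocks -/
  N : ℕ
  /-- ends of the blocks -/
  te : ℕ → ℝ
  /-- degrees -/
  D : ℕ → ℕ
  /-- shifts -/
  c : ℕ → ℝ
  /-- scales -/
  m : ℕ → ℝ

/-- The variance of the prime sum over a top block. -/
noncomputable def Cfg.V (C : Cfg) (i : ℕ) : ℝ := Real.log (C.te i / C.te (i + 1))

/-- The top blocks of primes. -/
noncomputable def Cfg.U (C : Cfg) (T : ℝ) (i : ℕ) : Finset ℕ :=
  PS (Real.exp (C.te (i + 1) * Real.log T)) (Real.exp (C.te i * Real.log T))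

/-- The linear form `(P + c) / m`, `P` the prime sum over a top block. -/
noncomputable def Cfg.z (C : Cfg) (T : ℝ) (i : ℕ) (f : ℕ → ℂ) : ℂ :=
  ((∑ p ∈ C.U T i, f p) + (C.c i : ℂ)) / (C.m i : ℂ)

/-- All blocks: the bottom blocks, the top blocks, the rest up to `T`. -/
noncomputable def BB8 (C : Cfg) (T : ℝ) (M j : ℕ) : Finset ℕ :=
  if j ≤ JJ T then Sj T M (JJ T) j else
    if j ≤ JJ T + C.N then C.U T (j - (JJ T + 1)) else PS (Real.exp (C.te 0 * Real.log T)) T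

/-- The family of all blocks. -/
noncomputable def SB8 (C : Cfg) (T : ℝ) (M : ℕ) : Fin (JJ T + 1 + C.N + 1) → Finset ℕ :=
  fun j => BB8 C T M j

/-! ### The weights -/

/-- The exponent `k/κ` of Hölder's inequality. -/
noncomputable def pe (κ : ℝ) : ℝ := (1 + κ) / κ

/-- The integer part of `D_i k/κ`. -/
noncomputable def rk (κ : ℝ) (C : Cfg) (i : ℕ) : ℕ := ⌊(C.D i : ℝ) * pe κ⌋₊

/-- The fractional part of `D_i k/κ`. -/
noncomputable def tk (κ : ℝ) (C : Cfg) (i : ℕ) : ℝ := (C.D i : ℝ) * pe κ - rk κ C i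

/-- The polynomial on the side of zeta. -/
noncomputable def GW (κ : ℝ) (C : Cfg) (T : ℝ) (M : ℕ) (f : ℕ → ℂ) : ℂ :=
  NN T M κ f * ∏ i ∈ Finset.range C.N, C.z T i f ^ C.D i

/-- The majorant of the power of a top factor. -/
noncomputable def VT (κ : ℝ) (C : Cfg) (T : ℝ) (i : ℕ) (f : ℕ → ℂ) : ℝ :=
  ‖C.z T i f‖ ^ (2 * rk κ C i) * ((1 - tk κ C i) + tk κ C i * ‖C.z T i f‖ ^ 2)

/-- The exponent of the correction in a bottom block. -/
noncomputable def nb (κ T : ℝ) (M j : ℕ) : ℕ := ⌈pe κ * ll M (JJ T) j⌉₊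

/-- The majorant of the power of a bottom factor, as a function of the prime sum. -/
noncomputable def VBz (κ T : ℝ) (M j : ℕ) (z : ℂ) : ℝ :=
  (1 + Real.exp (-(KK M (JJ T) j / 2))) * ‖Ntr (ll M (JJ T) j) (1 + κ) z‖ ^ 2 +
    Real.exp (2 * pe κ * KK M (JJ T) j) * ‖(z / (KK M (JJ T) j : ℂ)) ^ nb κ T M j‖ ^ 2

/-- The majorant of the power of a bottom factor. -/
noncomputable def VB (κ T : ℝ) (M j : ℕ) (f : ℕ → ℂ) : ℝ :=
  VBz κ T M j (Pj M (Sj T M (JJ T) j) f)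

/-- The weight on the side without zeta. -/
noncomputable def VV8 (κ : ℝ) (C : Cfg) (T : ℝ) (M : ℕ) (f : ℕ → ℂ) : ℝ :=
  (∏ j ∈ Finset.range (JJ T + 1), VB κ T M j f) * ∏ i ∈ Finset.range C.N, VT κ C T i f

/-! ### The limits -/

/-- `E |P + c|^{2n}`, `P` complex Gaussian with `E |P|² = V`. -/
def LG {R : Type*} [CommRing R] (n : ℕ) (c V : R) : R :=
  ∑ j ∈ Finset.range (n + 1), ((n.choose j : ℕ) : R) ^ 2 * ((j.factorial : ℕ) : R) * V ^ j *
    c ^ (2 * (n - j))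

/-- The limit of a top factor, side of zeta. -/
noncomputable def aZ (C : Cfg) (i : ℕ) : ℝ := LG (C.D i) (C.V i + C.c i) (C.V i) / C.m i ^ (2 * C.D i)

/-- The limit of a top factor, side without zeta. -/
noncomputable def aV (κ : ℝ) (C : Cfg) (i : ℕ) : ℝ :=
  (1 - tk κ C i) * (LG (rk κ C i) (C.c i) (C.V i) / C.m i ^ (2 * rk κ C i)) +
    tk κ C i * (LG (rk κ C i + 1) (C.c i) (C.V i) / C.m i ^ (2 * (rk κ C i + 1)))

/-- The limit of the product of the top factors; the shift is `u / log T`. -/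
noncomputable def rhoZ (C : Cfg) (u : ℂ) : ℂ :=
  ∏ i ∈ Finset.range C.N, (LG (C.D i) (vv (C.te (i + 1)) (C.te i) u + (C.c i : ℂ)) (C.V i : ℂ) /
    (C.m i : ℂ) ^ (2 * C.D i))

/-- The relative size of the derivative term. -/
noncomputable def rho8 (C : Cfg) : ℝ :=
  ∑ i ∈ Finset.range C.N, (C.te i - C.te (i + 1)) *
    (deriv (fun x : ℝ => LG (C.D i) x (C.V i)) (C.V i + C.c i) / LG (C.D i) (C.V i + C.c i) (C.V i))

/-- The factor of a top block, side of zeta. -/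
noncomputable def ETz (C : Cfg) (T : ℝ) (w : ℂ) (i : ℕ) : ℂ :=
  ES (C.U T i) (fun f => ZZ (C.U T i) (tw (1 / 2 + w) f) *
    (starRingEnd ℂ) (ZZ (C.U T i) (tw (1 / 2 + (starRingEnd ℂ) w) f)) *
    ((‖C.z T i (tw (1 / 2) f)‖ ^ (2 * C.D i) : ℝ) : ℂ)) *
    ∏ p ∈ C.U T i, (1 - (p : ℂ) ^ (-(1 + w + w)))

/-- Admissible data. -/
structure Adm (κ : ℝ) (M : ℕ) (C : Cfg) : Prop where
  hN : 1 ≤ C.N
  hpos : ∀ i, i ≤ C.N → 0 < C.te i
  hdec : ∀ i, i < C.N → C.te (i + 1) < C.te i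
  hlast : C.te C.N = Real.exp (-(M : ℝ))
  htop : C.te 0 ≤ 1 / 4
  hD : ∀ i, i < C.N → 1 ≤ C.D i
  hm : ∀ i, i < C.N → 0 < C.m i
  hc : ∀ i, i < C.N → (C.D i : ℝ) ≤ 4 * (C.V i + C.c i)
  hrho : rho8 C ≤ 9 / 10
  bud1 : ∑ i ∈ Finset.range C.N, (C.D i : ℝ) * C.te i ≤ 44 / 100
  bud2 : ∑ i ∈ Finset.range C.N, ((rk κ C i : ℝ) + 1) * C.te i ≤ 93 / 100

/-! ### Our choice -/

/-- The degree of the first top block. -/
noncomputable def d0 (κ : ℝ) : ℕ := ⌈3 * (κ * (1 + κ))⌉₊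

/-- The upper end of the first top block. -/
noncomputable def th (κ : ℝ) : ℝ :=
  93 / 100 * κ / ((1 + κ) * (1582 / 1000 * d0 κ + 921 / 1000) + 1582 / 1000 * κ)

/-- The number of top blocks. -/
noncomputable def Nt (κ : ℝ) (M : ℕ) : ℕ := ⌊(M : ℝ) + Real.log (th κ)⌋₊

/-- The ends of the top blocks. -/
noncomputable def te8 (κ : ℝ) (M i : ℕ) : ℝ :=
  if i < Nt κ M then th κ * Real.exp (-(i : ℝ)) else Real.exp (-(M : ℝ))

/-- Our choice of the top blocks. -/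
noncomputable def cfg8 (κ : ℝ) (M : ℕ) : Cfg where
  N := Nt κ M
  te := te8 κ M
  D := fun i => d0 κ + i
  c := fun i => ((d0 κ + i : ℕ) : ℝ) / κ - (1 + κ) * Real.log (te8 κ M i / te8 κ M (i + 1))
  m := fun i => ((d0 κ + i : ℕ) : ℝ) / κ

/-- The loss of a block of variance `V` with the degree `D`. -/
noncomputable def lam8 (κ : ℝ) (C : Cfg) (i : ℕ) : ℝ :=
  κ * Real.log (aV κ C i) - (1 + κ) * Real.log (aZ C i) + κ * (1 + κ) * C.V i

/-- The explicit constant of the theorem, `k = 1 + κ`. -/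
noncomputable def LL8 (κ : ℝ) : ℝ := κ ^ κ * Real.exp (-(18 / 5 * κ ^ 2))

end K8
end Pool.Agent.Lib.MP_973905_nt
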