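import Pool.Agent.Lib.MP_973905_nt.K8.Stmts

/-! The first terms of the sum (module N3). The terms are explicit polynomials in `x`,
`y = α² / x` and `t`; each mean square is bounded by means of a Bernstein expansion. -/

namespace Pool.Agent.Lib.MP_973905_nt
namespace K8

namespace Prt

noncomputable section

def P2 (y τ : ℝ) : ℝ := -(y * (1 - τ) * τ + 1) / 2
def P3 (y τ : ℝ) : ℝ := -((2 - τ) * P2 y τ + τ) / 3
def P4 (y τ : ℝ) : ℝ := -(y * (3 - τ) * P3 y τ + P2 y τ) / 4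
def P5 (y τ : ℝ) : ℝ := -((4 - τ) * P4 y τ + P3 y τ) / 5
def P6 (y τ : ℝ) : ℝ := -(y * (5 - τ) * P5 y τ + P4 y τ) / 6
def P7 (y τ : ℝ) : ℝ := -((6 - τ) * P6 y τ + P5 y τ) / 7

theorem b2 {y t : ℝ} (ht : 0 ≤ t) (ht1 : t ≤ 1) :
    4 * ((1 - t) * P2 y (-t) ^ 2 + t * P2 y (1 - t) ^ 2) ≤
      1 - 2 * y * (t * (1 - t)) + 47 / 100 * y ^ 2 := by
  have h : t * (1 - t) * (t * (1 + 3 * t)) ≤ 47 / 100 := by
    nlinarith [sq_nonneg (t ^ 2 - t / 3 - 29 / 100), sq_nonneg (t - 73 / 100)]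
  have key : 4 * ((1 - t) * P2 y (-t) ^ 2 + t * P2 y (1 - t) ^ 2) =
      1 - 2 * y * (t * (1 - t)) + (t * (1 - t) * (t * (1 + 3 * t))) * y ^ 2 := by
    simp only [P2]
    ring
  rw [key]
  have := mul_le_mul_of_nonneg_right h (sq_nonneg y)
  linarith

/-- mean square of `P3` -/
theorem b3 {y t : ℝ} (hy : 0 ≤ y) (hy1 : y ≤ 5 / 22) (ht : 0 ≤ t) (ht1 : t ≤ 1) :
    36 * ((1 - t) * P3 y (-t) ^ 2 + t * P3 y (1 - t) ^ 2) ≤
      4 + 9 * (t * (1 - t)) - 8 * y * (t * (1 - t)) := by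
  obtain ⟨z, hz⟩ : ∃ z, z = 5 - 22 * y := ⟨_, rfl⟩
  obtain ⟨s, hs⟩ : ∃ s, s = 1 - t := ⟨_, rfl⟩
  have hz0 : 0 ≤ z := by rw [hz]; linarith
  have hs0 : 0 ≤ s := by rw [hs]; linarith
  obtain ⟨W, hW⟩ : ∃ W, W = y * (
      z * (26 * t ^ 2 * s ^ 4 + 96 * t ^ 3 * s ^ 3 + 114 * t ^ 4 * s ^ 2 + 44 * t ^ 5 * s) +
      y * (552 * t ^ 2 * s ^ 4 + 1987 * t ^ 3 * s ^ 3 + 2248 * t ^ 4 * s ^ 2 + 788 * t ^ 5 * s)) := ⟨_, rfl⟩
  have pos : 0 ≤ W := by rw [hW]; positivity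
  have key : 5 * (4 + 9 * (t * (1 - t)) - 8 * y * (t * (1 - t)) -
      36 * ((1 - t) * P3 y (-t) ^ 2 + t * P3 y (1 - t) ^ 2)) = W := by
    rw [hW, hz, hs]
    simp only [P3, P2]
    ring
  rw [← key] at pos
  linarith

/-- mean square of `P4` -/
theorem b4 {y t : ℝ} (hy : 0 ≤ y) (hy1 : y ≤ 5 / 22) (ht : 0 ≤ t) (ht1 : t ≤ 1) :
    576 * ((1 - t) * P4 y (-t) ^ 2 + t * P4 y (1 - t) ^ 2) ≤
      9 - 18 * y := by
  obtain ⟨z, hz⟩ : ∃ z, z = 5 - 22 * y := ⟨_, rfl⟩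
  obtain ⟨s, hs⟩ : ∃ s, s = 1 - t := ⟨_, rfl⟩
  have hz0 : 0 ≤ z := by rw [hz]; linarith
  have hs0 : 0 ≤ s := by rw [hs]; linarith
  obtain ⟨W, hW⟩ : ∃ W, W = y * (
      z ^ 3 * (18 * s ^ 8 + 180 * t * s ^ 7 + 720 * t ^ 2 * s ^ 6 + 1548 * t ^ 3 * s ^ 5 +
        1980 * t ^ 4 * s ^ 4 + 1548 * t ^ 5 * s ^ 3 + 720 * t ^ 6 * s ^ 2 + 180 * t ^ 7 * s +
        18 * t ^ 8) +
      y * z ^ 2 * (1008 * s ^ 8 + 9580 * t * s ^ 7 + 35910 * t ^ 2 * s ^ 6 +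
        71508 * t ^ 3 * s ^ 5 + 84260 * t ^ 4 * s ^ 4 + 61308 * t ^ 5 * s ^ 3 +
        27750 * t ^ 6 * s ^ 2 + 7540 * t ^ 7 * s + 1008 * t ^ 8) +
      y ^ 2 * z * (18216 * s ^ 8 + 161960 * t * s ^ 7 + 553100 * t ^ 2 * s ^ 6 +
        975556 * t ^ 3 * s ^ 5 + 998080 * t ^ 4 * s ^ 4 + 644756 * t ^ 5 * s ^ 3 +
        294460 * t ^ 6 * s ^ 2 + 99800 * t ^ 7 * s + 18216 * t ^ 8) +
      y ^ 3 * (104544 * s ^ 8 + 843040 * t * s ^ 7 + 2449820 * t ^ 2 * s ^ 6 +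
        3295964 * t ^ 3 * s ^ 5 + 2120835 * t ^ 4 * s ^ 4 + 754164 * t ^ 5 * s ^ 3 +
        505180 * t ^ 6 * s ^ 2 + 390880 * t ^ 7 * s + 104544 * t ^ 8)) := ⟨_, rfl⟩
  have pos : 0 ≤ W := by rw [hW]; positivity
  have key : 125 * (9 - 18 * y -
      576 * ((1 - t) * P4 y (-t) ^ 2 + t * P4 y (1 - t) ^ 2)) = W := by
    rw [hW, hz, hs]
    simp only [P4, P3, P2]
    ring
  rw [← key] at pos
  linarith

/-- mean square of `P5` -/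
theorem b5 {y t : ℝ} (hy : 0 ≤ y) (hy1 : y ≤ 5 / 22) (ht : 0 ≤ t) (ht1 : t ≤ 1) :
    576 * ((1 - t) * P5 y (-t) ^ 2 + t * P5 y (1 - t) ^ 2) ≤
      (16 + 9 * (t * (1 - t))) * (1 - 2 * y) := by
  obtain ⟨z, hz⟩ : ∃ z, z = 5 - 22 * y := ⟨_, rfl⟩
  obtain ⟨s, hs⟩ : ∃ s, s = 1 - t := ⟨_, rfl⟩
  have hz0 : 0 ≤ z := by rw [hz]; linarith
  have hs0 : 0 ≤ s := by rw [hs]; linarith
  obtain ⟨W, hW⟩ : ∃ W, W = y * (
      z ^ 3 * (32 * s ^ 10 + 730 * t * s ^ 9 + 5300 * t ^ 2 * s ^ 8 + 19560 * t ^ 3 * s ^ 7 +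
        42940 * t ^ 4 * s ^ 6 + 59764 * t ^ 5 * s ^ 5 + 53580 * t ^ 6 * s ^ 4 +
        30200 * t ^ 7 * s ^ 3 + 9860 * t ^ 8 * s ^ 2 + 1490 * t ^ 9 * s + 32 * t ^ 10) +
      y * z ^ 2 * (1536 * s ^ 10 + 38640 * t * s ^ 9 + 284220 * t ^ 2 * s ^ 8 +
        1040750 * t ^ 3 * s ^ 7 + 2243660 * t ^ 4 * s ^ 6 + 3044372 * t ^ 5 * s ^ 5 +
        2644540 * t ^ 6 * s ^ 4 + 1436270 * t ^ 7 * s ^ 3 + 449900 * t ^ 8 * s ^ 2 +
        65360 * t ^ 9 * s + 1536 * t ^ 10) +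
      y ^ 2 * z * (21120 * s ^ 10 + 645960 * t * s ^ 9 + 4885320 * t ^ 2 * s ^ 8 +
        17813340 * t ^ 3 * s ^ 7 + 37696900 * t ^ 4 * s ^ 6 + 49734040 * t ^ 5 * s ^ 5 +
        41675460 * t ^ 6 * s ^ 4 + 21678020 * t ^ 7 * s ^ 3 + 6462840 * t ^ 8 * s ^ 2 +
        891400 * t ^ 9 * s + 21120 * t ^ 10) +
      y ^ 3 * (61952 * s ^ 10 + 3282400 * t * s ^ 9 + 26334560 * t ^ 2 * s ^ 8 +
        96283660 * t ^ 3 * s ^ 7 + 199850780 * t ^ 4 * s ^ 6 + 254986879 * t ^ 5 * s ^ 5 +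
        204171900 * t ^ 6 * s ^ 4 + 100255660 * t ^ 7 * s ^ 3 + 27809760 * t ^ 8 * s ^ 2 +
        3482080 * t ^ 9 * s + 61952 * t ^ 10)) := ⟨_, rfl⟩
  have pos : 0 ≤ W := by rw [hW]; positivity
  have key : 625 * ((16 + 9 * (t * (1 - t))) * (1 - 2 * y) -
      576 * ((1 - t) * P5 y (-t) ^ 2 + t * P5 y (1 - t) ^ 2)) = W := by
    rw [hW, hz, hs]
    simp only [P5, P4, P3, P2]
    ring
  rw [← key] at pos
  linarith

/-- mean square of `P6` -/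
theorem b6 {y t : ℝ} (hy : 0 ≤ y) (hy1 : y ≤ 5 / 22) (ht : 0 ≤ t) (ht1 : t ≤ 1) :
    2304 * ((1 - t) * P6 y (-t) ^ 2 + t * P6 y (1 - t) ^ 2) ≤
      1 - y := by
  obtain ⟨z, hz⟩ : ∃ z, z = 5 - 22 * y := ⟨_, rfl⟩
  obtain ⟨s, hs⟩ : ∃ s, s = 1 - t := ⟨_, rfl⟩
  have hz0 : 0 ≤ z := by rw [hz]; linarith
  have hs0 : 0 ≤ s := by rw [hs]; linarith
  obtain ⟨W, hW⟩ : ∃ W, W = y * (
      z ^ 5 * (147 * s ^ 12 + 1818 * t * s ^ 11 + 10242 * t ^ 2 * s ^ 10 +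
        34770 * t ^ 3 * s ^ 9 + 79245 * t ^ 4 * s ^ 8 + 127764 * t ^ 5 * s ^ 7 +
        149436 * t ^ 6 * s ^ 6 + 127764 * t ^ 7 * s ^ 5 + 79245 * t ^ 8 * s ^ 4 +
        34770 * t ^ 9 * s ^ 3 + 10242 * t ^ 10 * s ^ 2 + 1818 * t ^ 11 * s + 147 * t ^ 12) +
      y * z ^ 4 * (12070 * s ^ 12 + 144000 * t * s ^ 11 + 782205 * t ^ 2 * s ^ 10 +
        2561980 * t ^ 3 * s ^ 9 + 5645430 * t ^ 4 * s ^ 8 + 8836200 * t ^ 5 * s ^ 7 +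
        10099950 * t ^ 6 * s ^ 6 + 8521200 * t ^ 7 * s ^ 5 + 5285430 * t ^ 8 * s ^ 4 +
        2359480 * t ^ 9 * s ^ 3 + 722205 * t ^ 10 * s ^ 2 + 136500 * t ^ 11 * s +
        12070 * t ^ 12) +
      y ^ 2 * z ^ 3 * (381880 * s ^ 12 + 4363840 * t * s ^ 11 + 22701080 * t ^ 2 * s ^ 10 +
        71358820 * t ^ 3 * s ^ 9 + 151708560 * t ^ 4 * s ^ 8 + 231214620 * t ^ 5 * s ^ 7 +
        260806800 * t ^ 6 * s ^ 6 + 220828860 * t ^ 7 * s ^ 5 + 139975920 * t ^ 8 * s ^ 4 +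
        64887460 * t ^ 9 * s ^ 3 + 20836840 * t ^ 10 * s ^ 2 + 4139360 * t ^ 11 * s +
        381880 * t ^ 12) +
      y ^ 3 * z ^ 2 * (5733360 * s ^ 12 + 61982400 * t * s ^ 11 + 305094720 * t ^ 2 * s ^ 10 +
        912298200 * t ^ 3 * s ^ 9 + 1868503065 * t ^ 4 * s ^ 8 + 2801163540 * t ^ 5 * s ^ 7 +
        3191532870 * t ^ 6 * s ^ 6 + 2800306380 * t ^ 7 * s ^ 5 + 1869920025 * t ^ 8 * s ^ 4 +
        915282240 * t ^ 9 * s ^ 3 + 306848880 * t ^ 10 * s ^ 2 + 62333520 * t ^ 11 * s +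
        5733360 * t ^ 12) +
      y ^ 4 * z * (39685360 * s ^ 12 + 395510880 * t * s ^ 11 + 1792921920 * t ^ 2 * s ^ 10 +
        5001045920 * t ^ 3 * s ^ 9 + 9883938000 * t ^ 4 * s ^ 8 + 15069319950 * t ^ 5 * s ^ 7 +
        18374767500 * t ^ 6 * s ^ 6 + 17685726030 * t ^ 7 * s ^ 5 +
        12849949920 * t ^ 8 * s ^ 4 + 6646368000 * t ^ 9 * s ^ 3 +
        2270631840 * t ^ 10 * s ^ 2 + 453609120 * t ^ 11 * s + 39685360 * t ^ 12) +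
      y ^ 5 * (94503904 * s ^ 12 + 804365056 * t * s ^ 11 + 3045022064 * t ^ 2 * s ^ 10 +
        7307502560 * t ^ 3 * s ^ 9 + 14260118680 * t ^ 4 * s ^ 8 +
        25734832448 * t ^ 5 * s ^ 7 + 39621596547 * t ^ 6 * s ^ 6 +
        45708591668 * t ^ 7 * s ^ 5 + 36675251560 * t ^ 8 * s ^ 4 +
        19536541680 * t ^ 9 * s ^ 3 + 6515279344 * t ^ 10 * s ^ 2 + 1214441216 * t ^ 11 * s +
        94503904 * t ^ 12)) := ⟨_, rfl⟩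
  have pos : 0 ≤ W := by rw [hW]; positivity
  have key : 28125 * (1 - y -
      2304 * ((1 - t) * P6 y (-t) ^ 2 + t * P6 y (1 - t) ^ 2)) = W := by
    rw [hW, hz, hs]
    simp only [P6, P5, P4, P3, P2]
    ring
  rw [← key] at pos
  linarith

/-- mean square of `P7` -/
theorem b7 {y t : ℝ} (hy : 0 ≤ y) (hy1 : y ≤ 5 / 22) (ht : 0 ≤ t) (ht1 : t ≤ 1) :
    2304 * ((1 - t) * P7 y (-t) ^ 2 + t * P7 y (1 - t) ^ 2) ≤
      (4 + t * (1 - t)) * (1 - 3 * y) := by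
  obtain ⟨z, hz⟩ : ∃ z, z = 5 - 22 * y := ⟨_, rfl⟩
  obtain ⟨s, hs⟩ : ∃ s, s = 1 - t := ⟨_, rfl⟩
  have hz0 : 0 ≤ z := by rw [hz]; linarith
  have hs0 : 0 ≤ s := by rw [hs]; linarith
  obtain ⟨W, hW⟩ : ∃ W, W = y * (
      z ^ 5 * (51156 * s ^ 14 + 800709 * t * s ^ 13 + 5735646 * t ^ 2 * s ^ 12 +
        24940314 * t ^ 3 * s ^ 11 + 73573206 * t ^ 4 * s ^ 10 + 155764287 * t ^ 5 * s ^ 9 +
        243982368 * t ^ 6 * s ^ 8 + 287008092 * t ^ 7 * s ^ 7 + 254460528 * t ^ 8 * s ^ 6 +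
        168861987 * t ^ 9 * s ^ 5 + 82305006 * t ^ 10 * s ^ 4 + 28433034 * t ^ 11 * s ^ 3 +
        6529446 * t ^ 12 * s ^ 2 + 880089 * t ^ 13 * s + 51156 * t ^ 14) +
      y * z ^ 4 * (4470984 * s ^ 14 + 68946626 * t * s ^ 13 + 486060204 * t ^ 2 * s ^ 12 +
        2078186481 * t ^ 3 * s ^ 11 + 6023795204 * t ^ 4 * s ^ 10 +
        12525669198 * t ^ 5 * s ^ 9 + 19269226872 * t ^ 6 * s ^ 8 +
        22275298038 * t ^ 7 * s ^ 7 + 19436524632 * t ^ 8 * s ^ 6 +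
        12730795938 * t ^ 9 * s ^ 5 + 6156106964 * t ^ 10 * s ^ 4 +
        2128625121 * t ^ 11 * s ^ 3 + 496797084 * t ^ 12 * s ^ 2 + 69931526 * t ^ 13 * s +
        4470984 * t ^ 14) +
      y ^ 2 * z ^ 3 * (152504352 * s ^ 14 + 2315778248 * t * s ^ 13 +
        16058551712 * t ^ 2 * s ^ 12 + 67479702808 * t ^ 3 * s ^ 11 +
        192138575972 * t ^ 4 * s ^ 10 + 392444104584 * t ^ 5 * s ^ 9 +
        593360132316 * t ^ 6 * s ^ 8 + 675110713704 * t ^ 7 * s ^ 7 +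
        581320780236 * t ^ 8 * s ^ 6 + 377388436824 * t ^ 9 * s ^ 5 +
        182095841732 * t ^ 10 * s ^ 4 + 63460783568 * t ^ 11 * s ^ 3 +
        15145142992 * t ^ 12 * s ^ 2 + 2224513928 * t ^ 13 * s + 152504352 * t ^ 14) +
      y ^ 3 * z ^ 2 * (2515680576 * s ^ 14 + 37580984784 * t * s ^ 13 +
        256076552256 * t ^ 2 * s ^ 12 + 1056583024224 * t ^ 3 * s ^ 11 +
        2953357486716 * t ^ 4 * s ^ 10 + 5924573980437 * t ^ 5 * s ^ 9 +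
        8810206579608 * t ^ 6 * s ^ 8 + 9884914680822 * t ^ 7 * s ^ 7 +
        8428776239688 * t ^ 8 * s ^ 6 + 5451722803317 * t ^ 9 * s ^ 5 +
        2642485639836 * t ^ 10 * s ^ 4 + 934666579224 * t ^ 11 * s ^ 3 +
        229074562416 * t ^ 12 * s ^ 2 + 34966368864 * t ^ 13 * s + 2515680576 * t ^ 14) +
      y ^ 4 * z * (19763777088 * s ^ 14 + 289903171472 * t * s ^ 13 +
        1936940135328 * t ^ 2 * s ^ 12 + 7830582233472 * t ^ 3 * s ^ 11 +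
        21448959701248 * t ^ 4 * s ^ 10 + 42217436102616 * t ^ 5 * s ^ 9 +
        61764455821854 * t ^ 6 * s ^ 8 + 68483144175696 * t ^ 7 * s ^ 7 +
        58080251241654 * t ^ 8 * s ^ 6 + 37675223537436 * t ^ 9 * s ^ 5 +
        18489886778928 * t ^ 10 * s ^ 4 + 6684815591232 * t ^ 11 * s ^ 3 +
        1687288176768 * t ^ 12 * s ^ 2 + 266204598032 * t ^ 13 * s + 19763777088 * t ^ 14) +
      y ^ 5 * (57364407936 * s ^ 14 + 822478626464 * t * s ^ 13 +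
        5359655932736 * t ^ 2 * s ^ 12 + 21110888338864 * t ^ 3 * s ^ 11 +
        56365481772736 * t ^ 4 * s ^ 10 + 108412728047672 * t ^ 5 * s ^ 9 +
        155780071509628 * t ^ 6 * s ^ 8 + 171001591497447 * t ^ 7 * s ^ 7 +
        145105750309228 * t ^ 8 * s ^ 6 + 95313149329772 * t ^ 9 * s ^ 5 +
        47896536461136 * t ^ 10 * s ^ 4 + 17866101539264 * t ^ 11 * s ^ 3 +
        4662014796736 * t ^ 12 * s ^ 2 + 757302210464 * t ^ 13 * s + 57364407936 * t ^ 14)) := ⟨_, rfl⟩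
  have pos : 0 ≤ W := by rw [hW]; positivity
  have key : 6890625 * ((4 + t * (1 - t)) * (1 - 3 * y) -
      2304 * ((1 - t) * P7 y (-t) ^ 2 + t * P7 y (1 - t) ^ 2)) = W := by
    rw [hW, hz, hs]
    simp only [P7, P6, P5, P4, P3, P2]
    ring
  rw [← key] at pos
  linarith

theorem d1 {x : ℝ} (hx : 0 ≤ x) (hx1 : x ≤ 1 / 3) :
    0 ≤ (3/5) * x ^ 0 + (-487/600) * x ^ 1 + (-57/40) * x ^ 2 + (-9119/2400) * x ^ 3 + (55/32) * x ^ 4 + (-3031/320) * x ^ 5 + (119/8) * x ^ 6 := by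
  obtain ⟨s, hs⟩ : ∃ s, s = 1 - 3 * x := ⟨_, rfl⟩
  have hs0 : 0 ≤ s := by rw [hs]; linarith
  obtain ⟨W, hW⟩ : ∃ W, W =
      2880 * s ^ 6 + 47944 * x * s ^ 5 + 323520 * x ^ 2 * s ^ 4 + 1104242 * x ^ 3 * s ^ 3 + 1922028 * x ^ 4 * s ^ 2 + 1394049 * x ^ 5 * s + 115581 * x ^ 6 :=
    ⟨_, rfl⟩
  have pos : 0 ≤ W := by rw [hW]; positivity
  have key : 4800 * ((3/5) * x ^ 0 + (-487/600) * x ^ 1 + (-57/40) * x ^ 2 + (-9119/2400) * x ^ 3 + (55/32) * x ^ 4 + (-3031/320) * x ^ 5 + (119/8) * x ^ 6) = W := by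
    rw [hW, hs]
    ring
  rw [← key] at pos
  linarith

lemma rec_ee (α x τ : ℝ) (j : ℕ) :
    ee α x τ (j + 2) = -(α * (((j + 1 : ℕ) : ℝ) - τ) * ee α x τ (j + 1) + x * ee α x τ j) /
      ((j + 2 : ℕ) : ℝ) := rfl

/-- the sum in terms of the polynomials -/
theorem sum_eq {α x y : ℝ} (h : α ^ 2 = x * y) (τ : ℝ) :
    ∑ j ∈ Finset.range 8, ee α x τ j ^ 2 * (j.factorial : ℝ) =
      1 + x * y * τ ^ 2 + 2 * x ^ 2 * P2 y τ ^ 2 + 6 * x ^ 3 * y * P3 y τ ^ 2 +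
        24 * x ^ 4 * P4 y τ ^ 2 + 120 * x ^ 5 * y * P5 y τ ^ 2 + 720 * x ^ 6 * P6 y τ ^ 2 +
        5040 * x ^ 7 * y * P7 y τ ^ 2 := by
  have e0 : ee α x τ 0 = 1 := rfl
  have e1 : ee α x τ 1 = α * τ := rfl
  have e2 : ee α x τ 2 = x * P2 y τ := by
    have := rec_ee α x τ 0
    simp only [zero_add] at this
    rw [this, e0, e1]
    push_cast
    unfold P2
    linear_combination (-(1 - τ) * τ / 2) * h
  have e3 : ee α x τ 3 = α * x * P3 y τ := by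
    have := rec_ee α x τ 1
    norm_num only [Nat.reduceAdd] at this
    rw [this, e1, e2]
    push_cast
    unfold P3
    ring
  have e4 : ee α x τ 4 = x ^ 2 * P4 y τ := by
    have := rec_ee α x τ 2
    norm_num only [Nat.reduceAdd] at this
    rw [this, e2, e3]
    push_cast
    unfold P4
    linear_combination (-(3 - τ) * x * P3 y τ / 4) * h
  have e5 : ee α x τ 5 = α * x ^ 2 * P5 y τ := by
    have := rec_ee α x τ 3
    norm_num only [Nat.reduceAdd] at this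
    rw [this, e3, e4]
    push_cast
    unfold P5
    ring
  have e6 : ee α x τ 6 = x ^ 3 * P6 y τ := by
    have := rec_ee α x τ 4
    norm_num only [Nat.reduceAdd] at this
    rw [this, e4, e5]
    push_cast
    unfold P6
    linear_combination (-(5 - τ) * x ^ 2 * P5 y τ / 6) * h
  have e7 : ee α x τ 7 = α * x ^ 3 * P7 y τ := by
    have := rec_ee α x τ 5
    norm_num only [Nat.reduceAdd] at this
    rw [this, e5, e6]
    push_cast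
    unfold P7
    ring
  simp only [Finset.sum_range_succ, Finset.sum_range_zero, e0, e1, e2, e3, e4, e5, e6, e7,
    Nat.factorial]
  push_cast
  linear_combination (τ ^ 2 + 6 * x ^ 2 * P3 y τ ^ 2 + 120 * x ^ 4 * P5 y τ ^ 2 +
    5040 * x ^ 6 * P7 y τ ^ 2) * h

/-- the final inequality at `q = 1/4` -/
theorem fin1 {x y : ℝ} (hx : 0 < x) (hx3 : x ≤ 1 / 3) (hy : 0 ≤ y)
    (hyx : y * (1 + 7 / 5 * x) ≤ x) :
    0 ≤ x * (1 / 4 - 3 * x ^ 2 / 8 - 5 * x ^ 4 / 16) -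
      y * (((1 - x) / 4 + 25 / 24 * x ^ 2 - 3 / 4 * x ^ 3 + 365 / 96 * x ^ 4 - 5 / 16 * x ^ 5 +
        595 / 64 * x ^ 6) +
        (47 / 200 * x - x ^ 2 / 3 - 365 / 48 * x ^ 4 - 1785 / 64 * x ^ 6) * y) := by
  obtain ⟨w, hw⟩ : ∃ w, w = 1 + 7 / 5 * x := ⟨_, rfl⟩
  obtain ⟨A, hA⟩ : ∃ A, A = (1 - x) / 4 + 25 / 24 * x ^ 2 - 3 / 4 * x ^ 3 + 365 / 96 * x ^ 4 -
    5 / 16 * x ^ 5 + 595 / 64 * x ^ 6 := ⟨_, rfl⟩
  obtain ⟨B, hB⟩ : ∃ B, B = 47 / 200 * x - x ^ 2 / 3 - 365 / 48 * x ^ 4 - 1785 / 64 * x ^ 6 :=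
    ⟨_, rfl⟩
  have hw1 : 1 ≤ w := by rw [hw]; linarith
  have hw0 : 0 < w := by linarith
  have p2 : x ^ 2 ≤ 1 / 9 := by nlinarith
  have p3 : x ^ 3 ≤ 1 / 27 := by
    have := pow_le_pow_left₀ hx.le hx3 3
    norm_num at this ⊢
    exact this
  have p4 : x ^ 4 ≤ 1 / 81 := by
    have := pow_le_pow_left₀ hx.le hx3 4
    norm_num at this ⊢
    exact this
  have p6 : x ^ 6 ≤ 1 / 729 := by
    have := pow_le_pow_left₀ hx.le hx3 6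
    norm_num at this ⊢
    exact this
  have A1 : 1 / 6 ≤ A := by
    have h1 : 0 ≤ x ^ 2 * (25 / 24 - 3 / 4 * x - 5 / 16 * x ^ 3) :=
      mul_nonneg (sq_nonneg x) (by linarith)
    have h2 : 0 ≤ 365 / 96 * x ^ 4 + 595 / 64 * x ^ 6 := by positivity
    rw [hA]
    nlinarith
  have B1 : -(1 / 5) ≤ B := by
    rw [hB]
    linarith
  have hZ : 0 ≤ w * y := by positivity
  have hZx : w * y ≤ x := by rw [hw]; linarith
  have h1 : 0 ≤ w * A + B * (x + w * y) := by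
    have e1 : 1 / 6 ≤ w * A := by nlinarith
    have e2 : -(1 / 5) * (x + w * y) ≤ B * (x + w * y) :=
      mul_le_mul_of_nonneg_right B1 (by linarith)
    linarith
  have h2 := mul_nonneg (sub_nonneg.mpr hZx) h1
  have h3 := d1 hx.le hx3
  have h4 := mul_nonneg hx.le (mul_nonneg hx.le h3)
  have key : w ^ 2 * (x * (1 / 4 - 3 * x ^ 2 / 8 - 5 * x ^ 4 / 16) - y * (A + B * y)) =
      x * (w ^ 2 * (1 / 4 - 3 * x ^ 2 / 8 - 5 * x ^ 4 / 16) - w * A - B * x) +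
        (x - w * y) * (w * A + B * (x + w * y)) := by ring
  have h5 : x * (w ^ 2 * (1 / 4 - 3 * x ^ 2 / 8 - 5 * x ^ 4 / 16) - w * A - B * x) =
      x * (x * ((3/5) * x ^ 0 + (-487/600) * x ^ 1 + (-57/40) * x ^ 2 + (-9119/2400) * x ^ 3 + (55/32) * x ^ 4 + (-3031/320) * x ^ 5 + (119/8) * x ^ 6)) := by
    rw [hw, hA, hB]
    ring
  rw [← hA, ← hB]
  have h6 : 0 ≤ w ^ 2 * (x * (1 / 4 - 3 * x ^ 2 / 8 - 5 * x ^ 4 / 16) - y * (A + B * y)) := by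
    rw [key, h5]
    exact add_nonneg h4 h2
  exact nonneg_of_mul_nonneg_right h6 (by positivity)

/-- the final inequality -/
theorem fin2 {x y q : ℝ} (hx : 0 < x) (hx3 : x ≤ 1 / 3) (hy : 0 ≤ y) (hy1 : y ≤ 5 / 22)
    (hyx : y * (1 + 7 / 5 * x) ≤ x) (hq : q ≤ 1 / 4) :
    x * y * q + x ^ 2 / 2 * (1 - 2 * y * q + 47 / 100 * y ^ 2) +
      x ^ 3 * y / 6 * (4 + 9 * q - 8 * y * q) + x ^ 4 / 24 * (9 - 18 * y) +
      5 / 24 * (x ^ 5 * y) * ((16 + 9 * q) * (1 - 2 * y)) + 5 / 16 * x ^ 6 * (1 - y) +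
      35 / 16 * (x ^ 7 * y) * ((4 + q) * (1 - 3 * y)) ≤ 3 / 4 * x ^ 2 := by
  have h1 := mul_nonneg hx.le (fin1 hx hx3 hy hyx)
  have h2 : 0 ≤ (1 / 4 - q) * (x * y * ((1 - x) + (9 - 8 * y) * x ^ 2 / 6 +
      15 / 8 * x ^ 4 * (1 - 2 * y) + 35 / 16 * x ^ 6 * (1 - 3 * y))) := by
    have c1 : 0 ≤ 1 / 4 - q := by linarith
    have c2 : 0 ≤ 1 - x := by linarith
    have c3 : 0 ≤ 9 - 8 * y := by linarith
    have c4 : 0 ≤ 1 - 2 * y := by linarith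
    have c5 : 0 ≤ 1 - 3 * y := by linarith
    have hx0 := hx.le
    positivity
  linarith

end

end Prt

open Prt in
/-- Module N3: the first terms of the sum. -/
theorem stPart : StPart := by
  intro α x t hx hx3 ht ht1 hα h
  obtain ⟨y, hy⟩ : ∃ y, y = α ^ 2 / x := ⟨_, rfl⟩
  have hxy : α ^ 2 = x * y := by rw [hy]; field_simp
  have hy0 : 0 ≤ y := by rw [hy]; positivity
  have hyx : y * (1 + 7 / 5 * x) ≤ x := by
    rw [hxy] at h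
    have h1 : x * (y * (1 + 7 / 5 * x)) ≤ x * x := by linarith
    exact le_of_mul_le_mul_left h1 hx
  have hy1 : y ≤ 5 / 22 := by
    have h1 : y * (1 + 7 / 5 * x) ≤ 5 / 22 * (1 + 7 / 5 * x) := by linarith
    exact le_of_mul_le_mul_right h1 (by positivity)
  have hq : t * (1 - t) ≤ 1 / 4 := by nlinarith [sq_nonneg (t - 1 / 2)]
  rw [sum_eq hxy, sum_eq hxy]
  have hx0 := hx.le
  have c2 := mul_le_mul_of_nonneg_left (b2 (y := y) ht ht1) (show 0 ≤ x ^ 2 / 2 by positivity)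
  have c3 := mul_le_mul_of_nonneg_left (b3 hy0 hy1 ht ht1)
    (show 0 ≤ x ^ 3 * y / 6 by positivity)
  have c4 := mul_le_mul_of_nonneg_left (b4 hy0 hy1 ht ht1) (show 0 ≤ x ^ 4 / 24 by positivity)
  have c5 := mul_le_mul_of_nonneg_left (b5 hy0 hy1 ht ht1)
    (show 0 ≤ 5 / 24 * (x ^ 5 * y) by positivity)
  have c6 := mul_le_mul_of_nonneg_left (b6 hy0 hy1 ht ht1) (show 0 ≤ 5 / 16 * x ^ 6 by positivity)
  have c7 := mul_le_mul_of_nonneg_left (b7 hy0 hy1 ht ht1)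
    (show 0 ≤ 35 / 16 * (x ^ 7 * y) by positivity)
  have f := fin2 hx hx3 hy0 hy1 hyx hq
  linarith

end K8
end Pool.Agent.Lib.MP_973905_nt
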